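import Mathlib

/-!
# A sequentially pseudocompact group which is not selectively sequentially pseudocompact

In ZFC there is a subgroup `G` of the Cantor cube `2 ^ 𝔠` which projects onto every countable
subproduct and has no nontrivial convergent sequences. By a diagonal argument every subgroup with
the first property is sequentially pseudocompact.
-/

open Set Filter Topology Cardinal

namespace Pool.Agent.Run7.h754.SPC

/-- The space `X` is sequentially pseudocompact (sequentially feebly compact): for each sequence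
`U n` of nonempty open subsets there are an infinite set `J` of indices and a point `x` such that
each open neighbourhood `W` of `x` is disjoint from `U n` for only finitely many `n ∈ J`. -/
def SeqPseudocompact (X : Type*) [TopologicalSpace X] : Prop :=
  ∀ U : ℕ → Set X, (∀ n, IsOpen (U n) ∧ (U n).Nonempty) →
    ∃ J : Set ℕ, J.Infinite ∧ ∃ x : X, ∀ W : Set X, IsOpen W → x ∈ W →
      {n | n ∈ J ∧ W ∩ U n = ∅}.Finite

/-- The space `X` is selectively sequentially pseudocompact: for each sequence `U n` of nonempty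
open subsets one can choose `x n ∈ U n` such that the sequence `x` has a convergent
subsequence. -/
def SelSeqPseudocompact (X : Type*) [TopologicalSpace X] : Prop :=
  ∀ U : ℕ → Set X, (∀ n, IsOpen (U n) ∧ (U n).Nonempty) →
    ∃ x : ℕ → X, (∀ n, x n ∈ U n) ∧ ∃ (a : X) (φ : ℕ → ℕ), StrictMono φ ∧
      Tendsto (fun n => x (φ n)) atTop (𝓝 a)

/-- The set of indices, a well order of type `𝔠`. -/
abbrev T : Type := (continuum.{0}).ord.ToType

theorem mk_T : #T = 𝔠 := mk_ord_toType _

instance : Infinite T := by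
  rw [infinite_iff, mk_T]
  exact aleph0_le_continuum

theorem bdd {s : Set T} (hs : s.Countable) : ∃ b, ∀ a ∈ s, a < b := by
  by_contra hc
  push Not at hc
  have h1 : IsCofinal s := fun b => by
    obtain ⟨a, ha, hab⟩ := hc b
    exact ⟨a, ha, hab⟩
  have h2 := Order.cof_le h1
  rw [Ordinal.cof_toType] at h2
  have h3 : ℵ₀ < (continuum.{0}).ord.cof := by
    have := lt_cof_ord_power (a := ℵ₀) (b := 2) le_rfl (by exact_mod_cast Nat.one_lt_two)
    rwa [two_power_aleph0] at this
  exact absurd (h2.trans hs.le_aleph0) (not_le.2 h3)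

theorem mk_Iio_lt_T (b : T) : #(Iio b) < 𝔠 := by
  have := Cardinal.mk_Iio_lt (α := T) b (by simp)
  rwa [mk_T] at this

theorem enum {P : Type} (hP : #P = 𝔠) : ∃ f : T → P, ∀ p b, ∃ i, b < i ∧ f i = p := by
  have h1 : #T = #(T × P) := by
    rw [mk_prod, lift_id, lift_id, hP, mk_T, continuum_mul_self]
  obtain ⟨e⟩ := Cardinal.eq.1 h1
  refine ⟨fun i => (e i).2, fun p b => ?_⟩
  by_contra hc
  push Not at hc
  obtain ⟨b', hb'⟩ := bdd (countable_singleton b)
  have h2 : ∀ t : T, e.symm (t, p) ∈ Iio b' := by
    intro t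
    by_contra h
    have h3 : b' ≤ e.symm (t, p) := not_lt.1 h
    exact hc _ ((hb' b rfl).trans_le h3) (by simp)
  have h3 : Function.Injective (fun t : T => (⟨e.symm (t, p), h2 t⟩ : Iio b')) := by
    intro s t hst
    have h4 := congrArg Subtype.val hst
    have h5 := e.symm.injective h4
    exact congrArg Prod.fst h5
  have h4 := mk_le_of_injective h3
  rw [mk_T] at h4
  exact absurd h4 (not_le.2 (mk_Iio_lt_T b'))

theorem mk_P1 : #((ℕ → T) × (ℕ → ZMod 2)) = 𝔠 := by
  have h1 : #(ℕ → T) = 𝔠 := by
    rw [← power_def, mk_T, mk_nat, continuum_power_aleph0]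
  have h2 : #(ℕ → ZMod 2) = 𝔠 := by
    rw [← power_def, mk_nat]
    have : #(ZMod 2) = 2 := by
      rw [mk_fintype, ZMod.card]
      rfl
    rw [this, two_power_aleph0]
  rw [mk_prod, lift_id, lift_id, h1, h2, continuum_mul_self]

/-- The Boolean group. -/
abbrev V : Type := T →₀ ZMod 2

theorem mk_P2 : #(ℕ → V) = 𝔠 := by
  have h1 : #V = 𝔠 := by
    rw [mk_finsupp_of_infinite, mk_T, mk_fintype, ZMod.card]
    apply max_eq_left
    exact (nat_lt_continuum 2).le
  rw [← power_def, h1, mk_nat, continuum_power_aleph0]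

/-- A functional which is `1` infinitely often on a given injective sequence. -/
theorem exists_functional (u : ℕ → V) :
    ∃ L : T → ZMod 2, Function.Injective u →
      {n | (u n).sum (fun i c => c * L i) = 1}.Infinite := by
  by_cases hu : Function.Injective u
  · obtain ⟨b, hb, hbs, hli⟩ := exists_linearIndependent (ZMod 2) (range u)
    have hbi : b.Infinite := by
      intro hfin
      have h1 : (Submodule.span (ZMod 2) b : Set V).Finite := by
        have : Module.Finite (ZMod 2) (Submodule.span (ZMod 2) b) :=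
          Module.Finite.span_of_finite (ZMod 2) hfin
        have h2 : Finite (Submodule.span (ZMod 2) b) :=
          Module.finite_of_finite (ZMod 2)
        exact Set.toFinite _
      have h3 : range u ⊆ (Submodule.span (ZMod 2) b : Set V) := by
        rw [hbs]
        exact Submodule.subset_span
      exact (infinite_range_of_injective hu) (h1.subset h3)
    obtain ⟨φ, hφ⟩ : ∃ φ : V →ₗ[ZMod 2] ZMod 2, ∀ v ∈ b, φ v = 1 := by
      have hli' : LinearIndepOn (ZMod 2) id b := hli
      let B := Module.Basis.extend hli'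
      refine ⟨B.constr (ZMod 2) (fun _ => (1 : ZMod 2)), fun v hv => ?_⟩
      have h1 : v ∈ hli'.extend (subset_univ _) := hli'.subset_extend _ hv
      have h2 : B ⟨v, h1⟩ = v := Module.Basis.extend_apply_self _ _
      have h3 := B.constr_basis (ZMod 2) (fun _ => (1 : ZMod 2)) ⟨v, h1⟩
      rw [h2] at h3
      exact h3
    refine ⟨fun i => φ (Finsupp.single i 1), fun _ => ?_⟩
    have key : ∀ v : V, v.sum (fun i c => c * φ (Finsupp.single i 1)) = φ v := by
      intro v
      conv_rhs => rw [← Finsupp.sum_single v, Finsupp.sum, map_sum]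
      apply Finset.sum_congr rfl
      intro i _
      have : Finsupp.single i (v i) = v i • Finsupp.single i (1 : ZMod 2) := by
        rw [Finsupp.smul_single, smul_eq_mul, mul_one]
      rw [this, map_smul, smul_eq_mul]
    have h1 : (u ⁻¹' b).Infinite := hbi.preimage hb
    refine h1.mono (fun n hn => ?_)
    change (u n).sum _ = 1
    rw [key, hφ _ hn]
  · exact ⟨0, fun h => absurd h hu⟩

/-- The data of the construction. -/
theorem exists_val : ∃ val : T → T → ZMod 2,
    (∀ (c : ℕ → T) (s : T → ZMod 2), ∃ i, ∀ n, val (c n) i = s (c n)) ∧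
    (∀ u : ℕ → V, Function.Injective u →
      ∃ a, {n | (u n).sum (fun i c => c * val a i) = 1}.Infinite) := by
  classical
  obtain ⟨f, hf⟩ := enum mk_P1
  obtain ⟨g, hg⟩ := enum mk_P2
  choose L hL using fun a => exists_functional (g a)
  refine ⟨fun a i => if i ≤ a then L a i else
    if h : ∃ n, (f i).1 n = a then (f i).2 (Nat.find h) else 0, ?_, ?_⟩
  · intro c s
    obtain ⟨b, hb⟩ := bdd (countable_range c)
    obtain ⟨i, hi, hfi⟩ := hf (c, fun n => s (c n)) b
    refine ⟨i, fun n => ?_⟩
    have h1 : ¬ i ≤ c n := not_le.2 ((hb _ (mem_range_self n)).trans hi)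
    simp only [h1, if_false]
    have h2 : ∃ m, (f i).1 m = c n := ⟨n, by rw [hfi]⟩
    rw [dif_pos h2]
    have h3 := Nat.find_spec h2
    have h4 : (f i).2 = fun n => s (c n) := by rw [hfi]
    have h5 : (f i).1 = c := by rw [hfi]
    rw [congrFun h4 _, ← congrFun h5 (Nat.find h2), h3]
  · intro u hu
    have h1 : (⋃ n, ((u n).support : Set T)).Countable :=
      countable_iUnion fun n => (u n).support.finite_toSet.countable
    obtain ⟨b, hb⟩ := bdd h1
    obtain ⟨a, ha, hga⟩ := hg u b
    refine ⟨a, ?_⟩
    have h2 := hL a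
    rw [hga] at h2
    refine (h2 hu).mono (fun n hn => ?_)
    change (u n).sum _ = 1
    change (u n).sum _ = 1 at hn
    rw [← hn]
    apply Finset.sum_congr rfl
    intro i hi
    have h3 : i ≤ a := ((hb i (mem_iUnion.2 ⟨n, hi⟩)).trans ha).le
    simp only [h3, if_true]

/-- The coordinates. -/
noncomputable def val : T → T → ZMod 2 := exists_val.choose

theorem val_spec1 (c : ℕ → T) (s : T → ZMod 2) : ∃ i, ∀ n, val (c n) i = s (c n) :=
  exists_val.choose_spec.1 c s

theorem val_spec2 {u : ℕ → V} (hu : Function.Injective u) :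
    ∃ a, {n | (u n).sum (fun i c => c * val a i) = 1}.Infinite :=
  exists_val.choose_spec.2 u hu

/-- The embedding into the Cantor cube. -/
noncomputable def Φ : V →+ (T → ZMod 2) where
  toFun v a := v.sum (fun i c => c * val a i)
  map_zero' := by
    ext a
    simp
  map_add' v w := by
    ext a
    change (v + w).sum (fun i c => c * val a i) =
      v.sum (fun i c => c * val a i) + w.sum (fun i c => c * val a i)
    rw [Finsupp.sum_add_index']
    · intro i
      simp
    · intro i c c'
      ring

/-- The group. -/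
abbrev G : Type := Φ.range

theorem exists_mem {C : Set T} (hC : C.Countable) (s : T → ZMod 2) :
    ∃ g : G, ∀ a ∈ C, (g : T → ZMod 2) a = s a := by
  rcases C.eq_empty_or_nonempty with rfl | hne
  · exact ⟨0, fun a ha => absurd ha (notMem_empty a)⟩
  · obtain ⟨c, rfl⟩ := hC.exists_eq_range hne
    obtain ⟨i, hi⟩ := val_spec1 c s
    refine ⟨⟨Φ (Finsupp.single i 1), ⟨_, rfl⟩⟩, ?_⟩
    rintro _ ⟨n, rfl⟩
    change (Finsupp.single i (1 : ZMod 2)).sum (fun i' c' => c' * val (c n) i') = s (c n)
    rw [Finsupp.sum_single_index (by simp), one_mul, hi]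

/-- The group has no nontrivial convergent sequences. -/
theorem no_conv {x : ℕ → G} (hx : Function.Injective x) (a : G) :
    ¬ Tendsto x atTop (𝓝 a) := by
  intro h
  choose v hv using fun n => (x n).2
  obtain ⟨w, hw⟩ := a.2
  have hinj : Function.Injective (fun n => v n - w) := by
    intro m n hmn
    have h1 : v m = v n := sub_left_injective hmn
    apply hx
    apply Subtype.ext
    rw [← hv m, ← hv n, h1]
  obtain ⟨b, hb⟩ := val_spec2 hinj
  have h1 : Tendsto (fun n => ((x n : G) : T → ZMod 2) b) atTop (𝓝 ((a : T → ZMod 2) b)) :=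
    ((continuous_apply b).comp continuous_subtype_val).continuousAt.tendsto.comp h
  rw [nhds_discrete, tendsto_pure] at h1
  obtain ⟨N, hN⟩ := eventually_atTop.1 h1
  obtain ⟨n, hn, hnN⟩ := hb.exists_gt N
  have h2 := hN n hnN.le
  have h3 : (v n - w).sum (fun i c => c * val b i) = Φ (v n) b - Φ w b := by
    rw [← Pi.sub_apply, ← map_sub]
    rfl
  have hn' : (v n - w).sum (fun i c => c * val b i) = 1 := hn
  rw [h3, hv n, hw, h2, sub_self] at hn'
  exact zero_ne_one hn'

theorem seqPseudocompact : SeqPseudocompact G := by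
  classical
  intro U hU
  have h1 : ∀ n, ∃ (u : G) (F : Finset T), ∀ z : G,
      (∀ a ∈ F, (z : T → ZMod 2) a = (u : T → ZMod 2) a) → z ∈ U n := by
    intro n
    obtain ⟨hUo, u, hu⟩ := hU n
    obtain ⟨O, hO, hOU⟩ := isOpen_induced_iff.1 hUo
    have huO : (u : T → ZMod 2) ∈ O := by
      rw [← hOU] at hu
      exact hu
    obtain ⟨F, s, hs, hsO⟩ := isOpen_pi_iff.1 hO _ huO
    refine ⟨u, F, fun z hz => ?_⟩
    rw [← hOU]
    apply hsO
    intro a ha
    rw [hz a ha]
    exact (hs a ha).2
  choose u F hF using h1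
  let C : Set T := ⋃ n, (F n : Set T)
  have hC : C.Countable := countable_iUnion fun n => (F n).finite_toSet.countable
  have : Countable C := hC.to_subtype
  letI : TopologicalSpace (Option (ZMod 2)) := ⊥
  haveI : DiscreteTopology (Option (ZMod 2)) := ⟨rfl⟩
  let t : ℕ → (C → Option (ZMod 2)) := fun n a =>
    if (a : T) ∈ F n then some ((u n : T → ZMod 2) a) else none
  obtain ⟨l, φ, hφ, hl⟩ := CompactSpace.tendsto_subseq t
  have hl' : ∀ a : C, ∀ᶠ k in atTop, t (φ k) a = l a := by
    intro a
    have h2 := (tendsto_pi_nhds.1 hl) a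
    rw [nhds_discrete, tendsto_pure] at h2
    exact h2
  obtain ⟨x, hx⟩ := exists_mem hC (fun a => if h : a ∈ C then (l ⟨a, h⟩).getD 0 else 0)
  refine ⟨range φ, infinite_range_of_injective hφ.injective, x, fun W hW hxW => ?_⟩
  obtain ⟨O, hO, hOW⟩ := isOpen_induced_iff.1 hW
  have hxO : (x : T → ZMod 2) ∈ O := by
    rw [← hOW] at hxW
    exact hxW
  obtain ⟨E, s, hs, hsO⟩ := isOpen_pi_iff.1 hO _ hxO
  have h3 : ∀ᶠ k in atTop, ∀ a ∈ E, ∀ h : a ∈ C, t (φ k) ⟨a, h⟩ = l ⟨a, h⟩ := by
    rw [eventually_all_finset]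
    intro a _
    by_cases h : a ∈ C
    · filter_upwards [hl' ⟨a, h⟩] with k hk _
      exact hk
    · exact Eventually.of_forall fun k h' => absurd h' h
  obtain ⟨k0, hk0⟩ := eventually_atTop.1 h3
  refine ((finite_Iio k0).image φ).subset ?_
  rintro _ ⟨⟨k, rfl⟩, hk⟩
  by_contra hc
  have hkk : k0 ≤ k := by
    by_contra h
    exact hc ⟨k, not_le.1 h, rfl⟩
  obtain ⟨z, hz⟩ := exists_mem ((E ∪ F (φ k)).finite_toSet.countable)
    (fun a => if a ∈ F (φ k) then (u (φ k) : T → ZMod 2) a else (x : T → ZMod 2) a)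
  have hzU : z ∈ U (φ k) := by
    apply hF
    intro a ha
    rw [hz a (by simp [ha]), if_pos ha]
  have hzW : z ∈ W := by
    rw [← hOW]
    apply hsO
    intro a ha
    have h4 : (z : T → ZMod 2) a = (x : T → ZMod 2) a := by
      rw [hz a (by simp [Finset.mem_coe.1 ha])]
      by_cases h5 : a ∈ F (φ k)
      · rw [if_pos h5]
        have h6 : a ∈ C := mem_iUnion.2 ⟨φ k, h5⟩
        have h7 := hk0 k hkk a ha h6
        have h8 : t (φ k) ⟨a, h6⟩ = some ((u (φ k) : T → ZMod 2) a) := if_pos h5
        rw [hx a h6, dif_pos h6, ← h7, h8]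
        rfl
      · rw [if_neg h5]
    rw [h4]
    exact (hs a ha).2
  have : z ∈ W ∩ U (φ k) := ⟨hzW, hzU⟩
  rw [hk] at this
  exact this

theorem not_selSeqPseudocompact : ¬ SelSeqPseudocompact G := by
  intro h
  let c := Infinite.natEmbedding T
  let U : ℕ → Set G := fun n => {z | (z : T → ZMod 2) (c n) = 1 ∧
    ∀ m < n, (z : T → ZMod 2) (c m) = 0}
  have hU : ∀ n, IsOpen (U n) ∧ (U n).Nonempty := by
    classical
    intro n
    have hcont : ∀ m, Continuous (fun z : G => (z : T → ZMod 2) (c m)) := fun m =>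
      (continuous_apply (c m)).comp continuous_subtype_val
    constructor
    · have h1 : U n = (fun z : G => (z : T → ZMod 2) (c n)) ⁻¹' {1} ∩
          ⋂ m ∈ Finset.range n, (fun z : G => (z : T → ZMod 2) (c m)) ⁻¹' {0} := by
        ext z
        simp [U]
      rw [h1]
      exact ((isOpen_discrete _).preimage (hcont n)).inter
        (isOpen_biInter_finset fun m _ => (isOpen_discrete _).preimage (hcont m))
    · obtain ⟨z, hz⟩ := exists_mem (countable_range c) (fun a => if a = c n then 1 else 0)
      refine ⟨z, ?_, fun m hm => ?_⟩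
      · rw [hz _ (mem_range_self n), if_pos rfl]
      · rw [hz _ (mem_range_self m), if_neg]
        intro hc
        have := c.injective hc
        omega
  obtain ⟨x, hx, a, φ, hφ, ht⟩ := h U hU
  refine no_conv (x := fun n => x (φ n)) ?_ a ht
  have key : ∀ m n, m < n → x m ≠ x n := by
    intro m n hmn heq
    have h1 := (hx m).1
    rw [heq, (hx n).2 m hmn] at h1
    exact zero_ne_one h1
  have hxi : Function.Injective x := by
    intro m n hmn
    rcases lt_trichotomy m n with h1 | h1 | h1
    · exact absurd hmn (key m n h1)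
    · exact h1
    · exact absurd hmn.symm (key n m h1)
  exact hxi.comp hφ.injective

end Pool.Agent.Run7.h754.SPC
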