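import Mathlib

/-!
# Groups of diffeomorphisms and the compact-open topology: definitions
-/

open Set Filter Topology
open scoped ContDiff Manifold

namespace Pool.Agent.Run7.h754

/-- The compact-open topology on a group `G` of homeomorphisms of `X`: the topology induced by the
inclusion of `G` into the space `C(X, X)` of continuous maps with the compact-open topology. -/
@[reducible] def coTop {X : Type*} [TopologicalSpace X] (G : Subgroup (X ≃ₜ X)) :
    TopologicalSpace G :=
  TopologicalSpace.induced
    (fun g : G => (⟨(g : X ≃ₜ X), (g : X ≃ₜ X).continuous⟩ : C(X, X))) inferInstance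

/-- The homeomorphism `g` is the identity outside a compact subset of `O`. -/
def SuppIn {X : Type*} [TopologicalSpace X] (g : X ≃ₜ X) (O : Set X) : Prop :=
  ∃ K ⊆ O, IsCompact K ∧ ∀ z, z ∉ K → g z = z

/-- The group of all smooth diffeomorphisms of the manifold `M` modelled on `E`, as a group of
homeomorphisms of `M`. -/
def Dif (E : Type*) [NormedAddCommGroup E] [NormedSpace ℝ E]
    (M : Type*) [TopologicalSpace M] [ChartedSpace E M] : Subgroup (M ≃ₜ M) where
  carrier := {f | ContMDiff 𝓘(ℝ, E) 𝓘(ℝ, E) ∞ f ∧ ContMDiff 𝓘(ℝ, E) 𝓘(ℝ, E) ∞ f.symm}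
  one_mem' := ⟨contMDiff_id, contMDiff_id⟩
  mul_mem' := fun hf hg => ⟨hf.1.comp hg.1, hg.2.comp hf.2⟩
  inv_mem' := fun hf => ⟨hf.2, hf.1⟩

/-- The group `G` of homeomorphisms of the manifold `M` contains all diffeomorphisms of `M` which
are the identity outside a compact subset of the domain of a chart of the smooth structure. -/
def ContainsLocal (E : Type*) [NormedAddCommGroup E] [NormedSpace ℝ E]
    {M : Type*} [TopologicalSpace M] [ChartedSpace E M] (G : Subgroup (M ≃ₜ M)) : Prop :=
  ∀ f ∈ Dif E M, ∀ φ ∈ IsManifold.maximalAtlas 𝓘(ℝ, E) ∞ M, SuppIn f φ.source → f ∈ G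

end Pool.Agent.Run7.h754
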