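import Mathlib
import Pool.Agent.Run7.h754.Defs

/-!
# Hausdorff group topologies coarser than the compact-open topology: the dichotomy

`X` is a locally compact, locally connected Hausdorff space and `G` is a group of homeomorphisms
of `X` which is locally transitive by small homeomorphisms of small support.
-/

open Set Filter Topology

namespace Pool.Agent.Run7.h754

variable {X : Type*} [TopologicalSpace X]

/-- Local transitivity by small homeomorphisms of small support. -/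
def LocTrans (G : Subgroup (X ≃ₜ X)) : Prop :=
  ∀ x : X, ∀ U ∈ 𝓝 x, ∀ V ∈ @nhds G (coTop G) 1,
    {y | ∃ g ∈ V, SuppIn (g : X ≃ₜ X) U ∧ (g : X ≃ₜ X) x = y} ∈ 𝓝 x

theorem SuppIn.mono {g : X ≃ₜ X} {O O' : Set X} (h : SuppIn g O) (hO : O ⊆ O') : SuppIn g O' := by
  obtain ⟨K, hK, h1, h2⟩ := h
  exact ⟨K, hK.trans hO, h1, h2⟩

theorem SuppIn.fix {g : X ≃ₜ X} {O : Set X} (h : SuppIn g O) {x : X} (hx : x ∉ O) : g x = x := by
  obtain ⟨K, hK, _, h2⟩ := h
  exact h2 x (fun h => hx (hK h))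

theorem SuppIn.mem {g : X ≃ₜ X} {O : Set X} (h : SuppIn g O) {x : X} (hx : x ∈ O) : g x ∈ O := by
  by_contra hc
  have h1 : g (g x) = g x := h.fix hc
  have h2 : g x = x := g.injective h1
  rw [h2] at hc
  exact hc hx

theorem SuppIn.one (O : Set X) : SuppIn (1 : X ≃ₜ X) O :=
  ⟨∅, empty_subset _, isCompact_empty, fun _ _ => rfl⟩

theorem SuppIn.mul {g h : X ≃ₜ X} {O : Set X} (hg : SuppIn g O) (hh : SuppIn h O) :
    SuppIn (g * h) O := by
  obtain ⟨K, hK, h1, h2⟩ := hg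
  obtain ⟨K', hK', h1', h2'⟩ := hh
  refine ⟨K ∪ K', union_subset hK hK', h1.union h1', fun z hz => ?_⟩
  simp only [mem_union, not_or] at hz
  change g (h z) = z
  rw [h2' z hz.2, h2 z hz.1]

theorem SuppIn.inv {g : X ≃ₜ X} {O : Set X} (hg : SuppIn g O) : SuppIn g⁻¹ O := by
  obtain ⟨K, hK, h1, h2⟩ := hg
  refine ⟨K, hK, h1, fun z hz => ?_⟩
  change g.symm z = z
  rw [Homeomorph.symm_apply_eq]
  exact (h2 z hz).symm

theorem SuppIn.conj {g f : X ≃ₜ X} {O : Set X} (hg : SuppIn g O) :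
    SuppIn (f * g * f⁻¹) (f '' O) := by
  obtain ⟨K, hK, h1, h2⟩ := hg
  refine ⟨f '' K, image_mono hK, h1.image f.continuous, fun z hz => ?_⟩
  change f (g (f.symm z)) = z
  have : f.symm z ∉ K := by
    intro hc
    exact hz ⟨_, hc, f.apply_symm_apply z⟩
  rw [h2 _ this, f.apply_symm_apply]

/-- Homeomorphisms with disjoint supports commute. -/
theorem SuppIn.commute {g h : X ≃ₜ X} {O O' : Set X} (hg : SuppIn g O) (hh : SuppIn h O')
    (hd : Disjoint O O') : g * h = h * g := by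
  ext p
  change g (h p) = h (g p)
  by_cases hp : p ∈ O'
  · have h1 : h p ∈ O' := hh.mem hp
    rw [hg.fix (fun hc => disjoint_left.1 hd hc h1), hg.fix (fun hc => disjoint_left.1 hd hc hp)]
  · rw [hh.fix hp]
    by_cases hp' : p ∈ O
    · have h1 : g p ∈ O := hg.mem hp'
      rw [hh.fix (fun hc => disjoint_left.1 hd h1 hc)]
    · rw [hg.fix hp', hh.fix hp]

section Main

variable {G : Subgroup (X ≃ₜ X)}

/-- Small supports give small homeomorphisms. -/
theorem small_support [T2Space X] (x : X) (V : Set G) (hV : V ∈ @nhds G (coTop G) 1) :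
    ∃ b ∈ 𝓝 x, ∀ g : G, SuppIn (g : X ≃ₜ X) b → g ∈ V := by
  let l : Filter G := (𝓝 x).lift' (fun b => {g : G | SuppIn (g : X ≃ₜ X) b})
  have hl : l ≤ @nhds G (coTop G) 1 := by
    rw [coTop, nhds_induced, ← tendsto_iff_comap, ContinuousMap.tendsto_nhds_compactOpen]
    intro K hK U hU hKU
    have hmono : Monotone (fun b => {g : G | SuppIn (g : X ≃ₜ X) b}) :=
      fun b b' hb g hg => SuppIn.mono hg hb
    change {g : G | MapsTo (fun z => (g : X ≃ₜ X) z) K U} ∈ l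
    rw [mem_lift'_sets hmono]
    by_cases hx : x ∈ K
    · refine ⟨U, hU.mem_nhds (hKU hx), fun g hg z hz => ?_⟩
      exact SuppIn.mem hg (hKU hz)
    · refine ⟨Kᶜ, hK.isClosed.isOpen_compl.mem_nhds hx, fun g hg z hz => ?_⟩
      have : (g : X ≃ₜ X) z = z := SuppIn.fix hg (by simpa using hz)
      change (g : X ≃ₜ X) z ∈ U
      rw [this]
      exact hKU hz
  have h1 := hl hV
  rw [mem_lift'_sets] at h1
  · obtain ⟨b, hb, hb'⟩ := h1
    exact ⟨b, hb, fun g hg => hb' hg⟩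
  · exact fun b b' hb g hg => SuppIn.mono hg hb

/-- Transitivity of the group of all elements supported in a connected open set. -/
theorem trans_of_locTrans [T2Space X] (hG : LocTrans G) {O : Set X} (hO : IsOpen O)
    (hOc : IsPreconnected O) {x y : X} (hx : x ∈ O) (hy : y ∈ O) :
    ∃ g : G, SuppIn (g : X ≃ₜ X) O ∧ (g : X ≃ₜ X) x = y := by
  let A : Set X := {z | ∃ g : G, SuppIn (g : X ≃ₜ X) O ∧ (g : X ≃ₜ X) x = z}
  have hAO : ∀ z ∈ A, z ∈ O := by
    rintro z ⟨g, hg, rfl⟩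
    exact hg.mem hx
  have hAopen : IsOpen A := by
    rw [isOpen_iff_mem_nhds]
    intro z hz
    have hz' := hz
    obtain ⟨g, hg, rfl⟩ := hz
    have := hG ((g : X ≃ₜ X) x) O (hO.mem_nhds (hAO _ hz')) univ univ_mem
    filter_upwards [this] with w hw
    obtain ⟨h, -, hh, rfl⟩ := hw
    exact ⟨h * g, hh.mul hg, rfl⟩
  have hBopen : IsOpen (O \ A) := by
    rw [isOpen_iff_mem_nhds]
    intro z hz
    have := hG z O (hO.mem_nhds hz.1) univ univ_mem
    filter_upwards [this] with w hw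
    obtain ⟨h, -, hh, rfl⟩ := hw
    refine ⟨hh.mem hz.1, ?_⟩
    rintro ⟨g, hg, hgx⟩
    refine hz.2 ⟨h⁻¹ * g, hh.inv.mul hg, ?_⟩
    change (h : X ≃ₜ X).symm ((g : X ≃ₜ X) x) = z
    rw [hgx, Homeomorph.symm_apply_apply]
  by_contra hc
  have hyA : y ∉ A := hc
  obtain ⟨p, hp⟩ := hOc A (O \ A) hAopen hBopen (fun z hz => by
    by_cases h : z ∈ A
    · exact Or.inl h
    · exact Or.inr ⟨hz, h⟩) ⟨x, hx, 1, SuppIn.one O, rfl⟩ ⟨y, hy, hy, hyA⟩
  exact hp.2.2.2 hp.2.1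


variable [τ : TopologicalSpace G] [IsTopologicalGroup G]

/-- `x` and `y` cannot be separated by neighbourhoods of the identity intersected with `H`. -/
def E (H : Subgroup G) (x y : X) : Prop :=
  ∀ W ∈ 𝓝 (1 : G), ∃ w ∈ W, w ∈ H ∧ (w : X ≃ₜ X) x = y

omit [IsTopologicalGroup G] in
theorem E.refl (H : Subgroup G) (x : X) : E H x x :=
  fun _ hW => ⟨1, mem_of_mem_nhds hW, H.one_mem, rfl⟩

theorem E.symm {H : Subgroup G} {x y : X} (h : E H x y) : E H y x := by
  intro W hW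
  obtain ⟨w, hw, hwH, rfl⟩ := h W⁻¹ (inv_mem_nhds_one G hW)
  refine ⟨w⁻¹, hw, H.inv_mem hwH, ?_⟩
  exact (w : X ≃ₜ X).symm_apply_apply x

theorem E.trans {H : Subgroup G} {x y z : X} (h : E H x y) (h' : E H y z) : E H x z := by
  intro W hW
  obtain ⟨V, hV, hVW⟩ := exists_nhds_one_split hW
  obtain ⟨w, hw, hwH, rfl⟩ := h V hV
  obtain ⟨w', hw', hwH', rfl⟩ := h' V hV
  exact ⟨w' * w, hVW _ hw' _ hw, H.mul_mem hwH' hwH, rfl⟩

theorem E.smul {H : Subgroup G} {x y : X} (h : E H x y) {k : G} (hk : k ∈ H) :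
    E H ((k : X ≃ₜ X) x) ((k : X ≃ₜ X) y) := by
  intro W hW
  have h1 : (fun w : G => k * w * k⁻¹) ⁻¹' W ∈ 𝓝 (1 : G) := by
    apply ContinuousAt.preimage_mem_nhds
    · fun_prop
    · simpa using hW
  obtain ⟨w, hw, hwH, rfl⟩ := h _ h1
  refine ⟨k * w * k⁻¹, hw, H.mul_mem (H.mul_mem hk hwH) (H.inv_mem hk), ?_⟩
  change (k : X ≃ₜ X) ((w : X ≃ₜ X) ((k : X ≃ₜ X).symm ((k : X ≃ₜ X) x))) = _
  rw [Homeomorph.symm_apply_apply]

/-- A neighbourhood `V` of `1` with `V⁻¹ V V ⊆ W`. -/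
theorem exists_split3 {W : Set G} (hW : W ∈ 𝓝 (1 : G)) :
    ∃ V ∈ 𝓝 (1 : G), ∀ a ∈ V, ∀ b ∈ V, ∀ c ∈ V, a⁻¹ * b * c ∈ W ∧ a * b * c⁻¹ ∈ W ∧
      a * b ∈ W ∧ a⁻¹ * b ∈ W ∧ a ∈ W := by
  have h1 : ∀ᶠ p : G × G × G in 𝓝 (1, 1, 1), p.1⁻¹ * p.2.1 * p.2.2 ∈ W ∧
      p.1 * p.2.1 * p.2.2⁻¹ ∈ W ∧ p.1 * p.2.1 ∈ W ∧ p.1⁻¹ * p.2.1 ∈ W ∧ p.1 ∈ W := by
    refine Filter.Eventually.and ?_ (Filter.Eventually.and ?_ (Filter.Eventually.and ?_
      (Filter.Eventually.and ?_ ?_)))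
    all_goals
      apply ContinuousAt.eventually_mem
      · fun_prop
      · simpa using hW
  rw [nhds_prod_eq, nhds_prod_eq] at h1
  obtain ⟨V1, hV1, V', hV', h2⟩ := mem_prod_iff.1 h1
  obtain ⟨V2, hV2, V3, hV3, h3⟩ := mem_prod_iff.1 hV'
  refine ⟨V1 ∩ (V2 ∩ V3), inter_mem hV1 (inter_mem hV2 hV3), fun a ha b hb c hc => ?_⟩
  have h4 : (a, b, c) ∈ V1 ×ˢ V' := ⟨ha.1, h3 ⟨hb.2.1, hc.2.2⟩⟩
  exact h2 h4

/-- The set of elements moving a nonempty open set off itself is not near the identity. -/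
theorem zariski [T2Space X] [T2Space G] (hG : LocTrans G) (hperf : ∀ x : X, (𝓝[≠] x).NeBot)
    {b : Set X} (hb : IsOpen b) (hbne : b.Nonempty) :
    ∃ W ∈ 𝓝 (1 : G), ∀ f ∈ W, ((f : X ≃ₜ X) '' b ∩ b).Nonempty := by
  obtain ⟨x, hx⟩ := hbne
  have h1 := hG x b (hb.mem_nhds hx) univ univ_mem
  obtain ⟨y, ⟨g, -, hg, hgx⟩, hyx⟩ := ((hperf x).nonempty_of_mem
    (inter_mem (mem_nhdsWithin_of_mem_nhds h1) self_mem_nhdsWithin))
  have hyb : y ∈ b := hgx ▸ hg.mem hx
  have hyx' : y ≠ x := hyx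
  have h2 := hG y (b \ {x}) ((hb.sdiff isClosed_singleton).mem_nhds ⟨hyb, hyx'⟩) univ univ_mem
  obtain ⟨z, ⟨h, -, hh, hhy⟩, hzy⟩ := ((hperf y).nonempty_of_mem
    (inter_mem (mem_nhdsWithin_of_mem_nhds h2) self_mem_nhdsWithin))
  have hzy' : z ≠ y := hzy
  have hhx : (h : X ≃ₜ X) x = x := hh.fix (fun hc => hc.2 rfl)
  have hne : g * h ≠ h * g := by
    intro hc
    have h3 : ((g * h : G) : X ≃ₜ X) x = ((h * g : G) : X ≃ₜ X) x := by rw [hc]
    have h4 : (g : X ≃ₜ X) ((h : X ≃ₜ X) x) = (h : X ≃ₜ X) ((g : X ≃ₜ X) x) := h3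
    rw [hhx, hgx, hhy] at h4
    exact hzy' h4.symm
  refine ⟨{f : G | (f * g * f⁻¹) * h ≠ h * (f * g * f⁻¹)}, ?_, ?_⟩
  · apply IsOpen.mem_nhds
    · exact isOpen_ne_fun (by fun_prop) (by fun_prop)
    · simpa using hne
  · intro f hf
    by_contra hc
    rw [not_nonempty_iff_eq_empty, ← disjoint_iff_inter_eq_empty] at hc
    apply hf
    apply Subtype.ext
    have hh' : SuppIn (h : X ≃ₜ X) b := hh.mono sdiff_subset
    exact SuppIn.commute (hg.conj (f := (f : X ≃ₜ X))) hh' hc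


theorem E_all [T2Space X] (hG : LocTrans G) (hle : coTop G ≤ τ) {H : Subgroup G} {O : Set X}
    (hH : ∀ g : G, SuppIn (g : X ≃ₜ X) O → g ∈ H) (hO : IsOpen O) (hOc : IsPreconnected O)
    {x y : X} (hx : x ∈ O) (_hy : y ∈ O) (hxy : x ≠ y) (h : E H x y) :
    ∀ a ∈ O, ∀ b ∈ O, E H a b := by
  have hinv : ∀ g : G, SuppIn (g : X ≃ₜ X) O → ∀ z w, E H z w →
      E H ((g : X ≃ₜ X) z) ((g : X ≃ₜ X) w) := fun g hg z w hzw => hzw.smul (hH g hg)
  let A : Set X := {z | z ∈ O ∧ E H x z}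
  have hAopen : IsOpen A := by
    rw [isOpen_iff_mem_nhds]
    intro z hz
    by_cases hzx : z = x
    · subst hzx
      have h1 := hG z (O \ {y}) ((hO.sdiff isClosed_singleton).mem_nhds ⟨hx, hxy⟩) univ univ_mem
      filter_upwards [h1] with w hw
      obtain ⟨g, -, hg, rfl⟩ := hw
      have hgO := hg.mono (sdiff_subset : O \ {y} ⊆ O)
      refine ⟨hgO.mem hx, ?_⟩
      have h2 := hinv g hgO y z h.symm
      have h3 : (g : X ≃ₜ X) y = y := hg.fix (fun hc => hc.2 rfl)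
      rw [h3] at h2
      exact h.trans h2
    · have h1 := hG z (O \ {x}) ((hO.sdiff isClosed_singleton).mem_nhds ⟨hz.1, hzx⟩) univ univ_mem
      filter_upwards [h1] with w hw
      obtain ⟨g, -, hg, rfl⟩ := hw
      have hgO := hg.mono (sdiff_subset : O \ {x} ⊆ O)
      refine ⟨hgO.mem hz.1, ?_⟩
      have h2 := hinv g hgO x z hz.2
      have h3 : (g : X ≃ₜ X) x = x := hg.fix (fun hc => hc.2 rfl)
      rw [h3] at h2
      exact h2
  have hcl : ∀ z ∈ O, z ∈ closure A → z ∈ A := by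
    intro z hz hzA
    refine ⟨hz, fun W hW => ?_⟩
    obtain ⟨V, hV, hVW⟩ := exists_split3 hW
    have h1 := hG z O (hO.mem_nhds hz) V (nhds_mono hle hV)
    obtain ⟨w, ⟨g, hgV, hg, rfl⟩, hw⟩ := mem_closure_iff_nhds.1 hzA _ h1
    obtain ⟨k, hk, hkH, hkx⟩ := hw.2 V hV
    refine ⟨g⁻¹ * k, (hVW g hgV k hk k hk).2.2.2.1, H.mul_mem (H.inv_mem (hH g hg)) hkH, ?_⟩
    change (g : X ≃ₜ X).symm ((k : X ≃ₜ X) x) = z
    rw [hkx, Homeomorph.symm_apply_apply]
  have hxa : ∀ a ∈ O, E H x a := by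
    intro a ha
    by_contra hc
    obtain ⟨p, hp⟩ := hOc A (closure A)ᶜ hAopen isClosed_closure.isOpen_compl (fun z hz => by
      by_cases h : z ∈ closure A
      · exact Or.inl (hcl z hz h)
      · exact Or.inr h) ⟨x, hx, hx, E.refl H x⟩ ⟨a, ha, fun hca => hc (hcl a ha hca).2⟩
    exact hp.2.2 (subset_closure hp.2.1)
  exact fun a ha b hb => (hxa a ha).symm.trans (hxa b hb)

/-- Uniform version of inseparability for products of two sets. -/
theorem sep_prod [T2Space X] (hG : LocTrans G) (hle : coTop G ≤ τ) {H : Subgroup G} {O : Set X}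
    (hH : ∀ g : G, SuppIn (g : X ≃ₜ X) O → g ∈ H) (hO : IsOpen O)
    {K F : Set X} (hK : IsCompact K) (hF : IsCompact F) (hKO : K ⊆ O) (hFO : F ⊆ O)
    (hsep : ∀ p ∈ K, ∀ q ∈ F, ¬ E H p q) :
    ∃ W ∈ 𝓝 (1 : G), ∀ w ∈ W, w ∈ H → ∀ p ∈ K, (w : X ≃ₜ X) p ∉ F := by
  let P : Set (X × X) → Prop := fun s => ∃ W ∈ 𝓝 (1 : G), ∀ w ∈ W, w ∈ H → ∀ p ∈ s,
    (w : X ≃ₜ X) p.1 ≠ p.2
  have hP : P (K ×ˢ F) := by
    refine (hK.prod hF).induction_on (p := P) ?_ ?_ ?_ ?_
    · exact ⟨univ, univ_mem, by simp⟩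
    · rintro s t hst ⟨W, hW, h⟩
      exact ⟨W, hW, fun w hw hwH p hp => h w hw hwH p (hst hp)⟩
    · rintro s t ⟨W, hW, h⟩ ⟨W', hW', h'⟩
      refine ⟨W ∩ W', inter_mem hW hW', fun w hw hwH p hp => ?_⟩
      rcases hp with hp | hp
      · exact h w hw.1 hwH p hp
      · exact h' w hw.2 hwH p hp
    · rintro ⟨p, q⟩ ⟨hp, hq⟩
      have h1 := hsep p hp q hq
      simp only [E, not_forall, not_exists, not_and] at h1
      obtain ⟨W, hW, h2⟩ := h1
      obtain ⟨V, hV, hVW⟩ := exists_split3 hW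
      have hp' := hG p O (hO.mem_nhds (hKO hp)) V (nhds_mono hle hV)
      have hq' := hG q O (hO.mem_nhds (hFO hq)) V (nhds_mono hle hV)
      refine ⟨_, mem_nhdsWithin_of_mem_nhds (prod_mem_nhds hp' hq'), V, hV, ?_⟩
      rintro w hw hwH ⟨p', q'⟩ ⟨⟨g, hgV, hg, hgp⟩, ⟨h, hhV, hh, hhq⟩⟩ hwp
      change (w : X ≃ₜ X) p' = q' at hwp
      change (g : X ≃ₜ X) p = p' at hgp
      change (h : X ≃ₜ X) q = q' at hhq
      refine h2 (h⁻¹ * w * g) (hVW h hhV w hw g hgV).1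
        (H.mul_mem (H.mul_mem (H.inv_mem (hH h hh)) hwH) (hH g hg)) ?_
      change (h : X ≃ₜ X).symm ((w : X ≃ₜ X) ((g : X ≃ₜ X) p)) = q
      rw [hgp, hwp, ← hhq, Homeomorph.symm_apply_apply]
  obtain ⟨W, hW, h⟩ := hP
  exact ⟨W, hW, fun w hw hwH p hp hc => h w hw hwH (p, _) ⟨hp, hc⟩ rfl⟩

/-- A preconnected set that meets `s` and misses its frontier is contained in `s`. -/
theorem subset_of_frontier {t s : Set X} (ht : IsPreconnected t) (h1 : (t ∩ s).Nonempty)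
    (h2 : ∀ z ∈ t, z ∉ frontier s) : t ⊆ s := by
  intro z hz
  by_contra hc
  have hcov : t ⊆ interior s ∪ (closure s)ᶜ := by
    intro p hp
    by_cases hpc : p ∈ closure s
    · left
      by_contra hpi
      exact h2 p hp ⟨hpc, hpi⟩
    · right; exact hpc
  obtain ⟨p, hp⟩ := ht (interior s) (closure s)ᶜ isOpen_interior isClosed_closure.isOpen_compl hcov
    (by
      obtain ⟨q, hq, hqs⟩ := h1
      refine ⟨q, hq, ?_⟩
      rcases hcov hq with h | h
      · exact h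
      · exact absurd (subset_closure hqs) h)
    (by
      refine ⟨z, hz, ?_⟩
      rcases hcov hz with h | h
      · exact absurd (interior_subset h) hc
      · exact h)
  exact hp.2.2 (subset_closure (interior_subset hp.2.1))

/-- If points of `O` are separated, then compact subsets of `O` are moved only a little. -/
theorem small_of_sep [T2Space X] [LocallyCompactSpace X] [LocallyConnectedSpace X] [T2Space G]
    (hG : LocTrans G) (hperf : ∀ x : X, (𝓝[≠] x).NeBot) (hle : coTop G ≤ τ)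
    {H : Subgroup G} {O : Set X}
    (hH : ∀ g : G, SuppIn (g : X ≃ₜ X) O → g ∈ H) (hO : IsOpen O)
    (hsep : ∀ p ∈ O, ∀ q ∈ O, p ≠ q → ¬ E H p q) {K U : Set X} (hK : IsCompact K)
    (hU : IsOpen U) (hKU : K ⊆ U) (hUO : U ⊆ O) :
    ∃ W ∈ 𝓝 (1 : G), ∀ w ∈ W, w ∈ H → ∀ p ∈ K, (w : X ≃ₜ X) p ∈ U := by
  refine hK.induction_on (p := fun s => ∃ W ∈ 𝓝 (1 : G), ∀ w ∈ W, w ∈ H → ∀ p ∈ s,
    (w : X ≃ₜ X) p ∈ U) ?_ ?_ ?_ ?_
  · exact ⟨univ, univ_mem, by simp⟩
  · rintro s t hst ⟨W, hW, h⟩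
    exact ⟨W, hW, fun w hw hwH p hp => h w hw hwH p (hst hp)⟩
  · rintro s t ⟨W, hW, h⟩ ⟨W', hW', h'⟩
    refine ⟨W ∩ W', inter_mem hW hW', fun w hw hwH p hp => ?_⟩
    rcases hp with hp | hp
    · exact h w hw.1 hwH p hp
    · exact h' w hw.2 hwH p hp
  · intro x hx
    obtain ⟨V, hVo, hxV, hVU, hVc⟩ := exists_open_between_and_isCompact_closure
      (isCompact_singleton (x := x)) hU (singleton_subset_iff.2 (hKU hx))
    obtain ⟨V', hVo', hxV', hVU', hVc'⟩ := exists_open_between_and_isCompact_closure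
      (isCompact_singleton (x := x)) hVo hxV
    have hxV'' : x ∈ V' := hxV' rfl
    let b : Set X := connectedComponentIn V' x
    have hbo : IsOpen b := hVo'.connectedComponentIn
    have hbc : IsPreconnected b := isPreconnected_connectedComponentIn
    have hxb : x ∈ b := mem_connectedComponentIn hxV''
    have hbV' : b ⊆ V' := connectedComponentIn_subset _ _
    obtain ⟨W1, hW1, h1⟩ := sep_prod hG hle hH hO (K := closure V') (F := frontier V) hVc'
      (hVc.of_isClosed_subset isClosed_frontier frontier_subset_closure)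
      ((hVU'.trans subset_closure).trans (hVU.trans hUO))
      (frontier_subset_closure.trans (hVU.trans hUO)) (by
        intro p hp q hq
        apply hsep p _ q
        · exact hUO (hVU (frontier_subset_closure hq))
        · rintro rfl
          rw [frontier, hVo.interior_eq] at hq
          exact hq.2 (hVU' hp)
        · exact hUO (hVU (subset_closure (hVU' hp))))
    obtain ⟨W2, hW2, h2⟩ := zariski hG hperf hbo ⟨x, hxb⟩
    refine ⟨b, mem_nhdsWithin_of_mem_nhds (hbo.mem_nhds hxb), W1 ∩ W2, inter_mem hW1 hW2, ?_⟩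
    intro w hw hwH p hp
    have h3 : (w : X ≃ₜ X) '' b ⊆ V := by
      apply subset_of_frontier (hbc.image _ (w : X ≃ₜ X).continuous.continuousOn)
      · obtain ⟨q, hq1, hq2⟩ := h2 w hw.2
        exact ⟨q, hq1, hVU' (subset_closure (hbV' hq2))⟩
      · rintro _ ⟨q, hq, rfl⟩
        exact h1 w hw.1 hwH q (subset_closure (hbV' hq))
    exact hVU (subset_closure (h3 ⟨p, hp, rfl⟩))


variable (G) in
/-- The group of all elements with compact support in `O`. -/
def GO (O : Set X) : Subgroup G where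
  carrier := {g | SuppIn (g : X ≃ₜ X) O}
  one_mem' := SuppIn.one O
  mul_mem' := fun ha hb => SuppIn.mul ha hb
  inv_mem' := fun ha => SuppIn.inv ha

/-- If the points of `O` are separated by `H = ⊤`, `O = X`, the topology is the compact-open
topology. -/
theorem eq_coTop [T2Space X] [LocallyCompactSpace X] [LocallyConnectedSpace X] [T2Space G]
    (hG : LocTrans G) (hperf : ∀ x : X, (𝓝[≠] x).NeBot) (hle : coTop G ≤ τ)
    (hsep : ∀ p q : X, p ≠ q → ¬ E (⊤ : Subgroup G) p q) : τ = coTop G := by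
  refine le_antisymm ?_ hle
  rw [coTop, ← continuous_iff_le_induced, ContinuousMap.continuous_compactOpen]
  intro K hK U hU
  rw [isOpen_iff_mem_nhds]
  intro f hf
  obtain ⟨W, hW, h⟩ := small_of_sep hG hperf hle (H := ⊤) (O := univ) (fun _ _ => trivial)
    isOpen_univ (fun p _ q _ hpq => hsep p q hpq) (hK.image (f : X ≃ₜ X).continuous) hU
    (by rintro _ ⟨p, hp, rfl⟩; exact hf hp) (subset_univ _)
  have h1 : (fun w : G => w * f⁻¹) ⁻¹' W ∈ 𝓝 f := by
    apply ContinuousAt.preimage_mem_nhds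
    · fun_prop
    · simpa using hW
  filter_upwards [h1] with w hw p hp
  have h2 := h (w * f⁻¹) hw trivial ((f : X ≃ₜ X) p) ⟨p, hp, rfl⟩
  have h3 : ((w * f⁻¹ : G) : X ≃ₜ X) ((f : X ≃ₜ X) p) = (w : X ≃ₜ X) p := by
    change (w : X ≃ₜ X) ((f : X ≃ₜ X).symm ((f : X ≃ₜ X) p)) = _
    rw [Homeomorph.symm_apply_apply]
  rw [h3] at h2
  exact h2

/-- If two points of a connected open set `O` are separated by the elements supported in `O`,
they are separated by all elements. -/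
theorem sep_of_sep_local [T2Space X] [LocallyCompactSpace X] [LocallyConnectedSpace X] [T2Space G]
    (hG : LocTrans G) (hperf : ∀ x : X, (𝓝[≠] x).NeBot) (hle : coTop G ≤ τ)
    {O : Set X} (hO : IsOpen O) (hOc : IsPreconnected O)
    {x y : X} (hx : x ∈ O) (hy : y ∈ O) (hxy : ¬ E (GO G O) x y) :
    ¬ E (⊤ : Subgroup G) x y := by
  have hne : x ≠ y := by
    rintro rfl
    exact hxy (E.refl _ _)
  have hsep : ∀ p ∈ O, ∀ q ∈ O, p ≠ q → ¬ E (GO G O) p q := by
    intro p hp q hq hpq hc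
    exact hxy (E_all hG hle (H := GO G O) (fun g hg => hg) hO hOc hp hq hpq hc x hx y hy)
  -- the neighbourhood `U` of `y`
  obtain ⟨U, hUo, hyU, hUO', hUc⟩ := exists_open_between_and_isCompact_closure
      (isCompact_singleton (x := y)) (hO.sdiff (isClosed_singleton (x := x)))
      (singleton_subset_iff.2 ⟨hy, hne.symm⟩)
  have hyU' : y ∈ U := hyU rfl
  have hxU : x ∉ closure U := fun hc => (hUO' hc).2 rfl
  have hUO : closure U ⊆ O := fun z hz => (hUO' hz).1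
  obtain ⟨W1, hW1, h1⟩ := small_of_sep hG hperf hle (H := GO G O) (O := O) (fun g hg => hg) hO
    hsep (isCompact_singleton (x := y)) hUo hyU (subset_closure.trans hUO)
  obtain ⟨V, hV, hVW⟩ := exists_split3 hW1
  obtain ⟨b0, hb0, hb0V⟩ := small_support (G := G) x V (nhds_mono hle hV)
  have hb1 : b0 ∩ (closure U)ᶜ ∈ 𝓝 x :=
    inter_mem hb0 (isClosed_closure.isOpen_compl.mem_nhds hxU)
  let b : Set X := connectedComponentIn (interior (b0 ∩ (closure U)ᶜ)) x
  have hbo : IsOpen b := isOpen_interior.connectedComponentIn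
  have hbc : IsPreconnected b := isPreconnected_connectedComponentIn
  have hxb : x ∈ b := mem_connectedComponentIn (mem_interior_iff_mem_nhds.2 hb1)
  have hbb : b ⊆ b0 ∩ (closure U)ᶜ := (connectedComponentIn_subset _ _).trans interior_subset
  obtain ⟨W2, hW2, h2⟩ := zariski hG hperf hbo ⟨x, hxb⟩
  intro hE
  obtain ⟨f, hf, -, hfx⟩ := hE (V ∩ W2) (inter_mem hV hW2)
  -- the component of `x` in `b ∩ f⁻¹ O`
  let c0 : Set X := b ∩ (f : X ≃ₜ X) ⁻¹' O
  have hc0 : IsOpen c0 := hbo.inter (hO.preimage (f : X ≃ₜ X).continuous)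
  have hxc0 : x ∈ c0 := ⟨hxb, by change (f : X ≃ₜ X) x ∈ O; rw [hfx]; exact hy⟩
  let c : Set X := connectedComponentIn c0 x
  have hco : IsOpen c := hc0.connectedComponentIn
  have hcc : IsPreconnected c := isPreconnected_connectedComponentIn
  have hxc : x ∈ c := mem_connectedComponentIn hxc0
  have hcc0 : c ⊆ c0 := connectedComponentIn_subset _ _
  have hcU : ∀ z ∈ c, (f : X ≃ₜ X) z ∈ U := by
    intro z hz
    obtain ⟨g, hg, hgx⟩ := trans_of_locTrans hG hco hcc hxc hz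
    have hgV : g ∈ V := hb0V g (hg.mono (fun p hp => (hbb (hcc0 hp).1).1))
    have hconj : f * g * f⁻¹ ∈ W1 := (hVW f hf.1 g hgV f hf.1).2.1
    have hsupp : SuppIn ((f * g * f⁻¹ : G) : X ≃ₜ X) O := by
      have := hg.conj (f := (f : X ≃ₜ X))
      refine this.mono ?_
      rintro _ ⟨p, hp, rfl⟩
      exact (hcc0 hp).2
    have h3 := h1 _ hconj hsupp y rfl
    have h4 : ((f * g * f⁻¹ : G) : X ≃ₜ X) y = (f : X ≃ₜ X) z := by
      change (f : X ≃ₜ X) ((g : X ≃ₜ X) ((f : X ≃ₜ X).symm y)) = _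
      rw [← hfx, Homeomorph.symm_apply_apply, hgx]
    rw [h4] at h3
    exact h3
  have hcl : ∀ z ∈ b, z ∈ closure c → z ∈ c := by
    intro z hz hzc
    have h5 : IsPreconnected (b ∩ closure c) := by
      apply hcc.subset_closure
      · exact fun p hp => ⟨(hcc0 hp).1, subset_closure hp⟩
      · exact inter_subset_right
    have h6 : b ∩ closure c ⊆ c0 := by
      rintro p ⟨hp, hpc⟩
      refine ⟨hp, hUO ?_⟩
      have h7 : (f : X ≃ₜ X) p ∈ closure ((f : X ≃ₜ X) '' c) :=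
        image_closure_subset_closure_image (f : X ≃ₜ X).continuous ⟨p, hpc, rfl⟩
      refine closure_mono ?_ h7
      rintro _ ⟨q, hq, rfl⟩
      exact hcU q hq
    exact h5.subset_connectedComponentIn ⟨hxb, subset_closure hxc⟩ h6 ⟨hz, hzc⟩
  have hbc' : b ⊆ c := by
    intro z hz
    by_contra hcon
    obtain ⟨p, hp⟩ := hbc c (closure c)ᶜ hco isClosed_closure.isOpen_compl (fun q hq => by
      by_cases h : q ∈ closure c
      · exact Or.inl (hcl q hq h)
      · exact Or.inr h) ⟨x, hxb, hxc⟩ ⟨z, hz, fun hca => hcon (hcl z hz hca)⟩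
    exact hp.2.2 (subset_closure hp.2.1)
  obtain ⟨q, ⟨p, hp, hpq⟩, hqb⟩ := h2 f hf.2
  have h8 : q ∈ U := hpq ▸ hcU p (hbc' hp)
  exact (hbb hqb).2 (subset_closure h8)

/-- **The dichotomy.** -/
theorem dichotomy [T2Space X] [LocallyCompactSpace X] [LocallyConnectedSpace X] [T2Space G]
    [PreconnectedSpace X]
    (hG : LocTrans G) (hperf : ∀ x : X, (𝓝[≠] x).NeBot) (hle : coTop G ≤ τ) :
    τ = coTop G ∨ ∀ W ∈ 𝓝 (1 : G), ∀ O : Set X, IsOpen O → IsPreconnected O →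
      ∀ x ∈ O, ∀ y ∈ O, ∃ g ∈ W, SuppIn (g : X ≃ₜ X) O ∧ (g : X ≃ₜ X) x = y := by
  by_cases hall : ∀ p q : X, E (⊤ : Subgroup G) p q
  · right
    intro W hW O hO hOc x hx y hy
    by_contra hcon
    refine sep_of_sep_local hG hperf hle hO hOc hx hy ?_ (hall x y)
    intro hE
    obtain ⟨w, hw, hwO, hwx⟩ := hE W hW
    exact hcon ⟨w, hw, hwO, hwx⟩
  · left
    apply eq_coTop hG hperf hle
    intro p q hpq hE
    apply hall
    intro a b
    exact E_all hG hle (H := ⊤) (O := univ) (fun _ _ => trivial) isOpen_univ isPreconnected_univ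
      trivial trivial hpq hE a trivial b trivial

end Main

end Pool.Agent.Run7.h754
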