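import Mathlib
import Pool.Agent.Run7.h754.Abs

/-!
# The compact-open topology is a Hausdorff group topology (Arens)
-/

open Set Filter Topology

namespace Pool.Agent.Run7.h754

variable {X : Type*} [TopologicalSpace X]

/-- The topology `t` on the group `G` is a minimal (Hausdorff) group topology: it is a Hausdorff
group topology, and no other Hausdorff group topology on `G` is coarser. (In Mathlib's order on
topologies, `t ≤ τ` says that `τ` is coarser than `t`.) -/
def IsMinimalGroupTopology {G : Type*} [Group G] (t : TopologicalSpace G) : Prop :=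
  @IsTopologicalGroup G t _ ∧ @T2Space G t ∧
    ∀ τ : TopologicalSpace G, @IsTopologicalGroup G τ _ → @T2Space G τ → t ≤ τ → τ = t

theorem coTop_t2 [T2Space X] (G : Subgroup (X ≃ₜ X)) : @T2Space G (coTop G) := by
  letI : TopologicalSpace G := coTop G
  have hcont : Continuous (fun g : G => (⟨(g : X ≃ₜ X), (g : X ≃ₜ X).continuous⟩ : C(X, X))) :=
    continuous_induced_dom
  refine T2Space.of_injective_continuous ?_ hcont
  intro g h hgh
  apply Subtype.ext
  ext x
  exact DFunLike.congr_fun hgh x

theorem coTop_group [T2Space X] [LocallyCompactSpace X] [LocallyConnectedSpace X]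
    (G : Subgroup (X ≃ₜ X)) : @IsTopologicalGroup G (coTop G) _ := by
  letI : TopologicalSpace G := coTop G
  let ι : G → C(X, X) := fun g => ⟨(g : X ≃ₜ X), (g : X ≃ₜ X).continuous⟩
  have hcont : Continuous ι := continuous_induced_dom
  have hmul : Continuous (fun p : G × G => p.1 * p.2) := by
    rw [continuous_induced_rng]
    have h1 : Continuous (fun p : G × G => (ι p.2, ι p.1)) :=
      (hcont.comp continuous_snd).prodMk (hcont.comp continuous_fst)
    exact ContinuousMap.continuous_comp'.comp h1
  have hinv : Continuous (fun g : G => g⁻¹) := by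
    rw [continuous_induced_rng, ContinuousMap.continuous_compactOpen]
    intro K hK U hU
    rw [isOpen_iff_mem_nhds]
    intro f hf
    have hf' : ∀ y ∈ K, (f : X ≃ₜ X).symm y ∈ U := fun y hy => hf hy
    have key : ∀ᶠ g : G in 𝓝 f, ∀ y ∈ K, (g : X ≃ₜ X).symm y ∈ U := by
      refine hK.induction_on (p := fun s => ∀ᶠ g : G in 𝓝 f, ∀ y ∈ s, (g : X ≃ₜ X).symm y ∈ U)
        ?_ ?_ ?_ ?_
      · exact Eventually.of_forall fun g y hy => absurd hy (notMem_empty y)
      · intro s t hst ht
        filter_upwards [ht] with g hg y hy
        exact hg y (hst hy)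
      · intro s t hs ht
        filter_upwards [hs, ht] with g hg1 hg2 y hy
        rcases hy with hy | hy
        · exact hg1 y hy
        · exact hg2 y hy
      · intro y hy
        set x := (f : X ≃ₜ X).symm y with hx
        have hfx : (f : X ≃ₜ X) x = y := (f : X ≃ₜ X).apply_symm_apply y
        obtain ⟨V, hV, hxV, hVU, hVc⟩ := exists_open_between_and_isCompact_closure
          (isCompact_singleton (x := x)) hU (singleton_subset_iff.2 (hf' y hy))
        have hxV' : x ∈ V := hxV rfl
        have hfV : IsOpen ((f : X ≃ₜ X) '' V) := (f : X ≃ₜ X).isOpenMap _ hV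
        obtain ⟨V2, hV2, hyV2, hV2U, -⟩ := exists_open_between_and_isCompact_closure
          (isCompact_singleton (x := y)) hfV (singleton_subset_iff.2 ⟨x, hxV', hfx⟩)
        have hyV2' : y ∈ V2 := hyV2 rfl
        let W : Set X := connectedComponentIn V2 y
        have hW : IsOpen W := hV2.connectedComponentIn
        have hWc : IsPreconnected W := isPreconnected_connectedComponentIn
        have hyW : y ∈ W := mem_connectedComponentIn hyV2'
        have hWV2 : W ⊆ V2 := connectedComponentIn_subset V2 y
        have hfr : IsCompact (frontier V) :=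
          hVc.of_isClosed_subset isClosed_frontier frontier_subset_closure
        have hfro : frontier V = closure V \ V := by rw [frontier, hV.interior_eq]
        have h1 : ∀ᶠ g : G in 𝓝 f, MapsTo (ι g) (frontier V) (closure W)ᶜ := by
          refine (hcont.continuousAt (x := f)).eventually
            (p := fun h : C(X, X) => MapsTo h (frontier V) (closure W)ᶜ) ?_
          apply (ContinuousMap.isOpen_setOf_mapsTo hfr isClosed_closure.isOpen_compl).mem_nhds
          intro z hz hz'
          rw [hfro] at hz
          obtain ⟨z', hz', hzz⟩ := hV2U (closure_mono hWV2 hz')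
          have : z' = z := (f : X ≃ₜ X).injective hzz
          rw [this] at hz'
          exact hz.2 hz'
        have h2 : ∀ᶠ g : G in 𝓝 f, MapsTo (ι g) {x} W := by
          refine (hcont.continuousAt (x := f)).eventually
            (p := fun h : C(X, X) => MapsTo h {x} W) ?_
          apply (ContinuousMap.isOpen_setOf_mapsTo (isCompact_singleton (x := x)) hW).mem_nhds
          intro z hz
          rw [mem_singleton_iff] at hz
          rw [hz]
          change (f : X ≃ₜ X) x ∈ W
          rw [hfx]
          exact hyW
        refine ⟨W, mem_nhdsWithin_of_mem_nhds (hW.mem_nhds hyW), ?_⟩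
        filter_upwards [h1, h2] with g hg1 hg2 z hz
        have h3 : IsPreconnected ((g : X ≃ₜ X).symm '' W) :=
          hWc.image _ (g : X ≃ₜ X).symm.continuous.continuousOn
        have h4 : (g : X ≃ₜ X).symm '' W ⊆ V ∪ (closure V)ᶜ := by
          rintro _ ⟨w, hw, rfl⟩
          by_contra hc
          rw [mem_union, not_or, mem_compl_iff, not_not] at hc
          have h5 : (g : X ≃ₜ X).symm w ∈ frontier V := by
            rw [hfro]
            exact ⟨hc.2, hc.1⟩
          have h6 := hg1 h5
          apply h6
          change (g : X ≃ₜ X) ((g : X ≃ₜ X).symm w) ∈ closure W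
          rw [(g : X ≃ₜ X).apply_symm_apply]
          exact subset_closure hw
        have h5 : ((g : X ≃ₜ X).symm '' W ∩ V).Nonempty := by
          refine ⟨x, ⟨(g : X ≃ₜ X) x, hg2 rfl, (g : X ≃ₜ X).symm_apply_apply x⟩, hxV'⟩
        have h6 := h3.subset_left_of_subset_union hV isClosed_closure.isOpen_compl
          (disjoint_compl_right_iff_subset.2 subset_closure) h4 h5
        exact hVU (subset_closure (h6 ⟨z, hz, rfl⟩))
    filter_upwards [key] with g hg y hy
    exact hg y hy
  exact { continuous_mul := hmul, continuous_inv := hinv }

end Pool.Agent.Run7.h754
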