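import Mathlib

/-!
# Piecewise linear maps: continuous selections of finitely many affine maps
-/

open Set Filter Topology

namespace Pool.Agent.Run7.h754

section gen
variable {E F G : Type*} [NormedAddCommGroup E] [NormedSpace ℝ E] [NormedAddCommGroup F]
  [NormedSpace ℝ F] [NormedAddCommGroup G] [NormedSpace ℝ G]

/-- A piecewise linear map with finitely many pieces: a continuous map which at each point agrees
with one of finitely many affine maps. -/
def PLf (f : E → F) : Prop :=
  Continuous f ∧ ∃ S : Set (E →ᵃ[ℝ] F), S.Finite ∧ ∀ x, ∃ A ∈ S, f x = A x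

theorem PLf.affine [FiniteDimensional ℝ E] (A : E →ᵃ[ℝ] F) : PLf (A : E → F) :=
  ⟨A.continuous_of_finiteDimensional, {A}, finite_singleton A, fun _ => ⟨A, rfl, rfl⟩⟩

theorem PLf.affine' [FiniteDimensional ℝ E] {f : E → F} (A : E →ᵃ[ℝ] F) (h : ∀ x, f x = A x) :
    PLf f := by
  rw [funext h]
  exact PLf.affine A

theorem PLf.const (c : F) : PLf (fun _ : E => c) :=
  ⟨continuous_const, {AffineMap.const ℝ E c}, finite_singleton _, fun _ => ⟨_, rfl, rfl⟩⟩

theorem PLf.id : PLf (fun x : E => x) :=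
  ⟨continuous_id, {AffineMap.id ℝ E}, finite_singleton _, fun _ => ⟨_, rfl, rfl⟩⟩

theorem PLf.comp {g : F → G} {f : E → F} (hg : PLf g) (hf : PLf f) : PLf (fun x => g (f x)) := by
  obtain ⟨hgc, S, hS, hgS⟩ := hg
  obtain ⟨hfc, T, hT, hfT⟩ := hf
  refine ⟨hgc.comp hfc, image2 (fun A B => AffineMap.comp A B) S T, hS.image2 _ hT, fun x => ?_⟩
  obtain ⟨B, hB, hfB⟩ := hfT x
  obtain ⟨A, hA, hgA⟩ := hgS (f x)
  exact ⟨A.comp B, ⟨A, hA, B, hB, rfl⟩, by change g (f x) = A (B x); rw [hgA, hfB]⟩

theorem PLf.add {f g : E → F} (hf : PLf f) (hg : PLf g) : PLf (fun x => f x + g x) := by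
  obtain ⟨hfc, S, hS, hfS⟩ := hf
  obtain ⟨hgc, T, hT, hgT⟩ := hg
  refine ⟨hfc.add hgc, image2 (fun A B => A + B) S T, hS.image2 _ hT, fun x => ?_⟩
  obtain ⟨A, hA, hfA⟩ := hfS x
  obtain ⟨B, hB, hgB⟩ := hgT x
  exact ⟨A + B, ⟨A, hA, B, hB, rfl⟩, by change f x + g x = A x + B x; rw [hfA, hgB]⟩

theorem PLf.clm {f : E → F} (hf : PLf f) (L : F →L[ℝ] G) : PLf (fun x => L (f x)) := by
  obtain ⟨hfc, S, hS, hfS⟩ := hf
  refine ⟨L.continuous.comp hfc, (fun A => (L : F →ₗ[ℝ] G).toAffineMap.comp A) '' S,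
    hS.image _, fun x => ?_⟩
  obtain ⟨A, hA, hfA⟩ := hfS x
  exact ⟨_, ⟨A, hA, rfl⟩, by change L (f x) = L (A x); rw [hfA]⟩

theorem PLf.neg {f : E → F} (hf : PLf f) : PLf (fun x => - f x) :=
  hf.clm (-(ContinuousLinearMap.id ℝ F))

theorem PLf.sub {f g : E → F} (hf : PLf f) (hg : PLf g) : PLf (fun x => f x - g x) := by
  simpa [sub_eq_add_neg] using hf.add hg.neg

theorem PLf.const_smul {f : E → F} (hf : PLf f) (c : ℝ) : PLf (fun x => c • f x) :=
  hf.clm (c • (ContinuousLinearMap.id ℝ F))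

theorem PLf.smul_const {f : E → ℝ} (hf : PLf f) (v : F) : PLf (fun x => f x • v) := by
  have := hf.clm ((ContinuousLinearMap.id ℝ ℝ).smulRight v)
  simpa using this

theorem PLf.const_mul {f : E → ℝ} (hf : PLf f) (c : ℝ) : PLf (fun x => c * f x) := by
  simpa using hf.const_smul c

theorem PLf.select {h f g : E → F} (hh : Continuous h) (hf : PLf f) (hg : PLf g)
    (hsel : ∀ x, h x = f x ∨ h x = g x) : PLf h := by
  obtain ⟨hfc, S, hS, hfS⟩ := hf
  obtain ⟨hgc, T, hT, hgT⟩ := hg
  refine ⟨hh, S ∪ T, hS.union hT, fun x => ?_⟩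
  rcases hsel x with h1 | h1
  · obtain ⟨A, hA, hfA⟩ := hfS x
    exact ⟨A, Or.inl hA, by rw [h1, hfA]⟩
  · obtain ⟨B, hB, hgB⟩ := hgT x
    exact ⟨B, Or.inr hB, by rw [h1, hgB]⟩

theorem PLf.max {f g : E → ℝ} (hf : PLf f) (hg : PLf g) : PLf (fun x => max (f x) (g x)) :=
  PLf.select (hf.1.max hg.1) hf hg (fun x => max_choice _ _)

theorem PLf.min {f g : E → ℝ} (hf : PLf f) (hg : PLf g) : PLf (fun x => min (f x) (g x)) :=
  PLf.select (hf.1.min hg.1) hf hg (fun x => min_choice _ _)

theorem PLf.abs {f : E → ℝ} (hf : PLf f) : PLf (fun x => |f x|) :=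
  PLf.select hf.1.abs hf hf.neg (fun x => abs_choice _)

theorem PLf.sup {ι : Type*} (s : Finset ι) (hs : s.Nonempty) {f : ι → E → ℝ}
    (hf : ∀ i, PLf (f i)) : PLf (fun x => s.sup' hs (fun i => f i x)) := by
  induction hs using Finset.Nonempty.cons_induction with
  | singleton a => simpa using hf a
  | cons a s ha hs ih =>
    have : (fun x => (Finset.cons a s ha).sup' (Finset.cons_nonempty ha) (fun i => f i x)) =
        fun x => Max.max (f a x) (s.sup' hs (fun i => f i x)) := by
      ext x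
      rw [Finset.sup'_cons hs]
    rw [this]
    exact (hf a).max ih

end gen

section pi
variable {E : Type*} [NormedAddCommGroup E] [NormedSpace ℝ E] {ι : Type*} [Fintype ι]

theorem PLf.coord {f : E → ι → ℝ} (hf : PLf f) (i : ι) : PLf (fun x => f x i) :=
  hf.clm (ContinuousLinearMap.proj i)

/-- The maximum norm of a piecewise linear map is piecewise linear. -/
theorem PLf.norm {f : E → ι → ℝ} (hf : PLf f) : PLf (fun x => ‖f x‖) := by
  rcases isEmpty_or_nonempty ι with h | h
  · have : (fun x => ‖f x‖) = fun _ => (0 : ℝ) := by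
      ext x
      rw [Subsingleton.elim (f x) 0, norm_zero]
    rw [this]
    exact PLf.const 0
  · have : (fun x => ‖f x‖) =
        fun x => Finset.univ.sup' Finset.univ_nonempty (fun i => |f x i|) := by
      ext x
      apply le_antisymm
      · rw [pi_norm_le_iff_of_nonempty]
        intro i
        rw [Real.norm_eq_abs]
        exact Finset.le_sup' (fun i => |f x i|) (Finset.mem_univ i)
      · apply Finset.sup'_le
        intro i _
        rw [← Real.norm_eq_abs]
        exact norm_le_pi_norm (f x) i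
    rw [this]
    exact PLf.sup _ _ (fun i => (hf.coord i).abs)

end pi

section inv
variable {E : Type*} [NormedAddCommGroup E] [NormedSpace ℝ E] [FiniteDimensional ℝ E]

/-- The inverse of a piecewise linear homeomorphism is piecewise linear. -/
theorem PLf.symm (F : E ≃ₜ E) (hF : PLf (F : E → E)) : PLf (F.symm : E → E) := by
  classical
  obtain ⟨hFc, S, hS, hFS⟩ := hF
  let C : (E →ᵃ[ℝ] E) → Set E := fun A => F '' {x | F x = A x}
  have hC : ∀ A, IsClosed (C A) := fun A =>
    F.isClosedMap _ (isClosed_eq hFc A.continuous_of_finiteDimensional)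
  -- the nonsingular ones
  let Sn : Set (E →ᵃ[ℝ] E) := {A ∈ S | Function.Bijective A}
  let Ss : Set (E →ᵃ[ℝ] E) := {A ∈ S | ¬ Function.Bijective A}
  have hSn : Sn.Finite := hS.subset (fun A hA => hA.1)
  have hSs : Ss.Finite := hS.subset (fun A hA => hA.1)
  have hcov : ∀ y, y ∈ ⋃ A ∈ Sn, C A := by
    -- the complement is open and contained in a finite union of nowhere dense sets
    by_contra hc
    push Not at hc
    obtain ⟨y, hy⟩ := hc
    have hop : IsOpen (⋃ A ∈ Sn, C A)ᶜ :=
      (hSn.isClosed_biUnion (fun A _ => hC A)).isOpen_compl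
    have hsub : (⋃ A ∈ Sn, C A)ᶜ ⊆ ⋃ A ∈ Ss, range A := by
      intro z hz
      obtain ⟨A, hA, hAz⟩ := hFS (F.symm z)
      rw [F.apply_symm_apply] at hAz
      by_cases hb : Function.Bijective A
      · exfalso
        apply hz
        simp only [mem_iUnion]
        exact ⟨A, ⟨hA, hb⟩, F.symm z, (F.apply_symm_apply z).trans hAz, F.apply_symm_apply z⟩
      · simp only [mem_iUnion]
        exact ⟨A, ⟨hA, hb⟩, F.symm z, hAz.symm⟩
    -- measure argument
    let _ : MeasurableSpace E := borel E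
    have : BorelSpace E := ⟨rfl⟩
    let μ : MeasureTheory.Measure E := MeasureTheory.Measure.addHaar
    have h0 : μ (⋃ A ∈ Ss, range A) = 0 := by
      rw [MeasureTheory.measure_biUnion_null_iff hSs.countable]
      intro A hA
      have h1 : (range A : Set E) = ((⊤ : AffineSubspace ℝ E).map A : Set E) := by simp
      rw [h1]
      apply MeasureTheory.Measure.addHaar_affineSubspace
      intro htop
      apply hA.2
      have hsurj : Function.Surjective A := by
        rw [← range_eq_univ, h1, htop]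
        rfl
      have h2 : Function.Surjective A.linear := A.linear_surjective_iff.2 hsurj
      have h3 : Function.Injective A.linear := LinearMap.injective_iff_surjective.2 h2
      exact ⟨A.linear_injective_iff.1 h3, hsurj⟩
    have h1 : μ (⋃ A ∈ Sn, C A)ᶜ = 0 := MeasureTheory.measure_mono_null hsub h0
    exact (hop.measure_pos μ ⟨y, hy⟩).ne' h1
  refine ⟨F.symm.continuous, (fun A : E →ᵃ[ℝ] E => if h : Function.Bijective A then
    ((AffineEquiv.ofBijective h).symm : E →ᵃ[ℝ] E) else A) '' Sn, hSn.image _, fun y => ?_⟩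
  have hy := hcov y
  simp only [mem_iUnion] at hy
  obtain ⟨A, hA, x, hx, hxy⟩ := hy
  refine ⟨_, ⟨A, hA, rfl⟩, ?_⟩
  simp only [hA.2, dif_pos]
  have hx' : F x = A x := hx
  rw [← hxy, F.symm_apply_apply, hx']
  change x = (AffineEquiv.ofBijective hA.2).symm (A x)
  exact ((AffineEquiv.ofBijective hA.2).symm_apply_apply x).symm

end inv

end Pool.Agent.Run7.h754
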