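import Mathlib
import Pool.Agent.Run7.h754.Abs
import Pool.Agent.Run7.h754.PLf

/-!
# Shears: piecewise linear homeomorphisms moving points in a fixed direction
-/

open Set Filter Topology

namespace Pool.Agent.Run7.h754

section gen
variable {E : Type*} [NormedAddCommGroup E] [NormedSpace ℝ E] [FiniteDimensional ℝ E]

theorem shear_homeo (ψ : E → ℝ) (hψ : Continuous ψ) (v : E) {κ C : ℝ} (hκ : κ < 1)
    (hsl : ∀ z, ∀ t ≥ 0, ψ z - κ * t ≤ ψ (z + t • v)) (hC : ∀ z, |ψ z| ≤ C) :
    ∃ F : E ≃ₜ E, ∀ z, F z = z + ψ z • v := by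
  let f : E → E := fun z => z + ψ z • v
  have hf : Continuous f := by
    change Continuous (fun z => z + ψ z • v)
    fun_prop
  have hinj : Function.Injective f := by
    have key : ∀ z z', f z = f z' → ψ z' ≤ ψ z → z = z' := by
      intro z z' h hle
      have h1 : z + (ψ z - ψ z') • v = z' := by
        have h2 : z + ψ z • v = z' + ψ z' • v := h
        rw [sub_smul, ← add_sub_assoc, h2, add_sub_cancel_right]
      have h3 := hsl z (ψ z - ψ z') (by linarith)
      rw [h1] at h3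
      have h4 : ψ z - ψ z' = 0 := by nlinarith
      rw [h4, zero_smul, add_zero] at h1
      exact h1
    intro z z' h
    rcases le_total (ψ z') (ψ z) with h1 | h1
    · exact key z z' h h1
    · exact (key z' z h.symm h1).symm
  have hsurj : Function.Surjective f := by
    intro w
    let h : ℝ → ℝ := fun t => ψ (w - t • v) - t
    have hh : Continuous h := by
      change Continuous (fun t : ℝ => ψ (w - t • v) - t)
      fun_prop
    have hC0 : 0 ≤ C := (abs_nonneg _).trans (hC 0)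
    have h1 : 0 ≤ h (-C) := by
      have := (abs_le.1 (hC (w - (-C) • v))).1
      change 0 ≤ ψ (w - (-C) • v) - (-C)
      linarith
    have h2 : h C ≤ 0 := by
      have := (abs_le.1 (hC (w - C • v))).2
      change ψ (w - C • v) - C ≤ 0
      linarith
    obtain ⟨t, -, ht⟩ := intermediate_value_Icc' (by linarith : -C ≤ C) hh.continuousOn ⟨h2, h1⟩
    refine ⟨w - t • v, ?_⟩
    have h3 : ψ (w - t • v) = t := by
      have : ψ (w - t • v) - t = 0 := ht
      linarith
    change w - t • v + ψ (w - t • v) • v = w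
    rw [h3, sub_add_cancel]
  have hproper : IsProperMap f := by
    rw [isProperMap_iff_tendsto_cocompact]
    refine ⟨hf, ?_⟩
    rw [← Metric.cobounded_eq_cocompact, ← tendsto_norm_atTop_iff_cobounded]
    have h1 : ∀ z, ‖z‖ - C * ‖v‖ ≤ ‖f z‖ := by
      intro z
      have h2 : ‖z‖ ≤ ‖f z‖ + ‖ψ z • v‖ := by
        have : z = f z - ψ z • v := by
          change z = z + ψ z • v - ψ z • v
          rw [add_sub_cancel_right]
        calc ‖z‖ = ‖f z - ψ z • v‖ := by rw [← this]
          _ ≤ _ := norm_sub_le _ _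
      have h3 : ‖ψ z • v‖ ≤ C * ‖v‖ := by
        rw [norm_smul, Real.norm_eq_abs]
        exact mul_le_mul_of_nonneg_right (hC z) (norm_nonneg v)
      linarith
    apply tendsto_atTop_mono h1
    exact tendsto_atTop_add_const_right _ _ tendsto_norm_cobounded_atTop
  have hhom : IsHomeomorph f :=
    isHomeomorph_iff_continuous_isClosedMap_bijective.2 ⟨hf, hproper.isClosedMap, hinj, hsurj⟩
  exact ⟨hhom.homeomorph f, fun z => rfl⟩

/-- The piecewise linear shears. -/
theorem shear_pl {ψ : E → ℝ} (hψ : PLf ψ) (v : E) {κ : ℝ} (hκ : κ < 1)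
    (hsl : ∀ z, ∀ t ≥ 0, ψ z - κ * t ≤ ψ (z + t • v)) {K : Set E} (hK : IsCompact K)
    (hK0 : ∀ z, z ∉ K → ψ z = 0) :
    ∃ F : E ≃ₜ E, PLf (F : E → E) ∧ (∀ z, F z = z + ψ z • v) := by
  obtain ⟨C, hC⟩ := (hK.image_of_continuousOn (f := ψ) hψ.1.continuousOn).isBounded.exists_norm_le
  have hC' : ∀ z, |ψ z| ≤ max C 0 := by
    intro z
    by_cases h : z ∈ K
    · exact (hC _ ⟨z, h, rfl⟩).trans (le_max_left _ _)
    · rw [hK0 z h, abs_zero]
      exact le_max_right _ _
  obtain ⟨F, hF⟩ := shear_homeo ψ hψ.1 v hκ hsl hC'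
  refine ⟨F, ?_, hF⟩
  have : (F : E → E) = fun z => z + ψ z • v := funext hF
  rw [this]
  exact PLf.id.add (hψ.smul_const v)

/-- `F` is a piecewise linear homeomorphism which is the identity outside a compact subset
of `O`. -/
def PLs (F : E ≃ₜ E) (O : Set E) : Prop := PLf (F : E → E) ∧ SuppIn F O

theorem PLs.one (O : Set E) : PLs (1 : E ≃ₜ E) O := ⟨PLf.id, SuppIn.one O⟩

theorem PLs.mul {F F' : E ≃ₜ E} {O : Set E} (h : PLs F O) (h' : PLs F' O) : PLs (F * F') O :=
  ⟨h.1.comp h'.1, h.2.mul h'.2⟩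

theorem PLs.inv {F : E ≃ₜ E} {O : Set E} (h : PLs F O) : PLs F⁻¹ O :=
  ⟨PLf.symm F h.1, h.2.inv⟩

theorem PLs.mono {F : E ≃ₜ E} {O O' : Set E} (h : PLs F O) (hO : O ⊆ O') : PLs F O' :=
  ⟨h.1, h.2.mono hO⟩

end gen

end Pool.Agent.Run7.h754
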