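import Mathlib
import Pool.Agent.Run7.h754.Shear

/-!
# Triangle moves
-/

open Set Filter Topology

namespace Pool.Agent.Run7.h754

section gen
variable {E : Type*} [NormedAddCommGroup E] [NormedSpace ℝ E]

theorem conv3 {C : Set E} (hC : Convex ℝ C) {a b c : E} (ha : a ∈ C) (hb : b ∈ C) (hc : c ∈ C)
    {x y z : ℝ} (hx : 0 ≤ x) (hy : 0 ≤ y) (hz : 0 ≤ z) (h : x + y + z = 1) :
    x • a + y • b + z • c ∈ C := by
  have h1 := hC.sum_mem (t := Finset.univ) (w := ![x, y, z]) (z := ![a, b, c])
    (by intro i _; fin_cases i <;> simpa) (by simpa [Fin.sum_univ_three] using h)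
    (by intro i _; fin_cases i <;> simpa)
  simpa [Fin.sum_univ_three] using h1

theorem mem_tri {a b c : E} {s t : ℝ} (ht : 0 ≤ t) (h1 : t ≤ 2 * s) (h2 : t ≤ 2 - 2 * s) :
    a + s • (b - a) + t • (c - (1 / 2 : ℝ) • (a + b)) ∈ convexHull ℝ ({a, b, c} : Set E) := by
  have h3 : a + s • (b - a) + t • (c - (1 / 2 : ℝ) • (a + b)) =
      (1 - s - t / 2) • a + (s - t / 2) • b + t • c := by
    module
  rw [h3]
  exact conv3 (convex_convexHull ℝ _) (subset_convexHull ℝ _ (by simp))
    (subset_convexHull ℝ _ (by simp)) (subset_convexHull ℝ _ (by simp)) (by linarith) (by linarith)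
    ht (by ring)

/-- Dual functionals. -/
theorem exists_dual {u v : E} [FiniteDimensional ℝ E] (hu : u ≠ 0) (hv : ∀ r : ℝ, v ≠ r • u) :
    ∃ s t : E →L[ℝ] ℝ, s u = 1 ∧ s v = 0 ∧ t u = 0 ∧ t v = 1 := by
  let f : ℝ × ℝ →ₗ[ℝ] E := (LinearMap.toSpanSingleton ℝ E u).coprod
    (LinearMap.toSpanSingleton ℝ E v)
  have hf : LinearMap.ker f = ⊥ := by
    rw [LinearMap.ker_eq_bot']
    rintro ⟨x, y⟩ h
    have h1 : x • u + y • v = 0 := h
    have hy : y = 0 := by
      by_contra hy
      apply hv (-(y⁻¹ * x))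
      have : y • v = -(x • u) := by
        rw [eq_neg_iff_add_eq_zero, add_comm]
        exact h1
      calc v = y⁻¹ • (y • v) := by rw [smul_smul, inv_mul_cancel₀ hy, one_smul]
        _ = _ := by rw [this]; module
    rw [hy, zero_smul, add_zero] at h1
    have hx : x = 0 := (smul_eq_zero.1 h1).resolve_right hu
    rw [hx, hy]
    rfl
  obtain ⟨g, hg⟩ := f.exists_leftInverse_of_injective hf
  have hgu : g u = (1, 0) := by
    have := LinearMap.congr_fun hg (1, 0)
    simpa [f] using this
  have hgv : g v = (0, 1) := by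
    have := LinearMap.congr_fun hg (0, 1)
    simpa [f] using this
  refine ⟨LinearMap.toContinuousLinearMap ((LinearMap.fst ℝ ℝ ℝ) ∘ₗ g),
    LinearMap.toContinuousLinearMap ((LinearMap.snd ℝ ℝ ℝ) ∘ₗ g), ?_, ?_, ?_, ?_⟩ <;>
  simp [hgu, hgv]

end gen

/-- The elementary estimate behind the behaviour of the triangle move on rays. -/
theorem ray_num {σ θ ϖ : ℝ} (hϖ : 0 ≤ ϖ) (h : ¬ (ϖ = 0 ∧ 0 ≤ θ ∧ θ ≤ 2 * σ)) :
    ∀ᶠ K : ℝ in atTop, 2 * σ ≤ max ((1 - 1 / K) * θ) (-K * θ) + K * ϖ := by
  rcases hϖ.lt_or_eq with h1 | h1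
  · filter_upwards [eventually_ge_atTop (max 1 ((2 * |σ| + |θ|) / ϖ))] with K hK
    have hK1 : 1 ≤ K := (le_max_left _ _).trans hK
    have hK2 : 2 * |σ| + |θ| ≤ K * ϖ := by
      rw [← div_le_iff₀ h1]
      exact (le_max_right _ _).trans hK
    have hK3 : 0 ≤ 1 - 1 / K ∧ 1 - 1 / K ≤ 1 := by
      constructor
      · rw [sub_nonneg, div_le_one (by linarith)]
        exact hK1
      · have : 0 ≤ 1 / K := by positivity
        linarith
    have h2 : -|θ| ≤ (1 - 1 / K) * θ := by
      have := neg_abs_le ((1 - 1 / K) * θ)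
      rw [abs_mul, abs_of_nonneg hK3.1] at this
      nlinarith [abs_nonneg θ]
    have h3 := le_max_left ((1 - 1 / K) * θ) (-K * θ)
    have h4 := le_abs_self σ
    linarith
  · rcases lt_or_ge θ 0 with h2 | h2
    · filter_upwards [eventually_ge_atTop (max 1 ((2 * |σ|) / (-θ)))] with K hK
      have hK1 : 1 ≤ K := (le_max_left _ _).trans hK
      have hK2 : 2 * |σ| ≤ K * (-θ) := by
        rw [← div_le_iff₀ (by linarith)]
        exact (le_max_right _ _).trans hK
      have h3 := le_max_right ((1 - 1 / K) * θ) (-K * θ)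
      have h4 := le_abs_self σ
      rw [← h1, mul_zero, add_zero]
      linarith
    · have h3 : 2 * σ < θ := by
        by_contra hc
        exact h ⟨h1.symm, h2, not_lt.1 hc⟩
      filter_upwards [eventually_ge_atTop (max 1 (θ / (θ - 2 * σ)))] with K hK
      have hK1 : 1 ≤ K := (le_max_left _ _).trans hK
      have hK2 : θ ≤ K * (θ - 2 * σ) := by
        rw [← div_le_iff₀ (by linarith)]
        exact (le_max_right _ _).trans hK
      have hK0 : 0 < K := by linarith
      have h4 := le_max_left ((1 - 1 / K) * θ) (-K * θ)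
      rw [← h1, mul_zero, add_zero]
      refine le_trans ?_ h4
      have h5 : θ / K ≤ θ - 2 * σ := by
        rw [div_le_iff₀ hK0, mul_comm]
        exact hK2
      have h6 : (1 - 1 / K) * θ = θ - θ / K := by ring
      rw [h6]
      linarith

section pl
variable {n : ℕ}

theorem TM {a b c : Fin n → ℝ} (hab : a ≠ b) (hc : ∀ r : ℝ, c ≠ a + r • (b - a))
    {O : Set (Fin n → ℝ)} (hO : IsOpen O) (hΔ : convexHull ℝ {a, b, c} ⊆ O)
    {Y : Set ((Fin n → ℝ) × (Fin n → ℝ))} (hY : Y.Finite)
    (hYp : ∀ p ∈ Y, ∀ z ∈ segment ℝ p.1 p.2, z ∈ convexHull ℝ {a, b, c} →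
      (z = a ∨ z = b) ∧ (z = p.1 ∨ z = p.2)) :
    ∃ F : (Fin n → ℝ) ≃ₜ (Fin n → ℝ), PLs F O ∧ (∀ p ∈ Y, ∀ z ∈ segment ℝ p.1 p.2, F z = z) ∧
      F a = a ∧ F b = b ∧ F '' segment ℝ a b = segment ℝ a c ∪ segment ℝ c b := by
  set u := b - a with hu
  set v := c - (1 / 2 : ℝ) • (a + b) with hv
  have hu0 : u ≠ 0 := sub_ne_zero.2 hab.symm
  have hvr : ∀ r : ℝ, v ≠ r • u := by
    intro r h
    apply hc (r + 1 / 2)
    have : c = v + (1 / 2 : ℝ) • (a + b) := by rw [hv]; abel
    rw [this, h, hu]
    module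
  obtain ⟨s, t, hsu, hsv, htu, htv⟩ := exists_dual hu0 hvr
  -- the projection killing the plane
  let π : (Fin n → ℝ) →L[ℝ] (Fin n → ℝ) :=
    ContinuousLinearMap.id ℝ _ - s.smulRight u - t.smulRight v
  have hπ : ∀ z, π z = z - s z • u - t z • v := fun z => rfl
  have hπu : π u = 0 := by rw [hπ, hsu, htu]; module
  have hπv : π v = 0 := by rw [hπ, hsv, htv]; module
  let μ : (Fin n → ℝ) → ℝ := fun z => min (2 * s (z - a)) (2 - 2 * s (z - a))
  let φ : ℝ → (Fin n → ℝ) → ℝ := fun K z =>
    max ((1 - 1 / K) * t (z - a)) (-K * t (z - a)) + K * ‖π (z - a)‖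
  let ψ : ℝ → (Fin n → ℝ) → ℝ := fun K z => max 0 (μ z - φ K z)
  have hψpl : ∀ K, PLf (ψ K) := by
    intro K
    have h0 : PLf (fun z : Fin n → ℝ => z - a) := PLf.id.sub (PLf.const a)
    have hs : PLf (fun z : Fin n → ℝ => s (z - a)) := h0.clm s
    have ht : PLf (fun z : Fin n → ℝ => t (z - a)) := h0.clm t
    have hp : PLf (fun z : Fin n → ℝ => ‖π (z - a)‖) := (h0.clm π).norm
    exact (PLf.const 0).max (((hs.const_mul 2).min ((PLf.const 2).sub (hs.const_mul 2))).sub
      (((ht.const_mul _).max (ht.const_mul _)).add (hp.const_mul K)))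
  have hsl : ∀ K : ℝ, 1 ≤ K → ∀ z, ∀ τ ≥ 0, ψ K z - (1 - 1 / K) * τ ≤ ψ K (z + τ • v) := by
    intro K hK z τ hτ
    have h1 : z + τ • v - a = (z - a) + τ • v := by abel
    have hμ' : μ (z + τ • v) = μ z := by
      change min (2 * s (z + τ • v - a)) (2 - 2 * s (z + τ • v - a)) = _
      rw [h1, map_add, map_smul, hsv, smul_zero, add_zero]
    have hφ' : φ K (z + τ • v) ≤ φ K z + (1 - 1 / K) * τ := by
      change max ((1 - 1 / K) * t (z + τ • v - a)) (-K * t (z + τ • v - a)) +
        K * ‖π (z + τ • v - a)‖ ≤ _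
      rw [h1, map_add, map_add, map_smul, map_smul, htv, hπv, smul_zero, add_zero, smul_eq_mul,
        mul_one]
      have h2 : 0 ≤ 1 - 1 / K := by
        rw [sub_nonneg, div_le_one (by linarith)]
        exact hK
      have h3 : max ((1 - 1 / K) * (t (z - a) + τ)) (-K * (t (z - a) + τ)) ≤
          max ((1 - 1 / K) * t (z - a)) (-K * t (z - a)) + (1 - 1 / K) * τ := by
        apply max_le
        · have := le_max_left ((1 - 1 / K) * t (z - a)) (-K * t (z - a))
          linarith
        · have := le_max_right ((1 - 1 / K) * t (z - a)) (-K * t (z - a))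
          nlinarith
      change _ ≤ max ((1 - 1 / K) * t (z - a)) (-K * t (z - a)) + K * ‖π (z - a)‖ + _
      linarith
    have h2 : 0 ≤ (1 - 1 / K) * τ := by
      apply mul_nonneg _ hτ
      rw [sub_nonneg, div_le_one (by linarith)]
      exact hK
    change max 0 (μ z - φ K z) - (1 - 1 / K) * τ ≤ max 0 (μ (z + τ • v) - φ K (z + τ • v))
    rw [hμ']
    rcases le_total 0 (μ z - φ K z) with h3 | h3
    · rw [max_eq_right h3]
      refine le_trans ?_ (le_max_right _ _)
      linarith
    · rw [max_eq_left h3]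
      refine le_trans ?_ (le_max_left _ _)
      linarith
  -- the obstacles disjoint from the triangle
  let Y0 : Set ((Fin n → ℝ) × (Fin n → ℝ)) :=
    {p ∈ Y | Disjoint (segment ℝ p.1 p.2) (convexHull ℝ {a, b, c})}
  have hY0 : Y0.Finite := hY.subset (fun p hp => hp.1)
  let Z : Set (Fin n → ℝ) := ⋃ p ∈ Y0, segment ℝ p.1 p.2
  have hsegc : ∀ p q : Fin n → ℝ, IsCompact (segment ℝ p q) := fun p q => by
    rw [← convexHull_pair]
    exact (toFinite _).isCompact_convexHull ℝ
  have hZ : IsClosed Z := hY0.isClosed_biUnion (fun p _ => (hsegc _ _).isClosed)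
  have hΔc : IsCompact (convexHull ℝ ({a, b, c} : Set (Fin n → ℝ))) :=
    (toFinite _).isCompact_convexHull ℝ
  obtain ⟨r, hr, hrO⟩ := hΔc.exists_cthickening_subset_open (hO.sdiff hZ) (by
    intro z hz
    refine ⟨hΔ hz, ?_⟩
    intro hzZ
    simp only [Z, mem_iUnion] at hzZ
    obtain ⟨p, hp, hzp⟩ := hzZ
    exact disjoint_left.1 hp.2 hzp hz)
  -- support
  have hsupp : ∀ K : ℝ, 2 ≤ K → (‖v‖ + 1) / (K - 1) ≤ r → ∀ z,
      z ∉ Metric.cthickening r (convexHull ℝ ({a, b, c} : Set (Fin n → ℝ))) → ψ K z = 0 := by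
    intro K hK hKr z hz
    by_contra hne
    apply hz
    have h1 : φ K z < μ z := by
      by_contra hcon
      apply hne
      exact max_eq_left (by linarith)
    set S := s (z - a) with hS
    set T := t (z - a) with hT
    have hK0 : 0 < K := by linarith
    have hμle : μ z ≤ 1 := by
      rcases le_total (2 * S) 1 with h | h
      · exact (min_le_left _ _).trans h
      · exact (min_le_right _ _).trans (by linarith)
    have hμ1 : μ z ≤ 2 * S := min_le_left _ _
    have hμ2 : μ z ≤ 2 - 2 * S := min_le_right _ _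
    have hφ1 : (1 - 1 / K) * T + K * ‖π (z - a)‖ ≤ φ K z :=
      add_le_add (le_max_left _ _) le_rfl
    have hφ2 : -K * T + K * ‖π (z - a)‖ ≤ φ K z :=
      add_le_add (le_max_right _ _) le_rfl
    have hπ0 : 0 ≤ ‖π (z - a)‖ := norm_nonneg _
    have hKinv : 0 < 1 - 1 / K := by
      rw [sub_pos, div_lt_one hK0]
      linarith
    -- `φ ≥ K ‖π‖`
    have hφ3 : K * ‖π (z - a)‖ ≤ φ K z := by
      rcases le_total 0 T with h | h
      · nlinarith [mul_nonneg hKinv.le h]
      · nlinarith
    have hμ0 : 0 < μ z := lt_of_le_of_lt (mul_nonneg hK0.le hπ0) (hφ3.trans_lt h1)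
    have hπle : ‖π (z - a)‖ ≤ 1 / (K - 1) := by
      rw [le_div_iff₀ (by linarith)]
      nlinarith
    have hTlow : -(1 / (K - 1)) ≤ T := by
      have h2 : -K * T ≤ 1 := by nlinarith [mul_nonneg hK0.le hπ0]
      rw [neg_le, le_div_iff₀ (by linarith)]
      rcases le_total 0 T with h | h
      · nlinarith
      · nlinarith
    have hThigh : T ≤ μ z + 1 / (K - 1) := by
      have h2 : (1 - 1 / K) * T ≤ μ z := by nlinarith [mul_nonneg hK0.le hπ0]
      have h3 : T * (K - 1) ≤ μ z * K := by
        have h4 : (1 - 1 / K) * T * K = T * (K - 1) := by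
          field_simp
        nlinarith
      have h5 : T ≤ μ z * K / (K - 1) := by
        rw [le_div_iff₀ (by linarith)]
        exact h3
      have h6 : μ z * K / (K - 1) = μ z + μ z / (K - 1) := by
        have : K - 1 ≠ 0 := by linarith
        field_simp
        ring
      have h7 : μ z / (K - 1) ≤ 1 / (K - 1) :=
        div_le_div_of_nonneg_right hμle (by linarith)
      linarith
    -- the nearby point of the triangle
    let T' := max 0 (min T (μ z))
    have hT'0 : 0 ≤ T' := le_max_left _ _
    have hT'1 : T' ≤ μ z := max_le hμ0.le (min_le_right _ _)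
    have hz' := mem_tri (a := a) (b := b) (c := c) hT'0 (hT'1.trans hμ1) (hT'1.trans hμ2)
    refine Metric.mem_cthickening_of_dist_le z _ r _ hz' ?_
    rw [dist_eq_norm]
    have h8 : z - (a + S • (b - a) + T' • (c - (1 / 2 : ℝ) • (a + b))) =
        π (z - a) + (T - T') • v := by
      rw [hπ, ← hu, ← hv, ← hS, ← hT]
      module
    rw [h8]
    have h9 : |T - T'| ≤ 1 / (K - 1) := by
      have h10 : 0 ≤ 1 / (K - 1) := div_nonneg zero_le_one (by linarith)
      rcases le_total T (μ z) with h | h
      · have h11 : T' = max 0 T := by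
          change max 0 (min T (μ z)) = _
          rw [min_eq_left h]
        rcases le_total 0 T with h' | h'
        · rw [h11, max_eq_right h', sub_self, abs_zero]
          exact h10
        · rw [h11, max_eq_left h', sub_zero, abs_of_nonpos h']
          linarith
      · have h11 : T' = μ z := by
          change max 0 (min T (μ z)) = _
          rw [min_eq_right h, max_eq_right hμ0.le]
        rw [h11, abs_of_nonneg (by linarith)]
        linarith
    calc ‖π (z - a) + (T - T') • v‖ ≤ ‖π (z - a)‖ + ‖(T - T') • v‖ := norm_add_le _ _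
      _ = ‖π (z - a)‖ + |T - T'| * ‖v‖ := by rw [norm_smul, Real.norm_eq_abs]
      _ ≤ 1 / (K - 1) + 1 / (K - 1) * ‖v‖ := by gcongr
      _ = (‖v‖ + 1) / (K - 1) := by ring
      _ ≤ r := hKr
  -- rays from the two endpoints of the base
  have hsub : ∀ z w : Fin n → ℝ, w ∈ segment ℝ z z → w = z := by
    intro z w h
    rw [segment_same] at h
    exact h
  have hraya : ∀ y, (∀ z ∈ segment ℝ a y, z ∈ convexHull ℝ {a, b, c} → z = a ∨ z = b) →
      ∀ᶠ K : ℝ in atTop, ∀ z ∈ segment ℝ a y, ψ K z = 0 := by
    intro y hy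
    have h1 : ¬ (‖π (y - a)‖ = 0 ∧ 0 ≤ t (y - a) ∧ t (y - a) ≤ 2 * s (y - a)) ∨ y = a := by
      by_contra hcon
      rw [not_or, not_not] at hcon
      obtain ⟨⟨h1, h2, h3⟩, h4⟩ := hcon
      rw [norm_eq_zero] at h1
      have hs0 : 0 ≤ s (y - a) := by linarith
      -- a small multiple
      let l : ℝ := 1 / (2 + 2 * s (y - a) + t (y - a))
      have hl0 : 0 < l := by positivity
      have hl1 : l * (2 + 2 * s (y - a) + t (y - a)) = 1 := by
        change 1 / (2 + 2 * s (y - a) + t (y - a)) * (2 + 2 * s (y - a) + t (y - a)) = 1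
        rw [one_div, inv_mul_cancel₀ (by positivity)]
      have hl2 : l ≤ 1 := by nlinarith
      have h5 := mem_tri (a := a) (b := b) (c := c) (s := l * s (y - a)) (t := l * t (y - a))
        (by positivity) (by nlinarith) (by nlinarith)
      have h6 : a + (l * s (y - a)) • (b - a) + (l * t (y - a)) • (c - (1 / 2 : ℝ) • (a + b)) =
          a + l • (y - a) := by
        rw [hπ] at h1
        rw [← hu, ← hv]
        have h7 : y - a = s (y - a) • u + t (y - a) • v := by
          rw [← sub_eq_zero, ← sub_sub]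
          exact h1
        conv_rhs => rw [h7]
        module
      rw [h6] at h5
      have h7 : a + l • (y - a) ∈ segment ℝ a y := by
        rw [segment_eq_image']
        exact ⟨l, ⟨hl0.le, hl2⟩, rfl⟩
      rcases hy _ h7 h5 with h8 | h8
      · rw [add_eq_left, smul_eq_zero] at h8
        rcases h8 with h8 | h8
        · exact hl0.ne' h8
        · exact h4 (sub_eq_zero.1 h8)
      · have h9 : l • (y - a) = u := by
          rw [hu, ← h8]
          abel
        have h10 : l * s (y - a) = 1 := by
          rw [← hsu, ← h9, map_smul, smul_eq_mul]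
        nlinarith
    rcases h1 with h1 | h1
    · filter_upwards [ray_num (norm_nonneg _) h1, eventually_ge_atTop 1] with K hK hK1 z hz
      rw [segment_eq_image'] at hz
      obtain ⟨l, ⟨hl0, hl1⟩, rfl⟩ := hz
      apply max_eq_left
      have h2 : μ (a + l • (y - a)) ≤ l * (2 * s (y - a)) := by
        refine (min_le_left _ _).trans ?_
        rw [add_sub_cancel_left, map_smul, smul_eq_mul]
        linarith
      have h3 : φ K (a + l • (y - a)) =
          l * (max ((1 - 1 / K) * t (y - a)) (-K * t (y - a)) + K * ‖π (y - a)‖) := by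
        change max ((1 - 1 / K) * t (a + l • (y - a) - a)) (-K * t (a + l • (y - a) - a)) +
          K * ‖π (a + l • (y - a) - a)‖ = _
        rw [add_sub_cancel_left, map_smul, map_smul, norm_smul, smul_eq_mul, Real.norm_eq_abs,
          abs_of_nonneg hl0, mul_add, mul_max_of_nonneg _ _ hl0]
        congr 1
        · congr 1 <;> ring
        · ring
      have h4 := mul_le_mul_of_nonneg_left hK hl0
      linarith
    · filter_upwards with K z hz
      have h2 : z = a := hsub a z (by rwa [h1] at hz)
      rw [h2]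
      apply max_eq_left
      have h3 : μ a = 0 := by
        change min (2 * s (a - a)) (2 - 2 * s (a - a)) = 0
        rw [sub_self, map_zero]
        norm_num
      have h4 : φ K a = 0 := by
        change max ((1 - 1 / K) * t (a - a)) (-K * t (a - a)) + K * ‖π (a - a)‖ = 0
        simp
      linarith
  have hza : ∀ z, z - a = (z - b) + u := fun z => by rw [hu]; abel
  have hrayb : ∀ y, (∀ z ∈ segment ℝ b y, z ∈ convexHull ℝ {a, b, c} → z = a ∨ z = b) →
      ∀ᶠ K : ℝ in atTop, ∀ z ∈ segment ℝ b y, ψ K z = 0 := by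
    intro y hy
    have h1 : ¬ (‖π (y - b)‖ = 0 ∧ 0 ≤ t (y - b) ∧ t (y - b) ≤ 2 * (-s (y - b))) ∨ y = b := by
      by_contra hcon
      rw [not_or, not_not] at hcon
      obtain ⟨⟨h1, h2, h3⟩, h4⟩ := hcon
      rw [norm_eq_zero] at h1
      have hs0 : 0 ≤ -s (y - b) := by linarith
      -- a small multiple
      let l : ℝ := 1 / (2 + 2 * (-s (y - b)) + t (y - b))
      have hl0 : 0 < l := by positivity
      have hl1 : l * (2 + 2 * (-s (y - b)) + t (y - b)) = 1 := by
        change 1 / (2 + 2 * (-s (y - b)) + t (y - b)) * (2 + 2 * (-s (y - b)) + t (y - b)) = 1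
        rw [one_div, inv_mul_cancel₀ (by positivity)]
      have hl2 : l ≤ 1 := by nlinarith
      have h5 := mem_tri (a := a) (b := b) (c := c) (s := 1 + l * s (y - b))
        (t := l * t (y - b)) (by positivity) (by nlinarith) (by nlinarith)
      have h6 : a + (1 + l * s (y - b)) • (b - a) + (l * t (y - b)) •
          (c - (1 / 2 : ℝ) • (a + b)) = b + l • (y - b) := by
        rw [hπ] at h1
        have h7 : y - b = s (y - b) • u + t (y - b) • v := by
          rw [← sub_eq_zero, ← sub_sub]
          exact h1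
        conv_rhs => rw [h7]
        rw [← hv, hu]
        module
      rw [h6] at h5
      have h7 : b + l • (y - b) ∈ segment ℝ b y := by
        rw [segment_eq_image']
        exact ⟨l, ⟨hl0.le, hl2⟩, rfl⟩
      rcases hy _ h7 h5 with h8 | h8
      · have h9 : l • (y - b) = -u := by
          rw [hu, ← sub_eq_zero, ← sub_eq_zero.2 h8]
          abel
        have h10 : l * s (y - b) = -1 := by
          have h11 := congrArg s h9
          rw [map_smul, map_neg, hsu, smul_eq_mul] at h11
          exact h11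
        nlinarith
      · rw [add_eq_left, smul_eq_zero] at h8
        rcases h8 with h8 | h8
        · exact hl0.ne' h8
        · exact h4 (sub_eq_zero.1 h8)
    rcases h1 with h1 | h1
    · filter_upwards [ray_num (norm_nonneg _) h1, eventually_ge_atTop 1] with K hK hK1 z hz
      rw [segment_eq_image'] at hz
      obtain ⟨l, ⟨hl0, hl1⟩, rfl⟩ := hz
      apply max_eq_left
      have h0 : b + l • (y - b) - a = l • (y - b) + u := by rw [hu]; abel
      have h2 : μ (b + l • (y - b)) ≤ l * (2 * (-s (y - b))) := by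
        refine (min_le_right _ _).trans ?_
        rw [h0, map_add, map_smul, smul_eq_mul, hsu]
        linarith
      have h3 : φ K (b + l • (y - b)) =
          l * (max ((1 - 1 / K) * t (y - b)) (-K * t (y - b)) + K * ‖π (y - b)‖) := by
        change max ((1 - 1 / K) * t (b + l • (y - b) - a)) (-K * t (b + l • (y - b) - a)) +
          K * ‖π (b + l • (y - b) - a)‖ = _
        rw [h0, map_add, map_add, map_smul, map_smul, htu, hπu, add_zero, add_zero, norm_smul,
          smul_eq_mul, Real.norm_eq_abs,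
          abs_of_nonneg hl0, mul_add, mul_max_of_nonneg _ _ hl0]
        congr 1
        · congr 1 <;> ring
        · ring
      have h4 := mul_le_mul_of_nonneg_left hK hl0
      linarith
    · filter_upwards with K z hz
      have h2 : z = b := hsub b z (by rwa [h1] at hz)
      rw [h2]
      apply max_eq_left
      have h3 : μ b = 0 := by
        change min (2 * s (b - a)) (2 - 2 * s (b - a)) = 0
        rw [← hu, hsu]
        norm_num
      have h4 : φ K b = 0 := by
        change max ((1 - 1 / K) * t (b - a)) (-K * t (b - a)) + K * ‖π (b - a)‖ = 0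
        rw [← hu, htu, hπu]
        simp
      linarith
  -- all obstacles
  have hall : ∀ᶠ K : ℝ in atTop, ∀ p ∈ Y, ∀ z ∈ segment ℝ p.1 p.2, ψ K z = 0 := by
    rw [eventually_all_finite hY]
    intro p hp
    by_cases hd : p ∈ Y0
    · filter_upwards [eventually_ge_atTop 2, eventually_ge_atTop ((‖v‖ + 1) / r + 1)] with K h2 h3
      intro z hz
      refine hsupp K h2 ?_ z ?_
      · rw [div_le_iff₀ (by linarith)]
        have h4 : (‖v‖ + 1) / r ≤ K - 1 := by linarith
        rw [div_le_iff₀ hr] at h4
        linarith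
      · intro hz'
        apply (hrO hz').2
        simp only [Z, mem_iUnion]
        exact ⟨p, hd, hz⟩
    · have h1 : ∃ z ∈ segment ℝ p.1 p.2, z ∈ convexHull ℝ {a, b, c} := by
        by_contra hcon
        push Not at hcon
        exact hd ⟨hp, disjoint_left.2 hcon⟩
      obtain ⟨z, hz, hz'⟩ := h1
      obtain ⟨h1, h2⟩ := hYp p hp z hz hz'
      rcases h2 with h2 | h2
      · rcases h1 with h1 | h1
        · rw [← h2, h1]
          apply hraya
          intro w hw hw'
          rw [← h1, h2] at hw
          exact (hYp p hp w hw hw').1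
        · rw [← h2, h1]
          apply hrayb
          intro w hw hw'
          rw [← h1, h2] at hw
          exact (hYp p hp w hw hw').1
      · rw [segment_symm]
        rcases h1 with h1 | h1
        · rw [← h2, h1]
          apply hraya
          intro w hw hw'
          rw [← h1, h2, segment_symm] at hw
          exact (hYp p hp w hw hw').1
        · rw [← h2, h1]
          apply hrayb
          intro w hw hw'
          rw [← h1, h2, segment_symm] at hw
          exact (hYp p hp w hw hw').1
  obtain ⟨K, hKall, hK2, hK3⟩ := (hall.and ((eventually_ge_atTop 2).and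
    (eventually_ge_atTop ((‖v‖ + 1) / r + 1)))).exists
  have hKr : (‖v‖ + 1) / (K - 1) ≤ r := by
    rw [div_le_iff₀ (by linarith)]
    have h4 : (‖v‖ + 1) / r ≤ K - 1 := by linarith
    rw [div_le_iff₀ hr] at h4
    linarith
  have hK0 : 0 < K := by linarith
  obtain ⟨F, hFpl, hF⟩ := shear_pl (hψpl K) v (κ := 1 - 1 / K)
    (by
      have : 0 < 1 / K := by positivity
      linarith) (hsl K (by linarith)) (hΔc.cthickening (r := r)) (hsupp K hK2 hKr)
  have hline : ∀ l : ℝ, ψ K (a + l • u) = max 0 (min (2 * l) (2 - 2 * l)) := by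
    intro l
    have h1 : μ (a + l • u) = min (2 * l) (2 - 2 * l) := by
      change min (2 * s (a + l • u - a)) (2 - 2 * s (a + l • u - a)) = _
      rw [add_sub_cancel_left, map_smul, hsu, smul_eq_mul, mul_one]
    have h2 : φ K (a + l • u) = 0 := by
      change max ((1 - 1 / K) * t (a + l • u - a)) (-K * t (a + l • u - a)) +
        K * ‖π (a + l • u - a)‖ = 0
      rw [add_sub_cancel_left, map_smul, map_smul, htu, hπu]
      simp
    change max 0 (μ (a + l • u) - φ K (a + l • u)) = _
    rw [h1, h2, sub_zero]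
  have hF1 : ∀ l : ℝ, 0 ≤ l → l ≤ 1 / 2 → F (a + l • u) = a + (2 * l) • (c - a) := by
    intro l h0 h1
    rw [hF, hline, min_eq_left (by linarith), max_eq_right (by linarith), hu, hv]
    module
  have hF2 : ∀ l : ℝ, 1 / 2 ≤ l → l ≤ 1 → F (a + l • u) = c + (2 * l - 1) • (b - c) := by
    intro l h0 h1
    rw [hF, hline, min_eq_right (by linarith), max_eq_right (by linarith), hu, hv]
    module
  refine ⟨F, ⟨hFpl, Metric.cthickening r (convexHull ℝ {a, b, c}),
    hrO.trans sdiff_subset, hΔc.cthickening, fun z hz => ?_⟩, ?_, ?_, ?_, ?_⟩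
  · rw [hF, hsupp K hK2 hKr z hz, zero_smul, add_zero]
  · intro p hp z hz
    rw [hF, hKall p hp z hz, zero_smul, add_zero]
  · have h1 := hF1 0 le_rfl (by norm_num)
    simpa using h1
  · have h1 := hF2 1 (by norm_num) le_rfl
    have h2 : a + (1 : ℝ) • u = b := by rw [hu]; module
    rw [h2] at h1
    rw [h1]
    module
  · ext w
    constructor
    · rintro ⟨z, hz, rfl⟩
      rw [segment_eq_image'] at hz
      obtain ⟨l, ⟨hl0, hl1⟩, rfl⟩ := hz
      change F (a + l • u) ∈ _
      rcases le_total l (1 / 2) with h | h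
      · left
        rw [hF1 l hl0 h, segment_eq_image']
        exact ⟨2 * l, ⟨by linarith, by linarith⟩, rfl⟩
      · right
        rw [hF2 l h hl1, segment_eq_image']
        exact ⟨2 * l - 1, ⟨by linarith, by linarith⟩, rfl⟩
    · rintro (hw | hw)
      · rw [segment_eq_image'] at hw
        obtain ⟨l, ⟨hl0, hl1⟩, rfl⟩ := hw
        refine ⟨a + (l / 2) • u, ?_, ?_⟩
        · rw [segment_eq_image']
          exact ⟨l / 2, ⟨by linarith, by linarith⟩, rfl⟩
        · rw [hF1 _ (by linarith) (by linarith)]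
          change a + (2 * (l / 2)) • (c - a) = a + l • (c - a)
          congr 2
          ring
      · rw [segment_eq_image'] at hw
        obtain ⟨l, ⟨hl0, hl1⟩, rfl⟩ := hw
        refine ⟨a + ((l + 1) / 2) • u, ?_, ?_⟩
        · rw [segment_eq_image']
          exact ⟨(l + 1) / 2, ⟨by linarith, by linarith⟩, rfl⟩
        · rw [hF2 _ (by linarith) (by linarith)]
          change c + (2 * ((l + 1) / 2) - 1) • (b - c) = c + l • (b - c)
          congr 2
          ring

end pl

end Pool.Agent.Run7.h754
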