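import Mathlib
import Pool.Agent.Run7.h754.TM

/-!
# Fans, general position and generic polygonal paths
-/

open Set Filter Topology

namespace Pool.Agent.Run7.h754

variable {n : ℕ}

/-- The fan lemma: a segment is moved onto a polygonal path by triangle moves. -/
theorem fan {O : Set (Fin n → ℝ)} (hO : IsOpen O) (hOc : Convex ℝ O) (N : ℕ)
    (b : ℕ → Fin n → ℝ) (hb : ∀ i ≤ N, b i ∈ O)
    {Y : Set ((Fin n → ℝ) × (Fin n → ℝ))} (hY : Y.Finite)
    (h1 : ∀ j, 1 ≤ j → j < N → b 0 ≠ b (j + 1))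
    (h2 : ∀ j, 1 ≤ j → j < N → ∀ r : ℝ, b j ≠ b 0 + r • (b (j + 1) - b 0))
    (h3 : ∀ j, 1 ≤ j → j < N → ∀ p : (Fin n → ℝ) × (Fin n → ℝ),
      (p ∈ Y ∨ ∃ i, j + 1 ≤ i ∧ i < N ∧ p = (b i, b (i + 1))) →
      ∀ z ∈ segment ℝ p.1 p.2, z ∈ convexHull ℝ {b 0, b (j + 1), b j} →
        (z = b 0 ∨ z = b (j + 1)) ∧ (z = p.1 ∨ z = p.2)) :
    ∀ j, 1 ≤ j → j ≤ N → ∃ k : (Fin n → ℝ) ≃ₜ (Fin n → ℝ), PLs k O ∧
      (∀ p ∈ Y, ∀ z ∈ segment ℝ p.1 p.2, k z = z) ∧
      (∀ i, j ≤ i → i < N → ∀ z ∈ segment ℝ (b i) (b (i + 1)), k z = z) ∧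
      ∀ z ∈ segment ℝ (b 0) (b j), ∃ i < j, k z ∈ segment ℝ (b i) (b (i + 1)) := by
  intro j hj
  induction j, hj using Nat.le_induction with
  | base =>
    intro _
    exact ⟨1, PLs.one _, fun _ _ _ _ => rfl, fun _ _ _ _ _ => rfl,
      fun z hz => ⟨0, by norm_num, hz⟩⟩
  | succ j hj ih =>
    intro hjN
    obtain ⟨k, hk, hkY, hke, hkp⟩ := ih (by omega)
    let Y' : Set ((Fin n → ℝ) × (Fin n → ℝ)) :=
      Y ∪ (fun i => (b i, b (i + 1))) '' (Ico (j + 1) N)
    have hY' : Y'.Finite := hY.union ((finite_Ico _ _).image _)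
    have htri : convexHull ℝ {b 0, b (j + 1), b j} ⊆ O := by
      apply convexHull_min _ hOc
      rintro z (rfl | rfl | rfl)
      · exact hb 0 (by omega)
      · exact hb _ hjN
      · exact hb j (by omega)
    obtain ⟨F, hF, hFY, -, -, hFim⟩ := TM (h1 j hj (by omega)) (h2 j hj (by omega)) hO htri hY'
      (fun p hp => h3 j hj (by omega) p (by
        rcases hp with hp | ⟨i, hi, rfl⟩
        · exact Or.inl hp
        · exact Or.inr ⟨i, hi.1, hi.2, rfl⟩))
    refine ⟨k * F, hk.mul hF, ?_, ?_, ?_⟩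
    · intro p hp z hz
      change k (F z) = z
      rw [hFY p (Or.inl hp) z hz, hkY p hp z hz]
    · intro i hi hiN z hz
      change k (F z) = z
      rw [hFY (b i, b (i + 1)) (Or.inr ⟨i, ⟨hi, hiN⟩, rfl⟩) z hz, hke i (by omega) hiN z hz]
    · intro z hz
      change ∃ i < j + 1, k (F z) ∈ _
      have h4 : F z ∈ segment ℝ (b 0) (b j) ∪ segment ℝ (b j) (b (j + 1)) := by
        rw [← hFim]
        exact ⟨z, hz, rfl⟩
      rcases h4 with h4 | h4
      · obtain ⟨i, hi, hi'⟩ := hkp _ h4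
        exact ⟨i, by omega, hi'⟩
      · refine ⟨j, by omega, ?_⟩
        rw [hke j le_rfl (by omega) _ h4]
        exact h4

/-- The points of `V` are in general position relative to `X`, up to five points at a time. -/
def Gen (V X : Set (Fin n → ℝ)) : Prop :=
  ∀ S : Finset (Fin n → ℝ), (∀ x ∈ S, x ∈ V ∨ x ∈ X) → S.card ≤ 5 → ∀ w : (Fin n → ℝ) → ℝ,
    ∑ x ∈ S, w x = 0 → ∑ x ∈ S, w x • x = 0 → ∀ x ∈ S, x ∈ V → w x = 0

open Classical in
theorem gp {V X : Set (Fin n → ℝ)} (hG : Gen V X) {p c q y y' : Fin n → ℝ}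
    (hp : p ∈ V ∨ p ∈ X) (hc : c ∈ V ∨ c ∈ X) (hq : q ∈ V ∨ q ∈ X) (hy : y ∈ V ∨ y ∈ X)
    (hy' : y' ∈ V ∨ y' ∈ X) {l1 l2 l3 m1 m2 : ℝ} (hs : l1 + l2 + l3 = m1 + m2)
    (h : l1 • p + l2 • c + l3 • q = m1 • y + m2 • y') (x : Fin n → ℝ) (hx : x ∈ V) :
    (if p = x then l1 else 0) + (if c = x then l2 else 0) + (if q = x then l3 else 0) =
      (if y = x then m1 else 0) + (if y' = x then m2 else 0) := by
  let S : Finset (Fin n → ℝ) := {p, c, q, y, y'}
  by_cases hxS : x ∈ S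
  · let w : (Fin n → ℝ) → ℝ := fun x =>
      (if p = x then l1 else 0) + (if c = x then l2 else 0) + (if q = x then l3 else 0) -
      ((if y = x then m1 else 0) + (if y' = x then m2 else 0))
    have hpS : p ∈ S := by simp [S]
    have hcS : c ∈ S := by simp [S]
    have hqS : q ∈ S := by simp [S]
    have hyS : y ∈ S := by simp [S]
    have hyS' : y' ∈ S := by simp [S]
    have h1 : ∑ x ∈ S, w x = 0 := by
      simp only [w, Finset.sum_sub_distrib, Finset.sum_add_distrib, Finset.sum_ite_eq, hpS, hcS,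
        hqS, hyS, hyS', if_true]
      linarith
    have h2 : ∑ x ∈ S, w x • x = 0 := by
      simp only [w, sub_smul, add_smul, ite_smul, zero_smul, Finset.sum_sub_distrib,
        Finset.sum_add_distrib, Finset.sum_ite_eq, hpS, hcS,
        hqS, hyS, hyS', if_true]
      rw [h, sub_self]
    have h3 := hG S (by
      intro z hz
      simp only [S, Finset.mem_insert, Finset.mem_singleton] at hz
      rcases hz with rfl | rfl | rfl | rfl | rfl <;> assumption) Finset.card_le_five w h1 h2 x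
      hxS hx
    exact sub_eq_zero.1 h3
  · simp only [S, Finset.mem_insert, Finset.mem_singleton, not_or] at hxS
    obtain ⟨h1, h2, h3, h4, h5⟩ := hxS
    rw [if_neg (Ne.symm h1), if_neg (Ne.symm h2), if_neg (Ne.symm h3), if_neg (Ne.symm h4),
      if_neg (Ne.symm h5)]
    norm_num

theorem bad_null (hn : 4 ≤ n) (S : Finset (Fin n → ℝ)) (hS : S.card ≤ 4) :
    MeasureTheory.volume {v : Fin n → ℝ | ∃ c : (Fin n → ℝ) → ℝ, ∑ x ∈ S, c x = 1 ∧
      ∑ x ∈ S, c x • x = v} = 0 := by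
  classical
  rcases S.eq_empty_or_nonempty with rfl | ⟨x0, hx0⟩
  · have : {v : Fin n → ℝ | ∃ c : (Fin n → ℝ) → ℝ, ∑ x ∈ (∅ : Finset (Fin n → ℝ)), c x = 1 ∧
      ∑ x ∈ (∅ : Finset (Fin n → ℝ)), c x • x = v} = ∅ := by
      ext v
      simp
    rw [this]
    exact MeasureTheory.measure_empty
  · let T : Finset (Fin n → ℝ) := (S.erase x0).image (fun x => x - x0)
    let p : Submodule ℝ (Fin n → ℝ) := Submodule.span ℝ (T : Set (Fin n → ℝ))
    refine MeasureTheory.measure_mono_null ?_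
      (MeasureTheory.Measure.addHaar_affineSubspace MeasureTheory.volume
        (AffineSubspace.mk' x0 p) ?_)
    · rintro v ⟨c, hc1, rfl⟩
      change _ ∈ AffineSubspace.mk' x0 p
      rw [AffineSubspace.mem_mk']
      have h1 : (∑ x ∈ S, c x • x) -ᵥ x0 = ∑ x ∈ S, c x • (x - x0) := by
        rw [vsub_eq_sub]
        simp only [smul_sub, Finset.sum_sub_distrib]
        rw [← Finset.sum_smul, hc1, one_smul]
      rw [h1]
      apply Submodule.sum_mem
      intro x hx
      apply Submodule.smul_mem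
      by_cases hxx : x = x0
      · rw [hxx, sub_self]
        exact Submodule.zero_mem _
      · exact Submodule.subset_span (Finset.mem_coe.2 (Finset.mem_image.2
          ⟨x, Finset.mem_erase.2 ⟨hxx, hx⟩, rfl⟩))
    · intro htop
      have h1 : p = ⊤ := by
        rw [← AffineSubspace.direction_mk' x0 p, htop, AffineSubspace.direction_top]
      have h2 : Module.finrank ℝ p ≤ T.card := finrank_span_finset_le_card T
      have h3 : T.card ≤ 3 := by
        refine Finset.card_image_le.trans ?_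
        rw [Finset.card_erase_of_mem hx0]
        omega
      rw [h1, finrank_top, Module.finrank_fin_fun] at h2
      omega

theorem exists_generic (hn : 4 ≤ n) {V X : Set (Fin n → ℝ)} (hV : V.Finite) (hX : X.Finite)
    (hG : Gen V X) {U : Set (Fin n → ℝ)} (hU : IsOpen U) (hne : U.Nonempty) :
    ∃ v ∈ U, v ∉ V ∧ v ∉ X ∧ Gen (insert v V) X := by
  classical
  let P : Finset (Fin n → ℝ) := (hV.union hX).toFinset
  have hP : ∀ x, x ∈ P ↔ x ∈ V ∨ x ∈ X := fun x => by simp [P]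
  let Bad : Finset (Fin n → ℝ) → Set (Fin n → ℝ) := fun S =>
    {v : Fin n → ℝ | ∃ c : (Fin n → ℝ) → ℝ, ∑ x ∈ S, c x = 1 ∧ ∑ x ∈ S, c x • x = v}
  let 𝒮 : Finset (Finset (Fin n → ℝ)) := P.powerset.filter (fun S => S.card ≤ 4)
  have h0 : MeasureTheory.volume (⋃ S ∈ 𝒮, Bad S) = 0 := by
    refine (MeasureTheory.measure_biUnion_null_iff (I := (𝒮 : Set (Finset (Fin n → ℝ))))
      𝒮.countable_toSet).2 ?_
    intro S hS
    exact bad_null hn S (Finset.mem_filter.1 hS).2
  obtain ⟨v, hvU, hv⟩ : ∃ v ∈ U, v ∉ ⋃ S ∈ 𝒮, Bad S := by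
    by_contra hc
    push Not at hc
    exact (hU.measure_pos MeasureTheory.volume hne).ne' (MeasureTheory.measure_mono_null hc h0)
  have hvS : ∀ S : Finset (Fin n → ℝ), (∀ x ∈ S, x ∈ V ∨ x ∈ X) → S.card ≤ 4 → v ∉ Bad S := by
    intro S hS hc hvB
    apply hv
    simp only [mem_iUnion]
    exact ⟨S, Finset.mem_filter.2 ⟨Finset.mem_powerset.2 (fun x hx => (hP x).2 (hS x hx)), hc⟩,
      hvB⟩
  have hvne : ∀ x, (x ∈ V ∨ x ∈ X) → v ≠ x := by
    rintro x hx rfl
    refine hvS {v} (fun z hz => ?_) (by simp) ⟨fun _ => 1, by simp, by simp⟩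
    rw [Finset.mem_singleton.1 hz]
    exact hx
  refine ⟨v, hvU, fun h => hvne v (Or.inl h) rfl, fun h => hvne v (Or.inr h) rfl, ?_⟩
  intro S hS hcard w hw0 hw1
  by_cases hvmem : v ∈ S
  · have hS' : ∀ x ∈ S.erase v, x ∈ V ∨ x ∈ X := by
      intro x hx
      obtain ⟨hxv, hx⟩ := Finset.mem_erase.1 hx
      rcases hS x hx with h | h
      · rcases h with h | h
        · exact absurd h hxv
        · exact Or.inl h
      · exact Or.inr h
    have hc' : (S.erase v).card ≤ 4 := by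
      rw [Finset.card_erase_of_mem hvmem]
      omega
    have hsum0 : w v + ∑ x ∈ S.erase v, w x = 0 := by
      rw [Finset.add_sum_erase S w hvmem]
      exact hw0
    have hsum1 : w v • v + ∑ x ∈ S.erase v, w x • x = 0 := by
      rw [Finset.add_sum_erase S (fun x => w x • x) hvmem]
      exact hw1
    have hwv : w v = 0 := by
      by_contra hne0
      apply hvS _ hS' hc'
      refine ⟨fun x => -(w v)⁻¹ * w x, ?_, ?_⟩
      · rw [← Finset.mul_sum]
        have : ∑ x ∈ S.erase v, w x = -w v := by linarith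
        rw [this]
        field_simp
      · simp only [mul_smul]
        rw [← Finset.smul_sum]
        have : ∑ x ∈ S.erase v, w x • x = -(w v • v) := by
          rw [eq_neg_iff_add_eq_zero, add_comm]
          exact hsum1
        rw [this, smul_neg, neg_smul, neg_neg, smul_smul, inv_mul_cancel₀ hne0, one_smul]
    intro x hx hxV
    by_cases hxv : x = v
    · rw [hxv]
      exact hwv
    · have hxV' : x ∈ V := by
        rcases hxV with h | h
        · exact absurd h hxv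
        · exact h
      rw [hwv, zero_add] at hsum0
      rw [hwv, zero_smul, zero_add] at hsum1
      exact hG (S.erase v) hS' (by omega) w hsum0 hsum1 x (Finset.mem_erase.2 ⟨hxv, hx⟩) hxV'
  · have hS' : ∀ x ∈ S, x ∈ V ∨ x ∈ X := by
      intro x hx
      rcases hS x hx with h | h
      · rcases h with h | h
        · exact absurd (h ▸ hx) hvmem
        · exact Or.inl h
      · exact Or.inr h
    intro x hx hxV
    have hxV' : x ∈ V := by
      rcases hxV with h | h
      · exact absurd (h ▸ hx) hvmem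
      · exact h
    exact hG S hS' hcard w hw0 hw1 x hx hxV'

/-- A generic polygonal path in `D` starting at `p` and ending at `v`, all of whose vertices
except the first are new. -/
def Reach (V X D : Set (Fin n → ℝ)) (p v : Fin n → ℝ) : Prop :=
  ∃ (N : ℕ) (b : ℕ → Fin n → ℝ), 1 ≤ N ∧ b 0 = p ∧ b N = v ∧
    (∀ i < N, segment ℝ (b i) (b (i + 1)) ⊆ D) ∧
    (∀ i, 1 ≤ i → i ≤ N → b i ∉ V ∧ b i ∉ X) ∧
    (∀ i j, 1 ≤ i → i < j → j ≤ N → b i ≠ b j) ∧
    Gen (V ∪ b '' Icc 1 N) X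

theorem Reach.extend (hn : 4 ≤ n) {V X D : Set (Fin n → ℝ)} (hV : V.Finite) (hX : X.Finite)
    {p v : Fin n → ℝ} (h : Reach V X D p v) {U : Set (Fin n → ℝ)} (hU : IsOpen U)
    (hne : U.Nonempty) (hseg : ∀ w ∈ U, segment ℝ v w ⊆ D) : ∃ w ∈ U, Reach V X D p w := by
  obtain ⟨N, b, hN, hb0, hbN, hbD, hbn, hbi, hG⟩ := h
  obtain ⟨w, hwU, hwV, hwX, hwG⟩ := exists_generic hn
    (hV.union ((finite_Icc 1 N).image b)) hX hG hU hne
  let b' : ℕ → Fin n → ℝ := fun i => if i = N + 1 then w else b i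
  have hb'1 : b' (N + 1) = w := if_pos rfl
  have hb'2 : ∀ i, i ≠ N + 1 → b' i = b i := fun i hi => if_neg hi
  refine ⟨w, hwU, N + 1, b', by omega, ?_, hb'1, ?_, ?_, ?_, ?_⟩
  · rw [hb'2 0 (by omega), hb0]
  · intro i hi
    rcases Nat.lt_succ_iff_lt_or_eq.1 hi with h | h
    · rw [hb'2 i (by omega), hb'2 (i + 1) (by omega)]
      exact hbD i h
    · rw [h, hb'1, hb'2 N (by omega), hbN]
      exact hseg w hwU
  · intro i h1 h2
    by_cases hi : i = N + 1
    · rw [hi, hb'1]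
      exact ⟨fun hc => hwV (Or.inl hc), hwX⟩
    · rw [hb'2 i hi]
      exact hbn i h1 (by omega)
  · intro i j h1 h2 h3
    rw [hb'2 i (by omega)]
    by_cases hj : j = N + 1
    · rw [hj, hb'1]
      intro hc
      exact hwV (Or.inr ⟨i, ⟨h1, by omega⟩, hc⟩)
    · rw [hb'2 j hj]
      exact hbi i j h1 h2 (by omega)
  · have : V ∪ b' '' Icc 1 (N + 1) = insert w (V ∪ b '' Icc 1 N) := by
      ext z
      constructor
      · rintro (hz | ⟨i, hi, rfl⟩)
        · exact Or.inr (Or.inl hz)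
        · by_cases hi' : i = N + 1
          · rw [hi', hb'1]
            exact Or.inl rfl
          · rw [hb'2 i hi']
            exact Or.inr (Or.inr ⟨i, ⟨hi.1, by have := hi.2; omega⟩, rfl⟩)
      · rintro (hz | hz | ⟨i, hi, rfl⟩)
        · rw [hz]
          exact Or.inr ⟨N + 1, ⟨by omega, le_rfl⟩, hb'1⟩
        · exact Or.inl hz
        · refine Or.inr ⟨i, ⟨hi.1, by have := hi.2; omega⟩, ?_⟩
          exact hb'2 i (by have := hi.2; omega)
    rw [this]
    exact hwG

/-- Generic polygonal paths in connected open sets. -/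
theorem exists_path (hn : 4 ≤ n) {V X D : Set (Fin n → ℝ)} (hV : V.Finite) (hX : X.Finite)
    (hG : Gen V X) (hD : IsOpen D) (hDc : IsPreconnected D) {p q : Fin n → ℝ} (hp : p ∈ D)
    (hq : q ∈ D) :
    ∃ (N : ℕ) (b : ℕ → Fin n → ℝ), 2 ≤ N ∧ b 0 = p ∧ b N = q ∧
      (∀ i < N, segment ℝ (b i) (b (i + 1)) ⊆ D) ∧
      (∀ i, 1 ≤ i → i < N → b i ∉ V ∧ b i ∉ X) ∧
      (∀ i j, 1 ≤ i → i < j → j < N → b i ≠ b j) ∧
      Gen (V ∪ b '' Ico 1 N) X := by
  let A : Set (Fin n → ℝ) := {y | ∀ ρ > 0, ∃ v ∈ Metric.ball y ρ, Reach V X D p v}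
  have hbase : p ∈ A := by
    intro ρ hρ
    obtain ⟨r, hr, hrD⟩ := Metric.isOpen_iff.1 hD p hp
    obtain ⟨v, hvU, hvV, hvX, hvG⟩ := exists_generic hn hV hX hG
      (Metric.isOpen_ball (x := p) (ε := min ρ r)) ⟨p, Metric.mem_ball_self (lt_min hρ hr)⟩
    refine ⟨v, Metric.ball_subset_ball (min_le_left _ _) hvU, 1,
      fun i => if i = 0 then p else v, le_rfl, if_pos rfl, if_neg one_ne_zero, ?_, ?_, ?_, ?_⟩
    · intro i hi
      obtain rfl : i = 0 := by omega
      change segment ℝ p v ⊆ D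
      exact ((convex_ball p r).segment_subset (Metric.mem_ball_self hr)
        (Metric.ball_subset_ball (min_le_right _ _) hvU)).trans hrD
    · intro i h1 _
      have hi : (fun i : ℕ => if i = 0 then p else v) i = v := if_neg (by omega)
      rw [hi]
      exact ⟨hvV, hvX⟩
    · intro i j h1 h2 h3
      omega
    · have : V ∪ (fun i : ℕ => if i = 0 then p else v) '' Icc 1 1 = insert v V := by
        rw [Icc_self, image_singleton, if_neg one_ne_zero, union_comm]
        rfl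
      rw [this]
      exact hvG
  have hq' : q ∈ A := by
    have key : ∀ x ∈ D, ∃ r > 0, ∀ y ∈ Metric.ball x r, ∀ y' ∈ Metric.ball x r,
        y ∈ A → y' ∈ A := by
      intro x hx
      obtain ⟨r, hr, hrD⟩ := Metric.isOpen_iff.1 hD x hx
      refine ⟨r, hr, fun y hy y' hy' hyA ρ hρ => ?_⟩
      obtain ⟨r1, hr1, h1⟩ := Metric.isOpen_iff.1 (Metric.isOpen_ball (x := x) (ε := r)) y hy
      obtain ⟨v, hv, hvR⟩ := hyA r1 hr1
      obtain ⟨w, hw, hwR⟩ := hvR.extend hn hV hX
        (U := Metric.ball y' ρ ∩ Metric.ball x r) (Metric.isOpen_ball.inter Metric.isOpen_ball)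
        ⟨y', Metric.mem_ball_self hρ, hy'⟩
        (fun w hw => ((convex_ball x r).segment_subset (h1 hv) hw.2).trans hrD)
      exact ⟨w, hw.1, hwR⟩
    have h2 : (p ∈ A ↔ q ∈ A) := by
      refine hDc.induction₂ (fun x y => x ∈ A ↔ y ∈ A) ?_ ?_ ?_ hp hq
      · intro x hx
        obtain ⟨r, hr, h⟩ := key x hx
        filter_upwards [mem_nhdsWithin_of_mem_nhds (Metric.ball_mem_nhds x hr)] with y hy
        exact ⟨h x (Metric.mem_ball_self hr) y hy, h y hy x (Metric.mem_ball_self hr)⟩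
      · intro x y z _ _ _ h1 h2
        exact h1.trans h2
      · intro x y _ _ h
        exact h.symm
    exact h2.1 hbase
  obtain ⟨r, hr, hrD⟩ := Metric.isOpen_iff.1 hD q hq
  obtain ⟨v, hv, N, b, hN, hb0, hbN, hbD, hbn, hbi, hG'⟩ := hq' r hr
  let b' : ℕ → Fin n → ℝ := fun i => if i = N + 1 then q else b i
  have hb'1 : b' (N + 1) = q := if_pos rfl
  have hb'2 : ∀ i, i ≠ N + 1 → b' i = b i := fun i hi => if_neg hi
  refine ⟨N + 1, b', by omega, ?_, hb'1, ?_, ?_, ?_, ?_⟩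
  · rw [hb'2 0 (by omega), hb0]
  · intro i hi
    rcases Nat.lt_succ_iff_lt_or_eq.1 hi with h | h
    · rw [hb'2 i (by omega), hb'2 (i + 1) (by omega)]
      exact hbD i h
    · rw [h, hb'1, hb'2 N (by omega), hbN]
      exact ((convex_ball q r).segment_subset hv (Metric.mem_ball_self hr)).trans hrD
  · intro i h1 h2
    rw [hb'2 i (by omega)]
    exact hbn i h1 (by omega)
  · intro i j h1 h2 h3
    rw [hb'2 i (by omega), hb'2 j (by omega)]
    exact hbi i j h1 h2 (by omega)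
  · have : b' '' Ico 1 (N + 1) = b '' Icc 1 N := by
      ext z
      constructor
      · rintro ⟨i, hi, rfl⟩
        exact ⟨i, ⟨hi.1, by have := hi.2; omega⟩, (hb'2 i (by have := hi.2; omega)).symm⟩
      · rintro ⟨i, hi, rfl⟩
        exact ⟨i, ⟨hi.1, by have := hi.2; omega⟩, hb'2 i (by have := hi.2; omega)⟩
    rw [this]
    exact hG'

end Pool.Agent.Run7.h754
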