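import Mathlib

/-!
# Small perturbations of the identity are diffeomorphisms
-/

open Set Filter Topology
open scoped NNReal ContDiff

namespace Pool.Agent.Run7.h754

variable {E : Type*} [NormedAddCommGroup E] [NormedSpace ℝ E] [FiniteDimensional ℝ E]

theorem pert (u : E → E) (hu : ContDiff ℝ ∞ u) (c : ℝ≥0) (hc : c < 1) (hlip : LipschitzWith c u) :
    ∃ F : E ≃ₜ E, (∀ z, F z = z + u z) ∧ ContDiff ℝ ∞ F ∧ ContDiff ℝ ∞ F.symm := by
  have hcomp : CompleteSpace E := FiniteDimensional.complete ℝ E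
  have happ : ApproximatesLinearOn (fun z => z + u z)
      ((ContinuousLinearEquiv.refl ℝ E : E ≃L[ℝ] E) : E →L[ℝ] E) univ c := by
    intro x _ y _
    have h1 := hlip.dist_le_mul x y
    rw [dist_eq_norm, dist_eq_norm] at h1
    have h2 : x + u x - (y + u y) - (((ContinuousLinearEquiv.refl ℝ E : E ≃L[ℝ] E) : E →L[ℝ] E)
        (x - y)) = u x - u y := by
      simp only [ContinuousLinearEquiv.coe_refl, ContinuousLinearMap.id_apply]
      abel
    rw [h2]
    exact h1
  have hN : Subsingleton E ∨ c < ‖((ContinuousLinearEquiv.refl ℝ E).symm : E →L[ℝ] E)‖₊⁻¹ := by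
    rcases subsingleton_or_nontrivial E with h | h
    · exact Or.inl h
    · right
      have : ‖((ContinuousLinearEquiv.refl ℝ E).symm : E →L[ℝ] E)‖₊ = 1 := by
        have h3 : (((ContinuousLinearEquiv.refl ℝ E).symm : E ≃L[ℝ] E) : E →L[ℝ] E) =
          ContinuousLinearMap.id ℝ E := rfl
        rw [h3]
        exact ContinuousLinearMap.nnnorm_id
      rw [this, inv_one]
      exact hc
  let F : E ≃ₜ E := happ.toHomeomorph _ hN
  have hF : ∀ z, F z = z + u z := fun z => rfl
  have hFs : ContDiff ℝ ∞ F := by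
    have : (F : E → E) = fun z => z + u z := funext hF
    rw [this]
    exact contDiff_id.add hu
  have hud : Differentiable ℝ u := hu.differentiable (by simp)
  have hnorm : ∀ z, ‖fderiv ℝ u z‖ < 1 := fun z =>
    (norm_fderiv_le_of_lipschitz ℝ hlip).trans_lt (by exact_mod_cast hc)
  let e : E → (E →L[ℝ] E)ˣ := fun z => Units.oneSub (-(fderiv ℝ u z)) (by rw [norm_neg]; exact hnorm z)
  have hder : ∀ z, HasFDerivAt F ((ContinuousLinearEquiv.unitsEquiv ℝ E (e z) : E ≃L[ℝ] E) :
      E →L[ℝ] E) z := by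
    intro z
    have h1 : HasFDerivAt (fun z => z + u z) (ContinuousLinearMap.id ℝ E + fderiv ℝ u z) z :=
      (hasFDerivAt_id z).add (hud z).hasFDerivAt
    have h2 : (F : E → E) = fun z => z + u z := funext hF
    rw [h2]
    convert h1 using 1
    ext w
    simp [e, ContinuousLinearEquiv.unitsEquiv_apply]
  exact ⟨F, hF, hFs, F.contDiff_symm hder hFs⟩

/-- A bump function together with a radius of admissible translations. -/
theorem exists_bump (c : E) {R : ℝ} (hR : 0 < R) :
    ∃ ψ : E → ℝ, ContDiff ℝ ∞ ψ ∧ ψ c = 1 ∧ (∀ z, 0 ≤ ψ z ∧ ψ z ≤ 1) ∧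
      (∀ z, z ∉ Metric.closedBall c R → ψ z = 0) ∧
      ∃ δ > 0, ∀ v : E, ‖v‖ < δ → ∃ F : E ≃ₜ E, (∀ z, F z = z + ψ z • v) ∧
        ContDiff ℝ ∞ F ∧ ContDiff ℝ ∞ F.symm := by
  let f : ContDiffBump c := ⟨R / 2, R, by positivity, by linarith⟩
  have hf : ContDiff ℝ ∞ f := f.contDiff
  obtain ⟨C, hC⟩ := hf.lipschitzWith_of_hasCompactSupport f.hasCompactSupport (by simp)
  refine ⟨f, hf, f.one_of_mem_closedBall (Metric.mem_closedBall_self (by positivity)),
    fun z => ⟨f.nonneg, f.le_one⟩, ?_, 1 / (C + 1), by positivity, ?_⟩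
  · intro z hz
    apply f.zero_of_le_dist
    have : R < dist z c := by
      simpa [Metric.mem_closedBall] using hz
    exact this.le
  · intro v hv
    have hlip : LipschitzWith (C * ‖v‖₊) (fun z => f z • v) := by
      apply LipschitzWith.of_dist_le_mul
      intro x y
      rw [dist_eq_norm, ← sub_smul, norm_smul]
      have h1 := hC.dist_le_mul x y
      rw [Real.dist_eq] at h1
      rw [Real.norm_eq_abs]
      calc |f x - f y| * ‖v‖ ≤ (C * dist x y) * ‖v‖ := by gcongr
        _ = _ := by push_cast; ring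
    have hc : C * ‖v‖₊ < 1 := by
      rw [← NNReal.coe_lt_coe]
      push_cast
      have h0 : (0 : ℝ) ≤ C := C.2
      have h2 : ‖v‖ * (C + 1) < 1 := by
        rwa [lt_div_iff₀ (by positivity)] at hv
      nlinarith [norm_nonneg v]
    exact pert _ (hf.smul contDiff_const) _ hc hlip

end Pool.Agent.Run7.h754
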