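import Mathlib
import Pool.Agent.Run7.h754.Abs

/-!
# From transitivity to transitivity on `n`-tuples of distinct points
-/

open Set Filter Topology

namespace Pool.Agent.Run7.h754

variable {X : Type*} [TopologicalSpace X] {G : Subgroup (X ≃ₜ X)}
  [τ : TopologicalSpace G] [IsTopologicalGroup G]

/-- Points do not disconnect connected open sets. -/
def NoCut (X : Type*) [TopologicalSpace X] : Prop :=
  ∀ O : Set X, IsOpen O → IsPreconnected O → ∀ x, IsPreconnected (O \ {x})

theorem NoCut.finite [T1Space X] (h : NoCut X) {O : Set X} (hO : IsOpen O)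
    (hOc : IsPreconnected O) {F : Set X} (hF : F.Finite) : IsPreconnected (O \ F) := by
  induction F, hF using Set.Finite.induction_on with
  | empty => simpa using hOc
  | @insert a s _ hs ih =>
    have h1 : O \ insert a s = (O \ s) \ {a} := by
      ext z
      simp only [Set.mem_sdiff, mem_insert_iff, mem_singleton_iff]
      tauto
    rw [h1]
    exact h _ (hO.sdiff hs.isClosed) ih a

/-- Every neighbourhood of the identity is transitive on every connected open set. -/
def LocT (G : Subgroup (X ≃ₜ X)) [TopologicalSpace G] : Prop :=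
  ∀ W ∈ 𝓝 (1 : G), ∀ O : Set X, IsOpen O → IsPreconnected O →
      ∀ x ∈ O, ∀ y ∈ O, ∃ g ∈ W, SuppIn (g : X ≃ₜ X) O ∧ (g : X ≃ₜ X) x = y

theorem multi_disj [T1Space X] (hX : NoCut X) (hT : LocT G) (n : ℕ) :
    ∀ W ∈ 𝓝 (1 : G), ∀ O : Set X, IsOpen O → IsPreconnected O →
      ∀ x y : Fin n → X, Function.Injective x → Function.Injective y → (∀ i, x i ∈ O) →
      (∀ i, y i ∈ O) → (∀ i j, x i ≠ y j) →
      ∃ g ∈ W, SuppIn (g : X ≃ₜ X) O ∧ ∀ i, (g : X ≃ₜ X) (x i) = y i := by
  induction n with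
  | zero =>
    intro W hW O _ _ x y _ _ _ _ _
    exact ⟨1, mem_of_mem_nhds hW, SuppIn.one O, fun i => i.elim0⟩
  | succ n ih =>
    intro W hW O hO hOc x y hx hy hxO hyO hxy
    obtain ⟨V, hV, hVW⟩ := exists_nhds_one_split hW
    -- the first `n` points
    obtain ⟨g, hgV, hg, hgx⟩ := ih V hV (O \ {x (Fin.last n), y (Fin.last n)})
      (hO.sdiff (toFinite _).isClosed) (hX.finite hO hOc (toFinite _))
      (fun i => x i.castSucc) (fun i => y i.castSucc)
      (fun i j h => Fin.castSucc_injective n (hx h)) (fun i j h => Fin.castSucc_injective n (hy h))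
      (fun i => ⟨hxO _, by
        simp only [mem_insert_iff, mem_singleton_iff, not_or]
        exact ⟨fun h => (Fin.castSucc_lt_last i).ne (hx h), hxy _ _⟩⟩)
      (fun i => ⟨hyO _, by
        simp only [mem_insert_iff, mem_singleton_iff, not_or]
        exact ⟨fun h => hxy _ _ h.symm, fun h => (Fin.castSucc_lt_last i).ne (hy h)⟩⟩)
      (fun i j => hxy _ _)
    obtain ⟨h, hhV, hh, hhx⟩ := hT V hV (O \ range (fun i : Fin n => y i.castSucc))
      (hO.sdiff (finite_range _).isClosed) (hX.finite hO hOc (finite_range _))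
      (x (Fin.last n)) ⟨hxO _, by
        rintro ⟨i, hi⟩
        exact hxy _ _ hi.symm⟩ (y (Fin.last n)) ⟨hyO _, by
        rintro ⟨i, hi⟩
        exact (Fin.castSucc_lt_last i).ne (hy hi)⟩
    refine ⟨h * g, hVW _ hhV _ hgV, (hh.mono sdiff_subset).mul (hg.mono sdiff_subset), ?_⟩
    intro i
    change (h : X ≃ₜ X) ((g : X ≃ₜ X) (x i)) = y i
    refine Fin.lastCases ?_ (fun j => ?_) i
    · rw [hg.fix (fun hc => hc.2 (by simp)), hhx]
    · have h1 : (g : X ≃ₜ X) (x j.castSucc) = y j.castSucc := hgx j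
      rw [h1]
      exact hh.fix (fun hc => hc.2 ⟨j, rfl⟩)

theorem multi [T1Space X] (hperf : ∀ x : X, (𝓝[≠] x).NeBot) (hX : NoCut X) (hT : LocT G) (n : ℕ) :
    ∀ W ∈ 𝓝 (1 : G), ∀ O : Set X, IsOpen O → IsPreconnected O →
      ∀ x y : Fin n → X, Function.Injective x → Function.Injective y → (∀ i, x i ∈ O) →
      (∀ i, y i ∈ O) →
      ∃ g ∈ W, SuppIn (g : X ≃ₜ X) O ∧ ∀ i, (g : X ≃ₜ X) (x i) = y i := by
  intro W hW O hO hOc x y hx hy hxO hyO
  rcases Nat.eq_zero_or_pos n with rfl | hn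
  · exact ⟨1, mem_of_mem_nhds hW, SuppIn.one O, fun i => i.elim0⟩
  · have hinf : (O \ (range x ∪ range y)).Infinite := by
      have h1 : O.Infinite := by
        have := hperf (x ⟨0, hn⟩)
        exact infinite_of_mem_nhds (x ⟨0, hn⟩) (hO.mem_nhds (hxO _))
      exact h1.sdiff ((finite_range x).union (finite_range y))
    let e := hinf.natEmbedding
    let z : Fin n → X := fun i => (e i : X)
    have hz : Function.Injective z := fun i j h => Fin.val_injective (e.injective (Subtype.ext h))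
    have hzO : ∀ i, z i ∈ O := fun i => (e i).2.1
    have hzx : ∀ i j, x i ≠ z j := fun i j h => (e j).2.2 (Or.inl ⟨i, h⟩)
    have hzy : ∀ i j, z i ≠ y j := fun i j h => (e i).2.2 (Or.inr ⟨j, h.symm⟩)
    obtain ⟨V, hV, hVW⟩ := exists_nhds_one_split hW
    obtain ⟨g, hgV, hg, hgx⟩ := multi_disj hX hT n V hV O hO hOc x z hx hz hxO hzO hzx
    obtain ⟨h, hhV, hh, hhx⟩ := multi_disj hX hT n V hV O hO hOc z y hz hy hzO hyO hzy
    refine ⟨h * g, hVW _ hhV _ hgV, hh.mul hg, fun i => ?_⟩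
    change (h : X ≃ₜ X) ((g : X ≃ₜ X) (x i)) = y i
    rw [hgx, hhx]

end Pool.Agent.Run7.h754
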