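import Mathlib
import Pool.Agent.Run7.h754.Abs
import Pool.Agent.Run7.h754.Multi
import Pool.Agent.Run7.h754.Eucl

/-!
# The group of diffeomorphisms is locally transitive
-/

open Set Filter Topology
open scoped NNReal ContDiff Manifold

namespace Pool.Agent.Run7.h754

variable {E : Type*} [NormedAddCommGroup E] [NormedSpace ℝ E]
  {M : Type*} [TopologicalSpace M] [ChartedSpace E M]

open Classical in
/-- Extension by the identity of a map in a chart. -/
noncomputable def ext (φ : OpenPartialHomeomorph M E) (F : E → E) (m : M) : M :=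
  if m ∈ φ.source then φ.symm (F (φ m)) else m

omit [NormedSpace ℝ E] [ChartedSpace E M] in
theorem ext_of_mem {φ : OpenPartialHomeomorph M E} {F : E → E} {m : M} (h : m ∈ φ.source) :
    ext φ F m = φ.symm (F (φ m)) := if_pos h

omit [NormedSpace ℝ E] [ChartedSpace E M] in
theorem ext_of_notMem {φ : OpenPartialHomeomorph M E} {F : E → E} {m : M} (h : m ∉ φ.source) :
    ext φ F m = m := if_neg h

omit [NormedSpace ℝ E] [ChartedSpace E M] in
theorem ext_comp {φ : OpenPartialHomeomorph M E} {F F' : E → E}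
    (hF : ∀ z ∈ φ.target, F' z ∈ φ.target) (m : M) :
    ext φ F (ext φ F' m) = ext φ (F ∘ F') m := by
  by_cases h : m ∈ φ.source
  · have h1 : F' (φ m) ∈ φ.target := hF _ (φ.map_source h)
    rw [ext_of_mem h, ext_of_mem h, ext_of_mem (φ.map_target h1), φ.right_inv h1]
    rfl
  · rw [ext_of_notMem h, ext_of_notMem h, ext_of_notMem h]

omit [NormedSpace ℝ E] [ChartedSpace E M] in
theorem ext_id {φ : OpenPartialHomeomorph M E} {F : E → E} (hF : ∀ z, F z = z) (m : M) :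
    ext φ F m = m := by
  by_cases h : m ∈ φ.source
  · rw [ext_of_mem h, hF, φ.left_inv h]
  · rw [ext_of_notMem h]

omit [NormedSpace ℝ E] [ChartedSpace E M] in
theorem ext_fix {φ : OpenPartialHomeomorph M E} {F : E → E} {B : Set E}
    (hF : ∀ z, z ∉ B → F z = z) {m : M} (hm : m ∉ φ.symm '' B) : ext φ F m = m := by
  by_cases h : m ∈ φ.source
  · rw [ext_of_mem h, hF, φ.left_inv h]
    intro hc
    exact hm ⟨φ m, hc, φ.left_inv h⟩
  · rw [ext_of_notMem h]

/-- Smoothness of the extension. -/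
theorem ext_smooth [T2Space M] {φ : OpenPartialHomeomorph M E}
    (hφ : φ ∈ IsManifold.maximalAtlas 𝓘(ℝ, E) ∞ M) {F : E → E} {B : Set E} (hB : IsCompact B)
    (hBt : B ⊆ φ.target) (hF : ∀ z, z ∉ B → F z = z) (hFt : ∀ z ∈ φ.target, F z ∈ φ.target)
    (hFs : ContDiff ℝ ∞ F) : ContMDiff 𝓘(ℝ, E) 𝓘(ℝ, E) ∞ (ext φ F) := by
  intro m
  by_cases h : m ∈ φ.source
  · have h1 : ContMDiffAt 𝓘(ℝ, E) 𝓘(ℝ, E) ∞ φ m := contMDiffAt_of_mem_maximalAtlas hφ h
    have h2 : ContMDiffAt 𝓘(ℝ, E) 𝓘(ℝ, E) ∞ F (φ m) := hFs.contMDiff.contMDiffAt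
    have h3 : ContMDiffAt 𝓘(ℝ, E) 𝓘(ℝ, E) ∞ φ.symm (F (φ m)) :=
      contMDiffAt_symm_of_mem_maximalAtlas hφ (hFt _ (φ.map_source h))
    have h4 : ContMDiffAt 𝓘(ℝ, E) 𝓘(ℝ, E) ∞ (fun m => φ.symm (F (φ m))) m :=
      ContMDiffAt.comp m h3 (ContMDiffAt.comp m h2 h1)
    refine h4.congr_of_eventuallyEq ?_
    filter_upwards [φ.open_source.mem_nhds h] with p hp
    exact ext_of_mem hp
  · have hK : IsCompact (φ.symm '' B) := hB.image_of_continuousOn
      (φ.symm.continuousOn.mono hBt)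
    have h1 : m ∉ φ.symm '' B := by
      rintro ⟨z, hz, rfl⟩
      exact h (φ.map_target (hBt hz))
    have h2 : ContMDiffAt 𝓘(ℝ, E) 𝓘(ℝ, E) ∞ (id : M → M) m := contMDiff_id.contMDiffAt
    refine h2.congr_of_eventuallyEq ?_
    filter_upwards [hK.isClosed.isOpen_compl.mem_nhds h1] with p hp
    exact ext_fix hF hp

omit [NormedSpace ℝ E] in
theorem maps_of_fix {F : E ≃ₜ E} {B T : Set E} (hBT : B ⊆ T) (hF : ∀ z, z ∉ B → F z = z) :
    (∀ z ∈ T, F z ∈ T) ∧ (∀ z, z ∉ B → F.symm z = z) ∧ (∀ z ∈ T, F.symm z ∈ T) := by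
  have h1 : ∀ z, z ∉ B → F.symm z = z := fun z hz => by
    rw [Homeomorph.symm_apply_eq]
    exact (hF z hz).symm
  have key : ∀ (F : E ≃ₜ E), (∀ z, z ∉ B → F z = z) → ∀ z ∈ T, F z ∈ T := by
    intro F hF z hz
    by_contra hc
    have h2 : F z ∉ B := fun h => hc (hBT h)
    have h3 := hF _ h2
    have h4 := F.injective h3
    rw [h4] at hc
    exact hc hz
  exact ⟨key F hF, h1, key F.symm h1⟩

/-- The extension of a diffeomorphism supported in a chart. -/
theorem exists_ext [T2Space M] {φ : OpenPartialHomeomorph M E}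
    (hφ : φ ∈ IsManifold.maximalAtlas 𝓘(ℝ, E) ∞ M) (F : E ≃ₜ E) {B : Set E} (hB : IsCompact B)
    (hBt : B ⊆ φ.target) (hF : ∀ z, z ∉ B → F z = z) (hFs : ContDiff ℝ ∞ F)
    (hFs' : ContDiff ℝ ∞ F.symm) :
    ∃ f : Dif E M, (∀ m, (f : M ≃ₜ M) m = ext φ F m) := by
  obtain ⟨h1, h2, h3⟩ := maps_of_fix hBt hF
  have hs1 := ext_smooth hφ hB hBt hF h1 hFs
  have hs2 := ext_smooth hφ hB hBt h2 h3 hFs'
  refine ⟨⟨⟨⟨ext φ F, ext φ F.symm, fun m => ?_, fun m => ?_⟩, hs1.continuous, hs2.continuous⟩,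
    hs1, hs2⟩, fun m => rfl⟩
  · rw [ext_comp h1]
    exact ext_id (fun z => F.symm_apply_apply z) m
  · rw [ext_comp h3]
    exact ext_id (fun z => F.apply_symm_apply z) m

omit [NormedSpace ℝ E] [ChartedSpace E M] in
/-- Joint continuity of a family of extensions. -/
theorem ext_joint [T2Space M] {Λ : Type*} [TopologicalSpace Λ] {φ : OpenPartialHomeomorph M E}
    {F : Λ → E → E} (hF : Continuous (fun p : Λ × E => F p.1 p.2)) {B : Set E} (hB : IsCompact B)
    (hBt : B ⊆ φ.target) (hFB : ∀ l z, z ∉ B → F l z = z)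
    (hFt : ∀ l, ∀ z ∈ φ.target, F l z ∈ φ.target) :
    Continuous (fun p : Λ × M => ext φ (F p.1) p.2) := by
  rw [continuous_iff_continuousAt]
  rintro ⟨l, m⟩
  by_cases h : m ∈ φ.source
  · have h1 : ContinuousAt (fun p : Λ × M => φ p.2) (l, m) :=
      ContinuousAt.comp (f := Prod.snd) (φ.continuousAt h) continuousAt_snd
    have h2 : ContinuousAt (fun p : Λ × M => F p.1 (φ p.2)) (l, m) :=
      ContinuousAt.comp (f := fun p : Λ × M => (p.1, φ p.2)) (g := fun p : Λ × E => F p.1 p.2)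
        hF.continuousAt (continuousAt_fst.prodMk h1)
    have h3 : ContinuousAt (fun p : Λ × M => φ.symm (F p.1 (φ p.2))) (l, m) :=
      ContinuousAt.comp (f := fun p : Λ × M => F p.1 (φ p.2))
        (φ.symm.continuousAt (hFt _ _ (φ.map_source h))) h2
    refine h3.congr_of_eventuallyEq ?_
    have h4 : ∀ᶠ p : Λ × M in 𝓝 (l, m), p.2 ∈ φ.source :=
      continuousAt_snd.eventually (φ.open_source.mem_nhds h)
    filter_upwards [h4] with p hp
    exact ext_of_mem hp
  · have hK : IsCompact (φ.symm '' B) := hB.image_of_continuousOn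
      (φ.symm.continuousOn.mono hBt)
    have h1 : m ∉ φ.symm '' B := by
      rintro ⟨z, hz, rfl⟩
      exact h (φ.map_target (hBt hz))
    have h2 : ContinuousAt (fun p : Λ × M => p.2) (l, m) := continuousAt_snd
    refine h2.congr_of_eventuallyEq ?_
    have h4 : ∀ᶠ p : Λ × M in 𝓝 (l, m), p.2 ∈ (φ.symm '' B)ᶜ :=
      continuousAt_snd.eventually (hK.isClosed.isOpen_compl.mem_nhds h1)
    filter_upwards [h4] with p hp
    exact ext_fix (hFB _) hp

theorem locTrans [FiniteDimensional ℝ E] [IsManifold 𝓘(ℝ, E) ∞ M] [T2Space M]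
    {G : Subgroup (M ≃ₜ M)} (hG : ContainsLocal E G) : LocTrans G := by
  intro x U hU V hV
  let φ : OpenPartialHomeomorph M E := chartAt E x
  have hφ : φ ∈ IsManifold.maximalAtlas 𝓘(ℝ, E) ∞ M := IsManifold.chart_mem_maximalAtlas x
  have hx : x ∈ φ.source := mem_chart_source E x
  let S : Set E := φ.target ∩ φ.symm ⁻¹' (interior U)
  have hS : IsOpen S := φ.isOpen_inter_preimage_symm isOpen_interior
  have hcS : φ x ∈ S := ⟨φ.map_source hx, by
    change φ.symm (φ x) ∈ interior U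
    rw [φ.left_inv hx]
    exact mem_interior_iff_mem_nhds.2 hU⟩
  obtain ⟨R, hR, hRS⟩ := Metric.nhds_basis_closedBall.mem_iff.1 (hS.mem_nhds hcS)
  let B : Set E := Metric.closedBall (φ x) R
  have hB : IsCompact B := isCompact_closedBall _ _
  have hBt : B ⊆ φ.target := fun z hz => (hRS hz).1
  obtain ⟨ψ, hψ, hψ1, hψ01, hψ0, δ, hδ, hψF⟩ := exists_bump (φ x) hR
  have hfix : ∀ v : E, ∀ z, z ∉ B → z + ψ z • v = z := fun v z hz => by
    rw [hψ0 z hz, zero_smul, add_zero]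
  -- the family
  have hmaps : ∀ v : Metric.ball (0 : E) δ, ∀ z ∈ φ.target, z + ψ z • (v : E) ∈ φ.target := by
    intro v z hz
    obtain ⟨F, hF, -, -⟩ := hψF v (mem_ball_zero_iff.1 v.2)
    rw [← hF]
    exact (maps_of_fix hBt (fun z hz => by rw [hF, hfix _ z hz])).1 z hz
  have hcont : Continuous (fun p : Metric.ball (0 : E) δ × M =>
      ext φ (fun z => z + ψ z • (p.1 : E)) p.2) := by
    refine ext_joint (F := fun (l : Metric.ball (0 : E) δ) z => z + ψ z • (l : E)) ?_ hB hBt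
      (fun l z hz => hfix _ z hz) hmaps
    have := hψ.continuous
    fun_prop
  let Φ : C(Metric.ball (0 : E) δ, C(M, M)) := ContinuousMap.curry ⟨_, hcont⟩
  rw [coTop, nhds_induced] at hV
  obtain ⟨V', hV', hVV'⟩ := hV
  have hz0 : (0 : E) ∈ Metric.ball (0 : E) δ := Metric.mem_ball_self hδ
  have hΦ0 : Φ ⟨0, hz0⟩ = (⟨((1 : G) : M ≃ₜ M), ((1 : G) : M ≃ₜ M).continuous⟩ :
      C(M, M)) := by
    ext m
    exact ext_id (φ := φ) (F := fun z => z + ψ z • (0 : E)) (fun z => by simp) m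
  have hΦV : Φ ⁻¹' V' ∈ 𝓝 (⟨0, hz0⟩ : Metric.ball (0 : E) δ) := by
    apply Φ.continuous.continuousAt.preimage_mem_nhds
    rw [hΦ0]
    exact hV'
  have hnear : ∀ᶠ v in 𝓝 (0 : E), ∃ hv : v ∈ Metric.ball (0 : E) δ, Φ ⟨v, hv⟩ ∈ V' := by
    rw [mem_nhds_subtype_iff_nhdsWithin] at hΦV
    have h1 := mem_nhdsWithin_iff_exists_mem_nhds_inter.1 hΦV
    obtain ⟨u, hu, hu'⟩ := h1
    filter_upwards [hu, Metric.ball_mem_nhds (0 : E) hδ] with v hv hv'
    obtain ⟨w, hw, hwv⟩ := hu' ⟨hv, hv'⟩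
    subst hwv
    exact ⟨hv', hw⟩
  have htend : Tendsto (fun m => φ m - φ x) (𝓝 x) (𝓝 0) := by
    have h1 : ContinuousAt (fun m => φ m - φ x) x := (φ.continuousAt hx).sub continuousAt_const
    have h2 : φ x - φ x = 0 := sub_self _
    rw [← h2]
    exact h1
  filter_upwards [htend.eventually hnear, φ.open_source.mem_nhds hx] with m hm hms
  obtain ⟨hv, hvV⟩ := hm
  obtain ⟨F, hF, hFs, hFs'⟩ := hψF (φ m - φ x) (mem_ball_zero_iff.1 hv)
  have hFfix : ∀ z, z ∉ B → F z = z := fun z hz => by rw [hF, hfix _ z hz]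
  obtain ⟨f, hf⟩ := exists_ext hφ F hB hBt hFfix hFs hFs'
  have hFeq : (F : E → E) = fun z => z + ψ z • (φ m - φ x) := funext hF
  have hsupp : SuppIn (f : M ≃ₜ M) (U ∩ φ.source) := by
    refine ⟨φ.symm '' B, ?_, hB.image_of_continuousOn (φ.symm.continuousOn.mono hBt), ?_⟩
    · rintro _ ⟨z, hz, rfl⟩
      exact ⟨interior_subset (hRS hz).2, φ.map_target (hBt hz)⟩
    · intro z hz
      rw [hf]
      exact ext_fix hFfix hz
  refine ⟨⟨f, hG f f.2 φ hφ (hsupp.mono inter_subset_right)⟩, hVV' ?_, hsupp.mono inter_subset_left,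
    ?_⟩
  · change (⟨(f : M ≃ₜ M), (f : M ≃ₜ M).continuous⟩ : C(M, M)) ∈ V'
    have : (⟨(f : M ≃ₜ M), (f : M ≃ₜ M).continuous⟩ : C(M, M)) = Φ ⟨φ m - φ x, hv⟩ := by
      ext p
      change (f : M ≃ₜ M) p = ext φ (fun z => z + ψ z • (φ m - φ x)) p
      rw [hf, hFeq]
    rw [this]
    exact hvV
  · change (f : M ≃ₜ M) x = m
    rw [hf, ext_of_mem hx, hF, hψ1, one_smul, add_sub_cancel, φ.left_inv hms]


theorem isPreconnected_ball_diff (hE : 1 < Module.rank ℝ E) (c : E) (R : ℝ) :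
    IsPreconnected (Metric.ball c R \ {c}) := by
  have h1 : IsPreconnected ((Metric.sphere (0 : E) 1) ×ˢ (Ioo 0 R)) :=
    (isPreconnected_sphere hE 0 1).prod isPreconnected_Ioo
  have h2 : Metric.ball c R \ {c} =
      (fun p : E × ℝ => c + p.2 • p.1) '' ((Metric.sphere (0 : E) 1) ×ˢ (Ioo 0 R)) := by
    ext z
    constructor
    · rintro ⟨hz, hzc⟩
      have hne : z - c ≠ 0 := sub_ne_zero.2 hzc
      have hn : 0 < ‖z - c‖ := norm_pos_iff.2 hne
      refine ⟨(‖z - c‖⁻¹ • (z - c), ‖z - c‖), ⟨?_, hn, ?_⟩, ?_⟩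
      · rw [mem_sphere_zero_iff_norm, norm_smul, norm_inv, norm_norm, inv_mul_cancel₀ hn.ne']
      · exact mem_ball_iff_norm.1 hz
      · change c + ‖z - c‖ • ‖z - c‖⁻¹ • (z - c) = z
        rw [smul_smul, mul_inv_cancel₀ hn.ne', one_smul, add_sub_cancel]
    · rintro ⟨⟨u, t⟩, ⟨hu, ht⟩, rfl⟩
      have hu' : ‖u‖ = 1 := mem_sphere_zero_iff_norm.1 hu
      constructor
      · rw [mem_ball_iff_norm]
        change ‖c + t • u - c‖ < R
        rw [add_sub_cancel_left, norm_smul, hu', mul_one, Real.norm_eq_abs, abs_of_pos ht.1]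
        exact ht.2
      · intro hc
        have h3 : c + t • u = c := hc
        rw [add_eq_left] at h3
        have h4 : ‖t • u‖ = 0 := by rw [h3, norm_zero]
        rw [norm_smul, hu', mul_one, Real.norm_eq_abs, abs_of_pos ht.1] at h4
        exact ht.1.ne' h4
  rw [h2]
  exact h1.image _ (by fun_prop)

omit [NormedSpace ℝ E] in
theorem perfect_of_nontrivial [NormedSpace ℝ E] [Nontrivial E] (x : M) : (𝓝[≠] x).NeBot := by
  rw [← mem_closure_iff_nhdsWithin_neBot, mem_closure_iff_nhds]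
  intro t ht
  let φ : OpenPartialHomeomorph M E := chartAt E x
  have hx : x ∈ φ.source := mem_chart_source E x
  have h1 : ∀ᶠ z in 𝓝 (φ x), z ∈ φ.target ∧ φ.symm z ∈ t := by
    refine (φ.open_target.eventually_mem (φ.map_source hx)).and ?_
    have h2 : ContinuousAt φ.symm (φ x) := φ.symm.continuousAt (φ.map_source hx)
    apply h2.eventually_mem
    rw [φ.left_inv hx]
    exact ht
  have h3 : (𝓝[≠] (φ x)).NeBot := Module.punctured_nhds_neBot ℝ E (φ x)
  obtain ⟨z, ⟨hz, hzt⟩, hzx⟩ := ((h1.filter_mono nhdsWithin_le_nhds).and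
    (self_mem_nhdsWithin : ({φ x}ᶜ : Set E) ∈ 𝓝[≠] (φ x))).exists
  refine ⟨φ.symm z, hzt, fun hc => hzx ?_⟩
  have h4 : φ.symm z = x := hc
  change z = φ x
  rw [← h4, φ.right_inv hz]

theorem noCut [T2Space M] (hE : 1 < Module.rank ℝ E) : NoCut M := by
  intro O hO hOc x
  by_cases hxO : x ∈ O
  · let φ : OpenPartialHomeomorph M E := chartAt E x
    have hx : x ∈ φ.source := mem_chart_source E x
    let S : Set E := φ.target ∩ φ.symm ⁻¹' O
    have hS : IsOpen S := φ.isOpen_inter_preimage_symm hO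
    have hcS : φ x ∈ S := ⟨φ.map_source hx, by
      change φ.symm (φ x) ∈ O
      rw [φ.left_inv hx]
      exact hxO⟩
    obtain ⟨R, hR, hRS⟩ := Metric.isOpen_iff.1 hS _ hcS
    let b : Set M := φ.symm '' (Metric.ball (φ x) R)
    have hbo : IsOpen b := φ.symm.isOpen_image_of_subset_source Metric.isOpen_ball
      (fun z hz => (hRS hz).1)
    have hbx : b \ {x} = φ.symm '' (Metric.ball (φ x) R \ {φ x}) := by
      ext p
      constructor
      · rintro ⟨⟨z, hz, rfl⟩, hp⟩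
        refine ⟨z, ⟨hz, fun hc => hp ?_⟩, rfl⟩
        have h1 : z = φ x := hc
        change φ.symm z = x
        rw [h1, φ.left_inv hx]
      · rintro ⟨z, ⟨hz, hzx⟩, rfl⟩
        refine ⟨⟨z, hz, rfl⟩, fun hc => hzx ?_⟩
        have h1 : φ.symm z = x := hc
        change z = φ x
        rw [← h1, φ.right_inv (hRS hz).1]
    have hbc : IsPreconnected (b \ {x}) := by
      rw [hbx]
      exact (isPreconnected_ball_diff hE _ _).image _
        (φ.symm.continuousOn.mono (fun z hz => (hRS hz.1).1))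
    have hxb : x ∈ b := ⟨φ x, Metric.mem_ball_self hR, φ.left_inv hx⟩
    have hbO : b ⊆ O := by
      rintro _ ⟨z, hz, rfl⟩
      exact (hRS hz).2
    -- the argument is symmetric in the two open sets
    have key : ∀ A C : Set M, IsOpen A → IsOpen C → O \ {x} ⊆ A ∪ C →
        ((O \ {x}) ∩ A).Nonempty → ((O \ {x}) ∩ C).Nonempty → b \ {x} ⊆ A →
        ((O \ {x}) ∩ (A ∩ C)).Nonempty := by
      intro A C hA hC hcov _ hCne hbA
      obtain ⟨q, hq, hqC⟩ := hCne
      obtain ⟨p, hp, hp1, hp2⟩ := hOc (A ∪ b) (C \ {x}) (hA.union hbo)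
        (hC.sdiff isClosed_singleton) (by
          intro p hp
          by_cases hpx : p = x
          · left; right; rw [hpx]; exact hxb
          · rcases hcov ⟨hp, hpx⟩ with h | h
            · left; left; exact h
            · right; exact ⟨h, hpx⟩) ⟨x, hxO, Or.inr hxb⟩ ⟨q, hq.1, hqC, hq.2⟩
      refine ⟨p, ⟨hp, hp2.2⟩, ?_, hp2.1⟩
      rcases hp1 with h | h
      · exact h
      · exact hbA ⟨h, hp2.2⟩
    intro A C hA hC hcov hAne hCne
    by_cases h1 : ((b \ {x}) ∩ A).Nonempty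
    · by_cases h2 : ((b \ {x}) ∩ C).Nonempty
      · obtain ⟨p, hp, hp'⟩ := hbc A C hA hC (fun p hp => hcov ⟨hbO hp.1, hp.2⟩) h1 h2
        exact ⟨p, ⟨hbO hp.1, hp.2⟩, hp'⟩
      · refine key A C hA hC hcov hAne hCne ?_
        intro p hp
        rcases hcov ⟨hbO hp.1, hp.2⟩ with h | h
        · exact h
        · exact absurd ⟨p, hp, h⟩ h2
    · rw [inter_comm A C]
      refine key C A hC hA (by rwa [union_comm]) hCne hAne ?_
      intro p hp
      rcases hcov ⟨hbO hp.1, hp.2⟩ with h | h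
      · exact absurd ⟨p, hp, h⟩ h1
      · exact h
  · have : O \ {x} = O := sdiff_singleton_eq_self hxO
    rw [this]
    exact hOc

end Pool.Agent.Run7.h754
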