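import Mathlib
import Pool.Agent.Run7.h754.TM
import Pool.Agent.Run7.h754.Man

/-!
# The Euclidean context, products with disjoint supports, slides and chains
-/

open Set Filter Topology
open scoped Pointwise

namespace Pool.Agent.Run7.h754

variable {n : ℕ}

/-- The standing assumptions on the topological group `H` of homeomorphisms of `ℝⁿ` supported in
the ball of radius `100`. -/
structure Ctx (H : Subgroup ((Fin n → ℝ) ≃ₜ (Fin n → ℝ))) [TopologicalSpace H] : Prop where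
  pl : ∀ F : (Fin n → ℝ) ≃ₜ (Fin n → ℝ), PLs F (Metric.ball 0 100) → F ∈ H
  supp : ∀ F ∈ H, SuppIn F (Metric.ball 0 100)
  small : ∀ W ∈ 𝓝 (1 : H), ∃ ε > 0, ∀ F : H,
    (∀ z, ‖(F : (Fin n → ℝ) ≃ₜ (Fin n → ℝ)) z - z‖ ≤ ε) → F ∈ W
  loc : ∀ W ∈ 𝓝 (1 : H), ∀ O ⊆ Metric.ball (0 : Fin n → ℝ) 100, IsOpen O → IsPreconnected O →
    ∀ x ∈ O, ∀ y ∈ O, ∃ g ∈ W, SuppIn (g : (Fin n → ℝ) ≃ₜ (Fin n → ℝ)) O ∧
      (g : (Fin n → ℝ) ≃ₜ (Fin n → ℝ)) x = y

/-- All elements of `H` supported in `D` lie in `W`. -/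
def Sm (H : Subgroup ((Fin n → ℝ) ≃ₜ (Fin n → ℝ))) (W : Set H) (D : Set (Fin n → ℝ)) : Prop :=
  ∀ F : H, SuppIn (F : (Fin n → ℝ) ≃ₜ (Fin n → ℝ)) D → F ∈ W

/-- A bound for the displacement of a homeomorphism supported in a set of small diameter. -/
theorem disp_le {F : (Fin n → ℝ) ≃ₜ (Fin n → ℝ)} {O : Set (Fin n → ℝ)} (hF : SuppIn F O) {ε : ℝ}
    (hε : 0 ≤ ε) (hO : ∀ x ∈ O, ∀ y ∈ O, ‖x - y‖ ≤ ε) (z : Fin n → ℝ) : ‖F z - z‖ ≤ ε := by
  by_cases h : z ∈ O
  · exact hO _ (hF.mem h) _ h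
  · rw [hF.fix h, sub_self, norm_zero]
    exact hε

/-- Homeomorphisms with disjoint supports can be multiplied. -/
theorem disj_prod {ι : Type*} (s : Finset ι) (O : ι → Set (Fin n → ℝ))
    (F : ι → (Fin n → ℝ) ≃ₜ (Fin n → ℝ)) (hO : ∀ i ∈ s, ∀ j ∈ s, i ≠ j → Disjoint (O i) (O j))
    (hF : ∀ i ∈ s, PLs (F i) (O i)) :
    ∃ F' : (Fin n → ℝ) ≃ₜ (Fin n → ℝ), PLs F' (⋃ i ∈ s, O i) ∧
      (∀ i ∈ s, ∀ z ∈ O i, F' z = F i z) ∧ (∀ z, z ∉ ⋃ i ∈ s, O i → F' z = z) := by
  classical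
  induction s using Finset.induction_on with
  | empty => exact ⟨1, PLs.one _, by simp, fun z _ => rfl⟩
  | insert i s his ih =>
    obtain ⟨F', hF'1, hF'2, hF'3⟩ := ih
      (fun a ha b hb hab => hO a (Finset.mem_insert_of_mem ha) b (Finset.mem_insert_of_mem hb) hab)
      (fun a ha => hF a (Finset.mem_insert_of_mem ha))
    have hdis : ∀ j ∈ s, Disjoint (O i) (O j) := fun j hj =>
      hO i (Finset.mem_insert_self _ _) j (Finset.mem_insert_of_mem hj) (by
        rintro rfl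
        exact his hj)
    have hFi := hF i (Finset.mem_insert_self _ _)
    refine ⟨F i * F', (hFi.mono ?_).mul (hF'1.mono ?_), ?_, ?_⟩
    · intro z hz
      simp only [mem_iUnion]
      exact ⟨i, Finset.mem_insert_self _ _, hz⟩
    · intro z hz
      simp only [mem_iUnion] at hz ⊢
      obtain ⟨j, hj, hzj⟩ := hz
      exact ⟨j, Finset.mem_insert_of_mem hj, hzj⟩
    · intro j hj z hz
      change F i (F' z) = F j z
      rcases Finset.mem_insert.1 hj with rfl | hj'
      · rw [hF'3 z]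
        simp only [mem_iUnion, not_exists]
        intro k hk hzk
        exact disjoint_left.1 (hdis k hk) hz hzk
      · rw [hF'2 j hj' z hz]
        apply hFi.2.fix
        intro hc
        exact disjoint_left.1 (hdis j hj') hc ((hF j hj).2.mem hz)
    · intro z hz
      simp only [mem_iUnion, not_exists] at hz
      change F i (F' z) = z
      rw [hF'3 z, hFi.2.fix (hz i (Finset.mem_insert_self _ _))]
      simp only [mem_iUnion, not_exists]
      exact fun k hk => hz k (Finset.mem_insert_of_mem hk)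

/-- The slide lemma. -/
theorem slide {a b : Fin n → ℝ} (hab : a ≠ b) {α β : ℝ} (hα : 0 ≤ α) (hαβ : α ≤ β)
    {D Q : Set (Fin n → ℝ)} (hD : IsOpen D) (hQ : IsOpen Q)
    (hDs : ∀ t ∈ Icc α β, a + t • (b - a) ∈ D) (hQs : ∀ t ∈ Icc 0 α, a + t • (b - a) ∈ Q) :
    ∃ F : (Fin n → ℝ) ≃ₜ (Fin n → ℝ), PLs F D ∧ ∀ t ∈ Icc 0 β, F (a + t • (b - a)) ∈ Q := by
  set u := b - a with hu
  have hu0 : u ≠ 0 := sub_ne_zero.2 hab.symm
  obtain ⟨i, hi⟩ : ∃ i, u i ≠ 0 := by
    by_contra hc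
    push Not at hc
    exact hu0 (funext hc)
  let s : (Fin n → ℝ) →L[ℝ] ℝ := (u i)⁻¹ • ContinuousLinearMap.proj i
  have hsu : s u = 1 := by
    change (u i)⁻¹ * u i = 1
    exact inv_mul_cancel₀ hi
  have hcont : Continuous (fun t : ℝ => a + t • u) := by fun_prop
  -- the margin
  obtain ⟨η, hη, hηD1, hηD2, hηQ⟩ : ∃ η > 0, (∀ t ∈ Icc (α - η) α, a + t • u ∈ D) ∧
      (∀ t ∈ Icc β (β + η), a + t • u ∈ D) ∧ (∀ t ∈ Icc (α - η) α, a + t • u ∈ Q) := by
    obtain ⟨r1, hr1, h1⟩ := Metric.isOpen_iff.1 (hD.preimage hcont) α (hDs α ⟨le_rfl, hαβ⟩)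
    obtain ⟨r2, hr2, h2⟩ := Metric.isOpen_iff.1 (hD.preimage hcont) β (hDs β ⟨hαβ, le_rfl⟩)
    obtain ⟨r3, hr3, h3⟩ := Metric.isOpen_iff.1 (hQ.preimage hcont) α (hQs α ⟨hα, le_rfl⟩)
    have hm1 : min r1 (min r2 r3) ≤ r1 := min_le_left _ _
    have hm2 : min r1 (min r2 r3) ≤ r2 := (min_le_right _ _).trans (min_le_left _ _)
    have hm3 : min r1 (min r2 r3) ≤ r3 := (min_le_right _ _).trans (min_le_right _ _)
    have hm : 0 < min r1 (min r2 r3) := lt_min hr1 (lt_min hr2 hr3)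
    refine ⟨min r1 (min r2 r3) / 2, by positivity, fun t ht => ?_, fun t ht => ?_,
      fun t ht => ?_⟩
    · apply h1
      rw [Metric.mem_ball, Real.dist_eq, abs_lt]
      constructor <;> linarith [ht.1, ht.2]
    · apply h2
      rw [Metric.mem_ball, Real.dist_eq, abs_lt]
      constructor <;> linarith [ht.1, ht.2]
    · apply h3
      rw [Metric.mem_ball, Real.dist_eq, abs_lt]
      constructor <;> linarith [ht.1, ht.2]
  have hηD : ∀ t ∈ Icc (α - η) (β + η), a + t • u ∈ D := by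
    intro t ht
    rcases le_total t α with h | h
    · exact hηD1 t ⟨ht.1, h⟩
    · rcases le_total t β with h' | h'
      · exact hDs t ⟨h, h'⟩
      · exact hηD2 t ⟨h', ht.2⟩
  have hden : 0 < β - α + η := by linarith
  let l : ℝ := η / (β - α + η)
  have hl0 : 0 < l := by positivity
  have hl1 : l ≤ 1 := by
    change η / (β - α + η) ≤ 1
    rw [div_le_one hden]
    linarith
  have hlη : l * (β - α + η) = η := by
    change η / (β - α + η) * (β - α + η) = η
    field_simp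
  let K : ℝ := (β - α + η) / η
  have hK0 : 0 < K := by positivity
  have hKη : K * η = β - α + η := by
    change (β - α + η) / η * η = _
    field_simp
  -- the compact set
  let Sg : Set (Fin n → ℝ) := (fun t : ℝ => a + t • u) '' Icc (α - η) (β + η)
  have hSgc : IsCompact Sg := isCompact_Icc.image hcont
  have hSgD : Sg ⊆ D := by
    rintro _ ⟨t, ht, rfl⟩
    exact hηD t ht
  obtain ⟨r, hr, hrD⟩ := hSgc.exists_cthickening_subset_open hD hSgD
  let C : ℝ := β - α + 2 * η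
  have hC0 : 0 < C := by
    change 0 < β - α + 2 * η
    linarith
  let π : (Fin n → ℝ) →L[ℝ] (Fin n → ℝ) := ContinuousLinearMap.id ℝ _ - s.smulRight u
  have hπ : ∀ z, π z = z - s z • u := fun z => rfl
  have hπu : π u = 0 := by rw [hπ, hsu]; module
  let ψ : (Fin n → ℝ) → ℝ := fun z =>
    max 0 (min ((1 - l) * (s (z - a) - (α - η))) (K * (β + η - s (z - a))) -
      C / r * ‖π (z - a)‖)
  have hψpl : PLf ψ := by
    have h0 : PLf (fun z : Fin n → ℝ => z - a) := PLf.id.sub (PLf.const a)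
    have hs : PLf (fun z : Fin n → ℝ => s (z - a)) := h0.clm s
    have hp : PLf (fun z : Fin n → ℝ => ‖π (z - a)‖) := (h0.clm π).norm
    exact (PLf.const 0).max ((((hs.sub (PLf.const _)).const_mul _).min
      (((PLf.const _).sub hs).const_mul _)).sub (hp.const_mul _))
  have hsl : ∀ z, ∀ τ ≥ 0, ψ z - (1 - l) * τ ≤ ψ (z + τ • (-u)) := by
    intro z τ hτ
    have h1 : z + τ • (-u) - a = (z - a) - τ • u := by module
    have h2 : s (z + τ • (-u) - a) = s (z - a) - τ := by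
      rw [h1, map_sub, map_smul, hsu, smul_eq_mul, mul_one]
    have h3 : π (z + τ • (-u) - a) = π (z - a) := by
      rw [h1, map_sub, map_smul, hπu, smul_zero, sub_zero]
    change max 0 (min ((1 - l) * (s (z - a) - (α - η))) (K * (β + η - s (z - a))) -
      C / r * ‖π (z - a)‖) - (1 - l) * τ ≤
      max 0 (min ((1 - l) * (s (z + τ • (-u) - a) - (α - η)))
        (K * (β + η - s (z + τ • (-u) - a))) - C / r * ‖π (z + τ • (-u) - a)‖)
    rw [h2, h3]
    have h4 : 0 ≤ (1 - l) * τ := mul_nonneg (by linarith) hτ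
    have h5 : min ((1 - l) * (s (z - a) - (α - η))) (K * (β + η - s (z - a))) - (1 - l) * τ ≤
        min ((1 - l) * (s (z - a) - τ - (α - η))) (K * (β + η - (s (z - a) - τ))) := by
      apply le_min
      · have := min_le_left ((1 - l) * (s (z - a) - (α - η))) (K * (β + η - s (z - a)))
        linarith
      · have := min_le_right ((1 - l) * (s (z - a) - (α - η))) (K * (β + η - s (z - a)))
        have h6 : 0 ≤ K * τ := mul_nonneg hK0.le hτ
        linarith
    rcases le_total 0 (min ((1 - l) * (s (z - a) - (α - η))) (K * (β + η - s (z - a))) -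
      C / r * ‖π (z - a)‖) with h6 | h6
    · rw [max_eq_right h6]
      refine le_trans ?_ (le_max_right _ _)
      linarith
    · rw [max_eq_left h6]
      refine le_trans ?_ (le_max_left _ _)
      linarith
  have hsupp : ∀ z, z ∉ Metric.cthickening r Sg → ψ z = 0 := by
    intro z hz
    by_contra hne
    apply hz
    have h1 : 0 < min ((1 - l) * (s (z - a) - (α - η))) (K * (β + η - s (z - a))) -
        C / r * ‖π (z - a)‖ := by
      by_contra hcon
      exact hne (max_eq_left (not_lt.1 hcon))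
    have h2 : 0 ≤ C / r * ‖π (z - a)‖ := by positivity
    have h3 : 0 < (1 - l) * (s (z - a) - (α - η)) := by
      have := min_le_left ((1 - l) * (s (z - a) - (α - η))) (K * (β + η - s (z - a)))
      linarith
    have h4 : 0 < K * (β + η - s (z - a)) := by
      have := min_le_right ((1 - l) * (s (z - a) - (α - η))) (K * (β + η - s (z - a)))
      linarith
    have h5 : 0 < β + η - s (z - a) := pos_of_mul_pos_right h4 hK0.le
    have h6 : 0 < s (z - a) - (α - η) := pos_of_mul_pos_right h3 (by linarith)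
    have h7 : C / r * ‖π (z - a)‖ < C := by
      have h8 := min_le_left ((1 - l) * (s (z - a) - (α - η))) (K * (β + η - s (z - a)))
      have h9 : (1 - l) * (s (z - a) - (α - η)) ≤ C := by
        change _ ≤ β - α + 2 * η
        nlinarith
      linarith
    have h8 : ‖π (z - a)‖ < r := by
      rw [div_mul_eq_mul_div, div_lt_iff₀ hr] at h7
      exact lt_of_mul_lt_mul_left h7 hC0.le
    refine Metric.mem_cthickening_of_dist_le z (a + s (z - a) • u) r _
      ⟨s (z - a), ⟨by linarith, by linarith⟩, rfl⟩ ?_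
    rw [dist_eq_norm]
    have h9 : z - (a + s (z - a) • u) = π (z - a) := by
      rw [hπ]
      abel
    rw [h9]
    exact h8.le
  obtain ⟨F, hFpl, hF⟩ := shear_pl hψpl (-u) (κ := 1 - l) (by linarith) hsl
    (hSgc.cthickening (r := r)) hsupp
  refine ⟨F, ⟨hFpl, Metric.cthickening r Sg, hrD, hSgc.cthickening, fun z hz => ?_⟩, ?_⟩
  · rw [hF, hsupp z hz, zero_smul, add_zero]
  · intro t ht
    have h1 : s (a + t • u - a) = t := by
      rw [add_sub_cancel_left, map_smul, hsu, smul_eq_mul, mul_one]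
    have h2 : π (a + t • u - a) = 0 := by
      rw [add_sub_cancel_left, map_smul, hπu, smul_zero]
    have h3 : ψ (a + t • u) = max 0 (min ((1 - l) * (t - (α - η))) (K * (β + η - t))) := by
      change max 0 (min ((1 - l) * (s (a + t • u - a) - (α - η)))
        (K * (β + η - s (a + t • u - a))) - C / r * ‖π (a + t • u - a)‖) = _
      rw [h1, h2, norm_zero, mul_zero, sub_zero]
    rw [hF, h3]
    rcases le_total t (α - η) with h | h
    · have h4 : min ((1 - l) * (t - (α - η))) (K * (β + η - t)) ≤ 0 := by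
        refine (min_le_left _ _).trans ?_
        nlinarith
      rw [max_eq_left h4, zero_smul, add_zero]
      exact hQs t ⟨ht.1, by linarith⟩
    · have h4 : (1 - l) * (t - (α - η)) ≤ K * (β + η - t) := by
        have h5 : K * (β + η - t) ≥ K * η := by
          have := ht.2
          nlinarith
        have h6 : (1 - l) * (t - (α - η)) ≤ β - α + η := by
          have := ht.2
          nlinarith
        linarith
      rw [min_eq_left h4, max_eq_right (mul_nonneg (by linarith) (by linarith))]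
      have h5 : a + t • u + ((1 - l) * (t - (α - η))) • (-u) =
          a + (α - η + l * (t - (α - η))) • u := by module
      rw [h5]
      apply hηQ
      constructor
      · nlinarith
      · have := ht.2
        nlinarith

variable {H : Subgroup ((Fin n → ℝ) ≃ₜ (Fin n → ℝ))} [TopologicalSpace H]

theorem Ctx.mapsT (hH : Ctx H) (k : H) (z : Fin n → ℝ) :
    (k : (Fin n → ℝ) ≃ₜ (Fin n → ℝ)) z ∈ Metric.ball (0 : Fin n → ℝ) 100 →
      z ∈ Metric.ball (0 : Fin n → ℝ) 100 := by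
  intro h
  by_contra hc
  rw [(hH.supp k k.2).fix hc] at h
  exact hc h

theorem chain (hH : Ctx H) {a b : Fin n → ℝ} (hab : a ≠ b) (k : H) (W : Set H)
    (L : ℕ) (t : ℕ → ℝ) (ht0 : t 0 = 0) (hmono : ∀ i < L, t i ≤ t (i + 1))
    (D : ℕ → Set (Fin n → ℝ)) (hDo : ∀ i < L, IsOpen (D i))
    (hDT : ∀ i < L, D i ⊆ Metric.ball 0 100) (hDW : ∀ i < L, Sm H W (D i))
    (hk : ∀ i < L, ∀ x ∈ Icc (t i) (t (i + 1)),
      (k : (Fin n → ℝ) ≃ₜ (Fin n → ℝ)) (a + x • (b - a)) ∈ D i)
    {Q0 : Set (Fin n → ℝ)} (hQ0 : IsOpen Q0) (ha : a ∈ Q0) :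
    ∀ i ≤ L, 0 ≤ t i ∧ ∃ Q : Set (Fin n → ℝ), IsOpen Q ∧ (∀ x ∈ Icc 0 (t i), a + x • (b - a) ∈ Q) ∧
      ∃ f : H, (∀ z ∈ Q, (f : (Fin n → ℝ) ≃ₜ (Fin n → ℝ)) z ∈ Q0) ∧ k * f * k⁻¹ ∈ W ^ i := by
  intro i
  induction i with
  | zero =>
    intro _
    refine ⟨ht0.ge, Q0, hQ0, ?_, 1, fun z hz => hz, ?_⟩
    · intro x hx
      rw [ht0] at hx
      have : x = 0 := le_antisymm hx.2 hx.1
      rw [this, zero_smul, add_zero]
      exact ha
    · rw [pow_zero, mul_one, mul_inv_cancel]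
      exact Set.mem_one.2 rfl
  | succ i ih =>
    intro hi
    obtain ⟨hti, Q, hQ, hQs, f, hf, hfW⟩ := ih (by omega)
    have hiL : i < L := by omega
    let D' : Set (Fin n → ℝ) := (k : (Fin n → ℝ) ≃ₜ (Fin n → ℝ)) ⁻¹' (D i)
    have hD' : IsOpen D' := (hDo i hiL).preimage (k : (Fin n → ℝ) ≃ₜ (Fin n → ℝ)).continuous
    obtain ⟨s, hs, hsQ⟩ := slide hab hti (hmono i hiL) hD' hQ (fun x hx => hk i hiL x hx) hQs
    have hD'T : D' ⊆ Metric.ball 0 100 := fun z hz => hH.mapsT k z (hDT i hiL hz)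
    have hsH : s ∈ H := hH.pl s (hs.mono hD'T)
    have hsW : k * ⟨s, hsH⟩ * k⁻¹ ∈ W := by
      apply hDW i hiL
      have h1 := hs.2.conj (f := (k : (Fin n → ℝ) ≃ₜ (Fin n → ℝ)))
      refine h1.mono ?_
      rintro _ ⟨z, hz, rfl⟩
      exact hz
    refine ⟨hti.trans (hmono i hiL), s ⁻¹' Q, hQ.preimage s.continuous, fun x hx => hsQ x hx,
      f * ⟨s, hsH⟩, fun z hz => hf (s z) hz, ?_⟩
    have h2 : k * (f * ⟨s, hsH⟩) * k⁻¹ = (k * f * k⁻¹) * (k * ⟨s, hsH⟩ * k⁻¹) := by group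
    rw [h2, pow_succ]
    exact Set.mul_mem_mul hfW hsW

end Pool.Agent.Run7.h754
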