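import Mathlib
import Pool.Agent.Run7.h754.Ctx

/-!
# Small open sets joining two points, and small neighbourhoods of segments
-/

open Set Filter Topology
open scoped Pointwise

namespace Pool.Agent.Run7.h754

variable {n : ℕ} {H : Subgroup ((Fin n → ℝ) ≃ₜ (Fin n → ℝ))} [τ : TopologicalSpace H]

theorem small_ball (hH : Ctx H) {W : Set H} (hW : W ∈ 𝓝 (1 : H)) :
    ∃ r > 0, ∀ c, Sm H W (Metric.ball c r) := by
  obtain ⟨ε, hε, h⟩ := hH.small W hW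
  refine ⟨ε / 2, by positivity, fun c F hF =>
    h F (fun z => disp_le hF hε.le (fun x hx y hy => ?_) z)⟩
  rw [← dist_eq_norm]
  have h1 := dist_triangle_right x y c
  rw [Metric.mem_ball] at hx hy
  linarith

variable [IsTopologicalGroup H]

theorem exists_smallset (hH : Ctx H) (hX : NoCut (Fin n → ℝ)) {W : Set H}
    (hW : W ∈ 𝓝 (1 : H)) {O : Set (Fin n → ℝ)} (hO : IsOpen O) (hOc : IsPreconnected O)
    (hOT : O ⊆ Metric.ball 0 100) {x y : Fin n → ℝ} (hx : x ∈ O) (hy : y ∈ O) (hxy : x ≠ y) :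
    ∃ D : Set (Fin n → ℝ), IsOpen D ∧ IsPreconnected D ∧ D ⊆ O ∧ x ∈ D ∧ y ∈ D ∧ Sm H W D := by
  obtain ⟨V, hV, hVW⟩ := exists_split3 hW
  obtain ⟨r, hr, hrV⟩ := small_ball hH hV
  obtain ⟨r', hr', hrO⟩ := Metric.isOpen_iff.1 hO x hx
  let ρ := min r r'
  have hρ : 0 < ρ := lt_min hr hr'
  have hyx : 0 < ‖y - x‖ := norm_pos_iff.2 (sub_ne_zero.2 hxy.symm)
  let p := x + (ρ / 2 / ‖y - x‖) • (y - x)
  have hpx : ‖p - x‖ = ρ / 2 := by
    change ‖x + (ρ / 2 / ‖y - x‖) • (y - x) - x‖ = ρ / 2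
    rw [add_sub_cancel_left, norm_smul, Real.norm_eq_abs, abs_of_pos (by positivity),
      div_mul_cancel₀ _ hyx.ne']
  have hpne : p ≠ x := by
    intro h
    rw [h, sub_self, norm_zero] at hpx
    linarith
  have hpB : p ∈ Metric.ball x ρ := by
    rw [mem_ball_iff_norm, hpx]
    linarith
  have hBO : Metric.ball x ρ ⊆ O := (Metric.ball_subset_ball (min_le_right _ _)).trans hrO
  obtain ⟨g, hgV, hg, hgp⟩ := hH.loc V hV (O \ {x}) (sdiff_subset.trans hOT)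
    (hO.sdiff isClosed_singleton) (hX O hO hOc x) p ⟨hBO hpB, hpne⟩ y ⟨hy, fun h => hxy h.symm⟩
  have hgO : SuppIn (g : (Fin n → ℝ) ≃ₜ (Fin n → ℝ)) O := hg.mono sdiff_subset
  have hgx : (g : (Fin n → ℝ) ≃ₜ (Fin n → ℝ)) x = x := hg.fix (fun h => h.2 rfl)
  refine ⟨(g : (Fin n → ℝ) ≃ₜ (Fin n → ℝ)) '' Metric.ball x ρ,
    (g : (Fin n → ℝ) ≃ₜ (Fin n → ℝ)).isOpenMap _ Metric.isOpen_ball,
    (convex_ball x ρ).isPreconnected.image _
      (g : (Fin n → ℝ) ≃ₜ (Fin n → ℝ)).continuous.continuousOn, ?_,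
    ⟨x, Metric.mem_ball_self hρ, hgx⟩, ⟨p, hpB, hgp⟩, ?_⟩
  · rintro _ ⟨z, hz, rfl⟩
    exact hgO.mem (hBO hz)
  · intro F hF
    have h1 : g⁻¹ * F * g ∈ V := by
      apply hrV x
      have h2 := hF.conj (f := ((g : (Fin n → ℝ) ≃ₜ (Fin n → ℝ)))⁻¹)
      rw [inv_inv] at h2
      refine SuppIn.mono h2 ?_
      rintro _ ⟨_, ⟨z, hz, rfl⟩, rfl⟩
      have : (((g : (Fin n → ℝ) ≃ₜ (Fin n → ℝ)))⁻¹ : (Fin n → ℝ) ≃ₜ (Fin n → ℝ))
          ((g : (Fin n → ℝ) ≃ₜ (Fin n → ℝ)) z) = z :=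
        (g : (Fin n → ℝ) ≃ₜ (Fin n → ℝ)).symm_apply_apply z
      rw [this]
      exact Metric.ball_subset_ball (min_le_left _ _) hz
    have h2 := (hVW g hgV (g⁻¹ * F * g) h1 g hgV).2.1
    have h3 : g * (g⁻¹ * F * g) * g⁻¹ = F := by group
    rwa [h3] at h2

omit [IsTopologicalGroup H] in
theorem pow_nhds [IsTopologicalGroup H] (N : ℕ) {W : Set H} (hW : W ∈ 𝓝 (1 : H)) :
    ∃ V ∈ 𝓝 (1 : H), ∀ m ≤ N, V ^ m ⊆ W := by
  induction N generalizing W with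
  | zero =>
    refine ⟨univ, univ_mem, fun m hm => ?_⟩
    obtain rfl : m = 0 := by omega
    rw [pow_zero]
    intro z hz
    rw [Set.mem_one.1 hz]
    exact mem_of_mem_nhds hW
  | succ N ih =>
    obtain ⟨V1, hV1, h1⟩ := exists_nhds_one_split hW
    obtain ⟨V2, hV2, h2⟩ := ih hV1
    refine ⟨V1 ∩ V2, inter_mem hV1 hV2, fun m hm => ?_⟩
    rcases Nat.eq_zero_or_pos m with rfl | hm0
    · rw [pow_zero]
      intro z hz
      rw [Set.mem_one.1 hz]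
      exact mem_of_mem_nhds hW
    · obtain ⟨m', rfl⟩ : ∃ m', m = m' + 1 := ⟨m - 1, by omega⟩
      rw [pow_succ]
      rintro _ ⟨x, hx, y, hy, rfl⟩
      exact h1 x (h2 m' (by omega) (Set.pow_subset_pow_left inter_subset_right hx)) y hy.1

/-- The data of a chain of small sets along the segment from `a` to `b`. -/
def HasChain (H : Subgroup ((Fin n → ℝ) ≃ₜ (Fin n → ℝ))) [TopologicalSpace H]
    (a b : Fin n → ℝ) : Prop :=
  ∀ W ∈ 𝓝 (1 : H), ∃ (L : ℕ) (t : ℕ → ℝ) (D : ℕ → Set (Fin n → ℝ)) (V : Set H) (k : H),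
    k ∈ W ∧ V ^ L ⊆ W ∧ t 0 = 0 ∧ t L = 1 ∧ (∀ i < L, t i ≤ t (i + 1)) ∧
    (∀ i < L, IsOpen (D i)) ∧ (∀ i < L, D i ⊆ Metric.ball 0 100) ∧ (∀ i < L, Sm H V (D i)) ∧
    (∀ i < L, ∀ x ∈ Icc (t i) (t (i + 1)),
      (k : (Fin n → ℝ) ≃ₜ (Fin n → ℝ)) (a + x • (b - a)) ∈ D i)

/-- Segments with chains have small neighbourhoods. -/
theorem small_of_chain (hH : Ctx H) {a b : Fin n → ℝ} (hab : a ≠ b) (hc : HasChain H a b)
    {W : Set H} (hW : W ∈ 𝓝 (1 : H)) :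
    ∃ Q : Set (Fin n → ℝ), IsOpen Q ∧ segment ℝ a b ⊆ Q ∧ Sm H W Q := by
  obtain ⟨V1, hV1, h1⟩ := exists_split3 hW
  obtain ⟨V2, hV2, h2⟩ := exists_split3 hV1
  obtain ⟨r, hr, hrV⟩ := small_ball hH (inter_mem hV1 hV2)
  obtain ⟨L, t, D, V, k, hk, hV, ht0, htL, hmono, hDo, hDT, hDV, hkD⟩ := hc _ hV2
  obtain ⟨-, Q, hQ, hQs, f, hf, hfV⟩ := chain hH hab k V L t ht0 hmono D hDo hDT hDV hkD
    Metric.isOpen_ball (Metric.mem_ball_self hr : a ∈ Metric.ball a r) L le_rfl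
  refine ⟨Q, hQ, ?_, ?_⟩
  · intro z hz
    rw [segment_eq_image'] at hz
    obtain ⟨x, hx, rfl⟩ := hz
    exact hQs x (by rw [htL]; exact hx)
  · intro F hF
    have h3 : f * F * f⁻¹ ∈ V1 := by
      refine (hrV a _ ?_).1
      have h4 := hF.conj (f := (f : (Fin n → ℝ) ≃ₜ (Fin n → ℝ)))
      refine SuppIn.mono h4 ?_
      rintro _ ⟨z, hz, rfl⟩
      exact hf z hz
    have h4 : k * f * k⁻¹ ∈ V2 := hV hfV
    have h5 : k⁻¹ * (k * f * k⁻¹) * k ∈ V1 := (h2 k hk _ h4 k hk).1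
    have h6 : k⁻¹ * (k * f * k⁻¹) * k = f := by group
    rw [h6] at h5
    have h7 := (h1 f h5 _ h3 f h5).1
    have h8 : f⁻¹ * (f * F * f⁻¹) * f = F := by group
    rwa [h8] at h7

end Pool.Agent.Run7.h754
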