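import Mathlib
import Pool.Agent.Run7.h754.Fan
import Pool.Agent.Run7.h754.Small

/-!
# Segments have chains of small sets in dimension at least four
-/

open Set Filter Topology
open scoped Pointwise

namespace Pool.Agent.Run7.h754

variable {n : ℕ}

theorem exists_paths (hn : 4 ≤ n) {X : Set (Fin n → ℝ)} (hX : X.Finite) (m : ℕ)
    (D : ℕ → Set (Fin n → ℝ)) (x : ℕ → Fin n → ℝ)
    (hD : ∀ i < m, IsOpen (D i) ∧ IsPreconnected (D i) ∧ x i ∈ D i ∧ x (i + 1) ∈ D i) :
    ∀ j ≤ m, ∃ (V : Set (Fin n → ℝ)) (N : ℕ → ℕ) (b : ℕ → ℕ → Fin n → ℝ), V.Finite ∧ Gen V X ∧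
      (∀ z ∈ X, z ∉ V) ∧
      (∀ i < j, 2 ≤ N i ∧ b i 0 = x i ∧ b i (N i) = x (i + 1) ∧
        (∀ r < N i, segment ℝ (b i r) (b i (r + 1)) ⊆ D i) ∧
        (∀ r, 1 ≤ r → r < N i → b i r ∈ V) ∧
        (∀ r r', 1 ≤ r → r < r' → r' < N i → b i r ≠ b i r')) ∧
      (∀ i < j, ∀ i' < j, i ≠ i' → ∀ r r', 1 ≤ r → r < N i → 1 ≤ r' → r' < N i' →
        b i r ≠ b i' r') := by
  intro j
  induction j with
  | zero =>
    intro _
    refine ⟨∅, fun _ => 0, fun _ _ => 0, finite_empty, ?_, by simp, ?_, ?_⟩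
    · intro S _ _ w _ _ z _ hz
      exact absurd hz (notMem_empty _)
    · intro i hi
      omega
    · intro i hi
      omega
  | succ j ih =>
    intro hj
    obtain ⟨V, N, b, hV, hG, hXV, hP, hC⟩ := ih (by omega)
    obtain ⟨hDo, hDc, hx1, hx2⟩ := hD j (by omega)
    obtain ⟨N', b', hN', hb'0, hb'N, hb'D, hb'V, hb'i, hG'⟩ :=
      exists_path hn hV hX hG hDo hDc hx1 hx2
    let N1 : ℕ → ℕ := fun i => if i = j then N' else N i
    let b1 : ℕ → ℕ → Fin n → ℝ := fun i => if i = j then b' else b i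
    have hN1 : N1 j = N' := if_pos rfl
    have hb1 : b1 j = b' := if_pos rfl
    have hN2 : ∀ i, i ≠ j → N1 i = N i := fun i hi => if_neg hi
    have hb2 : ∀ i, i ≠ j → b1 i = b i := fun i hi => if_neg hi
    refine ⟨V ∪ b' '' Ico 1 N', N1, b1, hV.union ((finite_Ico _ _).image _), hG', ?_, ?_, ?_⟩
    · rintro z hz (h | ⟨r, hr, rfl⟩)
      · exact hXV z hz h
      · exact (hb'V r hr.1 hr.2).2 hz
    · intro i hi
      by_cases hij : i = j
      · subst hij
        rw [hN1, hb1]
        exact ⟨hN', hb'0, hb'N, hb'D, fun r h1 h2 => Or.inr ⟨r, ⟨h1, h2⟩, rfl⟩, hb'i⟩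
      · rw [hN2 i hij, hb2 i hij]
        obtain ⟨h1, h2, h3, h4, h5, h6⟩ := hP i (by omega)
        exact ⟨h1, h2, h3, h4, fun r hr hr' => Or.inl (h5 r hr hr'), h6⟩
    · intro i hi i' hi' hne r r' h1 h2 h3 h4
      by_cases hij : i = j
      · have hij' : i' ≠ j := fun h => hne (hij.trans h.symm)
        rw [hij, hN1] at h2
        rw [hN2 i' hij'] at h4
        rw [hij, hb1, hb2 i' hij']
        intro hc
        apply (hb'V r h1 h2).1
        rw [hc]
        exact (hP i' (by omega)).2.2.2.2.1 r' h3 h4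
      · rw [hN2 i hij] at h2
        rw [hb2 i hij]
        by_cases hij' : i' = j
        · rw [hij', hN1] at h4
          rw [hij', hb1]
          intro hc
          apply (hb'V r' h3 h4).1
          rw [← hc]
          exact (hP i (by omega)).2.2.2.2.1 r h1 h2
        · rw [hN2 i' hij'] at h4
          rw [hb2 i' hij']
          exact hC i (by omega) i' (by omega) hne r r' h1 h2 h3 h4

theorem mem_tri_coeff {p q c z : Fin n → ℝ} (hz : z ∈ convexHull ℝ {p, q, c}) :
    ∃ l1 l2 l3 : ℝ, l1 + l2 + l3 = 1 ∧ 0 ≤ l1 ∧ 0 ≤ l2 ∧ 0 ≤ l3 ∧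
      z = l1 • p + l2 • c + l3 • q := by
  rw [convexHull_insert (insert_nonempty _ _), convexHull_pair] at hz
  simp only [convexJoin_singleton_left, mem_iUnion] at hz
  obtain ⟨w, ⟨e1, e2, he1, he2, he, rfl⟩, ⟨d1, d2, hd1, hd2, hd, rfl⟩⟩ := hz
  refine ⟨d1, d2 * e2, d2 * e1, ?_, hd1, by positivity, by positivity, by module⟩
  have : d1 + d2 * e2 + d2 * e1 = d1 + d2 * (e1 + e2) := by ring
  rw [this, he, mul_one, hd]

theorem tri_seg {V X : Set (Fin n → ℝ)} (hG : Gen V X) (hXV : ∀ x ∈ X, x ∉ V)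
    {p c q y y' : Fin n → ℝ} (hp : p ∈ X) (hc : c ∈ V) (hq : q ∈ V ∨ q ∈ X) (hpq : p ≠ q)
    (hcq : c ≠ q) (hcy : c ≠ y) (hcy' : c ≠ y') (hy : y ∈ V ∨ y ∈ X) (hy' : y' ∈ V ∨ y' ∈ X)
    (hyy : y ≠ y')
    (hXX : y ∈ X → y' ∈ X → q ∈ X → ∀ z ∈ segment ℝ p q, z ∈ segment ℝ y y' →
      (z = p ∨ z = q) ∧ (z = y ∨ z = y'))
    (hXX' : y ∈ X → y' ∈ X → p ∈ segment ℝ y y' → p = y ∨ p = y')
    (hXq : q ∈ X → ∀ x ∈ X, x ∈ segment ℝ p q → x = p ∨ x = q)
    (hq1 : q ∈ V → q ≠ y') (hq2 : q ∈ V → q = y → y' ≠ p) :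
    ∀ z ∈ segment ℝ y y', z ∈ convexHull ℝ {p, q, c} → (z = p ∨ z = q) ∧ (z = y ∨ z = y') := by
  classical
  intro z hz hz'
  obtain ⟨l1, l2, l3, hl, hl1, hl2, hl3, hzl⟩ := mem_tri_coeff hz'
  have hzseg := hz
  obtain ⟨m1, m2, hm1, hm2, hm, hzm⟩ := hz
  have hpV : p ∉ V := hXV p hp
  have hpne : ∀ w ∈ V, p ≠ w := fun w hw h => hpV (h ▸ hw)
  have hpc : p ≠ c := hpne c hc
  have key := fun x hx => gp hG (Or.inr hp) (Or.inl hc) hq hy hy' (hl.trans hm.symm)
    (hzl.symm.trans hzm.symm) x hx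
  have hl20 : l2 = 0 := by
    have := key c hc
    rw [if_neg hpc, if_pos rfl, if_neg hcq.symm, if_neg hcy.symm, if_neg hcy'.symm] at this
    linarith
  have hzl' : z = l1 • p + l3 • q := by
    rw [hzl, hl20, zero_smul, add_zero]
  have hm10 : m1 = 0 → z = y' := by
    intro h
    rw [← hzm, h, zero_smul, zero_add]
    have : m2 = 1 := by linarith
    rw [this, one_smul]
  have hm20 : m2 = 0 → z = y := by
    intro h
    rw [← hzm, h, zero_smul, add_zero]
    have : m1 = 1 := by linarith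
    rw [this, one_smul]
  by_cases hqV : q ∈ V
  · have hl30 : l3 = 0 → z = p := by
      intro h
      rw [hzl', h, zero_smul, add_zero]
      have : l1 = 1 := by linarith
      rw [this, one_smul]
    by_cases hqy : q = y
    · have hy'p := hq2 hqV hqy
      rcases hy' with hy' | hy'
      · have := key y' hy'
        rw [if_neg (hpne y' hy'), if_neg hcy', if_neg (hq1 hqV), if_neg hyy,
          if_pos rfl] at this
        have h1 := hm20 (by linarith)
        exact ⟨Or.inr (h1.trans hqy.symm), Or.inl h1⟩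
      · have := key q hqV
        rw [if_neg hpq, if_neg hcq, if_pos rfl, if_pos hqy.symm, if_neg (hq1 hqV).symm] at this
        have h3 : l1 = m2 := by linarith
        have h4 : l1 • (p - y') = 0 := by
          have h5 : l1 • p + l3 • q = m1 • y + m2 • y' := hzl'.symm.trans hzm.symm
          have h6 : m1 = l3 := by linarith
          rw [← hqy, ← h3, h6] at h5
          rw [smul_sub, sub_eq_zero]
          have h7 : l1 • p + l3 • q = l1 • y' + l3 • q := by
            rw [h5, add_comm]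
          exact add_right_cancel h7
        rcases smul_eq_zero.1 h4 with h5 | h5
        · have h6 : z = q := by
            rw [hzl', h5, zero_smul, zero_add]
            have : l3 = 1 := by linarith
            rw [this, one_smul]
          exact ⟨Or.inr h6, Or.inl (h6.trans hqy)⟩
        · exact absurd (sub_eq_zero.1 h5).symm hy'p
    · have hz0 : z = p := by
        apply hl30
        have := key q hqV
        rw [if_neg hpq, if_neg hcq, if_pos rfl, if_neg (fun h => hqy h.symm),
          if_neg (hq1 hqV).symm] at this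
        linarith
      refine ⟨Or.inl hz0, ?_⟩
      rcases hy with hy | hy
      · have := key y hy
        rw [if_neg (hpne y hy), if_neg hcy, if_neg hqy, if_pos rfl,
          if_neg hyy.symm] at this
        exact Or.inr (hm10 (by linarith))
      · rcases hy' with hy' | hy'
        · have := key y' hy'
          rw [if_neg (hpne y' hy'), if_neg hcy', if_neg (hq1 hqV), if_neg hyy,
            if_pos rfl] at this
          exact Or.inl (hm20 (by linarith))
        · rw [hz0] at hzseg ⊢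
          exact hXX' hy hy' hzseg
  · have hqX : q ∈ X := hq.resolve_left hqV
    have hzpq : z ∈ segment ℝ p q := ⟨l1, l3, hl1, hl3, by linarith, hzl'.symm⟩
    have hqne : ∀ w ∈ V, q ≠ w := fun w hw h => hqV (h ▸ hw)
    by_cases hyV : y ∈ V
    · have h1 := key y hyV
      rw [if_neg (hpne y hyV), if_neg hcy, if_neg (hqne y hyV), if_pos rfl,
        if_neg hyy.symm] at h1
      have h2 := hm10 (by linarith)
      rcases hy' with hy' | hy'
      · exfalso
        have h3 := key y' hy'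
        rw [if_neg (hpne y' hy'), if_neg hcy', if_neg (hqne y' hy'),
          if_neg hyy, if_pos rfl] at h3
        linarith
      · refine ⟨?_, Or.inr h2⟩
        rw [h2] at hzpq ⊢
        exact hXq hqX y' hy' hzpq
    · have hyX := hy.resolve_left hyV
      rcases hy' with hy' | hy'
      · have h3 := key y' hy'
        rw [if_neg (hpne y' hy'), if_neg hcy', if_neg (hqne y' hy'),
          if_neg hyy, if_pos rfl] at h3
        have h2 := hm20 (by linarith)
        refine ⟨?_, Or.inl h2⟩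
        rw [h2] at hzpq ⊢
        exact hXq hqX y hyX hzpq
      · exact hXX hyX hy' hqX z hzpq hzseg

theorem mem_line_seg {a u : Fin n → ℝ} (hu : u ≠ 0) {α β s : ℝ} (hαβ : α ≤ β)
    (h : a + s • u ∈ segment ℝ (a + α • u) (a + β • u)) : α ≤ s ∧ s ≤ β := by
  rw [segment_eq_image'] at h
  obtain ⟨θ, ⟨h0, h1⟩, h2⟩ := h
  have h3 : a + α • u + θ • (a + β • u - (a + α • u)) = a + (α + θ * (β - α)) • u := by module
  have h4 : (α + θ * (β - α)) • u = s • u := by
    have h5 : a + (α + θ * (β - α)) • u = a + s • u := h3.symm.trans h2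
    exact add_left_cancel h5
  have h5 := smul_left_injective ℝ hu h4
  have h6 : α + θ * (β - α) = s := h5
  constructor <;> nlinarith

theorem exists_of_line_seg {a u z : Fin n → ℝ} {α β : ℝ} (hαβ : α ≤ β)
    (h : z ∈ segment ℝ (a + α • u) (a + β • u)) : ∃ s, z = a + s • u ∧ α ≤ s ∧ s ≤ β := by
  rw [segment_eq_image'] at h
  obtain ⟨θ, ⟨h0, h1⟩, rfl⟩ := h
  refine ⟨α + θ * (β - α), by module, ?_, ?_⟩ <;> nlinarith

theorem line_seg_mem {a u : Fin n → ℝ} {α β s : ℝ} (h1 : α ≤ s) (h2 : s ≤ β) :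
    a + s • u ∈ segment ℝ (a + α • u) (a + β • u) := by
  rcases h1.lt_or_eq with h | h
  · have hd : 0 < β - α := by linarith
    rw [segment_eq_image']
    refine ⟨(s - α) / (β - α), ⟨by apply div_nonneg <;> linarith, ?_⟩, ?_⟩
    · rw [div_le_one hd]
      linarith
    · have h3 : (s - α) / (β - α) * (β - α) = s - α := div_mul_cancel₀ _ hd.ne'
      have h4 : a + α • u + ((s - α) / (β - α)) • (a + β • u - (a + α • u)) =
          a + (α + (s - α) / (β - α) * (β - α)) • u := by module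
      change a + α • u + ((s - α) / (β - α)) • (a + β • u - (a + α • u)) = _
      rw [h4, h3]
      congr 2
      ring
  · rw [h]
    exact left_mem_segment ℝ _ _

end Pool.Agent.Run7.h754
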