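import Mathlib
import Pool.Agent.Run7.h754.Big

/-!
# Segments have chains of small sets in dimension at least four: assembly
-/

open Set Filter Topology
open scoped Pointwise

namespace Pool.Agent.Run7.h754

variable {n : ℕ} {H : Subgroup ((Fin n → ℝ) ≃ₜ (Fin n → ℝ))} [τ : TopologicalSpace H]
  [IsTopologicalGroup H]

/-- The homeomorphisms moving the pieces of the segment into the small sets. -/
theorem big_moves (hn : 4 ≤ n) {a u : Fin n → ℝ} (hu : u ≠ 0) (m : ℕ) (hm : 0 < m)
    (x : ℕ → Fin n → ℝ) (hx : ∀ i, x i = a + ((i : ℝ) / m) • u)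
    (D O : ℕ → Set (Fin n → ℝ)) (hO : ∀ i < m, IsOpen (O i) ∧ Convex ℝ (O i))
    (hD : ∀ i < m, IsOpen (D i) ∧ IsPreconnected (D i) ∧ D i ⊆ O i ∧ x i ∈ D i ∧
      x (i + 1) ∈ D i) :
    ∃ (P : ℕ → Set (Fin n → ℝ)) (k : ℕ → (Fin n → ℝ) ≃ₜ (Fin n → ℝ)), (∀ i < m, P i ⊆ D i) ∧
      (∀ i < m, PLs (k i) (O i)) ∧
      (∀ i < m, ∀ z ∈ segment ℝ (x i) (x (i + 1)), k i z ∈ P i) ∧
      (∀ i < m, ∀ l < m, l ≠ i → (∀ z ∈ segment ℝ (x l) (x (l + 1)), k i z = z) ∧
        (∀ z ∈ P l, k i z = z)) := by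
  have hm0 : (0 : ℝ) < m := by exact_mod_cast hm
  let X : Set (Fin n → ℝ) := x '' Iic m
  have hXfin : X.Finite := (finite_Iic m).image x
  obtain ⟨V, N, b, hV, hG, hXV, hP, hC⟩ := exists_paths hn hXfin m D x
    (fun i hi => ⟨(hD i hi).1, (hD i hi).2.1, (hD i hi).2.2.2⟩) m le_rfl
  have hxX : ∀ i ≤ m, x i ∈ X := fun i hi => ⟨i, hi, rfl⟩
  have hcl : ∀ l < m, ∀ r ≤ N l, (b l r ∈ V ∧ 1 ≤ r ∧ r < N l) ∨
      (b l r ∈ X ∧ (r = 0 ∨ r = N l)) := by
    intro l hl r hr
    obtain ⟨h1, h2, h3, h4, h5, h6⟩ := hP l hl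
    rcases Nat.eq_zero_or_pos r with rfl | hr0
    · right
      rw [h2]
      exact ⟨hxX l hl.le, Or.inl rfl⟩
    · rcases hr.lt_or_eq with hr1 | hr1
      · left
        exact ⟨h5 r hr0 hr1, hr0, hr1⟩
      · right
        rw [hr1, h3]
        exact ⟨hxX _ hl, Or.inr rfl⟩
  have hmem : ∀ l < m, ∀ r ≤ N l, b l r ∈ V ∨ b l r ∈ X := by
    intro l hl r hr
    rcases hcl l hl r hr with h | h
    · exact Or.inl h.1
    · exact Or.inr h.1
  have hdist : ∀ l < m, ∀ r ≤ N l, ∀ l' < m, ∀ r' ≤ N l', b l r ∈ V → (l ≠ l' ∨ r ≠ r') →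
      b l r ≠ b l' r' := by
    intro l hl r hr l' hl' r' hr' hbV hne heq
    rcases hcl l hl r hr with h | h
    · rcases hcl l' hl' r' hr' with h' | h'
      · by_cases hll : l = l'
        · subst hll
          have hrr : r ≠ r' := by
            rcases hne with h1 | h1
            · exact absurd rfl h1
            · exact h1
          rcases lt_or_gt_of_ne hrr with h1 | h1
          · exact (hP l hl).2.2.2.2.2 r r' h.2.1 h1 h'.2.2 heq
          · exact (hP l hl).2.2.2.2.2 r' r h'.2.1 h1 h.2.2 heq.symm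
        · exact hC l hl l' hl' hll r r' h.2.1 h.2.2 h'.2.1 h'.2.2 heq
      · exact hXV _ h'.1 (heq ▸ hbV)
    · exact hXV _ h.1 hbV
  have hedge : ∀ l < m, ∀ r < N l, b l r ≠ b l (r + 1) ∧ ¬ (b l r ∈ X ∧ b l (r + 1) ∈ X) := by
    intro l hl r hr
    have hN := (hP l hl).1
    have h1 : b l r ∈ V ∨ b l (r + 1) ∈ V := by
      rcases Nat.eq_zero_or_pos r with rfl | hr0
      · exact Or.inr ((hP l hl).2.2.2.2.1 _ (by omega) (by omega))
      · exact Or.inl ((hP l hl).2.2.2.2.1 _ hr0 hr)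
    constructor
    · rcases h1 with h1 | h1
      · exact hdist l hl r hr.le l hl (r + 1) hr h1 (Or.inr (by omega))
      · exact (hdist l hl (r + 1) hr l hl r hr.le h1 (Or.inr (by omega))).symm
    · rintro ⟨h2, h3⟩
      rcases h1 with h1 | h1
      · exact hXV _ h2 h1
      · exact hXV _ h3 h1
  have hdiv : ∀ i j : ℕ, i ≤ j → (i : ℝ) / m ≤ (j : ℝ) / m := fun i j hij => by
    have : (i : ℝ) ≤ j := by exact_mod_cast hij
    gcongr
  have hdiv' : ∀ i j : ℕ, (i : ℝ) / m ≤ (j : ℝ) / m → i ≤ j := fun i j hij => by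
    rw [div_le_div_iff_of_pos_right hm0] at hij
    exact_mod_cast hij
  have hxne : ∀ i j, i ≠ j → x i ≠ x j := by
    intro i j hij h
    rw [hx, hx] at h
    have h1 := smul_left_injective ℝ hu (add_left_cancel h)
    have h2 : (i : ℝ) / m = (j : ℝ) / m := h1
    exact hij (le_antisymm (hdiv' i j h2.le) (hdiv' j i h2.ge))
  -- membership of the points of `X` in the pieces
  have hXseg : ∀ i, ∀ z ∈ X, z ∈ segment ℝ (x i) (x (i + 1)) → z = x i ∨ z = x (i + 1) := by
    rintro i _ ⟨l, -, rfl⟩ hz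
    rw [hx l, hx i, hx (i + 1)] at hz
    obtain ⟨h1, h2⟩ := mem_line_seg hu (hdiv i (i + 1) (by omega)) hz
    have h3 := hdiv' _ _ h1
    have h4 := hdiv' _ _ h2
    rcases Nat.lt_or_ge i l with h5 | h5
    · right
      congr 1
      omega
    · left
      congr 1
      omega
  have hsegseg : ∀ i l, l ≠ i → ∀ z ∈ segment ℝ (x i) (x (i + 1)),
      z ∈ segment ℝ (x l) (x (l + 1)) → (z = x i ∨ z = x (i + 1)) ∧ (z = x l ∨ z = x (l + 1)) := by
    intro i l hli z hz hz'
    rw [hx i, hx (i + 1)] at hz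
    obtain ⟨s, rfl, h1, h2⟩ := exists_of_line_seg (hdiv i (i + 1) (by omega)) hz
    rw [hx l, hx (l + 1)] at hz'
    obtain ⟨h3, h4⟩ := mem_line_seg hu (hdiv l (l + 1) (by omega)) hz'
    rcases lt_or_gt_of_ne hli with h | h
    · have h5 : l + 1 = i := by
        have := hdiv' i (l + 1) (h1.trans h4)
        omega
      have h6 : s = ((l + 1 : ℕ) : ℝ) / m := by
        apply le_antisymm h4
        rw [h5]
        exact h1
      have h7 : a + s • u = x (l + 1) := by rw [h6, hx]
      exact ⟨Or.inl (by rw [h7, h5]), Or.inr h7⟩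
    · have h5 : i + 1 = l := by
        have := hdiv' l (i + 1) (h3.trans h2)
        omega
      have h6 : s = ((i + 1 : ℕ) : ℝ) / m := by
        apply le_antisymm h2
        rw [h5]
        exact h3
      have h7 : a + s • u = x (i + 1) := by rw [h6, hx]
      exact ⟨Or.inr h7, Or.inl (by rw [h7, h5])⟩
  let P : ℕ → Set (Fin n → ℝ) := fun i => {z | ∃ r < N i, z ∈ segment ℝ (b i r) (b i (r + 1))}
  have hPD : ∀ i < m, P i ⊆ D i := by
    rintro i hi z ⟨r, hr, hz⟩
    exact (hP i hi).2.2.2.1 r hr hz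
  have hk : ∀ i, ∃ k : (Fin n → ℝ) ≃ₜ (Fin n → ℝ), i < m → PLs k (O i) ∧
      (∀ z ∈ segment ℝ (x i) (x (i + 1)), k z ∈ P i) ∧
      (∀ l < m, l ≠ i → (∀ z ∈ segment ℝ (x l) (x (l + 1)), k z = z) ∧
        (∀ z ∈ P l, k z = z)) := by
    intro i
    by_cases hi : i < m
    · obtain ⟨hN2, hb0, hbN, hbD, hbV, hbi⟩ := hP i hi
      let Y1 : Set ((Fin n → ℝ) × (Fin n → ℝ)) := (fun l => (x l, x (l + 1))) '' {l | l < m ∧ l ≠ i}
      let Y2 : Set ((Fin n → ℝ) × (Fin n → ℝ)) := ⋃ l ∈ {l : ℕ | l < m ∧ l ≠ i},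
        (fun r => (b l r, b l (r + 1))) '' Iio (N l)
      have hfin : {l : ℕ | l < m ∧ l ≠ i}.Finite := (finite_Iio m).subset (fun l hl => hl.1)
      have hY : (Y1 ∪ Y2).Finite := (hfin.image _).union
        (hfin.biUnion (fun l _ => (finite_Iio _).image _))
      have hbX : b i 0 ∈ X := by
        rw [hb0]
        exact hxX i hi.le
      have hbXn : ∀ r, 1 ≤ r → r < N i → b i r ∉ X := fun r h1 h2 h3 =>
        hXV _ h3 (hbV r h1 h2)
      have hT1 : ∀ j, 1 ≤ j → j < N i → b i 0 ≠ b i (j + 1) := by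
        intro j h1 h2 h3
        rcases Nat.lt_or_ge (j + 1) (N i) with h4 | h4
        · exact hbXn (j + 1) (by omega) h4 (h3 ▸ hbX)
        · have h5 : j + 1 = N i := by omega
          rw [h5, hb0, hbN] at h3
          exact hxne i (i + 1) (by omega) h3
      have hT2 : ∀ j, 1 ≤ j → j < N i → ∀ r : ℝ,
          b i j ≠ b i 0 + r • (b i (j + 1) - b i 0) := by
        intro j h1 h2 r h3
        classical
        have h4 : (0 : ℝ) • b i 0 + (1 : ℝ) • b i j + (0 : ℝ) • b i (j + 1) =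
            (1 - r) • b i 0 + r • b i (j + 1) := by
          rw [one_smul, h3]
          module
        have h5 := gp hG (Or.inr hbX) (Or.inl (hbV j h1 h2)) (hmem i hi (j + 1) h2) (Or.inr hbX)
          (hmem i hi (j + 1) h2) (by ring : (0 : ℝ) + 1 + 0 = 1 - r + r) h4 (b i j) (hbV j h1 h2)
        have h6 : b i 0 ≠ b i j := fun h => hbXn j h1 h2 (h ▸ hbX)
        have h7 : b i (j + 1) ≠ b i j := (hedge i hi j h2).1.symm
        rw [if_neg h6, if_pos rfl, if_neg h7, if_neg h6, if_neg h7] at h5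
        norm_num at h5
      obtain ⟨k, hk, hkY, -, hkp⟩ := fan (hO i hi).1 (hO i hi).2 (N i) (b i) (by
          intro r hr
          rcases hr.lt_or_eq with h | h
          · exact (hD i hi).2.2.1 (hbD r h (left_mem_segment ℝ _ _))
          · have h1 : N i - 1 < N i := by omega
            have h2 : N i - 1 + 1 = N i := by omega
            have h3 := hbD (N i - 1) h1 (right_mem_segment ℝ _ _)
            rw [h2] at h3
            rw [h]
            exact (hD i hi).2.2.1 h3) hY hT1 hT2 (by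
          intro j h1 h2 p hp
          have hcV := hbV j h1 h2
          have hqm := hmem i hi (j + 1) h2
          have hqX : b i (j + 1) ∈ X → b i (j + 1) = x (i + 1) := by
            intro h
            rcases Nat.lt_or_ge (j + 1) (N i) with h4 | h4
            · exact absurd h (hbXn (j + 1) (by omega) h4)
            · have h5 : j + 1 = N i := by omega
              rw [h5, hbN]
          have hcX : b i j ∉ X := hbXn j h1 h2
          have hXq : b i (j + 1) ∈ X → ∀ z ∈ X, z ∈ segment ℝ (b i 0) (b i (j + 1)) →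
              z = b i 0 ∨ z = b i (j + 1) := by
            intro hq z hz hz'
            rw [hqX hq, hb0] at hz' ⊢
            exact hXseg i z hz hz'
          rcases hp with (⟨l, ⟨hl, hli⟩, rfl⟩ | hp) | ⟨i', hi1, hi2, rfl⟩
          · -- a piece of the segment
            have hxl := hxX l hl.le
            have hxl' := hxX (l + 1) hl
            refine tri_seg hG hXV hbX hcV hqm (hT1 j h1 h2) (hedge i hi j h2).1
              (fun h => hcX (h ▸ hxl)) (fun h => hcX (h ▸ hxl')) (Or.inr hxl) (Or.inr hxl')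
              (hxne l (l + 1) (by omega)) ?_ ?_ hXq ?_ ?_
            · intro _ _ hq z hz hz'
              rw [hqX hq, hb0] at hz ⊢
              exact hsegseg i l hli z hz hz'
            · intro _ _ hz
              exact hXseg l _ hbX hz
            · intro hqV hq
              have hq' : b i (j + 1) = x (l + 1) := hq
              rw [hq'] at hqV
              exact hXV _ hxl' hqV
            · intro hqV hq
              have hq' : b i (j + 1) = x l := hq
              rw [hq'] at hqV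
              exact absurd hqV (hXV _ hxl)
          · -- an edge of another path
            simp only [Y2, mem_iUnion] at hp
            obtain ⟨l, ⟨hl, hli⟩, r, hr, rfl⟩ := hp
            have hr' : r < N l := hr
            refine tri_seg hG hXV hbX hcV hqm (hT1 j h1 h2) (hedge i hi j h2).1
              (hdist i hi j h2.le l hl r hr'.le hcV (Or.inl hli.symm))
              (hdist i hi j h2.le l hl (r + 1) hr' hcV (Or.inl hli.symm))
              (hmem l hl r hr'.le) (hmem l hl (r + 1) hr') (hedge l hl r hr').1 ?_ ?_ hXq ?_ ?_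
            · intro h3 h4
              exact absurd ⟨h3, h4⟩ (hedge l hl r hr').2
            · intro h3 h4
              exact absurd ⟨h3, h4⟩ (hedge l hl r hr').2
            · intro hqV
              exact hdist i hi (j + 1) h2 l hl (r + 1) hr' hqV (Or.inl hli.symm)
            · intro hqV hq
              exact absurd hq (hdist i hi (j + 1) h2 l hl r hr'.le hqV (Or.inl hli.symm))
          · -- a later edge of the same path
            refine tri_seg hG hXV hbX hcV hqm (hT1 j h1 h2) (hedge i hi j h2).1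
              (hdist i hi j h2.le i hi i' hi2.le hcV (Or.inr (by omega)))
              (hdist i hi j h2.le i hi (i' + 1) hi2 hcV (Or.inr (by omega)))
              (hmem i hi i' hi2.le) (hmem i hi (i' + 1) hi2) (hedge i hi i' hi2).1 ?_ ?_ hXq ?_ ?_
            · intro h3 h4
              exact absurd ⟨h3, h4⟩ (hedge i hi i' hi2).2
            · intro h3 h4
              exact absurd ⟨h3, h4⟩ (hedge i hi i' hi2).2
            · intro hqV
              exact hdist i hi (j + 1) h2 i hi (i' + 1) hi2 hqV (Or.inr (by omega))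
            · intro _ _
              exact (hT1 i' (by omega) hi2).symm) (N i) (by omega) le_rfl
      refine ⟨k, fun _ => ⟨hk, ?_, ?_⟩⟩
      · intro z hz
        rw [← hb0, ← hbN] at hz
        exact hkp z hz
      · intro l hl hli
        refine ⟨fun z hz => hkY _ (Or.inl ⟨l, ⟨hl, hli⟩, rfl⟩) z hz, ?_⟩
        rintro z ⟨r, hr, hz⟩
        refine hkY (b l r, b l (r + 1)) (Or.inr ?_) z hz
        simp only [Y2, mem_iUnion]
        exact ⟨l, ⟨hl, hli⟩, r, hr, rfl⟩
    · exact ⟨1, fun h => absurd h hi⟩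
  choose k hk using hk
  exact ⟨P, k, hPD, fun i hi => (hk i hi).1, fun i hi => (hk i hi).2.1,
    fun i hi => (hk i hi).2.2⟩

theorem hasChain_big (hn : 4 ≤ n) (hH : Ctx H) (hX : NoCut (Fin n → ℝ)) {a b : Fin n → ℝ}
    (hab : a ≠ b) (ha : a ∈ Metric.ball (0 : Fin n → ℝ) 50)
    (hb : b ∈ Metric.ball (0 : Fin n → ℝ) 50) : HasChain H a b := by
  classical
  intro W hW
  obtain ⟨ε, hε, hεW⟩ := hH.small W hW
  set u := b - a with hu
  have hu0 : u ≠ 0 := sub_ne_zero.2 hab.symm
  have hun : 0 < ‖u‖ := norm_pos_iff.2 hu0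
  obtain ⟨m, hm⟩ := exists_nat_gt (max 1 (max (3 * ‖u‖ / ε) ‖u‖))
  have hm1 : (1 : ℝ) < m := (le_max_left _ _).trans_lt hm
  have hm2 : 3 * ‖u‖ / ε < m := ((le_max_left _ _).trans (le_max_right _ _)).trans_lt hm
  have hm3 : ‖u‖ < m := ((le_max_right _ _).trans (le_max_right _ _)).trans_lt hm
  have hm0 : (0 : ℝ) < m := by linarith
  have hmN : 0 < m := by exact_mod_cast hm0
  set ℓ := ‖u‖ / m with hℓ
  have hℓ0 : 0 < ℓ := by positivity
  have hℓ1 : ℓ < 1 := by
    rw [hℓ, div_lt_one hm0]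
    exact hm3
  have hℓε : 3 * ℓ ≤ ε := by
    rw [hℓ]
    rw [div_lt_iff₀ hε] at hm2
    rw [← mul_div_assoc, div_le_iff₀ hm0]
    linarith
  have hℓm : ℓ * m = ‖u‖ := by
    rw [hℓ]
    field_simp
  obtain ⟨V, hV, hVW⟩ := pow_nhds m hW
  let x : ℕ → Fin n → ℝ := fun i => a + ((i : ℝ) / m) • u
  let c : ℕ → Fin n → ℝ := fun i => a + (((i : ℝ) + 1 / 2) / m) • u
  let O : ℕ → Set (Fin n → ℝ) := fun i => Metric.ball (c i) (3 / 5 * ℓ)
  have hdistc : ∀ s t : ℝ, ‖(a + (s / m) • u) - (a + (t / m) • u)‖ = |s - t| * ℓ := by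
    intro s t
    have h1 : (a + (s / m) • u) - (a + (t / m) • u) = ((s - t) / m) • u := by
      rw [add_sub_add_left_eq_sub, ← sub_smul, sub_div]
    rw [h1, norm_smul, Real.norm_eq_abs, abs_div, abs_of_pos hm0, hℓ]
    ring
  have hxO : ∀ i : ℕ, ∀ s : ℝ, (i : ℝ) ≤ s → s ≤ i + 1 → a + (s / m) • u ∈ O i := by
    intro i s h1 h2
    change _ ∈ Metric.ball (a + (((i : ℝ) + 1 / 2) / m) • u) (3 / 5 * ℓ)
    rw [mem_ball_iff_norm, hdistc]
    have h3 : |s - (i + 1 / 2)| ≤ 1 / 2 := by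
      rw [abs_le]
      constructor <;> linarith
    nlinarith
  have hOT : ∀ i < m, O i ⊆ Metric.ball 0 100 := by
    intro i hi z hz
    have h1 : c i ∈ Metric.ball (0 : Fin n → ℝ) 50 := by
      have h2 : c i ∈ segment ℝ a b := by
        rw [segment_eq_image']
        refine ⟨((i : ℝ) + 1 / 2) / m, ⟨by positivity, ?_⟩, rfl⟩
        rw [div_le_one hm0]
        have : (i : ℝ) + 1 ≤ m := by exact_mod_cast hi
        linarith
      exact (convex_ball _ _).segment_subset ha hb h2
    rw [mem_ball_zero_iff] at h1 ⊢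
    have h3 : ‖z - c i‖ < 3 / 5 * ℓ := mem_ball_iff_norm.1 hz
    have h4 : ‖z‖ ≤ ‖z - c i‖ + ‖c i‖ := by
      have := norm_add_le (z - c i) (c i)
      rwa [sub_add_cancel] at this
    linarith
  have hxmem : ∀ i, x i ∈ O i := fun i => hxO i i le_rfl (by linarith)
  have hxmem' : ∀ i, x (i + 1) ∈ O i := fun i => by
    have := hxO i ((i + 1 : ℕ) : ℝ) (by push_cast; linarith) (by push_cast; linarith)
    exact this
  have hxne : ∀ i, x i ≠ x (i + 1) := by
    intro i h
    have h1 := hdistc ((i : ℕ) : ℝ) ((i + 1 : ℕ) : ℝ)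
    have h2 : (a + (((i : ℕ) : ℝ) / m) • u) - (a + (((i + 1 : ℕ) : ℝ) / m) • u) = 0 :=
      sub_eq_zero.2 h
    rw [h2, norm_zero] at h1
    push_cast at h1
    have h3 : |(i : ℝ) - (i + 1)| = 1 := by
      have : (i : ℝ) - (i + 1) = -1 := by ring
      rw [this]
      norm_num
    rw [h3] at h1
    linarith
  have hD : ∀ i, ∃ D : Set (Fin n → ℝ), i < m → IsOpen D ∧ IsPreconnected D ∧ D ⊆ O i ∧
      x i ∈ D ∧ x (i + 1) ∈ D ∧ Sm H V D := by
    intro i
    by_cases hi : i < m
    · obtain ⟨D, hD⟩ := exists_smallset hH hX hV Metric.isOpen_ball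
        (convex_ball (c i) (3 / 5 * ℓ)).isPreconnected (hOT i hi) (hxmem i) (hxmem' i) (hxne i)
      exact ⟨D, fun _ => hD⟩
    · exact ⟨∅, fun h => absurd h hi⟩
  choose D hD using hD
  obtain ⟨P, k, hPD, hkO, hkP, hkfix⟩ := big_moves hn (a := a) hu0 m hmN x (fun i => rfl) D O
    (fun i _ => ⟨Metric.isOpen_ball, convex_ball _ _⟩)
    (fun i hi => ⟨(hD i hi).1, (hD i hi).2.1, (hD i hi).2.2.1, (hD i hi).2.2.2.1,
      (hD i hi).2.2.2.2.1⟩)
  -- the two products
  have hOdis : ∀ i j, i + 2 ≤ j → Disjoint (O i) (O j) := by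
    intro i j hij
    apply Metric.ball_disjoint_ball
    rw [dist_eq_norm]
    change _ ≤ ‖(a + (((i : ℝ) + 1 / 2) / m) • u) - (a + (((j : ℝ) + 1 / 2) / m) • u)‖
    rw [hdistc]
    have h1 : ((i : ℝ) + 2) ≤ j := by exact_mod_cast hij
    have h2 : 2 ≤ |(i : ℝ) + 1 / 2 - (j + 1 / 2)| := by
      rw [abs_sub_comm]
      exact le_trans (by linarith) (le_abs_self _)
    nlinarith
  have hprod : ∀ e : ℕ, ∃ F : (Fin n → ℝ) ≃ₜ (Fin n → ℝ), PLs F (Metric.ball 0 100) ∧
      (∀ i < m, i % 2 = e → ∀ z ∈ O i, F z = k i z) ∧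
      (∀ z, (∀ i < m, i % 2 = e → z ∉ O i) → F z = z) ∧ (∀ z, ‖F z - z‖ ≤ 6 / 5 * ℓ) := by
    intro e
    let s : Finset ℕ := (Finset.range m).filter (fun i => i % 2 = e)
    have hs : ∀ i, i ∈ s ↔ i < m ∧ i % 2 = e := fun i => by simp [s]
    obtain ⟨F, hF1, hF2, hF3⟩ := disj_prod s O k (by
      intro i hi j hj hij
      obtain ⟨-, hi2⟩ := (hs i).1 hi
      obtain ⟨-, hj2⟩ := (hs j).1 hj
      rcases lt_or_gt_of_ne hij with h | h
      · exact hOdis i j (by omega)
      · exact (hOdis j i (by omega)).symm) (fun i hi => hkO i ((hs i).1 hi).1)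
    refine ⟨F, hF1.mono ?_, ?_, ?_, ?_⟩
    · intro z hz
      simp only [mem_iUnion] at hz
      obtain ⟨i, hi, hz⟩ := hz
      exact hOT i ((hs i).1 hi).1 hz
    · intro i hi hie z hz
      exact hF2 i ((hs i).2 ⟨hi, hie⟩) z hz
    · intro z hz
      apply hF3
      simp only [mem_iUnion, not_exists]
      intro i hi
      exact hz i ((hs i).1 hi).1 ((hs i).1 hi).2
    · intro z
      by_cases hz : z ∈ ⋃ i ∈ s, O i
      · simp only [mem_iUnion] at hz
        obtain ⟨i, hi, hz⟩ := hz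
        rw [hF2 i hi z hz]
        apply disp_le (hkO i ((hs i).1 hi).1).2 (by positivity)
        intro p hp q hq
        rw [← dist_eq_norm]
        have h1 := dist_triangle_right p q (c i)
        have h2 : dist p (c i) < 3 / 5 * ℓ := hp
        have h3 : dist q (c i) < 3 / 5 * ℓ := hq
        linarith
      · rw [hF3 z hz, sub_self, norm_zero]
        positivity
  obtain ⟨k1, hk1, hk1a, hk1b, hk1c⟩ := hprod 1
  obtain ⟨k2, hk2, hk2a, hk2b, hk2c⟩ := hprod 0
  let K : H := ⟨k2 * k1, hH.pl _ (hk2.mul hk1)⟩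
  refine ⟨m, fun i => (i : ℝ) / m, D, V, K, ?_, hVW m le_rfl, by simp, div_self hm0.ne', ?_,
    fun i hi => (hD i hi).1, fun i hi => (hD i hi).2.2.1.trans (hOT i hi),
    fun i hi => (hD i hi).2.2.2.2.2, ?_⟩
  · apply hεW
    intro z
    change ‖k2 (k1 z) - z‖ ≤ ε
    have h1 : k2 (k1 z) - z = (k2 (k1 z) - k1 z) + (k1 z - z) := by abel
    rw [h1]
    have h2 := norm_add_le (k2 (k1 z) - k1 z) (k1 z - z)
    have h3 := hk1c z
    have h4 := hk2c (k1 z)
    linarith
  · intro i _
    have : (i : ℝ) ≤ ((i + 1 : ℕ) : ℝ) := by push_cast; linarith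
    change (i : ℝ) / m ≤ ((i + 1 : ℕ) : ℝ) / m
    gcongr
  · intro i hi s hs
    change k2 (k1 (a + s • u)) ∈ D i
    have hs1 : (i : ℝ) / m ≤ s := hs.1
    have hs2 : s ≤ ((i + 1 : ℕ) : ℝ) / m := hs.2
    have hz1 : a + s • u ∈ segment ℝ (x i) (x (i + 1)) := line_seg_mem hs1 hs2
    have hz2 : a + s • u ∈ O i := by
      have h1 := hxO i (s * m) (by rwa [div_le_iff₀ hm0] at hs1) (by
        rw [le_div_iff₀ hm0] at hs2
        push_cast at hs2
        exact hs2)
      rwa [mul_div_assoc, div_self hm0.ne', mul_one] at h1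
    rcases Nat.mod_two_eq_zero_or_one i with hpar | hpar
    · have h1 : k1 (a + s • u) = a + s • u := by
        by_cases h : ∃ j, j < m ∧ j % 2 = 1 ∧ a + s • u ∈ O j
        · obtain ⟨j, hj, hj2, hzj⟩ := h
          rw [hk1a j hj hj2 _ hzj]
          exact (hkfix j hj i hi (by rintro rfl; omega)).1 _ hz1
        · push Not at h
          exact hk1b _ h
      rw [h1, hk2a i hi hpar _ hz2]
      exact hPD i hi (hkP i hi _ hz1)
    · have h1 : k1 (a + s • u) ∈ P i := by
        rw [hk1a i hi hpar _ hz2]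
        exact hkP i hi _ hz1
      have h2 : k2 (k1 (a + s • u)) = k1 (a + s • u) := by
        by_cases h : ∃ j, j < m ∧ j % 2 = 0 ∧ k1 (a + s • u) ∈ O j
        · obtain ⟨j, hj, hj2, hzj⟩ := h
          rw [hk2a j hj hj2 _ hzj]
          exact (hkfix j hj i hi (by rintro rfl; omega)).2 _ h1
        · push Not at h
          exact hk2b _ h
      rw [h2]
      exact hPD i hi h1

end Pool.Agent.Run7.h754
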