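import Mathlib
import Pool.Agent.Run7.h754.TM

/-!
# Moves across a parallelogram
-/

open Set Filter Topology

namespace Pool.Agent.Run7.h754

variable {n : ℕ}

/-- The closed parallelogram. -/
def Cell (a e f : Fin n → ℝ) : Set (Fin n → ℝ) :=
  {z | ∃ s t : ℝ, 0 ≤ s ∧ s ≤ 1 ∧ 0 ≤ t ∧ t ≤ 1 ∧ z = a + s • e + t • f}

theorem convex_cell (a e f : Fin n → ℝ) : Convex ℝ (Cell a e f) := by
  rintro _ ⟨s, t, h1, h2, h3, h4, rfl⟩ _ ⟨s', t', h1', h2', h3', h4', rfl⟩ x y hx hy hxy
  refine ⟨x * s + y * s', x * t + y * t', by positivity, by nlinarith, by positivity,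
    by nlinarith, ?_⟩
  have : x • (a + s • e + t • f) + y • (a + s' • e + t' • f) =
      (x + y) • a + (x * s + y * s') • e + (x * t + y * t') • f := by module
  rw [this, hxy, one_smul]

theorem cell_uniq {e f : Fin n → ℝ} (he : e ≠ 0) (hf : ∀ r : ℝ, f ≠ r • e) {s t s' t' : ℝ}
    (h : s • e + t • f = s' • e + t' • f) : s = s' ∧ t = t' := by
  have h1 : (t - t') • f = (s' - s) • e := by
    have h2 : (t - t') • f = (s • e + t • f) - t' • f - s • e := by module
    rw [h2, h]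
    module
  have h2 : t = t' := by
    by_contra hne
    have hne' : t - t' ≠ 0 := sub_ne_zero.2 hne
    apply hf ((t - t')⁻¹ * (s' - s))
    rw [mul_smul, ← h1, smul_smul, inv_mul_cancel₀ hne', one_smul]
  refine ⟨?_, h2⟩
  rw [h2, sub_self, zero_smul] at h1
  have h3 := (smul_eq_zero.1 h1.symm).resolve_right he
  linarith

theorem mem_seg {x y z : Fin n → ℝ} : z ∈ segment ℝ x y ↔ ∃ θ : ℝ, 0 ≤ θ ∧ θ ≤ 1 ∧
    z = x + θ • (y - x) := by
  rw [segment_eq_image']
  constructor
  · rintro ⟨θ, ⟨h0, h1⟩, rfl⟩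
    exact ⟨θ, h0, h1, rfl⟩
  · rintro ⟨θ, h0, h1, rfl⟩
    exact ⟨θ, ⟨h0, h1⟩, rfl⟩

section
variable {a e f : Fin n → ℝ} (he : e ≠ 0) (hf : ∀ r : ℝ, f ≠ r • e)
include he hf

theorem diag_ne : a ≠ a + e + f := by
  intro h
  have h1 : (0 : ℝ) • e + (0 : ℝ) • f = (1 : ℝ) • e + (1 : ℝ) • f := by
    rw [zero_smul, zero_smul, one_smul, one_smul, add_zero]
    have h2 : a + 0 = a + (e + f) := by rw [add_zero, ← add_assoc]; exact h
    exact add_left_cancel h2
  exact absurd (cell_uniq he hf h1).1 (by norm_num)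

theorem corner_e (r : ℝ) : a + e ≠ a + r • (a + e + f - a) := by
  intro h
  have h1 : (1 : ℝ) • e + (0 : ℝ) • f = r • e + r • f := by
    have h2 : a + ((1 : ℝ) • e + (0 : ℝ) • f) = a + (r • e + r • f) := by
      calc a + ((1 : ℝ) • e + (0 : ℝ) • f) = a + e := by module
        _ = a + r • (a + e + f - a) := h
        _ = _ := by module
    exact add_left_cancel h2
  obtain ⟨h2, h3⟩ := cell_uniq he hf h1
  rw [← h3] at h2
  norm_num at h2

theorem corner_f (r : ℝ) : a + f ≠ a + r • (a + e + f - a) := by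
  intro h
  have h1 : (0 : ℝ) • e + (1 : ℝ) • f = r • e + r • f := by
    have h2 : a + ((0 : ℝ) • e + (1 : ℝ) • f) = a + (r • e + r • f) := by
      calc a + ((0 : ℝ) • e + (1 : ℝ) • f) = a + f := by module
        _ = a + r • (a + e + f - a) := h
        _ = _ := by module
    exact add_left_cancel h2
  obtain ⟨h2, h3⟩ := cell_uniq he hf h1
  rw [← h3] at h2
  norm_num at h2

omit he hf in
theorem tri_e_sub : convexHull ℝ {a, a + e + f, a + e} ⊆ Cell a e f := by
  apply convexHull_min _ (convex_cell a e f)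
  rintro z (rfl | rfl | rfl)
  · exact ⟨0, 0, le_rfl, zero_le_one, le_rfl, zero_le_one, by module⟩
  · exact ⟨1, 1, zero_le_one, le_rfl, zero_le_one, le_rfl, by module⟩
  · exact ⟨1, 0, zero_le_one, le_rfl, le_rfl, zero_le_one, by module⟩

omit he hf in
theorem tri_f_sub : convexHull ℝ {a, a + e + f, a + f} ⊆
    {z | ∃ s t : ℝ, 0 ≤ s ∧ s ≤ t ∧ t ≤ 1 ∧ z = a + s • e + t • f} := by
  apply convexHull_min
  · rintro z (rfl | rfl | rfl)
    · exact ⟨0, 0, le_rfl, le_rfl, zero_le_one, by module⟩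
    · exact ⟨1, 1, zero_le_one, le_rfl, le_rfl, by module⟩
    · exact ⟨0, 1, le_rfl, zero_le_one, le_rfl, by module⟩
  · rintro _ ⟨s, t, h1, h2, h3, rfl⟩ _ ⟨s', t', h1', h2', h3', rfl⟩ x y hx hy hxy
    refine ⟨x * s + y * s', x * t + y * t', by positivity, ?_, by nlinarith, ?_⟩
    · have h4 := mul_le_mul_of_nonneg_left h2 hx
      have h5 := mul_le_mul_of_nonneg_left h2' hy
      linarith
    · have : x • (a + s • e + t • f) + y • (a + s' • e + t' • f) =
          (x + y) • a + (x * s + y * s') • e + (x * t + y * t') • f := by module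
      rw [this, hxy, one_smul]

omit he hf in
theorem tri_f_sub' : convexHull ℝ {a, a + e + f, a + f} ⊆ Cell a e f := by
  intro z hz
  obtain ⟨s, t, h1, h2, h3, rfl⟩ := tri_f_sub hz
  exact ⟨s, t, h1, h2.trans h3, h1.trans h2, h3, rfl⟩

theorem cell_beta {O : Set (Fin n → ℝ)} (hO : IsOpen O) (hQ : Cell a e f ⊆ O)
    {Y : Set ((Fin n → ℝ) × (Fin n → ℝ))} (hY : Y.Finite)
    (hYp : ∀ p ∈ Y, ∀ z ∈ segment ℝ p.1 p.2, z ∈ Cell a e f →
      (z = a ∨ z = a + e + f) ∧ (z = p.1 ∨ z = p.2)) :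
    ∃ F : (Fin n → ℝ) ≃ₜ (Fin n → ℝ), PLs F O ∧ (∀ p ∈ Y, ∀ z ∈ segment ℝ p.1 p.2, F z = z) ∧
      F '' (segment ℝ a (a + e) ∪ segment ℝ (a + e) (a + e + f)) =
        segment ℝ a (a + f) ∪ segment ℝ (a + f) (a + e + f) := by
  obtain ⟨F1, h1, h1Y, -, -, h1i⟩ := TM (diag_ne he hf (a := a)) (corner_e he hf (a := a)) hO
    (tri_e_sub.trans hQ) hY (fun p hp z hz hz' => hYp p hp z hz (tri_e_sub hz'))
  obtain ⟨F2, h2, h2Y, -, -, h2i⟩ := TM (diag_ne he hf (a := a)) (corner_f he hf (a := a)) hO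
    (tri_f_sub'.trans hQ) hY (fun p hp z hz hz' => hYp p hp z hz (tri_f_sub' hz'))
  refine ⟨F2 * F1⁻¹, h2.mul h1.inv, ?_, ?_⟩
  · intro p hp z hz
    change F2 (F1.symm z) = z
    have h3 : F1.symm z = z := by
      rw [Homeomorph.symm_apply_eq]
      exact (h1Y p hp z hz).symm
    rw [h3, h2Y p hp z hz]
  · rw [← h1i, ← h2i]
    ext z
    constructor
    · rintro ⟨_, ⟨w, hw, rfl⟩, rfl⟩
      refine ⟨w, hw, ?_⟩
      change F2 w = F2 (F1.symm (F1 w))
      rw [F1.symm_apply_apply]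
    · rintro ⟨w, hw, rfl⟩
      refine ⟨F1 w, ⟨w, hw, rfl⟩, ?_⟩
      change F2 (F1.symm (F1 w)) = F2 w
      rw [F1.symm_apply_apply]

theorem cell_alpha {O : Set (Fin n → ℝ)} (hO : IsOpen O) (hQ : Cell a e f ⊆ O)
    {Y : Set ((Fin n → ℝ) × (Fin n → ℝ))} (hY : Y.Finite)
    (hYp : ∀ p ∈ Y, ∀ z ∈ segment ℝ p.1 p.2, z ∈ Cell a e f →
      (z = a ∨ z = a + e) ∧ (z = p.1 ∨ z = p.2)) :
    ∃ F : (Fin n → ℝ) ≃ₜ (Fin n → ℝ), PLs F O ∧ (∀ p ∈ Y, ∀ z ∈ segment ℝ p.1 p.2, F z = z) ∧
      F '' segment ℝ a (a + e) =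
        (segment ℝ a (a + f) ∪ segment ℝ (a + f) (a + e + f)) ∪
          segment ℝ (a + e + f) (a + e) := by
  have hset : ({a, a + e, a + e + f} : Set (Fin n → ℝ)) = {a, a + e + f, a + e} := by
    ext z
    simp only [mem_insert_iff, mem_singleton_iff]
    tauto
  obtain ⟨F1, h1, h1Y, -, -, h1i⟩ := TM (a := a) (b := a + e) (c := a + e + f)
    (by
      intro h
      rw [left_eq_add] at h
      exact he h)
    (by
      intro r h
      have h2 : (1 : ℝ) • e + (1 : ℝ) • f = r • e + (0 : ℝ) • f := by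
        have h3 : a + ((1 : ℝ) • e + (1 : ℝ) • f) = a + (r • e + (0 : ℝ) • f) := by
          calc a + ((1 : ℝ) • e + (1 : ℝ) • f) = a + e + f := by module
            _ = a + r • (a + e - a) := h
            _ = _ := by module
        exact add_left_cancel h3
      exact absurd (cell_uniq he hf h2).2 one_ne_zero) hO
    (by
      rw [hset]
      exact tri_e_sub.trans hQ) hY
    (fun p hp z hz hz' => hYp p hp z hz (by
      rw [hset] at hz'
      exact tri_e_sub hz'))
  have hY2 : (insert (a + e + f, a + e) Y).Finite := hY.insert _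
  obtain ⟨F2, h2, h2Y, -, -, h2i⟩ := TM (diag_ne he hf (a := a)) (corner_f he hf (a := a)) hO
    (tri_f_sub'.trans hQ) hY2 (by
      intro p hp z hz hz'
      rcases hp with rfl | hp
      · obtain ⟨s, t, hs0, hst, ht1, hzst⟩ := tri_f_sub hz'
        obtain ⟨θ, hθ0, hθ1, hzθ⟩ := mem_seg.1 hz
        have h3 : (1 : ℝ) • e + (1 - θ) • f = s • e + t • f := by
          have h4 : a + ((1 : ℝ) • e + (1 - θ) • f) = a + (s • e + t • f) := by
            calc a + ((1 : ℝ) • e + (1 - θ) • f) =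
                a + e + f + θ • (a + e - (a + e + f)) := by module
              _ = z := hzθ.symm
              _ = a + s • e + t • f := hzst
              _ = _ := by module
          exact add_left_cancel h4
        obtain ⟨h5, h6⟩ := cell_uniq he hf h3
        have h7 : t = 1 := by linarith
        have h8 : z = a + e + f := by
          rw [hzst, ← h5, h7]
          module
        exact ⟨Or.inr h8, Or.inl h8⟩
      · obtain ⟨h3, h4⟩ := hYp p hp z hz (tri_f_sub' hz')
        refine ⟨?_, h4⟩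
        rcases h3 with h3 | h3
        · exact Or.inl h3
        · exfalso
          obtain ⟨s, t, hs0, hst, ht1, hzst⟩ := tri_f_sub hz'
          have h5 : (1 : ℝ) • e + (0 : ℝ) • f = s • e + t • f := by
            have h6 : a + ((1 : ℝ) • e + (0 : ℝ) • f) = a + (s • e + t • f) := by
              calc a + ((1 : ℝ) • e + (0 : ℝ) • f) = a + e := by module
                _ = z := h3.symm
                _ = a + s • e + t • f := hzst
                _ = _ := by module
            exact add_left_cancel h6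
          obtain ⟨h6, h7⟩ := cell_uniq he hf h5
          linarith)
  refine ⟨F2 * F1, h2.mul h1, ?_, ?_⟩
  · intro p hp z hz
    change F2 (F1 z) = z
    rw [h1Y p hp z hz, h2Y p (Or.inr hp) z hz]
  · have h3 : (F2 * F1 : (Fin n → ℝ) ≃ₜ (Fin n → ℝ)) '' segment ℝ a (a + e) =
        F2 '' (F1 '' segment ℝ a (a + e)) := by
      rw [image_image]
      rfl
    rw [h3, h1i, image_union, h2i]
    congr 1
    ext z
    constructor
    · rintro ⟨w, hw, rfl⟩
      rw [h2Y _ (Or.inl rfl) w hw]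
      exact hw
    · intro hz
      exact ⟨z, hz, h2Y _ (Or.inl rfl) z hz⟩

end

end Pool.Agent.Run7.h754
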