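import Mathlib

/-!
# Self-avoiding lattice paths in a rectangle can be straightened by elementary moves
-/

namespace Pool.Agent.Run7.h754

/-- Adjacency in the square lattice. -/
def LAdj (u v : ℤ × ℤ) : Prop :=
  (u.1 = v.1 ∧ (u.2 = v.2 + 1 ∨ v.2 = u.2 + 1)) ∨ (u.2 = v.2 ∧ (u.1 = v.1 + 1 ∨ v.1 = u.1 + 1))

theorem LAdj.symm {u v : ℤ × ℤ} (h : LAdj u v) : LAdj v u := by
  unfold LAdj at *
  omega

/-- A self-avoiding lattice path of length `N` from `(0, 0)` to `(A, 0)` in the rectangle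
`[0, A] × [0, B]`. -/
structure LPath (A B : ℤ) (N : ℕ) (p : ℕ → ℤ × ℤ) : Prop where
  start : p 0 = (0, 0)
  fin : p N = (A, 0)
  adj : ∀ i < N, LAdj (p i) (p (i + 1))
  inj : ∀ i j, i < j → j ≤ N → p i ≠ p j
  box : ∀ i ≤ N, 0 ≤ (p i).1 ∧ (p i).1 ≤ A ∧ 0 ≤ (p i).2 ∧ (p i).2 ≤ B

variable {A B : ℤ} {N : ℕ} {p : ℕ → ℤ × ℤ}

/-- The path has an edge between `u` and `v`. -/
def Nb (N : ℕ) (p : ℕ → ℤ × ℤ) (u v : ℤ × ℤ) : Prop :=
  ∃ i < N, (p i = u ∧ p (i + 1) = v) ∨ (p i = v ∧ p (i + 1) = u)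

/-- The path visits `u`. -/
def Vis (N : ℕ) (p : ℕ → ℤ × ℤ) (u : ℤ × ℤ) : Prop := ∃ i ≤ N, p i = u

theorem Nb.symm {u v : ℤ × ℤ} (h : Nb N p u v) : Nb N p v u := by
  obtain ⟨i, hi, h1⟩ := h
  exact ⟨i, hi, h1.symm⟩

theorem Nb.vis {u v : ℤ × ℤ} (h : Nb N p u v) : Vis N p u := by
  obtain ⟨i, hi, h1 | h1⟩ := h
  · exact ⟨i, hi.le, h1.1⟩
  · exact ⟨i + 1, hi, h1.2⟩

namespace LPath

theorem inj' (hp : LPath A B N p) {i j : ℕ} (hi : i ≤ N) (hj : j ≤ N) (h : p i = p j) : i = j := by
  rcases lt_trichotomy i j with h1 | h1 | h1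
  · exact absurd h (hp.inj i j h1 hj)
  · exact h1
  · exact absurd h.symm (hp.inj j i h1 hi)

theorem nb_adj (hp : LPath A B N p) {u v : ℤ × ℤ} (h : Nb N p u v) : LAdj u v := by
  obtain ⟨i, hi, ⟨rfl, rfl⟩ | ⟨rfl, rfl⟩⟩ := h
  · exact hp.adj i hi
  · exact (hp.adj i hi).symm

theorem nb_iff (hp : LPath A B N p) {i : ℕ} (hi : i ≤ N) {v : ℤ × ℤ} (h : Nb N p (p i) v) :
    (1 ≤ i ∧ v = p (i - 1)) ∨ (i + 1 ≤ N ∧ v = p (i + 1)) := by
  obtain ⟨j, hj, ⟨h1, h2⟩ | ⟨h1, h2⟩⟩ := h
  · have h3 := hp.inj' hj.le hi h1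
    subst h3
    exact Or.inr ⟨hj, h2.symm⟩
  · have h3 := hp.inj' hj hi h2
    subst h3
    left
    refine ⟨by omega, ?_⟩
    exact h1.symm

/-- Each vertex has at most two neighbours. -/
theorem nb_two (hp : LPath A B N p) {u v1 v2 v3 : ℤ × ℤ} (h1 : Nb N p u v1) (h2 : Nb N p u v2)
    (h3 : Nb N p u v3) : v1 = v2 ∨ v1 = v3 ∨ v2 = v3 := by
  obtain ⟨i, hi, rfl⟩ := h1.vis
  rcases hp.nb_iff hi h1 with ⟨-, a1⟩ | ⟨-, a1⟩ <;> rcases hp.nb_iff hi h2 with ⟨-, a2⟩ | ⟨-, a2⟩ <;>
  rcases hp.nb_iff hi h3 with ⟨-, a3⟩ | ⟨-, a3⟩ <;> subst a1 a2 a3 <;> simp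

/-- Each vertex which is not an end has two neighbours. -/
theorem nb_exists (hp : LPath A B N p) {u : ℤ × ℤ} (hu : Vis N p u) (h0 : u ≠ (0, 0))
    (hA : u ≠ (A, 0)) : ∃ v w, v ≠ w ∧ Nb N p u v ∧ Nb N p u w := by
  obtain ⟨i, hi, rfl⟩ := hu
  have h1 : i ≠ 0 := by
    rintro rfl
    exact h0 hp.start
  have h2 : i ≠ N := by
    rintro rfl
    exact hA hp.fin
  refine ⟨p (i - 1), p (i + 1), hp.inj _ _ (by omega) (by omega), ?_, ?_⟩
  · refine ⟨i - 1, by omega, Or.inr ⟨rfl, ?_⟩⟩
    congr 1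
    omega
  · exact ⟨i, by omega, Or.inl ⟨rfl, rfl⟩⟩

theorem box' (hp : LPath A B N p) {u : ℤ × ℤ} (hu : Vis N p u) :
    0 ≤ u.1 ∧ u.1 ≤ A ∧ 0 ≤ u.2 ∧ u.2 ≤ B := by
  obtain ⟨i, hi, rfl⟩ := hu
  exact hp.box i hi

/-- A vertex which is not an end and has no left and no upper neighbour has a right and a lower
neighbour. -/
theorem right_down (hp : LPath A B N p) {x y : ℤ} (hu : Vis N p (x, y)) (h0 : (x, y) ≠ (0, 0))
    (hA : (x, y) ≠ (A, 0)) (hl : ¬ Nb N p (x, y) (x - 1, y)) (hup : ¬ Nb N p (x, y) (x, y + 1)) :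
    Nb N p (x, y) (x + 1, y) ∧ Nb N p (x, y) (x, y - 1) := by
  obtain ⟨v, w, hvw, hv, hw⟩ := hp.nb_exists hu h0 hA
  have key : ∀ v, Nb N p (x, y) v → v = (x + 1, y) ∨ v = (x, y - 1) := by
    rintro ⟨v1, v2⟩ hv
    rcases hp.nb_adj hv with ⟨h1, h2 | h2⟩ | ⟨h1, h2 | h2⟩
    · simp only at h1 h2
      right
      rw [h1]
      congr 1
      omega
    · simp only at h1 h2
      exfalso
      apply hup
      subst h1
      have : v2 = y + 1 := h2
      rwa [this] at hv
    · simp only at h1 h2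
      exfalso
      apply hl
      subst h1
      have : v1 = x - 1 := by omega
      rwa [this] at hv
    · simp only at h1 h2
      left
      rw [h1, h2]
  rcases key v hv with h1 | h1 <;> rcases key w hw with h2 | h2
  · exact absurd (h1.trans h2.symm) hvw
  · subst h1 h2
    exact ⟨hv, hw⟩
  · subst h1 h2
    exact ⟨hw, hv⟩
  · exact absurd (h1.trans h2.symm) hvw

/-- The same with left and down. -/
theorem left_down (hp : LPath A B N p) {x y : ℤ} (hu : Vis N p (x, y)) (h0 : (x, y) ≠ (0, 0))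
    (hA : (x, y) ≠ (A, 0)) (hl : ¬ Nb N p (x, y) (x + 1, y)) (hup : ¬ Nb N p (x, y) (x, y + 1)) :
    Nb N p (x, y) (x - 1, y) ∧ Nb N p (x, y) (x, y - 1) := by
  obtain ⟨v, w, hvw, hv, hw⟩ := hp.nb_exists hu h0 hA
  have key : ∀ v, Nb N p (x, y) v → v = (x - 1, y) ∨ v = (x, y - 1) := by
    rintro ⟨v1, v2⟩ hv
    rcases hp.nb_adj hv with ⟨h1, h2 | h2⟩ | ⟨h1, h2 | h2⟩
    · simp only at h1 h2
      right
      rw [h1]
      congr 1
      omega
    · simp only at h1 h2
      exfalso
      apply hup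
      subst h1
      have : v2 = y + 1 := h2
      rwa [this] at hv
    · simp only at h1 h2
      left
      rw [h1]
      congr 1
      omega
    · simp only at h1 h2
      exfalso
      apply hl
      subst h1
      have : v1 = x + 1 := by omega
      rwa [this] at hv
  rcases key v hv with h1 | h1 <;> rcases key w hw with h2 | h2
  · exact absurd (h1.trans h2.symm) hvw
  · subst h1 h2
    exact ⟨hv, hw⟩
  · subst h1 h2
    exact ⟨hw, hv⟩
  · exact absurd (h1.trans h2.symm) hvw

/-- Existence of the right end of a horizontal run. -/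
theorem run (hp : LPath A B N p) {a y : ℤ} (h : Nb N p (a, y) (a + 1, y)) :
    ∃ d : ℤ, a < d ∧ (∀ c, a ≤ c → c < d → Nb N p (c, y) (c + 1, y)) ∧
      ¬ Nb N p (d, y) (d + 1, y) := by
  classical
  have hex : ∃ k : ℕ, ¬ Nb N p (a + k, y) (a + k + 1, y) := by
    by_contra hc
    push Not at hc
    have h1 := hp.box' (hc (A + 1 - a).toNat).vis
    have h2 := hp.box' h.vis
    simp only at h1 h2
    have h3 : ((A + 1 - a).toNat : ℤ) = A + 1 - a := Int.toNat_of_nonneg (by omega)
    omega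
  have hk := Nat.find_spec hex
  set k := Nat.find hex with hkdef
  have hk0 : k ≠ 0 := by
    intro h0
    rw [h0] at hk
    apply hk
    simpa using h
  refine ⟨a + k, by omega, fun c h1 h2 => ?_, hk⟩
  have h3 : (c - a).toNat < k := by omega
  have h4 := Nat.find_min hex h3
  rw [not_not] at h4
  have h5 : ((c - a).toNat : ℤ) = c - a := Int.toNat_of_nonneg (by omega)
  rw [h5] at h4
  have h6 : a + (c - a) = c := by ring
  rwa [h6] at h4

end LPath

/-- Three sides of a unit square on the path. -/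
def AlphaV (N : ℕ) (p : ℕ → ℤ × ℤ) : Prop :=
  ∃ u1 u2 u3 u4, Nb N p u1 u2 ∧ Nb N p u2 u3 ∧ Nb N p u3 u4 ∧ LAdj u1 u4 ∧ u1 ≠ u3 ∧ u2 ≠ u4

/-- An upper left corner which can be pushed down. -/
def BetaV (N : ℕ) (p : ℕ → ℤ × ℤ) : Prop :=
  ∃ a y : ℤ, Nb N p (a, y) (a, y - 1) ∧ Nb N p (a, y) (a + 1, y) ∧ ¬ Vis N p (a + 1, y - 1)

theorem LPath.cap (hp : LPath A B N p) (w : ℕ) : ∀ a b y : ℤ, a < b → (b - a).toNat = w →
    Nb N p (a, y) (a, y - 1) → (∀ c, a ≤ c → c < b → Nb N p (c, y) (c + 1, y)) →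
    Nb N p (b, y) (b, y - 1) → AlphaV N p ∨ BetaV N p := by
  induction w using Nat.strong_induction_on with
  | _ w ih =>
    intro a b y hab hw ha hrun hb
    by_cases hb1 : b = a + 1
    · left
      subst hb1
      refine ⟨(a, y - 1), (a, y), (a + 1, y), (a + 1, y - 1), ha.symm, hrun a le_rfl hab, hb, ?_,
        ?_, ?_⟩
      · right
        simp
      · simp
      · simp
    · have hab2 : a + 2 ≤ b := by omega
      by_cases hV : Vis N p (a + 1, y - 1)
      · have hbox1 := hp.box' ha.vis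
        have hbox2 := hp.box' hb.vis
        simp only at hbox1 hbox2
        by_cases hl : Nb N p (a + 1, y - 1) (a, y - 1)
        · left
          refine ⟨(a + 1, y - 1), (a, y - 1), (a, y), (a + 1, y), hl, ha.symm,
            hrun a le_rfl hab, ?_, ?_, ?_⟩
          · left
            simp
          · simp
          · simp
        · have hup : ¬ Nb N p (a + 1, y - 1) (a + 1, y - 1 + 1) := by
            intro h
            rw [sub_add_cancel] at h
            have h1 := hrun a le_rfl hab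
            have h2 := hrun (a + 1) (by omega) (by omega)
            rcases hp.nb_two h.symm h1.symm h2 with h3 | h3 | h3
            · simp at h3
            · simp at h3
            · simp only [Prod.mk.injEq, and_true] at h3
              omega
          have hl' : ¬ Nb N p (a + 1, y - 1) (a + 1 - 1, y - 1) := by
            rw [add_sub_cancel_right]
            exact hl
          obtain ⟨h1, h2⟩ := hp.right_down hV (by
            simp only [ne_eq, Prod.mk.injEq, not_and]
            omega) (by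
            simp only [ne_eq, Prod.mk.injEq, not_and]
            omega) hl' hup
          obtain ⟨d, hd, hdrun, hdend⟩ := hp.run h1
          by_cases hdb : b ≤ d
          · left
            refine ⟨(b - 1, y), (b, y), (b, y - 1), (b - 1, y - 1), ?_, hb, ?_, ?_, ?_, ?_⟩
            · have := hrun (b - 1) (by omega) (by omega)
              rwa [sub_add_cancel] at this
            · have := hdrun (b - 1) (by omega) (by omega)
              rw [sub_add_cancel] at this
              exact this.symm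
            · left
              simp
            · simp
            · simp only [ne_eq, Prod.mk.injEq, not_and]
              omega
          · push Not at hdb
            have hdup : ¬ Nb N p (d, y - 1) (d, y - 1 + 1) := by
              intro h
              rw [sub_add_cancel] at h
              have h3 := hrun (d - 1) (by omega) (by omega)
              have h4 := hrun d (by omega) (by omega)
              rw [sub_add_cancel] at h3
              rcases hp.nb_two h.symm h3.symm h4 with h5 | h5 | h5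
              · simp at h5
              · simp at h5
              · simp only [Prod.mk.injEq, and_true] at h5
                omega
            have hdvis : Vis N p (d, y - 1) := by
              have := hdrun (d - 1) (by omega) (by omega)
              rw [sub_add_cancel] at this
              exact this.symm.vis
            obtain ⟨-, h4⟩ := hp.left_down hdvis (by
              simp only [ne_eq, Prod.mk.injEq, not_and]
              omega) (by
              simp only [ne_eq, Prod.mk.injEq, not_and]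
              omega) hdend hdup
            exact ih (d - (a + 1)).toNat (by omega) (a + 1) d (y - 1) (by omega) rfl h2 hdrun h4
      · right
        exact ⟨a, y, ha, hrun a le_rfl hab, hV⟩

/-- A path which is not flat admits a move. -/
theorem LPath.move (hp : LPath A B N p) (hflat : ¬ ∀ i ≤ N, (p i).2 = 0) :
    AlphaV N p ∨ BetaV N p := by
  classical
  obtain ⟨m, hm, hmax⟩ := Finset.exists_max_image (Finset.range (N + 1)) (fun i => (p i).2)
    ⟨0, by simp⟩
  let S := (Finset.range (N + 1)).filter (fun i => (p i).2 = (p m).2)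
  obtain ⟨j, hj, hmin⟩ := Finset.exists_min_image S (fun i => (p i).1)
    ⟨m, Finset.mem_filter.2 ⟨hm, rfl⟩⟩
  obtain ⟨hjN, hjm⟩ := Finset.mem_filter.1 hj
  rw [Finset.mem_range] at hm hjN
  have hle : ∀ u, Vis N p u → u.2 ≤ (p m).2 := by
    rintro _ ⟨i, hi, rfl⟩
    exact hmax i (Finset.mem_range.2 (by omega))
  have hleft : ∀ u, Vis N p u → u.2 = (p m).2 → (p j).1 ≤ u.1 := by
    rintro _ ⟨i, hi, rfl⟩ h
    exact hmin i (Finset.mem_filter.2 ⟨Finset.mem_range.2 (by omega), h⟩)
  have hpos : 0 < (p m).2 := by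
    by_contra hc
    push Not at hc
    apply hflat
    intro i hi
    have h1 := hmax i (Finset.mem_range.2 (by omega))
    have h2 := (hp.box i hi).2.2.1
    omega
  set x := (p j).1 with hx
  set y := (p m).2 with hy
  have hpj : p j = (x, y) := by
    rw [← hjm]
  have hvis : Vis N p (x, y) := ⟨j, by omega, hpj⟩
  obtain ⟨h1, h2⟩ := hp.right_down hvis (by
    simp only [ne_eq, Prod.mk.injEq, not_and]
    omega) (by
    simp only [ne_eq, Prod.mk.injEq, not_and]
    omega) (by
    intro h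
    have := hleft _ h.symm.vis rfl
    simp only at this
    omega) (by
    intro h
    have := hle _ h.symm.vis
    simp only at this
    omega)
  obtain ⟨d, hd, hdrun, hdend⟩ := hp.run h1
  have hdvis : Vis N p (d, y) := by
    have := hdrun (d - 1) (by omega) (by omega)
    rw [sub_add_cancel] at this
    exact this.symm.vis
  obtain ⟨-, h4⟩ := hp.left_down hdvis (by
    simp only [ne_eq, Prod.mk.injEq, not_and]
    omega) (by
    simp only [ne_eq, Prod.mk.injEq, not_and]
    omega) hdend (by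
    intro h
    have := hle _ h.symm.vis
    simp only at this
    omega)
  exact hp.cap _ x d y hd rfl h2 hdrun h4

/-- Index form of the first move. -/
theorem LPath.alpha (hp : LPath A B N p) (h : AlphaV N p) :
    ∃ i, i + 3 ≤ N ∧ LAdj (p i) (p (i + 3)) := by
  obtain ⟨u1, u2, u3, u4, h12, h23, h34, h14, hne13, hne24⟩ := h
  obtain ⟨j, hj, ⟨rfl, rfl⟩ | ⟨rfl, rfl⟩⟩ := h23
  · rcases hp.nb_iff hj.le h12.symm with ⟨h1, h2⟩ | ⟨h1, h2⟩
    · rcases hp.nb_iff hj h34 with ⟨h3, h4⟩ | ⟨h3, h4⟩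
      · exact absurd h4.symm hne24
      · refine ⟨j - 1, by omega, ?_⟩
        have h5 : j - 1 + 3 = j + 1 + 1 := by omega
        rw [h5, ← h2, ← h4]
        exact h14
    · exact absurd h2 hne13
  · rcases hp.nb_iff hj h12.symm with ⟨h1, h2⟩ | ⟨h1, h2⟩
    · exact absurd h2 hne13
    · rcases hp.nb_iff hj.le h34 with ⟨h3, h4⟩ | ⟨h3, h4⟩
      · refine ⟨j - 1, by omega, ?_⟩
        have h5 : j - 1 + 3 = j + 1 + 1 := by omega
        rw [h5, ← h2, ← h4]
        exact h14.symm
      · exact absurd h4.symm hne24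

/-- Index form of the second move. -/
theorem LPath.beta (hp : LPath A B N p) (h : BetaV N p) :
    ∃ i, i + 2 ≤ N ∧ (p i).1 ≠ (p (i + 2)).1 ∧ (p i).2 ≠ (p (i + 2)).2 ∧
      (∀ j ≤ N, p j ≠ ((p i).1 + (p (i + 2)).1 - (p (i + 1)).1,
        (p i).2 + (p (i + 2)).2 - (p (i + 1)).2)) ∧
      (p i).2 + (p (i + 2)).2 - (p (i + 1)).2 < (p (i + 1)).2 := by
  obtain ⟨a, y, h1, h2, h3⟩ := h
  obtain ⟨j, hj, hpj⟩ := h1.vis
  rw [← hpj] at h1 h2
  have hne : ((a, y - 1) : ℤ × ℤ) ≠ (a + 1, y) := by simp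
  rcases hp.nb_iff hj h1 with ⟨a1, b1⟩ | ⟨a1, b1⟩ <;> rcases hp.nb_iff hj h2 with ⟨a2, b2⟩ | ⟨a2, b2⟩
  · exact absurd (b1.trans b2.symm) hne
  · have h4 : j - 1 + 1 = j := by omega
    have h5 : j - 1 + 2 = j + 1 := by omega
    refine ⟨j - 1, by omega, ?_⟩
    rw [h4, h5, ← b1, ← b2, hpj]
    refine ⟨by simp only; omega, by simp only; omega, fun i hi h => h3 ⟨i, hi, ?_⟩,
      by simp only; omega⟩
    rw [h]
    ext
    · simp
    · simp
  · have h4 : j - 1 + 1 = j := by omega
    have h5 : j - 1 + 2 = j + 1 := by omega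
    refine ⟨j - 1, by omega, ?_⟩
    rw [h4, h5, ← b1, ← b2, hpj]
    refine ⟨by simp only; omega, by simp only; omega, fun i hi h => h3 ⟨i, hi, ?_⟩,
      by simp only; omega⟩
    rw [h]
    ext
    · simp
    · simp
  · exact absurd (b1.trans b2.symm) hne

end Pool.Agent.Run7.h754
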