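import Mathlib
import Pool.Agent.Run7.h754.Lat

/-!
# The induction principle for self-avoiding lattice paths
-/

namespace Pool.Agent.Run7.h754

variable {A B : ℤ} {N : ℕ} {p : ℕ → ℤ × ℤ}

/-- Remove two vertices of the path. -/
def skip (p : ℕ → ℤ × ℤ) (i : ℕ) : ℕ → ℤ × ℤ := fun j => if j ≤ i then p j else p (j + 2)

theorem skip_le {i j : ℕ} (h : j ≤ i) : skip p i j = p j := if_pos h

theorem skip_gt {i j : ℕ} (h : i < j) : skip p i j = p (j + 2) := if_neg (by omega)

/-- The fourth corner of the square with the corners `p i`, `p (i + 1)`, `p (i + 2)`. -/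
def crn (p : ℕ → ℤ × ℤ) (i : ℕ) : ℤ × ℤ :=
  ((p i).1 + (p (i + 2)).1 - (p (i + 1)).1, (p i).2 + (p (i + 2)).2 - (p (i + 1)).2)

/-- Push a corner of the path. -/
def push (p : ℕ → ℤ × ℤ) (i : ℕ) : ℕ → ℤ × ℤ := fun j => if j = i + 1 then crn p i else p j

theorem push_same (i : ℕ) : push p i (i + 1) = crn p i := if_pos rfl

theorem push_ne {i j : ℕ} (h : j ≠ i + 1) : push p i j = p j := if_neg h

theorem LPath.skip (hp : LPath A B N p) {i : ℕ} (hi : i + 3 ≤ N) (h : LAdj (p i) (p (i + 3))) :
    LPath A B (N - 2) (skip p i) := by
  refine ⟨?_, ?_, ?_, ?_, ?_⟩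
  · rw [skip_le (by omega)]
    exact hp.start
  · rw [skip_gt (by omega)]
    have : N - 2 + 2 = N := by omega
    rw [this]
    exact hp.fin
  · intro j hj
    rcases lt_trichotomy j i with h1 | h1 | h1
    · rw [skip_le h1.le, skip_le (by omega)]
      exact hp.adj j (by omega)
    · subst h1
      rw [skip_le le_rfl, skip_gt (by omega)]
      exact h
    · rw [skip_gt h1, skip_gt (by omega)]
      exact hp.adj (j + 2) (by omega)
  · intro j k hjk hk
    rcases le_or_gt j i with h1 | h1
    · rw [skip_le h1]
      rcases le_or_gt k i with h2 | h2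
      · rw [skip_le h2]
        exact hp.inj j k hjk (by omega)
      · rw [skip_gt h2]
        exact hp.inj j (k + 2) (by omega) (by omega)
    · rw [skip_gt h1, skip_gt (by omega)]
      exact hp.inj (j + 2) (k + 2) (by omega) (by omega)
  · intro j hj
    rcases le_or_gt j i with h1 | h1
    · rw [skip_le h1]
      exact hp.box j (by omega)
    · rw [skip_gt h1]
      exact hp.box (j + 2) (by omega)

theorem crn_adj (hp : LPath A B N p) {i : ℕ} (hi : i + 2 ≤ N) (h1 : (p i).1 ≠ (p (i + 2)).1)
    (h2 : (p i).2 ≠ (p (i + 2)).2) : LAdj (p i) (crn p i) ∧ LAdj (crn p i) (p (i + 2)) := by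
  have h3 := hp.adj i (by omega)
  have h4 := hp.adj (i + 1) (by omega)
  have h5 : i + 1 + 1 = i + 2 := rfl
  rw [h5] at h4
  unfold LAdj at *
  unfold crn
  simp only
  omega

theorem LPath.push (hp : LPath A B N p) {i : ℕ} (hi : i + 2 ≤ N)
    (h1 : (p i).1 ≠ (p (i + 2)).1) (h2 : (p i).2 ≠ (p (i + 2)).2)
    (h3 : ∀ j ≤ N, p j ≠ crn p i) : LPath A B N (push p i) := by
  obtain ⟨ha1, ha2⟩ := crn_adj hp hi h1 h2
  refine ⟨?_, ?_, ?_, ?_, ?_⟩
  · rw [push_ne (by omega)]
    exact hp.start
  · rw [push_ne (by omega)]
    exact hp.fin
  · intro j hj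
    by_cases hj1 : j = i + 1
    · subst hj1
      rw [push_same, push_ne (by omega)]
      exact ha2
    · rw [push_ne hj1]
      by_cases hj2 : j + 1 = i + 1
      · rw [hj2, push_same]
        have : j = i := by omega
        rw [this]
        exact ha1
      · rw [push_ne hj2]
        exact hp.adj j hj
  · intro j k hjk hk
    by_cases hj1 : j = i + 1
    · subst hj1
      rw [push_same, push_ne (by omega)]
      exact (h3 k hk).symm
    · rw [push_ne hj1]
      by_cases hk1 : k = i + 1
      · subst hk1
        rw [push_same]
        exact h3 j (by omega)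
      · rw [push_ne hk1]
        exact hp.inj j k hjk hk
  · intro j hj
    by_cases hj1 : j = i + 1
    · subst hj1
      rw [push_same]
      have h4 := hp.adj i (by omega)
      have h5 := hp.adj (i + 1) (by omega)
      have h6 : i + 1 + 1 = i + 2 := rfl
      rw [h6] at h5
      have h7 := hp.box i (by omega)
      have h8 := hp.box (i + 2) (by omega)
      unfold LAdj at h4 h5
      unfold crn
      simp only
      omega
    · rw [push_ne hj1]
      exact hp.box j hj

/-- The induction principle. -/
theorem lattice_induction {Q : ℕ → (ℕ → ℤ × ℤ) → Prop}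
    (base : ∀ N p, LPath A B N p → (∀ i ≤ N, (p i).2 = 0) → Q N p)
    (hα : ∀ N p i, LPath A B N p → i + 3 ≤ N → LAdj (p i) (p (i + 3)) →
      Q (N - 2) (skip p i) → Q N p)
    (hβ : ∀ N p i, LPath A B N p → i + 2 ≤ N → (p i).1 ≠ (p (i + 2)).1 →
      (p i).2 ≠ (p (i + 2)).2 → (∀ j ≤ N, p j ≠ crn p i) → Q N (push p i) → Q N p) :
    ∀ N p, LPath A B N p → Q N p := by
  intro N
  induction N using Nat.strong_induction_on with
  | _ N ihN =>
    have key : ∀ s : ℕ, ∀ p, LPath A B N p →
        ∑ j ∈ Finset.range (N + 1), (p j).2.toNat = s → Q N p := by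
      intro s
      induction s using Nat.strong_induction_on with
      | _ s ihs =>
        intro p hp hs
        by_cases hflat : ∀ i ≤ N, (p i).2 = 0
        · exact base N p hp hflat
        · rcases hp.move hflat with h | h
          · obtain ⟨i, hi, hadj⟩ := hp.alpha h
            exact hα N p i hp hi hadj (ihN (N - 2) (by omega) _ (hp.skip hi hadj))
          · obtain ⟨i, hi, h1, h2, h3, h4⟩ := hp.beta h
            have hpush := hp.push hi h1 h2 h3
            refine hβ N p i hp hi h1 h2 h3 (ihs _ ?_ _ hpush rfl)
            rw [← hs]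
            apply Finset.sum_lt_sum
            · intro j hj
              by_cases hj1 : j = i + 1
              · subst hj1
                rw [push_same]
                unfold crn
                simp only
                omega
              · rw [push_ne hj1]
            · refine ⟨i + 1, Finset.mem_range.2 (by omega), ?_⟩
              rw [push_same]
              have h5 := (hpush.box (i + 1) (by omega)).2.2.1
              rw [push_same] at h5
              unfold crn at h5 ⊢
              simp only at h5 ⊢
              omega
    exact fun p hp => key _ p hp rfl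

/-- Flat paths are straight. -/
theorem LPath.flat (hp : LPath A B N p) (hA : 0 < A) (hflat : ∀ i ≤ N, (p i).2 = 0) :
    (N : ℤ) = A ∧ ∀ i ≤ N, p i = ((i : ℤ), 0) := by
  have hN : 0 < N := by
    rcases Nat.eq_zero_or_pos N with h | h
    · subst h
      have h1 := hp.start
      rw [hp.fin] at h1
      simp only [Prod.mk.injEq, and_true] at h1
      omega
    · exact h
  have h1 : ∀ i ≤ N, (p i).1 = (i : ℤ) := by
    intro i
    induction i using Nat.strong_induction_on with
    | _ i ih =>
      intro hi
      rcases Nat.eq_zero_or_pos i with h0 | h0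
      · subst h0
        rw [hp.start]
        rfl
      · have h2 := hp.adj (i - 1) (by omega)
        have h3 : i - 1 + 1 = i := by omega
        rw [h3] at h2
        have h4 := hflat (i - 1) (by omega)
        have h5 := hflat i hi
        have h6 := ih (i - 1) (by omega) (by omega)
        have h7 : (p i).1 = (p (i - 1)).1 + 1 ∨ (p i).1 = (p (i - 1)).1 - 1 := by
          unfold LAdj at h2
          omega
        rcases h7 with h7 | h7
        · rw [h7, h6]
          omega
        · exfalso
          rcases Nat.lt_or_ge 1 i with h8 | h8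
          · have h9 := ih (i - 2) (by omega) (by omega)
            have h10 := hflat (i - 2) (by omega)
            apply hp.inj (i - 2) i (by omega) hi
            ext
            · rw [h9, h7, h6]
              omega
            · rw [h10, h5]
          · have h9 := (hp.box i hi).1
            rw [h7, h6] at h9
            omega
  constructor
  · have h2 := h1 N le_rfl
    rw [hp.fin] at h2
    simp only at h2
    omega
  · intro i hi
    ext
    · exact h1 i hi
    · exact hflat i hi

end Pool.Agent.Run7.h754
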