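import Mathlib
import Pool.Agent.Run7.h754.Cell
import Pool.Agent.Run7.h754.Lat2

/-!
# Unknotting lattice paths in a rectangle
-/

open Set Filter Topology

namespace Pool.Agent.Run7.h754

/-- The lattice point. -/
noncomputable def Pt (o : Fin 2 → ℝ) (h : ℝ) (u : ℤ × ℤ) : Fin 2 → ℝ :=
  ![o 0 + h * u.1, o 1 + h * u.2]

theorem Pt_zero (o : Fin 2 → ℝ) (h : ℝ) (u : ℤ × ℤ) : Pt o h u 0 = o 0 + h * u.1 := rfl

theorem Pt_one (o : Fin 2 → ℝ) (h : ℝ) (u : ℤ × ℤ) : Pt o h u 1 = o 1 + h * u.2 := rfl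

theorem ext2 {x y : Fin 2 → ℝ} (h0 : x 0 = y 0) (h1 : x 1 = y 1) : x = y := by
  ext i
  fin_cases i
  · exact h0
  · exact h1

/-- The closed lattice square with lower left corner `(m, l)`. -/
def Sq (o : Fin 2 → ℝ) (h : ℝ) (m l : ℤ) : Set (Fin 2 → ℝ) :=
  {z | o 0 + h * m ≤ z 0 ∧ z 0 ≤ o 0 + h * (m + 1) ∧ o 1 + h * l ≤ z 1 ∧ z 1 ≤ o 1 + h * (l + 1)}

/-- Corners of the square. -/
def Cor (m l : ℤ) (v : ℤ × ℤ) : Prop := (v.1 = m ∨ v.1 = m + 1) ∧ (v.2 = l ∨ v.2 = l + 1)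

theorem one_dim {w w' l : ℤ} {θ : ℝ} (h0 : 0 ≤ θ) (h1 : θ ≤ 1) (hw : w = w' + 1 ∨ w' = w + 1)
    (hl : (l : ℝ) ≤ w + θ * (w' - w)) (hl' : w + θ * (w' - w) ≤ (l : ℝ) + 1) :
    ((w = l ∨ w = l + 1) ∧ (w' = l ∨ w' = l + 1)) ∨ (θ = 0 ∧ (w = l ∨ w = l + 1)) ∨
      (θ = 1 ∧ (w' = l ∨ w' = l + 1)) := by
  rcases hw with hw | hw
  · have hwr : (w : ℝ) = w' + 1 := by exact_mod_cast hw
    rcases lt_trichotomy w (l + 1) with h | h | h
    · right; left
      have h2 : (w : ℝ) ≤ l := by exact_mod_cast (by omega : w ≤ l)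
      have h3 : θ = 0 := by nlinarith
      rw [h3, zero_mul, add_zero] at hl
      have h4 : l ≤ w := by exact_mod_cast hl
      exact ⟨h3, Or.inl (by omega)⟩
    · left
      omega
    · right; right
      have h2 : (l : ℝ) + 2 ≤ w := by exact_mod_cast (by omega : l + 2 ≤ w)
      have h3 : θ = 1 := by nlinarith
      rw [h3, one_mul, add_sub_cancel] at hl'
      have h4 : w' ≤ l + 1 := by exact_mod_cast hl'
      exact ⟨h3, Or.inr (by omega)⟩
  · have hwr : (w' : ℝ) = w + 1 := by exact_mod_cast hw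
    rcases lt_trichotomy w l with h | h | h
    · right; right
      have h2 : (w : ℝ) + 1 ≤ l := by exact_mod_cast (by omega : w + 1 ≤ l)
      have h3 : θ = 1 := by nlinarith
      rw [h3, one_mul, add_sub_cancel] at hl
      have h4 : l ≤ w' := by exact_mod_cast hl
      exact ⟨h3, Or.inl (by omega)⟩
    · left
      omega
    · right; left
      have h2 : (l : ℝ) + 1 ≤ w := by exact_mod_cast (by omega : l + 1 ≤ w)
      have h3 : θ = 0 := by nlinarith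
      rw [h3, zero_mul, add_zero] at hl'
      have h4 : w ≤ l + 1 := by exact_mod_cast hl'
      exact ⟨h3, Or.inr (by omega)⟩

theorem edge_sq {o : Fin 2 → ℝ} {h : ℝ} (hh : 0 < h) {m l : ℤ} {u v : ℤ × ℤ} (huv : LAdj u v)
    {z : Fin 2 → ℝ} (hz : z ∈ segment ℝ (Pt o h u) (Pt o h v)) (hzs : z ∈ Sq o h m l) :
    (Cor m l u ∧ Cor m l v) ∨ (z = Pt o h u ∧ Cor m l u) ∨ (z = Pt o h v ∧ Cor m l v) := by
  obtain ⟨θ, h0, h1, rfl⟩ := mem_seg.1 hz
  obtain ⟨a1, a2, a3, a4⟩ := hzs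
  have hx : (Pt o h u + θ • (Pt o h v - Pt o h u)) 0 = o 0 + h * (u.1 + θ * (v.1 - u.1)) := by
    rw [Pi.add_apply, Pi.smul_apply, Pi.sub_apply, Pt_zero, Pt_zero, smul_eq_mul]
    ring
  have hy : (Pt o h u + θ • (Pt o h v - Pt o h u)) 1 = o 1 + h * (u.2 + θ * (v.2 - u.2)) := by
    rw [Pi.add_apply, Pi.smul_apply, Pi.sub_apply, Pt_one, Pt_one, smul_eq_mul]
    ring
  rw [hx] at a1 a2
  rw [hy] at a3 a4
  have b1 : (m : ℝ) ≤ u.1 + θ * (v.1 - u.1) := le_of_mul_le_mul_left (by linarith) hh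
  have b2 : (u.1 : ℝ) + θ * (v.1 - u.1) ≤ m + 1 := le_of_mul_le_mul_left (by linarith) hh
  have b3 : (l : ℝ) ≤ u.2 + θ * (v.2 - u.2) := le_of_mul_le_mul_left (by linarith) hh
  have b4 : (u.2 : ℝ) + θ * (v.2 - u.2) ≤ l + 1 := le_of_mul_le_mul_left (by linarith) hh
  have key0 : θ = 0 → Pt o h u + θ • (Pt o h v - Pt o h u) = Pt o h u := by
    intro h
    rw [h, zero_smul, add_zero]
  have key1 : θ = 1 → Pt o h u + θ • (Pt o h v - Pt o h u) = Pt o h v := by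
    intro h
    rw [h, one_smul, add_sub_cancel]
  unfold Cor
  rcases huv with ⟨h2, h3⟩ | ⟨h2, h3⟩
  · have h4 : (u.1 : ℝ) = v.1 := by exact_mod_cast h2
    rw [h4, sub_self, mul_zero, add_zero] at b1 b2
    have c1 : m ≤ v.1 := by exact_mod_cast b1
    have c2 : v.1 ≤ m + 1 := by exact_mod_cast b2
    rcases one_dim h0 h1 h3 b3 b4 with h5 | h5 | h5
    · left
      omega
    · right; left
      exact ⟨key0 h5.1, by omega, h5.2⟩
    · right; right
      exact ⟨key1 h5.1, by omega, h5.2⟩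
  · have h4 : (u.2 : ℝ) = v.2 := by exact_mod_cast h2
    rw [h4, sub_self, mul_zero, add_zero] at b3 b4
    have c1 : l ≤ v.2 := by exact_mod_cast b3
    have c2 : v.2 ≤ l + 1 := by exact_mod_cast b4
    rcases one_dim h0 h1 h3 b1 b2 with h5 | h5 | h5
    · left
      omega
    · right; left
      exact ⟨key0 h5.1, h5.2, by omega⟩
    · right; right
      exact ⟨key1 h5.1, h5.2, by omega⟩

theorem Pt_sq {o : Fin 2 → ℝ} {h : ℝ} (hh : 0 < h) {m l : ℤ} {u : ℤ × ℤ}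
    (hu : Pt o h u ∈ Sq o h m l) : Cor m l u := by
  obtain ⟨a1, a2, a3, a4⟩ := hu
  rw [Pt_zero] at a1 a2
  rw [Pt_one] at a3 a4
  have b1 : (m : ℝ) ≤ u.1 := le_of_mul_le_mul_left (by linarith) hh
  have b2 : (u.1 : ℝ) ≤ m + 1 := le_of_mul_le_mul_left (by linarith) hh
  have b3 : (l : ℝ) ≤ u.2 := le_of_mul_le_mul_left (by linarith) hh
  have b4 : (u.2 : ℝ) ≤ l + 1 := le_of_mul_le_mul_left (by linarith) hh
  have c1 : m ≤ u.1 := by exact_mod_cast b1
  have c2 : u.1 ≤ m + 1 := by exact_mod_cast b2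
  have c3 : l ≤ u.2 := by exact_mod_cast b3
  have c4 : u.2 ≤ l + 1 := by exact_mod_cast b4
  unfold Cor
  omega

/-- Three corners `a`, `b`, `c` of a unit square, `d` is the fourth one. -/
theorem square_geom {o : Fin 2 → ℝ} {h : ℝ} (hh : 0 < h) {a b c d : ℤ × ℤ} (hab : LAdj a b)
    (hbc : LAdj b c) (h1 : a.1 ≠ c.1) (h2 : a.2 ≠ c.2) (hd1 : d.1 = a.1 + c.1 - b.1)
    (hd2 : d.2 = a.2 + c.2 - b.2) :
    Pt o h d - Pt o h a ≠ 0 ∧ (∀ r : ℝ, Pt o h b - Pt o h a ≠ r • (Pt o h d - Pt o h a)) ∧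
    Pt o h a + (Pt o h d - Pt o h a) + (Pt o h b - Pt o h a) = Pt o h c ∧
    ∃ m l : ℤ, Cell (Pt o h a) (Pt o h d - Pt o h a) (Pt o h b - Pt o h a) ⊆ Sq o h m l ∧
      (∀ v : ℤ × ℤ, Cor m l v ↔ v = a ∨ v = b ∨ v = c ∨ v = d) := by
  have hperp : (a.1 = b.1 ∧ a.2 = d.2 ∧ b.2 = c.2 ∧ d.1 = c.1 ∧
      (d.1 = a.1 + 1 ∨ d.1 = a.1 - 1) ∧ (b.2 = a.2 + 1 ∨ b.2 = a.2 - 1)) ∨
      (a.2 = b.2 ∧ a.1 = d.1 ∧ b.1 = c.1 ∧ d.2 = c.2 ∧
      (d.2 = a.2 + 1 ∨ d.2 = a.2 - 1) ∧ (b.1 = a.1 + 1 ∨ b.1 = a.1 - 1)) := by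
    unfold LAdj at hab hbc
    omega
  have e0 : (Pt o h d - Pt o h a) 0 = h * ((d.1 : ℝ) - a.1) := by
    rw [Pi.sub_apply, Pt_zero, Pt_zero]; ring
  have e1 : (Pt o h d - Pt o h a) 1 = h * ((d.2 : ℝ) - a.2) := by
    rw [Pi.sub_apply, Pt_one, Pt_one]; ring
  have f0 : (Pt o h b - Pt o h a) 0 = h * ((b.1 : ℝ) - a.1) := by
    rw [Pi.sub_apply, Pt_zero, Pt_zero]; ring
  have f1 : (Pt o h b - Pt o h a) 1 = h * ((b.2 : ℝ) - a.2) := by
    rw [Pi.sub_apply, Pt_one, Pt_one]; ring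
  have hcell : ∀ z ∈ Cell (Pt o h a) (Pt o h d - Pt o h a) (Pt o h b - Pt o h a),
      ∃ s t : ℝ, 0 ≤ s ∧ s ≤ 1 ∧ 0 ≤ t ∧ t ≤ 1 ∧
        z 0 = o 0 + h * (a.1 + s * (d.1 - a.1) + t * (b.1 - a.1)) ∧
        z 1 = o 1 + h * (a.2 + s * (d.2 - a.2) + t * (b.2 - a.2)) := by
    rintro z ⟨s, t, hs0, hs1, ht0, ht1, rfl⟩
    refine ⟨s, t, hs0, hs1, ht0, ht1, ?_, ?_⟩
    · rw [Pi.add_apply, Pi.add_apply, Pi.smul_apply, Pi.smul_apply, e0, f0, Pt_zero, smul_eq_mul,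
        smul_eq_mul]
      ring
    · rw [Pi.add_apply, Pi.add_apply, Pi.smul_apply, Pi.smul_apply, e1, f1, Pt_one, smul_eq_mul,
        smul_eq_mul]
      ring
  have hsum : Pt o h a + (Pt o h d - Pt o h a) + (Pt o h b - Pt o h a) = Pt o h c := by
    apply ext2
    · rw [Pi.add_apply, Pi.add_apply, e0, f0, Pt_zero, Pt_zero]
      have : (d.1 : ℝ) = a.1 + c.1 - b.1 := by exact_mod_cast hd1
      rw [this]
      ring
    · rw [Pi.add_apply, Pi.add_apply, e1, f1, Pt_one, Pt_one]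
      have : (d.2 : ℝ) = a.2 + c.2 - b.2 := by exact_mod_cast hd2
      rw [this]
      ring
  rcases hperp with ⟨p1, p2, p3, p4, p5, p6⟩ | ⟨p1, p2, p3, p4, p5, p6⟩
  · -- `b - a` is vertical and `d - a` is horizontal
    have q1 : (b.1 : ℝ) = a.1 := by exact_mod_cast p1.symm
    have q2 : (d.2 : ℝ) = a.2 := by exact_mod_cast p2.symm
    have q5 : (d.1 : ℝ) = a.1 + 1 ∨ (d.1 : ℝ) = a.1 - 1 := by
      rcases p5 with p | p
      · left; exact_mod_cast p
      · right; exact_mod_cast p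
    have q6 : (b.2 : ℝ) = a.2 + 1 ∨ (b.2 : ℝ) = a.2 - 1 := by
      rcases p6 with p | p
      · left; exact_mod_cast p
      · right; exact_mod_cast p
    refine ⟨?_, ?_, hsum, min a.1 d.1, min a.2 b.2, ?_, ?_⟩
    · intro hc
      have := congrFun hc 0
      rw [e0, Pi.zero_apply] at this
      rcases q5 with q | q <;> rw [q] at this <;> nlinarith
    · intro r hc
      have := congrFun hc 1
      rw [Pi.smul_apply, f1, e1, q2, smul_eq_mul] at this
      rcases q6 with q | q <;> rw [q] at this <;> nlinarith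
    · intro z hz
      obtain ⟨s, t, hs0, hs1, ht0, ht1, hz0, hz1⟩ := hcell z hz
      rw [q1] at hz0
      rw [q2] at hz1
      have hmin1 : ((min a.1 d.1 : ℤ) : ℝ) = min (a.1 : ℝ) d.1 := by push_cast; rfl
      have hmin2 : ((min a.2 b.2 : ℤ) : ℝ) = min (a.2 : ℝ) b.2 := by push_cast; rfl
      have key : ∀ (x y θ : ℝ), 0 ≤ θ → θ ≤ 1 → (y = x + 1 ∨ y = x - 1) →
          min x y ≤ x + θ * (y - x) ∧ x + θ * (y - x) ≤ min x y + 1 := by
        intro x y θ h0 h1 hy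
        rcases hy with hy | hy
        · rw [hy, min_eq_left (by linarith)]
          constructor <;> nlinarith
        · rw [hy, min_eq_right (by linarith)]
          constructor <;> nlinarith
      obtain ⟨k1, k2⟩ := key a.1 d.1 s hs0 hs1 q5
      obtain ⟨k3, k4⟩ := key a.2 b.2 t ht0 ht1 q6
      refine ⟨?_, ?_, ?_, ?_⟩
      · rw [hmin1, hz0]
        have := mul_le_mul_of_nonneg_left k1 hh.le
        linarith
      · rw [hmin1, hz0]
        have := mul_le_mul_of_nonneg_left k2 hh.le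
        linarith
      · rw [hmin2, hz1]
        have := mul_le_mul_of_nonneg_left k3 hh.le
        linarith
      · rw [hmin2, hz1]
        have := mul_le_mul_of_nonneg_left k4 hh.le
        linarith
    · rintro ⟨v1, v2⟩
      unfold Cor
      rw [Prod.ext_iff, Prod.ext_iff, Prod.ext_iff, Prod.ext_iff]
      simp only
      omega
  · have q1 : (b.2 : ℝ) = a.2 := by exact_mod_cast p1.symm
    have q2 : (d.1 : ℝ) = a.1 := by exact_mod_cast p2.symm
    have q5 : (d.2 : ℝ) = a.2 + 1 ∨ (d.2 : ℝ) = a.2 - 1 := by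
      rcases p5 with p | p
      · left; exact_mod_cast p
      · right; exact_mod_cast p
    have q6 : (b.1 : ℝ) = a.1 + 1 ∨ (b.1 : ℝ) = a.1 - 1 := by
      rcases p6 with p | p
      · left; exact_mod_cast p
      · right; exact_mod_cast p
    refine ⟨?_, ?_, hsum, min a.1 b.1, min a.2 d.2, ?_, ?_⟩
    · intro hc
      have := congrFun hc 1
      rw [e1, Pi.zero_apply] at this
      rcases q5 with q | q <;> rw [q] at this <;> nlinarith
    · intro r hc
      have := congrFun hc 0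
      rw [Pi.smul_apply, f0, e0, q2, smul_eq_mul] at this
      rcases q6 with q | q <;> rw [q] at this <;> nlinarith
    · intro z hz
      obtain ⟨s, t, hs0, hs1, ht0, ht1, hz0, hz1⟩ := hcell z hz
      rw [q2] at hz0
      rw [q1] at hz1
      have hmin1 : ((min a.1 b.1 : ℤ) : ℝ) = min (a.1 : ℝ) b.1 := by push_cast; rfl
      have hmin2 : ((min a.2 d.2 : ℤ) : ℝ) = min (a.2 : ℝ) d.2 := by push_cast; rfl
      have key : ∀ (x y θ : ℝ), 0 ≤ θ → θ ≤ 1 → (y = x + 1 ∨ y = x - 1) →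
          min x y ≤ x + θ * (y - x) ∧ x + θ * (y - x) ≤ min x y + 1 := by
        intro x y θ h0 h1 hy
        rcases hy with hy | hy
        · rw [hy, min_eq_left (by linarith)]
          constructor <;> nlinarith
        · rw [hy, min_eq_right (by linarith)]
          constructor <;> nlinarith
      obtain ⟨k1, k2⟩ := key a.1 b.1 t ht0 ht1 q6
      obtain ⟨k3, k4⟩ := key a.2 d.2 s hs0 hs1 q5
      refine ⟨?_, ?_, ?_, ?_⟩
      · rw [hmin1, hz0]
        have := mul_le_mul_of_nonneg_left k1 hh.le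
        linarith
      · rw [hmin1, hz0]
        have := mul_le_mul_of_nonneg_left k2 hh.le
        linarith
      · rw [hmin2, hz1]
        have := mul_le_mul_of_nonneg_left k3 hh.le
        linarith
      · rw [hmin2, hz1]
        have := mul_le_mul_of_nonneg_left k4 hh.le
        linarith
    · rintro ⟨v1, v2⟩
      unfold Cor
      rw [Prod.ext_iff, Prod.ext_iff, Prod.ext_iff, Prod.ext_iff]
      simp only
      omega

end Pool.Agent.Run7.h754
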