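import Mathlib
import Pool.Agent.Run7.h754.Unknot

/-!
# Unknotting lattice paths in a rectangle: the theorem
-/

open Set Filter Topology

namespace Pool.Agent.Run7.h754

/-- The closed rectangle. -/
def Rect (o : Fin 2 → ℝ) (h : ℝ) (A B : ℤ) : Set (Fin 2 → ℝ) :=
  {z | o 0 ≤ z 0 ∧ z 0 ≤ o 0 + h * A ∧ o 1 ≤ z 1 ∧ z 1 ≤ o 1 + h * B}

theorem sq_rect {o : Fin 2 → ℝ} {h : ℝ} (hh : 0 < h) {A B m l : ℤ} (h1 : 0 ≤ m)
    (h2 : m + 1 ≤ A) (h3 : 0 ≤ l) (h4 : l + 1 ≤ B) : Sq o h m l ⊆ Rect o h A B := by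
  rintro z ⟨a1, a2, a3, a4⟩
  have b1 : (0 : ℝ) ≤ m := by exact_mod_cast h1
  have b2 : (m : ℝ) + 1 ≤ A := by exact_mod_cast h2
  have b3 : (0 : ℝ) ≤ l := by exact_mod_cast h3
  have b4 : (l : ℝ) + 1 ≤ B := by exact_mod_cast h4
  have c1 := mul_nonneg hh.le b1
  have c2 := mul_le_mul_of_nonneg_left b2 hh.le
  have c3 := mul_nonneg hh.le b3
  have c4 := mul_le_mul_of_nonneg_left b4 hh.le
  exact ⟨by linarith, by linarith, by linarith, by linarith⟩

variable {A B : ℤ} {N : ℕ} {p : ℕ → ℤ × ℤ}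

/-- The edge of the polygonal path. -/
def edg (o : Fin 2 → ℝ) (h : ℝ) (p : ℕ → ℤ × ℤ) (j : ℕ) : Set (Fin 2 → ℝ) :=
  segment ℝ (Pt o h (p j)) (Pt o h (p (j + 1)))

theorem obstacle {o : Fin 2 → ℝ} {h : ℝ} (hh : 0 < h) (hp : LPath A B N p) {m l : ℤ}
    {i r : ℕ} (hcor : ∀ k ≤ N, Cor m l (p k) → i ≤ k ∧ k ≤ i + r) {j : ℕ} (hj : j < N)
    (hji : j < i ∨ i + r ≤ j) {z : Fin 2 → ℝ} (hz : z ∈ edg o h p j) (hzs : z ∈ Sq o h m l) :
    (z = Pt o h (p i) ∨ z = Pt o h (p (i + r))) ∧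
      (z = Pt o h (p j) ∨ z = Pt o h (p (j + 1))) := by
  rcases edge_sq hh (hp.adj j hj) hz hzs with ⟨h1, h2⟩ | ⟨h1, h2⟩ | ⟨h1, h2⟩
  · have h3 := hcor j hj.le h1
    have h4 := hcor (j + 1) hj h2
    omega
  · have h3 := hcor j hj.le h2
    have h4 : j = i + r := by omega
    exact ⟨Or.inr (by rw [h1, h4]), Or.inl h1⟩
  · have h3 := hcor (j + 1) hj h2
    have h4 : j + 1 = i := by omega
    exact ⟨Or.inl (by rw [h1, h4]), Or.inr h1⟩

/-- The part of the polygonal path which is not moved. -/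
def rest (o : Fin 2 → ℝ) (h : ℝ) (N : ℕ) (p : ℕ → ℤ × ℤ) (i r : ℕ) : Set (Fin 2 → ℝ) :=
  ⋃ j ∈ {j : ℕ | j < N ∧ (j < i ∨ i + r ≤ j)}, edg o h p j

/-- The polygonal path. -/
def poly (o : Fin 2 → ℝ) (h : ℝ) (N : ℕ) (p : ℕ → ℤ × ℤ) : Set (Fin 2 → ℝ) :=
  ⋃ j ∈ {j : ℕ | j < N}, edg o h p j

theorem mem_poly {o : Fin 2 → ℝ} {h : ℝ} {z : Fin 2 → ℝ} :
    z ∈ poly o h N p ↔ ∃ j < N, z ∈ edg o h p j := by
  simp [poly]

theorem mem_rest {o : Fin 2 → ℝ} {h : ℝ} {i r : ℕ} {z : Fin 2 → ℝ} :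
    z ∈ rest o h N p i r ↔ ∃ j, (j < N ∧ (j < i ∨ i + r ≤ j)) ∧ z ∈ edg o h p j := by
  simp [rest]

theorem poly_skip (o : Fin 2 → ℝ) (h : ℝ) {i : ℕ} (hi : i + 3 ≤ N) :
    poly o h (N - 2) (skip p i) =
      rest o h N p i 3 ∪ segment ℝ (Pt o h (p i)) (Pt o h (p (i + 3))) := by
  ext z
  rw [mem_poly, mem_union, mem_rest]
  constructor
  · rintro ⟨j, hj, hz⟩
    unfold edg at hz
    rcases lt_trichotomy j i with h1 | h1 | h1
    · rw [skip_le h1.le, skip_le (by omega)] at hz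
      exact Or.inl ⟨j, ⟨by omega, Or.inl h1⟩, hz⟩
    · subst h1
      rw [skip_le le_rfl, skip_gt (by omega)] at hz
      exact Or.inr hz
    · rw [skip_gt h1, skip_gt (by omega)] at hz
      exact Or.inl ⟨j + 2, ⟨by omega, Or.inr (by omega)⟩, hz⟩
  · rintro (⟨j, ⟨hj, h1 | h1⟩, hz⟩ | hz)
    · refine ⟨j, by omega, ?_⟩
      unfold edg
      rw [skip_le h1.le, skip_le (by omega)]
      exact hz
    · refine ⟨j - 2, by omega, ?_⟩
      unfold edg
      rw [skip_gt (by omega), skip_gt (by omega)]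
      have h2 : j - 2 + 2 = j := by omega
      have h3 : j - 2 + 1 + 2 = j + 1 := by omega
      rw [h2, h3]
      exact hz
    · refine ⟨i, by omega, ?_⟩
      unfold edg
      rw [skip_le le_rfl, skip_gt (by omega)]
      exact hz

theorem poly_split3 (o : Fin 2 → ℝ) (h : ℝ) {i : ℕ} (hi : i + 3 ≤ N) :
    poly o h N p = rest o h N p i 3 ∪ ((edg o h p i ∪ edg o h p (i + 1)) ∪ edg o h p (i + 2)) := by
  ext z
  rw [mem_poly, mem_union, mem_rest]
  constructor
  · rintro ⟨j, hj, hz⟩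
    by_cases h1 : j < i ∨ i + 3 ≤ j
    · exact Or.inl ⟨j, ⟨hj, h1⟩, hz⟩
    · right
      have h2 : j = i ∨ j = i + 1 ∨ j = i + 2 := by omega
      rcases h2 with rfl | rfl | rfl
      · exact Or.inl (Or.inl hz)
      · exact Or.inl (Or.inr hz)
      · exact Or.inr hz
  · rintro (⟨j, ⟨hj, -⟩, hz⟩ | (hz | hz) | hz)
    · exact ⟨j, hj, hz⟩
    · exact ⟨i, by omega, hz⟩
    · exact ⟨i + 1, by omega, hz⟩
    · exact ⟨i + 2, by omega, hz⟩

theorem poly_split2 (o : Fin 2 → ℝ) (h : ℝ) {i : ℕ} (hi : i + 2 ≤ N) :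
    poly o h N p = rest o h N p i 2 ∪ (edg o h p i ∪ edg o h p (i + 1)) := by
  ext z
  rw [mem_poly, mem_union, mem_rest]
  constructor
  · rintro ⟨j, hj, hz⟩
    by_cases h1 : j < i ∨ i + 2 ≤ j
    · exact Or.inl ⟨j, ⟨hj, h1⟩, hz⟩
    · right
      have h2 : j = i ∨ j = i + 1 := by omega
      rcases h2 with rfl | rfl
      · exact Or.inl hz
      · exact Or.inr hz
  · rintro (⟨j, ⟨hj, -⟩, hz⟩ | hz | hz)
    · exact ⟨j, hj, hz⟩
    · exact ⟨i, by omega, hz⟩
    · exact ⟨i + 1, by omega, hz⟩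

theorem rest_push (o : Fin 2 → ℝ) (h : ℝ) {i : ℕ} :
    rest o h N (push p i) i 2 = rest o h N p i 2 := by
  ext z
  rw [mem_rest, mem_rest]
  constructor
  · rintro ⟨j, ⟨hj, h1⟩, hz⟩
    refine ⟨j, ⟨hj, h1⟩, ?_⟩
    unfold edg at hz
    rw [push_ne (by omega), push_ne (by omega)] at hz
    exact hz
  · rintro ⟨j, ⟨hj, h1⟩, hz⟩
    refine ⟨j, ⟨hj, h1⟩, ?_⟩
    unfold edg
    rw [push_ne (by omega), push_ne (by omega)]
    exact hz

/-- The segment as a union of its lattice edges. -/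
theorem seg_union (a u : Fin 2 → ℝ) (N : ℕ) (hN : 0 < N) :
    segment ℝ a (a + (N : ℝ) • u) =
      ⋃ j ∈ {j : ℕ | j < N}, segment ℝ (a + (j : ℝ) • u) (a + ((j + 1 : ℕ) : ℝ) • u) := by
  have hNr : (0 : ℝ) < N := by exact_mod_cast hN
  ext z
  simp only [mem_iUnion, mem_setOf_eq, exists_prop]
  constructor
  · intro hz
    obtain ⟨θ, h0, h1, rfl⟩ := mem_seg.1 hz
    let j := ⌊θ * N⌋₊
    have hj1 : (j : ℝ) ≤ θ * N := Nat.floor_le (by positivity)
    have hj2 : θ * N < j + 1 := Nat.lt_floor_add_one _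
    have hθN : θ * N ≤ N := by nlinarith
    by_cases hjN : j < N
    · refine ⟨j, hjN, mem_seg.2 ⟨θ * N - j, by linarith, by linarith, ?_⟩⟩
      push_cast
      module
    · have h2 : (N : ℝ) ≤ j := by exact_mod_cast (not_lt.1 hjN)
      have h3 : θ * N = N := by linarith
      refine ⟨N - 1, by omega, mem_seg.2 ⟨1, zero_le_one, le_rfl, ?_⟩⟩
      have h4 : ((N - 1 + 1 : ℕ) : ℝ) = N := by
        congr 1
        omega
      rw [h4]
      have h5 : a + θ • (a + (N : ℝ) • u - a) = a + (θ * N) • u := by module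
      rw [h5, h3]
      module
  · rintro ⟨j, hj, hz⟩
    obtain ⟨θ, h0, h1, rfl⟩ := mem_seg.1 hz
    have hjr : (j : ℝ) + 1 ≤ N := by exact_mod_cast hj
    have hj0 : (0 : ℝ) ≤ j := Nat.cast_nonneg j
    refine mem_seg.2 ⟨(j + θ) / N, by positivity, ?_, ?_⟩
    · rw [div_le_one hNr]
      linarith
    · have h2 : a + ((j + θ) / N) • (a + (N : ℝ) • u - a) =
          a + ((j + θ) / N * N) • u := by module
      rw [h2, div_mul_cancel₀ _ hNr.ne']
      push_cast
      module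

theorem unknot {o : Fin 2 → ℝ} {h : ℝ} (hh : 0 < h) (hA : 0 < A)
    {O : Set (Fin 2 → ℝ)} (hO : IsOpen O) (hRO : Rect o h A B ⊆ O) {o1 o2 : Fin 2 → ℝ}
    (ho1 : ∀ z ∈ segment ℝ o1 (Pt o h (0, 0)), z ∈ Rect o h A B → z = Pt o h (0, 0))
    (ho2 : ∀ z ∈ segment ℝ (Pt o h (A, 0)) o2, z ∈ Rect o h A B → z = Pt o h (A, 0)) :
    ∀ N p, LPath A B N p → ∃ k : (Fin 2 → ℝ) ≃ₜ (Fin 2 → ℝ), PLs k O ∧
      (∀ z ∈ segment ℝ o1 (Pt o h (0, 0)), k z = z) ∧
      (∀ z ∈ segment ℝ (Pt o h (A, 0)) o2, k z = z) ∧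
      k '' segment ℝ (Pt o h (0, 0)) (Pt o h (A, 0)) = poly o h N p := by
  apply lattice_induction
  · -- flat paths
    intro N p hp hflat
    obtain ⟨hN, hpi⟩ := hp.flat hA hflat
    refine ⟨1, PLs.one _, fun _ _ => rfl, fun _ _ => rfl, ?_⟩
    have h1 : (1 : (Fin 2 → ℝ) ≃ₜ (Fin 2 → ℝ)) '' segment ℝ (Pt o h (0, 0)) (Pt o h (A, 0)) =
        segment ℝ (Pt o h (0, 0)) (Pt o h (A, 0)) := by
      ext z
      constructor
      · rintro ⟨w, hw, rfl⟩
        exact hw
      · intro hz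
        exact ⟨z, hz, rfl⟩
    have h2 : ∀ j : ℕ, Pt o h ((j : ℤ), 0) = Pt o h (0, 0) + (j : ℝ) • ![h, 0] := by
      intro j
      apply ext2
      · rw [Pi.add_apply, Pi.smul_apply, Pt_zero, Pt_zero]
        simp
        ring
      · rw [Pi.add_apply, Pi.smul_apply, Pt_one, Pt_one]
        simp
    rw [h1, ← hN, h2 N, seg_union _ _ N (by omega)]
    unfold poly
    apply iUnion₂_congr
    intro j hj
    have hj' : j < N := hj
    unfold edg
    rw [hpi j hj'.le, hpi (j + 1) hj', h2, h2]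
  · -- three sides of a square
    intro N p i hp hi hadj ⟨k, hk, hk1, hk2, hkp⟩
    have hab := hp.adj i (by omega)
    have hbc : LAdj (p (i + 1)) (p (i + 2)) := hp.adj (i + 1) (by omega)
    have hcd : LAdj (p (i + 2)) (p (i + 3)) := hp.adj (i + 2) (by omega)
    have hac := hp.inj i (i + 2) (by omega) (by omega)
    have hbd := hp.inj (i + 1) (i + 3) (by omega) (by omega)
    have hgeo : (p i).1 ≠ (p (i + 2)).1 ∧ (p i).2 ≠ (p (i + 2)).2 ∧
        (p (i + 3)).1 = (p i).1 + (p (i + 2)).1 - (p (i + 1)).1 ∧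
        (p (i + 3)).2 = (p i).2 + (p (i + 2)).2 - (p (i + 1)).2 := by
      have hac' : (p i).1 ≠ (p (i + 2)).1 ∨ (p i).2 ≠ (p (i + 2)).2 := by
        by_contra hc
        push Not at hc
        exact hac (Prod.ext hc.1 hc.2)
      have hbd' : (p (i + 1)).1 ≠ (p (i + 3)).1 ∨ (p (i + 1)).2 ≠ (p (i + 3)).2 := by
        by_contra hc
        push Not at hc
        exact hbd (Prod.ext hc.1 hc.2)
      unfold LAdj at hab hbc hcd hadj
      omega
    obtain ⟨he, hf, hsum, m, l, hcell, hcor⟩ := square_geom (o := o) hh hab hbc hgeo.1 hgeo.2.1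
      hgeo.2.2.1 hgeo.2.2.2
    have hcor' : ∀ k ≤ N, Cor m l (p k) → i ≤ k ∧ k ≤ i + 3 := by
      intro k hk hck
      rcases (hcor _).1 hck with h1 | h1 | h1 | h1
      · have := hp.inj' hk (by omega) h1
        omega
      · have := hp.inj' hk (by omega) h1
        omega
      · have := hp.inj' hk (by omega) h1
        omega
      · have := hp.inj' hk (by omega) h1
        omega
    have hbox : 0 ≤ m ∧ m + 1 ≤ A ∧ 0 ≤ l ∧ l + 1 ≤ B := by
      have key : ∀ v : ℤ × ℤ, Cor m l v → 0 ≤ v.1 ∧ v.1 ≤ A ∧ 0 ≤ v.2 ∧ v.2 ≤ B := by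
        intro v hv
        rcases (hcor _).1 hv with rfl | rfl | rfl | rfl
        · exact hp.box i (by omega)
        · exact hp.box (i + 1) (by omega)
        · exact hp.box (i + 2) (by omega)
        · exact hp.box (i + 3) (by omega)
      have h1 := key (m, l) ⟨Or.inl rfl, Or.inl rfl⟩
      have h2 := key (m + 1, l + 1) ⟨Or.inr rfl, Or.inr rfl⟩
      simp only at h1 h2
      omega
    have hsq := sq_rect (o := o) hh hbox.1 hbox.2.1 hbox.2.2.1 hbox.2.2.2
    let Y : Set ((Fin 2 → ℝ) × (Fin 2 → ℝ)) :=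
      insert (o1, Pt o h (0, 0)) (insert (Pt o h (A, 0), o2)
        ((fun j => (Pt o h (p j), Pt o h (p (j + 1)))) '' {j : ℕ | j < N ∧ (j < i ∨ i + 3 ≤ j)}))
    have hY : Y.Finite := (((finite_Iio N).subset (fun j hj => hj.1)).image _).insert _ |>.insert _
    obtain ⟨F, hF, hFY, hFi⟩ := cell_alpha he hf hO ((hcell.trans hsq).trans hRO) hY (by
      intro q hq z hz hzc
      rw [add_sub_cancel]
      have hzs := hcell hzc
      rcases hq with rfl | rfl | ⟨j, ⟨hj, hji⟩, rfl⟩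
      · have h1 := ho1 z hz (hsq hzs)
        refine ⟨?_, Or.inr h1⟩
        have h2 : Cor m l (p 0) := by
          rw [hp.start]
          exact Pt_sq (o := o) hh (h1 ▸ hzs)
        have h3 := hcor' 0 (by omega) h2
        have h4 : i = 0 := by omega
        rw [h4, hp.start]
        exact Or.inl h1
      · have h1 := ho2 z hz (hsq hzs)
        refine ⟨?_, Or.inl h1⟩
        have h2 : Cor m l (p N) := by
          rw [hp.fin]
          exact Pt_sq (o := o) hh (h1 ▸ hzs)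
        have h3 := hcor' N le_rfl h2
        have h4 : i + 3 = N := by omega
        rw [h4, hp.fin]
        exact Or.inr h1
      · exact obstacle hh hp hcor' hj hji hz hzs)
    refine ⟨F * k, hF.mul hk, ?_, ?_, ?_⟩
    · intro z hz
      change F (k z) = z
      rw [hk1 z hz]
      exact hFY _ (Or.inl rfl) z hz
    · intro z hz
      change F (k z) = z
      rw [hk2 z hz]
      exact hFY _ (Or.inr (Or.inl rfl)) z hz
    · have h1 : (F * k : (Fin 2 → ℝ) ≃ₜ (Fin 2 → ℝ)) ''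
          segment ℝ (Pt o h (0, 0)) (Pt o h (A, 0)) =
          F '' (k '' segment ℝ (Pt o h (0, 0)) (Pt o h (A, 0))) := by
        rw [image_image]
        rfl
      rw [h1, hkp, poly_skip o h hi, poly_split3 o h hi, image_union]
      congr 1
      · ext z
        constructor
        · rintro ⟨w, hw, rfl⟩
          obtain ⟨j, hj, hwj⟩ := mem_rest.1 hw
          rw [hFY _ (Or.inr (Or.inr ⟨j, hj, rfl⟩)) w hwj]
          exact hw
        · intro hz
          obtain ⟨j, hj, hzj⟩ := mem_rest.1 hz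
          exact ⟨z, hz, hFY _ (Or.inr (Or.inr ⟨j, hj, rfl⟩)) z hzj⟩
      · rw [add_sub_cancel, add_sub_cancel] at hFi
        have hsum' : Pt o h (p (i + 3)) + (Pt o h (p (i + 1)) - Pt o h (p i)) =
            Pt o h (p (i + 2)) := by
          rw [← hsum, add_sub_cancel]
        rw [hsum'] at hFi
        exact hFi
  · -- a corner
    intro N p i hp hi h1 h2 h3 ⟨k, hk, hk1, hk2, hkp⟩
    have hab := hp.adj i (by omega)
    have hbc : LAdj (p (i + 1)) (p (i + 2)) := hp.adj (i + 1) (by omega)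
    obtain ⟨he, hf, hsum, m, l, hcell, hcor⟩ := square_geom (o := o) (d := crn p i) hh hab hbc h1
      h2 rfl rfl
    have hpush := hp.push hi h1 h2 h3
    have hcor' : ∀ k ≤ N, Cor m l (p k) → i ≤ k ∧ k ≤ i + 2 := by
      intro k hk hck
      rcases (hcor _).1 hck with h1 | h1 | h1 | h1
      · have := hp.inj' hk (by omega) h1
        omega
      · have := hp.inj' hk (by omega) h1
        omega
      · have := hp.inj' hk (by omega) h1
        omega
      · exact absurd h1 (h3 k hk)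
    have hbox : 0 ≤ m ∧ m + 1 ≤ A ∧ 0 ≤ l ∧ l + 1 ≤ B := by
      have key : ∀ v : ℤ × ℤ, Cor m l v → 0 ≤ v.1 ∧ v.1 ≤ A ∧ 0 ≤ v.2 ∧ v.2 ≤ B := by
        intro v hv
        rcases (hcor _).1 hv with rfl | rfl | rfl | rfl
        · exact hp.box i (by omega)
        · exact hp.box (i + 1) (by omega)
        · exact hp.box (i + 2) (by omega)
        · have := hpush.box (i + 1) (by omega)
          rw [push_same] at this
          exact this
      have h1 := key (m, l) ⟨Or.inl rfl, Or.inl rfl⟩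
      have h2 := key (m + 1, l + 1) ⟨Or.inr rfl, Or.inr rfl⟩
      simp only at h1 h2
      omega
    have hsq := sq_rect (o := o) hh hbox.1 hbox.2.1 hbox.2.2.1 hbox.2.2.2
    let Y : Set ((Fin 2 → ℝ) × (Fin 2 → ℝ)) :=
      insert (o1, Pt o h (0, 0)) (insert (Pt o h (A, 0), o2)
        ((fun j => (Pt o h (p j), Pt o h (p (j + 1)))) '' {j : ℕ | j < N ∧ (j < i ∨ i + 2 ≤ j)}))
    have hY : Y.Finite := (((finite_Iio N).subset (fun j hj => hj.1)).image _).insert _ |>.insert _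
    obtain ⟨F, hF, hFY, hFi⟩ := cell_beta he hf hO ((hcell.trans hsq).trans hRO) hY (by
      intro q hq z hz hzc
      rw [hsum]
      have hzs := hcell hzc
      rcases hq with rfl | rfl | ⟨j, ⟨hj, hji⟩, rfl⟩
      · have h1 := ho1 z hz (hsq hzs)
        refine ⟨?_, Or.inr h1⟩
        have h2 : Cor m l (p 0) := by
          rw [hp.start]
          exact Pt_sq (o := o) hh (h1 ▸ hzs)
        have h3 := hcor' 0 (by omega) h2
        have h4 : i = 0 := by omega
        rw [h4, hp.start]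
        exact Or.inl h1
      · have h1 := ho2 z hz (hsq hzs)
        refine ⟨?_, Or.inl h1⟩
        have h2 : Cor m l (p N) := by
          rw [hp.fin]
          exact Pt_sq (o := o) hh (h1 ▸ hzs)
        have h3 := hcor' N le_rfl h2
        have h4 : i + 2 = N := by omega
        rw [h4, hp.fin]
        exact Or.inr h1
      · exact obstacle hh hp hcor' hj hji hz hzs)
    refine ⟨F * k, hF.mul hk, ?_, ?_, ?_⟩
    · intro z hz
      change F (k z) = z
      rw [hk1 z hz]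
      exact hFY _ (Or.inl rfl) z hz
    · intro z hz
      change F (k z) = z
      rw [hk2 z hz]
      exact hFY _ (Or.inr (Or.inl rfl)) z hz
    · have h1 : (F * k : (Fin 2 → ℝ) ≃ₜ (Fin 2 → ℝ)) ''
          segment ℝ (Pt o h (0, 0)) (Pt o h (A, 0)) =
          F '' (k '' segment ℝ (Pt o h (0, 0)) (Pt o h (A, 0))) := by
        rw [image_image]
        rfl
      rw [h1, hkp, poly_split2 o h (p := push p i) hi, poly_split2 o h (p := p) hi, rest_push,
        image_union]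
      congr 1
      · ext z
        constructor
        · rintro ⟨w, hw, rfl⟩
          obtain ⟨j, hj, hwj⟩ := mem_rest.1 hw
          rw [hFY _ (Or.inr (Or.inr ⟨j, hj, rfl⟩)) w hwj]
          exact hw
        · intro hz
          obtain ⟨j, hj, hzj⟩ := mem_rest.1 hz
          exact ⟨z, hz, hFY _ (Or.inr (Or.inr ⟨j, hj, rfl⟩)) z hzj⟩
      · rw [hsum, add_sub_cancel, add_sub_cancel] at hFi
        have e1 : edg o h (push p i) i = segment ℝ (Pt o h (p i)) (Pt o h (crn p i)) := by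
          unfold edg
          rw [push_ne (by omega), push_same]
        have e2 : edg o h (push p i) (i + 1) =
            segment ℝ (Pt o h (crn p i)) (Pt o h (p (i + 2))) := by
          unfold edg
          rw [push_same, push_ne (by omega)]
        rw [e1, e2]
        exact hFi

end Pool.Agent.Run7.h754
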