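import Mathlib
import Pool.Agent.Run7.h754.Unknot2

/-!
# Lattice walks in connected open sets of the plane
-/

open Set Filter Topology

namespace Pool.Agent.Run7.h754

/-- A step along a lattice edge contained in `D`. -/
def Step (o : Fin 2 → ℝ) (h : ℝ) (D : Set (Fin 2 → ℝ)) (u v : ℤ × ℤ) : Prop :=
  LAdj u v ∧ segment ℝ (Pt o h u) (Pt o h v) ⊆ D

theorem Step.symm {o : Fin 2 → ℝ} {h : ℝ} {D : Set (Fin 2 → ℝ)} {u v : ℤ × ℤ}
    (hs : Step o h D u v) : Step o h D v u := by
  refine ⟨hs.1.symm, ?_⟩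
  rw [segment_symm]
  exact hs.2

abbrev Rch (o : Fin 2 → ℝ) (h : ℝ) (D : Set (Fin 2 → ℝ)) : ℤ × ℤ → ℤ × ℤ → Prop :=
  Relation.ReflTransGen (Step o h D)

theorem Rch.symm {o : Fin 2 → ℝ} {h : ℝ} {D : Set (Fin 2 → ℝ)} {u v : ℤ × ℤ}
    (hs : Rch o h D u v) : Rch o h D v u := by
  induction hs with
  | refl => exact Relation.ReflTransGen.refl
  | tail _ h2 ih => exact Relation.ReflTransGen.head h2.symm ih

theorem rch_horiz {o : Fin 2 → ℝ} {h : ℝ} {D S : Set (Fin 2 → ℝ)} (hS : Convex ℝ S)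
    (hSD : S ⊆ D) (k : ℕ) : ∀ a y : ℤ, Pt o h (a, y) ∈ S → Pt o h (a + k, y) ∈ S →
      Rch o h D (a, y) (a + k, y) := by
  induction k with
  | zero =>
    intro a y _ _
    simp only [Nat.cast_zero, add_zero]
    exact Relation.ReflTransGen.refl
  | succ k ih =>
    intro a y h1 h2
    have h3 : Pt o h (a + 1, y) ∈ S := by
      apply hS.segment_subset h1 h2
      refine mem_seg.2 ⟨1 / (k + 1), by positivity, ?_, ?_⟩
      · rw [div_le_one (by positivity)]
        linarith [Nat.cast_nonneg (α := ℝ) k]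
      · apply ext2
        · rw [Pi.add_apply, Pi.smul_apply, Pi.sub_apply, Pt_zero, Pt_zero, Pt_zero, smul_eq_mul]
          push_cast
          field_simp
          ring
        · rw [Pi.add_apply, Pi.smul_apply, Pi.sub_apply, Pt_one, Pt_one, Pt_one, smul_eq_mul]
          ring
    have h4 : (a + ((k + 1 : ℕ) : ℤ), y) = (a + 1 + k, y) := by
      push_cast
      ring_nf
    rw [h4] at h2 ⊢
    refine Relation.ReflTransGen.head ⟨?_, (hS.segment_subset h1 h3).trans hSD⟩
      (ih (a + 1) y h3 h2)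
    right
    simp

theorem rch_vert {o : Fin 2 → ℝ} {h : ℝ} {D S : Set (Fin 2 → ℝ)} (hS : Convex ℝ S)
    (hSD : S ⊆ D) (k : ℕ) : ∀ x b : ℤ, Pt o h (x, b) ∈ S → Pt o h (x, b + k) ∈ S →
      Rch o h D (x, b) (x, b + k) := by
  induction k with
  | zero =>
    intro a y _ _
    simp only [Nat.cast_zero, add_zero]
    exact Relation.ReflTransGen.refl
  | succ k ih =>
    intro x b h1 h2
    have h3 : Pt o h (x, b + 1) ∈ S := by
      apply hS.segment_subset h1 h2
      refine mem_seg.2 ⟨1 / (k + 1), by positivity, ?_, ?_⟩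
      · rw [div_le_one (by positivity)]
        linarith [Nat.cast_nonneg (α := ℝ) k]
      · apply ext2
        · rw [Pi.add_apply, Pi.smul_apply, Pi.sub_apply, Pt_zero, Pt_zero, Pt_zero, smul_eq_mul]
          ring
        · rw [Pi.add_apply, Pi.smul_apply, Pi.sub_apply, Pt_one, Pt_one, Pt_one, smul_eq_mul]
          push_cast
          field_simp
          ring
    have h4 : (x, b + ((k + 1 : ℕ) : ℤ)) = (x, b + 1 + k) := by
      push_cast
      ring_nf
    rw [h4] at h2 ⊢
    refine Relation.ReflTransGen.head ⟨?_, (hS.segment_subset h1 h3).trans hSD⟩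
      (ih x (b + 1) h3 h2)
    left
    simp

theorem rch_box {o : Fin 2 → ℝ} {h : ℝ} {D : Set (Fin 2 → ℝ)} {x : Fin 2 → ℝ}
    {r : ℝ} (hr : 0 < r) (hSD : Metric.ball x r ⊆ D) {u v : ℤ × ℤ}
    (hu : Pt o h u ∈ Metric.ball x r) (hv : Pt o h v ∈ Metric.ball x r) : Rch o h D u v := by
  obtain ⟨u1, u2⟩ := u
  obtain ⟨v1, v2⟩ := v
  have hS : Convex ℝ (Metric.ball x r) := convex_ball x r
  have hcoord : ∀ z : Fin 2 → ℝ, z ∈ Metric.ball x r ↔ |z 0 - x 0| < r ∧ |z 1 - x 1| < r := by
    intro z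
    rw [mem_ball_iff_norm, pi_norm_lt_iff hr]
    constructor
    · intro h
      exact ⟨by simpa using h 0, by simpa using h 1⟩
    · rintro ⟨h1, h2⟩ i
      fin_cases i
      · simpa using h1
      · simpa using h2
  have hm : Pt o h (v1, u2) ∈ Metric.ball x r := by
    rw [hcoord] at hu hv ⊢
    exact ⟨hv.1, hu.2⟩
  have h1 : Rch o h D (u1, u2) (v1, u2) := by
    rcases le_total u1 v1 with h | h
    · obtain ⟨k, hk⟩ := Int.le.dest h
      rw [← hk] at hm ⊢
      exact rch_horiz hS hSD k u1 u2 hu hm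
    · obtain ⟨k, hk⟩ := Int.le.dest h
      rw [← hk] at hu ⊢
      exact (rch_horiz hS hSD k v1 u2 hm hu).symm
  have h2 : Rch o h D (v1, u2) (v1, v2) := by
    rcases le_total u2 v2 with h | h
    · obtain ⟨k, hk⟩ := Int.le.dest h
      rw [← hk] at hv ⊢
      exact rch_vert hS hSD k v1 u2 hm hv
    · obtain ⟨k, hk⟩ := Int.le.dest h
      rw [← hk] at hm ⊢
      exact (rch_vert hS hSD k v1 v2 hv hm).symm
  exact h1.trans h2

theorem exists_near (o : Fin 2 → ℝ) {h : ℝ} (hh : 0 < h) (x : Fin 2 → ℝ) :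
    ∃ u : ℤ × ℤ, ‖Pt o h u - x‖ ≤ h / 2 := by
  refine ⟨(round ((x 0 - o 0) / h), round ((x 1 - o 1) / h)), ?_⟩
  have key : ∀ t : ℝ, |h * (round (t / h) : ℝ) - t| ≤ h / 2 := by
    intro t
    have h1 := abs_sub_round (t / h)
    have h2 : h * (round (t / h) : ℝ) - t = -(h * (t / h - round (t / h))) := by
      field_simp
      ring
    rw [h2, abs_neg, abs_mul, abs_of_pos hh]
    nlinarith
  rw [pi_norm_le_iff_of_nonneg (by positivity)]
  intro i
  fin_cases i
  · have := key (x 0 - o 0)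
    have h3 : (Pt o h (round ((x 0 - o 0) / h), round ((x 1 - o 1) / h)) - x) 0 =
        h * (round ((x 0 - o 0) / h) : ℝ) - (x 0 - o 0) := by
      rw [Pi.sub_apply, Pt_zero]
      ring
    change ‖(Pt o h (round ((x 0 - o 0) / h), round ((x 1 - o 1) / h)) - x) 0‖ ≤ h / 2
    rw [h3, Real.norm_eq_abs]
    exact this
  · have := key (x 1 - o 1)
    have h3 : (Pt o h (round ((x 0 - o 0) / h), round ((x 1 - o 1) / h)) - x) 1 =
        h * (round ((x 1 - o 1) / h) : ℝ) - (x 1 - o 1) := by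
      rw [Pi.sub_apply, Pt_one]
      ring
    change ‖(Pt o h (round ((x 0 - o 0) / h), round ((x 1 - o 1) / h)) - x) 1‖ ≤ h / 2
    rw [h3, Real.norm_eq_abs]
    exact this

/-- Lattice points near two points of a connected open set are joined by lattice walks, for all
sufficiently small mesh sizes. -/
theorem exists_walks (o : Fin 2 → ℝ) {D : Set (Fin 2 → ℝ)} (hD : IsOpen D)
    (hDc : IsPreconnected D) {x y : Fin 2 → ℝ} (hx : x ∈ D) (hy : y ∈ D) :
    ∃ h0 > 0, ∀ h, 0 < h → h < h0 → ∀ u v : ℤ × ℤ, ‖Pt o h u - x‖ ≤ 2 * h →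
      ‖Pt o h v - y‖ ≤ 2 * h → Rch o h D u v := by
  refine hDc.induction₂ (fun x y => ∃ h0 > 0, ∀ h, 0 < h → h < h0 → ∀ u v : ℤ × ℤ,
    ‖Pt o h u - x‖ ≤ 2 * h → ‖Pt o h v - y‖ ≤ 2 * h → Rch o h D u v) ?_ ?_ ?_ hx hy
  · intro x hx
    obtain ⟨r, hr, hrD⟩ := Metric.isOpen_iff.1 hD x hx
    filter_upwards [mem_nhdsWithin_of_mem_nhds (Metric.ball_mem_nhds x (half_pos hr))] with y hy
    refine ⟨r / 8, by positivity, fun h h0 h1 u v hu hv => ?_⟩
    rw [mem_ball_iff_norm] at hy
    apply rch_box hr hrD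
    · rw [mem_ball_iff_norm]
      linarith
    · rw [mem_ball_iff_norm]
      have h2 : Pt o h v - x = (Pt o h v - y) + (y - x) := by abel
      rw [h2]
      have := norm_add_le (Pt o h v - y) (y - x)
      linarith
  · rintro x y z _ _ _ ⟨h1, h1p, H1⟩ ⟨h2, h2p, H2⟩
    refine ⟨min h1 h2, lt_min h1p h2p, fun h hh hlt u v hu hv => ?_⟩
    obtain ⟨w, hw⟩ := exists_near o hh y
    have hw' : ‖Pt o h w - y‖ ≤ 2 * h := by linarith
    exact (H1 h hh (hlt.trans_le (min_le_left _ _)) u w hu hw').trans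
      (H2 h hh (hlt.trans_le (min_le_right _ _)) w v hw' hv)
  · rintro x y _ _ ⟨h1, h1p, H1⟩
    exact ⟨h1, h1p, fun h hh hlt u v hu hv => (H1 h hh hlt v u hv hu).symm⟩

theorem walk_of_rch {o : Fin 2 → ℝ} {h : ℝ} {D : Set (Fin 2 → ℝ)} {u v : ℤ × ℤ}
    (hs : Rch o h D u v) : ∃ (N : ℕ) (q : ℕ → ℤ × ℤ), q 0 = u ∧ q N = v ∧
      ∀ i < N, Step o h D (q i) (q (i + 1)) := by
  induction hs with
  | refl => exact ⟨0, fun _ => u, rfl, rfl, fun i hi => absurd hi (Nat.not_lt_zero i)⟩
  | @tail b c _ h2 ih =>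
    obtain ⟨N, q, hq0, hqN, hq⟩ := ih
    refine ⟨N + 1, fun i => if i ≤ N then q i else c, ?_, ?_, ?_⟩
    · simp only [Nat.zero_le, if_true]
      exact hq0
    · simp
    · intro i hi
      have h3 : i ≤ N := by omega
      simp only [h3, if_true]
      by_cases h4 : i + 1 ≤ N
      · simp only [h4, if_true]
        exact hq i (by omega)
      · simp only [h4, if_false]
        have h5 : i = N := by omega
        rw [h5, hqN]
        exact h2

/-- A minimal walk from the left side to the right side. -/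
theorem exists_crossing {o : Fin 2 → ℝ} {h : ℝ} {D : Set (Fin 2 → ℝ)} {A : ℤ} (hA : 0 < A)
    {u v : ℤ × ℤ} (hu : u.1 ≤ 0) (hv : A ≤ v.1) (hs : Rch o h D u v) :
    ∃ (N : ℕ) (q : ℕ → ℤ × ℤ), 1 ≤ N ∧ (q 0).1 = 0 ∧ (q N).1 = A ∧
      (∀ i < N, Step o h D (q i) (q (i + 1))) ∧ (∀ i, 0 < i → i ≤ N → 0 < (q i).1) ∧
      (∀ i < N, (q i).1 < A) ∧ (∀ i j, i < j → j ≤ N → q i ≠ q j) := by
  classical
  have hex : ∃ N : ℕ, ∃ q : ℕ → ℤ × ℤ, (q 0).1 ≤ 0 ∧ A ≤ (q N).1 ∧
      ∀ i < N, Step o h D (q i) (q (i + 1)) := by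
    obtain ⟨N, q, hq0, hqN, hq⟩ := walk_of_rch hs
    exact ⟨N, q, by rw [hq0]; exact hu, by rw [hqN]; exact hv, hq⟩
  obtain ⟨q, hq0, hqN, hq⟩ := Nat.find_spec hex
  have hmin : ∀ m, m < Nat.find hex → ¬ ∃ q : ℕ → ℤ × ℤ, (q 0).1 ≤ 0 ∧ A ≤ (q m).1 ∧
      ∀ i < m, Step o h D (q i) (q (i + 1)) := fun m hm => Nat.find_min hex hm
  set N := Nat.find hex with hN
  have hpos : ∀ i, 0 < i → i ≤ N → 0 < (q i).1 := by
    intro i h1 h2
    by_contra hc
    push Not at hc
    apply hmin (N - i) (by omega)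
    refine ⟨fun j => q (j + i), by simpa using hc, ?_, ?_⟩
    · have : N - i + i = N := by omega
      simp only [this]
      exact hqN
    · intro j hj
      have h3 : j + 1 + i = j + i + 1 := by omega
      simp only [h3]
      exact hq (j + i) (by omega)
  have hlt : ∀ i < N, (q i).1 < A := by
    intro i hi
    by_contra hc
    push Not at hc
    exact hmin i hi ⟨q, hq0, hc, fun j hj => hq j (by omega)⟩
  have hN1 : 1 ≤ N := by
    by_contra hc
    have h1 : N = 0 := by omega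
    rw [h1] at hqN
    omega
  refine ⟨N, q, hN1, ?_, ?_, hq, hpos, hlt, ?_⟩
  · have h1 := (hq 0 (by omega)).1
    have h2 := hpos (0 + 1) (by omega) (by omega)
    unfold LAdj at h1
    omega
  · have h1 := (hq (N - 1) (by omega)).1
    have h3 : N - 1 + 1 = N := by omega
    rw [h3] at h1
    have h2 := hlt (N - 1) (by omega)
    unfold LAdj at h1
    omega
  · intro i j hij hj heq
    apply hmin (N - (j - i)) (by omega)
    refine ⟨fun k => if k ≤ i then q k else q (k + (j - i)), ?_, ?_, ?_⟩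
    · simp only [Nat.zero_le, if_true]
      exact hq0
    · by_cases h1 : N - (j - i) ≤ i
      · simp only [h1, if_true]
        have h2 : j = N := by omega
        have h3 : N - (j - i) = i := by omega
        rw [h3, heq, h2]
        exact hqN
      · simp only [h1, if_false]
        have h2 : N - (j - i) + (j - i) = N := by omega
        rw [h2]
        exact hqN
    · intro k hk
      by_cases h1 : k ≤ i
      · simp only [h1, if_true]
        by_cases h2 : k + 1 ≤ i
        · simp only [h2, if_true]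
          exact hq k (by omega)
        · simp only [h2, if_false]
          have h3 : k = i := by omega
          subst h3
          have h4 : k + 1 + (j - k) = j + 1 := by omega
          rw [h4, heq]
          exact hq j (by omega)
      · have h2 : ¬ (k + 1 ≤ i) := by omega
        simp only [h1, h2, if_false]
        have h3 : k + 1 + (j - i) = k + (j - i) + 1 := by omega
        rw [h3]
        exact hq (k + (j - i)) (by omega)

end Pool.Agent.Run7.h754
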