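import Mathlib
import Pool.Agent.Run7.h754.Walk

/-!
# From crossings to lattice paths
-/

open Set Filter Topology

namespace Pool.Agent.Run7.h754

/-- The path going up the left side, along `q`, and down the right side. -/
def ell (q : ℕ → ℤ × ℤ) (a N : ℕ) (A b : ℤ) : ℕ → ℤ × ℤ := fun j =>
  if j < a then (0, (j : ℤ)) else if j ≤ a + N then q (j - a) else
    (A, b + a + N - j)

theorem ell1 {q : ℕ → ℤ × ℤ} {a N : ℕ} {A b : ℤ} {j : ℕ} (h : j < a) :
    ell q a N A b j = (0, (j : ℤ)) := if_pos h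

theorem ell2 {q : ℕ → ℤ × ℤ} {a N : ℕ} {A b : ℤ} {j : ℕ} (h : a ≤ j) (h' : j ≤ a + N) :
    ell q a N A b j = q (j - a) := by
  unfold ell
  rw [if_neg (by omega), if_pos h']

theorem ell3 {q : ℕ → ℤ × ℤ} {a N : ℕ} {A b : ℤ} {j : ℕ} (h : a + N < j) :
    ell q a N A b j = (A, b + a + N - j) := by
  unfold ell
  rw [if_neg (by omega), if_neg (by omega)]

theorem ell_path {q : ℕ → ℤ × ℤ} {a b N : ℕ} {A B : ℤ} (hA : 0 < A)
    (h0 : q 0 = (0, (a : ℤ))) (h1 : q N = (A, (b : ℤ)))
    (hadj : ∀ i < N, LAdj (q i) (q (i + 1))) (hpos : ∀ i, 0 < i → i ≤ N → 0 < (q i).1)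
    (hlt : ∀ i < N, (q i).1 < A) (hinj : ∀ i j, i < j → j ≤ N → q i ≠ q j)
    (hbox : ∀ i ≤ N, 0 < (q i).2 ∧ (q i).2 < B) :
    LPath A B (a + N + b) (ell q a N A b) := by
  have ha := hbox 0 (by omega)
  have hb := hbox N le_rfl
  rw [h0] at ha
  rw [h1] at hb
  simp only at ha hb
  refine ⟨?_, ?_, ?_, ?_, ?_⟩
  · rw [ell1 (by omega)]
    rfl
  · rw [ell3 (by omega)]
    ext
    · rfl
    · simp
      ring
  · intro j hj
    rcases lt_or_ge (j + 1) a with h | h
    · rw [ell1 (by omega), ell1 h]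
      left
      simp
    · rcases eq_or_lt_of_le h with h | h
      · rw [ell1 (by omega), ell2 (by omega) (by omega)]
        have h2 : j + 1 - a = 0 := by omega
        rw [h2, h0, h]
        left
        simp
      · rcases lt_or_ge j (a + N) with h3 | h3
        · rw [ell2 (by omega) (by omega), ell2 (by omega) (by omega)]
          have h4 : j + 1 - a = j - a + 1 := by omega
          rw [h4]
          exact hadj _ (by omega)
        · rcases eq_or_lt_of_le h3 with h4 | h4
          · rw [ell2 (by omega) (by omega), ell3 (by omega)]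
            have h5 : j - a = N := by omega
            rw [h5, h1]
            left
            refine ⟨rfl, Or.inl ?_⟩
            simp only
            push_cast
            omega
          · rw [ell3 (by omega), ell3 (by omega)]
            left
            refine ⟨rfl, Or.inl ?_⟩
            simp only
            push_cast
            omega
  · intro i j hij hj
    rcases lt_or_ge i a with hi1 | hi1
    · rw [ell1 hi1]
      rcases lt_or_ge j a with hj1 | hj1
      · rw [ell1 hj1]
        intro h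
        have := congrArg Prod.snd h
        simp only at this
        omega
      · rcases le_or_gt j (a + N) with hj2 | hj2
        · rw [ell2 hj1 hj2]
          intro h
          by_cases hj3 : j - a = 0
          · rw [hj3, h0] at h
            have := congrArg Prod.snd h
            simp only at this
            omega
          · have := hpos (j - a) (by omega) (by omega)
            rw [← h] at this
            simp at this
        · rw [ell3 hj2]
          intro h
          have := congrArg Prod.fst h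
          simp only at this
          omega
    · rcases le_or_gt i (a + N) with hi2 | hi2
      · rw [ell2 hi1 hi2]
        rcases le_or_gt j (a + N) with hj2 | hj2
        · rw [ell2 (by omega) hj2]
          exact hinj _ _ (by omega) (by omega)
        · rw [ell3 hj2]
          intro h
          by_cases hi3 : i - a = N
          · rw [hi3, h1] at h
            have := congrArg Prod.snd h
            simp only at this
            omega
          · have := hlt (i - a) (by omega)
            rw [h] at this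
            simp at this
      · rw [ell3 hi2, ell3 (by omega)]
        intro h
        have := congrArg Prod.snd h
        simp only at this
        omega
  · intro j hj
    rcases lt_or_ge j a with h | h
    · rw [ell1 h]
      simp only
      omega
    · rcases le_or_gt j (a + N) with h2 | h2
      · rw [ell2 h h2]
        have h3 := hbox (j - a) (by omega)
        have h4 : 0 ≤ (q (j - a)).1 := by
          by_cases h5 : j - a = 0
          · rw [h5, h0]
          · exact (hpos _ (by omega) (by omega)).le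
        have h6 : (q (j - a)).1 ≤ A := by
          by_cases h5 : j - a = N
          · rw [h5, h1]
          · exact (hlt _ (by omega)).le
        omega
      · rw [ell3 h2]
        simp only
        omega

/-- The three parts of the path. -/
theorem ell_poly {o : Fin 2 → ℝ} {h : ℝ} (hh : 0 < h) {q : ℕ → ℤ × ℤ} {a b N : ℕ} {A : ℤ}
    (h0 : q 0 = (0, (a : ℤ))) (h1 : q N = (A, (b : ℤ))) :
    poly o h (a + N + b) (ell q a N A b) ⊆ {z | z 0 = o 0 ∧ o 1 ≤ z 1 ∧ z 1 ≤ o 1 + h * a} ∪
      (poly o h N q ∪ {z | z 0 = o 0 + h * A ∧ o 1 ≤ z 1 ∧ z 1 ≤ o 1 + h * b}) := by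
  have hcv : ∀ (c r : ℝ), Convex ℝ {z : Fin 2 → ℝ | z 0 = c ∧ o 1 ≤ z 1 ∧ z 1 ≤ r} := by
    intro c r x hx y hy s t hs ht hst
    refine ⟨?_, ?_, ?_⟩
    · simp only [Pi.add_apply, Pi.smul_apply, smul_eq_mul]
      rw [hx.1, hy.1, ← add_mul, hst, one_mul]
    · simp only [Pi.add_apply, Pi.smul_apply, smul_eq_mul]
      have h2 := mul_le_mul_of_nonneg_left hx.2.1 hs
      have h3 := mul_le_mul_of_nonneg_left hy.2.1 ht
      have h4 : o 1 = s * o 1 + t * o 1 := by rw [← add_mul, hst, one_mul]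
      linarith
    · simp only [Pi.add_apply, Pi.smul_apply, smul_eq_mul]
      have h2 := mul_le_mul_of_nonneg_left hx.2.2 hs
      have h3 := mul_le_mul_of_nonneg_left hy.2.2 ht
      have h4 : r = s * r + t * r := by rw [← add_mul, hst, one_mul]
      linarith
  have hleft : ∀ j : ℤ, 0 ≤ j → j ≤ a → Pt o h (0, j) ∈
      {z : Fin 2 → ℝ | z 0 = o 0 ∧ o 1 ≤ z 1 ∧ z 1 ≤ o 1 + h * a} := by
    intro j hj hja
    have hj' : (0 : ℝ) ≤ j := by exact_mod_cast hj
    have hja' : (j : ℝ) ≤ a := by exact_mod_cast hja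
    refine ⟨?_, ?_, ?_⟩
    · rw [Pt_zero]; simp
    · rw [Pt_one]
      have := mul_nonneg hh.le hj'
      simp only
      linarith
    · rw [Pt_one]
      have := mul_le_mul_of_nonneg_left hja' hh.le
      simp only
      linarith
  have hright : ∀ j : ℤ, 0 ≤ j → j ≤ b → Pt o h (A, j) ∈
      {z : Fin 2 → ℝ | z 0 = o 0 + h * A ∧ o 1 ≤ z 1 ∧ z 1 ≤ o 1 + h * b} := by
    intro j hj hja
    have hj' : (0 : ℝ) ≤ j := by exact_mod_cast hj
    have hja' : (j : ℝ) ≤ b := by exact_mod_cast hja
    refine ⟨?_, ?_, ?_⟩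
    · rw [Pt_zero]
    · rw [Pt_one]
      have := mul_nonneg hh.le hj'
      simp only
      linarith
    · rw [Pt_one]
      have := mul_le_mul_of_nonneg_left hja' hh.le
      simp only
      linarith
  intro z hz
  obtain ⟨j, hj, hz⟩ := mem_poly.1 hz
  unfold edg at hz
  rcases lt_or_ge j a with h2 | h2
  · left
    rcases lt_or_ge (j + 1) a with h3 | h3
    · rw [ell1 h2, ell1 h3] at hz
      exact (hcv _ _).segment_subset (hleft j (by omega) (by omega))
        (hleft (j + 1 : ℕ) (by omega) (by omega)) hz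
    · rw [ell1 h2, ell2 (by omega) (by omega)] at hz
      have h4 : j + 1 - a = 0 := by omega
      rw [h4, h0] at hz
      exact (hcv _ _).segment_subset (hleft j (by omega) (by omega))
        (hleft a (by omega) (by omega)) hz
  · right
    rcases lt_or_ge j (a + N) with h3 | h3
    · left
      rw [ell2 h2 (by omega), ell2 (by omega) (by omega)] at hz
      rw [mem_poly]
      refine ⟨j - a, by omega, ?_⟩
      have h4 : j + 1 - a = j - a + 1 := by omega
      rw [h4] at hz
      exact hz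
    · right
      rcases eq_or_lt_of_le h3 with h4 | h4
      · rw [ell2 h2 (by omega), ell3 (by omega)] at hz
        have h5 : j - a = N := by omega
        rw [h5, h1] at hz
        exact (hcv _ _).segment_subset (hright b (by omega) (by omega))
          (hright _ (by push_cast; omega) (by push_cast; omega)) hz
      · rw [ell3 (by omega), ell3 (by omega)] at hz
        exact (hcv _ _).segment_subset (hright _ (by omega) (by omega))
          (hright _ (by push_cast; omega) (by push_cast; omega)) hz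

theorem poly_left {o : Fin 2 → ℝ} {h : ℝ} (hh : 0 < h) {q : ℕ → ℤ × ℤ} {N : ℕ}
    (h0 : (q 0).1 = 0) (hpos : ∀ i, 0 < i → i ≤ N → 0 < (q i).1) {z : Fin 2 → ℝ}
    (hz : z ∈ poly o h N q) (hz0 : z 0 = o 0) : z = Pt o h (q 0) := by
  obtain ⟨j, hj, hz⟩ := mem_poly.1 hz
  obtain ⟨θ, t0, t1, rfl⟩ := mem_seg.1 hz
  have hx : (Pt o h (q j) + θ • (Pt o h (q (j + 1)) - Pt o h (q j))) 0 =
      o 0 + h * ((q j).1 + θ * ((q (j + 1)).1 - (q j).1)) := by
    rw [Pi.add_apply, Pi.smul_apply, Pi.sub_apply, Pt_zero, Pt_zero, smul_eq_mul]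
    ring
  rw [hx] at hz0
  have h1 : ((q j).1 + θ * ((q (j + 1)).1 - (q j).1) : ℝ) = 0 := by
    have h2 : h * ((q j).1 + θ * ((q (j + 1)).1 - (q j).1) : ℝ) = 0 := by linarith
    exact (mul_eq_zero.1 h2).resolve_left hh.ne'
  have h3 : (1 : ℝ) ≤ (q (j + 1)).1 := by
    have := hpos (j + 1) (by omega) hj
    exact_mod_cast this
  rcases Nat.eq_zero_or_pos j with rfl | hj0
  · rw [h0] at h1
    push_cast at h1
    have h4 : θ * ((q (0 + 1)).1 : ℝ) = 0 := by linarith
    have h5 : θ = 0 := (mul_eq_zero.1 h4).resolve_right (by linarith)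
    rw [h5, zero_smul, add_zero]
  · exfalso
    have h4 : (1 : ℝ) ≤ (q j).1 := by
      have := hpos j hj0 hj.le
      exact_mod_cast this
    nlinarith

theorem poly_right {o : Fin 2 → ℝ} {h : ℝ} (hh : 0 < h) {q : ℕ → ℤ × ℤ} {N : ℕ} {A : ℤ}
    (h0 : (q N).1 = A) (hlt : ∀ i < N, (q i).1 < A) {z : Fin 2 → ℝ}
    (hz : z ∈ poly o h N q) (hz0 : z 0 = o 0 + h * A) : z = Pt o h (q N) := by
  obtain ⟨j, hj, hz⟩ := mem_poly.1 hz
  obtain ⟨θ, t0, t1, rfl⟩ := mem_seg.1 hz
  have hx : (Pt o h (q j) + θ • (Pt o h (q (j + 1)) - Pt o h (q j))) 0 =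
      o 0 + h * ((q j).1 + θ * ((q (j + 1)).1 - (q j).1)) := by
    rw [Pi.add_apply, Pi.smul_apply, Pi.sub_apply, Pt_zero, Pt_zero, smul_eq_mul]
    ring
  rw [hx] at hz0
  have h1 : ((q j).1 + θ * ((q (j + 1)).1 - (q j).1) : ℝ) = A := by
    have h2 : h * ((q j).1 + θ * ((q (j + 1)).1 - (q j).1) : ℝ) = h * A := by linarith
    exact mul_left_cancel₀ hh.ne' h2
  have h3 : ((q j).1 : ℝ) + 1 ≤ A := by
    have := hlt j hj
    exact_mod_cast this
  rcases Nat.lt_or_ge (j + 1) N with hj0 | hj0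
  · exfalso
    have h4 : ((q (j + 1)).1 : ℝ) + 1 ≤ A := by
      have := hlt (j + 1) hj0
      exact_mod_cast this
    nlinarith
  · have h4 : j + 1 = N := by omega
    rw [h4, h0] at h1
    rw [h4]
    have h5 : (1 - θ) * ((q j).1 - A : ℝ) = 0 := by linear_combination h1
    have h6 : θ = 1 := by
      have := (mul_eq_zero.1 h5).resolve_right (by linarith)
      linarith
    rw [h6, one_smul]
    abel

theorem isClosed_poly (o : Fin 2 → ℝ) (h : ℝ) (N : ℕ) (q : ℕ → ℤ × ℤ) :
    IsClosed (poly o h N q) := by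
  unfold poly
  apply (finite_Iio N).isClosed_biUnion
  intro j _
  unfold edg
  rw [segment_eq_image']
  apply IsCompact.isClosed
  exact isCompact_Icc.image (by fun_prop)

/-- Splitting an arc covered by two closed sets with at most one common point. -/
theorem arc_split {X : Type*} [TopologicalSpace X] {c : ℝ → X} (hc : Continuous c)
    (hinj : Function.Injective c) {α β : ℝ} (hαβ : α ≤ β) {U U' : Set X} (hU : IsClosed U)
    (hU' : IsClosed U') (hcov : ∀ s ∈ Icc α β, c s ∈ U ∪ U') {w : X}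
    (hw : ∀ z ∈ U, z ∈ U' → z = w) (hα : c α ∈ U) (hβ : c β ∈ U') :
    ∃ s ∈ Icc α β, (∀ x ∈ Icc α s, c x ∈ U) ∧ (∀ x ∈ Icc s β, c x ∈ U') ∧ c s = w := by
  have key : ∀ x y, α ≤ x → x ≤ y → y ≤ β → c x ∈ U → c y ∈ U' → ∃ s ∈ Icc x y, c s = w := by
    intro x y h1 h2 h3 h4 h5
    have h6 := isPreconnected_closed_iff.1 (isPreconnected_Icc (a := x) (b := y)) (c ⁻¹' U)
      (c ⁻¹' U') (hU.preimage hc) (hU'.preimage hc)
      (fun s hs => hcov s ⟨h1.trans hs.1, hs.2.trans h3⟩) ⟨x, ⟨le_rfl, h2⟩, h4⟩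
      ⟨y, ⟨h2, le_rfl⟩, h5⟩
    obtain ⟨s, hs, hs1, hs2⟩ := h6
    exact ⟨s, hs, hw _ hs1 hs2⟩
  have key2 : ∀ x y, α ≤ x → x ≤ y → y ≤ β → c x ∈ U' → c y ∈ U → ∃ s ∈ Icc x y, c s = w := by
    intro x y h1 h2 h3 h4 h5
    have h6 := isPreconnected_closed_iff.1 (isPreconnected_Icc (a := x) (b := y)) (c ⁻¹' U)
      (c ⁻¹' U') (hU.preimage hc) (hU'.preimage hc)
      (fun s hs => hcov s ⟨h1.trans hs.1, hs.2.trans h3⟩) ⟨y, ⟨h2, le_rfl⟩, h5⟩
      ⟨x, ⟨le_rfl, h2⟩, h4⟩
    obtain ⟨s, hs, hs1, hs2⟩ := h6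
    exact ⟨s, hs, hw _ hs1 hs2⟩
  obtain ⟨s, hs, hsw⟩ := key α β le_rfl hαβ le_rfl hα hβ
  have hsU : c s ∈ U := by
    by_contra hc1
    have h1 : c s ∈ U' := (hcov s hs).resolve_left hc1
    have h2 : ∀ x ∈ Icc α s, x < s → c x ∈ U := by
      intro x hx hxs
      by_contra h3
      have h4 : c x ∈ U' := (hcov x ⟨hx.1, hx.2.trans hs.2⟩).resolve_left h3
      obtain ⟨s', hs', hs'w⟩ := key α x le_rfl hx.1 (hx.2.trans hs.2) hα h4
      have := hinj (hs'w.trans hsw.symm)
      rw [this] at hs'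
      exact absurd hs'.2 (not_le.2 hxs)
    rcases eq_or_lt_of_le hs.1 with h3 | h3
    · rw [← h3] at hc1
      exact hc1 hα
    · apply hc1
      have h4 : s ∈ closure (Ico α s) := by
        rw [closure_Ico h3.ne]
        exact ⟨h3.le, le_rfl⟩
      have h5 : Ico α s ⊆ c ⁻¹' U := fun x hx => h2 x ⟨hx.1, hx.2.le⟩ hx.2
      exact (hU.preimage hc).closure_subset_iff.2 h5 h4
  have hsU' : c s ∈ U' := by
    by_contra hc1
    have h2 : ∀ x ∈ Icc s β, s < x → c x ∈ U' := by
      intro x hx hxs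
      by_contra h3
      have h4 : c x ∈ U := (hcov x ⟨hs.1.trans hx.1, hx.2⟩).resolve_right h3
      obtain ⟨s', hs', hs'w⟩ := key x β (hs.1.trans hx.1) hx.2 le_rfl h4 hβ
      have := hinj (hs'w.trans hsw.symm)
      rw [this] at hs'
      exact absurd hs'.1 (not_le.2 hxs)
    rcases eq_or_lt_of_le hs.2 with h3 | h3
    · rw [h3] at hc1
      exact hc1 hβ
    · apply hc1
      have h4 : s ∈ closure (Ioc s β) := by
        rw [closure_Ioc h3.ne]
        exact ⟨le_rfl, h3.le⟩
      have h5 : Ioc s β ⊆ c ⁻¹' U' := fun x hx => h2 x ⟨hx.1.le, hx.2⟩ hx.1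
      exact (hU'.preimage hc).closure_subset_iff.2 h5 h4
  refine ⟨s, hs, ?_, ?_, hsw⟩
  · intro x hx
    by_contra h3
    have h4 : c x ∈ U' := (hcov x ⟨hx.1, hx.2.trans hs.2⟩).resolve_left h3
    obtain ⟨s', hs', hs'w⟩ := key α x le_rfl hx.1 (hx.2.trans hs.2) hα h4
    have h5 := hinj (hs'w.trans hsw.symm)
    rw [h5] at hs'
    have h6 : x = s := le_antisymm hx.2 hs'.2
    rw [h6] at h3
    exact h3 hsU
  · intro x hx
    by_contra h3
    have h4 : c x ∈ U := (hcov x ⟨hs.1.trans hx.1, hx.2⟩).resolve_right h3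
    obtain ⟨s', hs', hs'w⟩ := key x β (hs.1.trans hx.1) hx.2 le_rfl h4 hβ
    have h5 := hinj (hs'w.trans hsw.symm)
    rw [h5] at hs'
    have h6 : x = s := le_antisymm hs'.1 hx.1
    rw [h6] at h3
    exact h3 hsU'

end Pool.Agent.Run7.h754
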