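import Mathlib
import Pool.Agent.Run7.h754.Cross

/-!
# Moving a segment through an open set crossing a rectangle
-/

open Set Filter Topology

namespace Pool.Agent.Run7.h754

theorem isClosed_side (a b c : ℝ) :
    IsClosed {z : Fin 2 → ℝ | z 0 = a ∧ b ≤ z 1 ∧ z 1 ≤ c} :=
  (isClosed_eq (continuous_apply 0) continuous_const).inter
    ((isClosed_le continuous_const (continuous_apply 1)).inter
      (isClosed_le (continuous_apply 1) continuous_const))

/-- Let `D` be a connected open subset of the strip over a horizontal segment which joins the left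
to the right.  Then the segment can be moved, within any neighbourhood of the rectangle, to the
union of an arc in the left side, an arc in `D` and an arc in the right side of the rectangle. -/
theorem cross2 {o : Fin 2 → ℝ} {w : ℝ} (hw : 0 < w) {N0 : ℕ} (hN0 : 0 < N0)
    {D : Set (Fin 2 → ℝ)} (hD : IsOpen D) (hDc : IsPreconnected D)
    (hDs : ∀ z ∈ D, o 1 < z 1 ∧ z 1 < o 1 + w / N0) {x y : Fin 2 → ℝ} (hx : x ∈ D) (hy : y ∈ D)
    (hx0 : x 0 < o 0) (hy0 : o 0 + w < y 0) {O : Set (Fin 2 → ℝ)} (hO : IsOpen O)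
    (hRO : ∀ z : Fin 2 → ℝ, o 0 ≤ z 0 → z 0 ≤ o 0 + w → o 1 ≤ z 1 → z 1 ≤ o 1 + w / N0 → z ∈ O)
    {X1 X2 : ℝ} (hX1 : X1 ≤ o 0) (hX2 : o 0 + w ≤ X2) :
    ∃ k : (Fin 2 → ℝ) ≃ₜ (Fin 2 → ℝ), PLs k O ∧
      (∀ X, X1 ≤ X → X ≤ o 0 → k ![X, o 1] = ![X, o 1]) ∧
      (∀ X, o 0 + w ≤ X → X ≤ X2 → k ![X, o 1] = ![X, o 1]) ∧
      ∃ s1 s2, o 0 ≤ s1 ∧ s1 ≤ s2 ∧ s2 ≤ o 0 + w ∧
        (∀ X, o 0 ≤ X → X ≤ s1 → (k ![X, o 1]) 0 = o 0 ∧ o 1 ≤ (k ![X, o 1]) 1 ∧
          (k ![X, o 1]) 1 ≤ o 1 + w / N0) ∧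
        (∀ X, s1 ≤ X → X ≤ s2 → k ![X, o 1] ∈ D) ∧
        (∀ X, s2 ≤ X → X ≤ o 0 + w → (k ![X, o 1]) 0 = o 0 + w ∧ o 1 ≤ (k ![X, o 1]) 1 ∧
          (k ![X, o 1]) 1 ≤ o 1 + w / N0) := by
  obtain ⟨h0, hh0, hwalk⟩ := exists_walks o hD hDc hx hy
  have hN0' : (0 : ℝ) < N0 := by exact_mod_cast hN0
  obtain ⟨m, hm⟩ := exists_nat_gt (w / N0 / h0)
  have hm0 : (0 : ℝ) < m := lt_of_le_of_lt (by positivity) hm
  have hm0' : 0 < m := by exact_mod_cast hm0
  set h : ℝ := w / N0 / m with hhdef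
  have hh : 0 < h := by positivity
  have hhlt : h < h0 := by
    rw [hhdef, div_lt_iff₀ hm0]
    rw [div_lt_iff₀ hh0] at hm
    linarith
  have hAw : h * ((N0 * m : ℕ) : ℤ) = w := by
    rw [hhdef]
    push_cast
    field_simp
  have hBw : h * ((m : ℕ) : ℤ) = w / N0 := by
    rw [hhdef]
    push_cast
    field_simp
  set A : ℤ := ((N0 * m : ℕ) : ℤ) with hAdef
  set B : ℤ := ((m : ℕ) : ℤ) with hBdef
  have hA : 0 < A := by
    rw [hAdef]
    exact_mod_cast Nat.mul_pos hN0 hm0'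
  obtain ⟨u, hu⟩ := exists_near o hh x
  obtain ⟨v, hv⟩ := exists_near o hh y
  have hrch := hwalk h hh hhlt u v (by linarith) (by linarith)
  have hu1 : u.1 ≤ 0 := by
    have h1 := norm_le_pi_norm (Pt o h u - x) 0
    rw [Pi.sub_apply, Pt_zero, Real.norm_eq_abs] at h1
    have h2 := (abs_le.1 (h1.trans hu)).2
    have h3 : h * (u.1 : ℝ) < h * 1 := by linarith
    have h4 : (u.1 : ℝ) < 1 := lt_of_mul_lt_mul_left h3 hh.le
    have h5 : u.1 < 1 := by exact_mod_cast h4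
    omega
  have hv1 : A ≤ v.1 := by
    have h1 := norm_le_pi_norm (Pt o h v - y) 0
    rw [Pi.sub_apply, Pt_zero, Real.norm_eq_abs] at h1
    have h2 := (abs_le.1 (h1.trans hv)).1
    have h3 : h * (A : ℝ) < h * (v.1 + 1) := by
      rw [hAw]
      linarith
    have h4 : (A : ℝ) < v.1 + 1 := lt_of_mul_lt_mul_left h3 hh.le
    have h5 : A < v.1 + 1 := by exact_mod_cast h4
    omega
  obtain ⟨N, q, hN, hq0, hqN, hstep, hpos, hlt, hinj⟩ := exists_crossing hA hu1 hv1 hrch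
  have hPD : ∀ i ≤ N, Pt o h (q i) ∈ D := by
    intro i hi
    rcases Nat.lt_or_ge i N with h1 | h1
    · exact (hstep i h1).2 (left_mem_segment ℝ _ _)
    · obtain rfl : i = N := by omega
      have h2 := (hstep (i - 1) (by omega)).2 (right_mem_segment ℝ _ _)
      have h3 : i - 1 + 1 = i := by omega
      rwa [h3] at h2
  have hbox : ∀ i ≤ N, 0 < (q i).2 ∧ (q i).2 < B := by
    intro i hi
    have h1 := hDs _ (hPD i hi)
    rw [Pt_one] at h1
    constructor
    · have h2 : h * 0 < h * ((q i).2 : ℝ) := by linarith [h1.1]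
      have h3 := lt_of_mul_lt_mul_left h2 hh.le
      exact_mod_cast h3
    · have h2 : h * ((q i).2 : ℝ) < h * (B : ℝ) := by
        rw [hBw]
        linarith [h1.2]
      have h3 := lt_of_mul_lt_mul_left h2 hh.le
      exact_mod_cast h3
  have hb0 := hbox 0 (by omega)
  have hbN := hbox N le_rfl
  obtain ⟨a, ha⟩ := Int.eq_ofNat_of_zero_le hb0.1.le
  obtain ⟨b, hb⟩ := Int.eq_ofNat_of_zero_le hbN.1.le
  have hq0' : q 0 = (0, (a : ℤ)) := Prod.ext hq0 ha
  have hqN' : q N = (A, (b : ℤ)) := Prod.ext hqN hb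
  have hpath := ell_path (B := B) hA hq0' hqN' (fun i hi => (hstep i hi).1) hpos hlt hinj hbox
  have hpoly := ell_poly (o := o) hh hq0' hqN'
  have hP0 : Pt o h (0, 0) = ![o 0, o 1] := by
    apply ext2
    · rw [Pt_zero]; simp
    · rw [Pt_one]; simp
  have hPA : Pt o h (A, 0) = ![o 0 + w, o 1] := by
    apply ext2
    · rw [Pt_zero]; simp only [Matrix.cons_val_zero]; rw [hAw]
    · rw [Pt_one]; simp
  have hseg : ∀ (X Y : ℝ) (z : Fin 2 → ℝ), X ≤ Y →
      (z ∈ segment ℝ (![X, o 1] : Fin 2 → ℝ) ![Y, o 1] ↔ X ≤ z 0 ∧ z 0 ≤ Y ∧ z 1 = o 1) := by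
    intro X Y z hXY
    rw [mem_seg]
    constructor
    · rintro ⟨θ, t0, t1, rfl⟩
      simp only [Pi.add_apply, Pi.smul_apply, Pi.sub_apply, Matrix.cons_val_zero,
        Matrix.cons_val_one, smul_eq_mul]
      refine ⟨by nlinarith, by nlinarith, by ring⟩
    · rintro ⟨h1, h2, h3⟩
      rcases eq_or_lt_of_le hXY with h4 | h4
      · refine ⟨0, le_rfl, zero_le_one, ?_⟩
        apply ext2
        · simp only [Pi.add_apply, Pi.smul_apply, Pi.sub_apply, Matrix.cons_val_zero, smul_eq_mul]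
          linarith
        · change z 1 = o 1 + 0 * (o 1 - o 1)
          linarith
      · refine ⟨(z 0 - X) / (Y - X), div_nonneg (by linarith) (by linarith), ?_, ?_⟩
        · rw [div_le_one (by linarith)]
          linarith
        · apply ext2
          · simp only [Pi.add_apply, Pi.smul_apply, Pi.sub_apply, Matrix.cons_val_zero,
              smul_eq_mul]
            rw [div_mul_cancel₀ _ (by linarith)]
            ring
          · change z 1 = o 1 + (z 0 - X) / (Y - X) * (o 1 - o 1)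
            rw [h3]
            ring
  obtain ⟨k, hk, hk1, hk2, hkp⟩ := unknot (o1 := ![X1, o 1]) (o2 := ![X2, o 1]) hh hA hO (by
    rintro z ⟨h1, h2, h3, h4⟩
    rw [hAw] at h2
    rw [hBw] at h4
    exact hRO z h1 h2 h3 h4) (by
    intro z hz hzR
    rw [hP0] at hz ⊢
    rw [hseg _ _ _ hX1] at hz
    apply ext2
    · exact le_antisymm hz.2.1 hzR.1
    · exact hz.2.2) (by
    intro z hz hzR
    rw [hPA] at hz ⊢
    rw [hseg _ _ _ hX2] at hz
    apply ext2
    · refine le_antisymm ?_ hz.1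
      have := hzR.2.1
      rw [hAw] at this
      exact this
    · exact hz.2.2) _ _ hpath
  rw [hP0] at hk1 hkp
  rw [hPA] at hk2 hkp
  refine ⟨k, hk, ?_, ?_, ?_⟩
  · intro X h1 h2
    exact hk1 _ ((hseg _ _ _ hX1).2 ⟨h1, h2, rfl⟩)
  · intro X h1 h2
    exact hk2 _ ((hseg _ _ _ hX2).2 ⟨h1, h2, rfl⟩)
  set U1 : Set (Fin 2 → ℝ) := {z | z 0 = o 0 ∧ o 1 ≤ z 1 ∧ z 1 ≤ o 1 + h * a} with hU1
  set U2 : Set (Fin 2 → ℝ) := poly o h N q with hU2
  set U3 : Set (Fin 2 → ℝ) := {z | z 0 = o 0 + h * A ∧ o 1 ≤ z 1 ∧ z 1 ≤ o 1 + h * b} with hU3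
  have hU1c : IsClosed U1 := isClosed_side _ _ _
  have hU3c : IsClosed U3 := isClosed_side _ _ _
  have hU2c : IsClosed U2 := isClosed_poly o h N q
  let c : ℝ → (Fin 2 → ℝ) := fun X => k ![X, o 1]
  have hc : Continuous c := by
    apply k.continuous.comp
    apply continuous_pi
    intro i
    fin_cases i
    · exact continuous_id
    · exact continuous_const
  have hcinj : Function.Injective c := by
    intro s t hst
    have h1 := k.injective hst
    have h2 := congrFun h1 0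
    simpa using h2
  have hcov : ∀ s ∈ Icc (o 0) (o 0 + w), c s ∈ U1 ∪ (U2 ∪ U3) := by
    intro s hs
    apply hpoly
    rw [← hkp]
    exact ⟨![s, o 1], (hseg _ _ _ (by linarith)).2 ⟨hs.1, hs.2, rfl⟩, rfl⟩
  have hstart : c (o 0) = ![o 0, o 1] := hk1 _ ((hseg _ _ _ hX1).2 ⟨hX1, le_rfl, rfl⟩)
  have hend : c (o 0 + w) = ![o 0 + w, o 1] := hk2 _ ((hseg _ _ _ hX2).2 ⟨le_rfl, hX2, rfl⟩)
  have hA' : (0 : ℝ) < A := by exact_mod_cast hA
  obtain ⟨s1, hs1, hs1a, hs1b, hs1w⟩ := arc_split hc hcinj (by linarith) hU1c (hU2c.union hU3c)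
    hcov (w := Pt o h (q 0)) (by
      rintro z hz (hz' | hz')
      · exact poly_left hh hq0 hpos hz' hz.1
      · exfalso
        have h1 := hz.1
        rw [hz'.1] at h1
        have := mul_pos hh hA'
        linarith) (by
      rw [hstart]
      refine ⟨rfl, le_rfl, ?_⟩
      have : 0 ≤ h * (a : ℝ) := by positivity
      change o 1 ≤ o 1 + h * (a : ℝ)
      linarith) (by
      rw [hend]
      right
      refine ⟨?_, le_rfl, ?_⟩
      · rw [hAw]
        rfl
      · have : 0 ≤ h * (b : ℝ) := by positivity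
        change o 1 ≤ o 1 + h * (b : ℝ)
        linarith)
  obtain ⟨s2, hs2, hs2a, hs2b, hs2w⟩ := arc_split hc hcinj hs1.2 hU2c hU3c hs1b
    (w := Pt o h (q N)) (by
      intro z hz hz'
      exact poly_right hh hqN hlt hz hz'.1) (by
      rw [hs1w, mem_poly]
      exact ⟨0, by omega, left_mem_segment ℝ _ _⟩) (by
      rw [hend]
      refine ⟨?_, le_rfl, ?_⟩
      · rw [hAw]
        rfl
      · have : 0 ≤ h * (b : ℝ) := by positivity
        change o 1 ≤ o 1 + h * (b : ℝ)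
        linarith)
  have ha' : h * (a : ℝ) ≤ w / N0 := by
    rw [← hBw]
    apply mul_le_mul_of_nonneg_left _ hh.le
    have h1 : (a : ℤ) ≤ B := by
      rw [← ha]
      exact hb0.2.le
    exact_mod_cast h1
  have hb' : h * (b : ℝ) ≤ w / N0 := by
    rw [← hBw]
    apply mul_le_mul_of_nonneg_left _ hh.le
    have h1 : (b : ℤ) ≤ B := by
      rw [← hb]
      exact hbN.2.le
    exact_mod_cast h1
  refine ⟨s1, s2, hs1.1, hs2.1, hs2.2, ?_, ?_, ?_⟩
  · intro X h1 h2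
    obtain ⟨h3, h4, h5⟩ := hs1a X ⟨h1, h2⟩
    exact ⟨h3, h4, by linarith⟩
  · intro X h1 h2
    obtain ⟨j, hj, hz⟩ := mem_poly.1 (hs2a X ⟨h1, h2⟩)
    exact (hstep j hj).2 hz
  · intro X h1 h2
    obtain ⟨h3, h4, h5⟩ := hs2b X ⟨h1, h2⟩
    rw [hAw] at h3
    exact ⟨h3, h4, by linarith⟩

end Pool.Agent.Run7.h754
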