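import Mathlib
import Pool.Agent.Run7.h754.Small

/-!
# Columns and their contractions
-/

open Set Filter Topology
open scoped Pointwise

namespace Pool.Agent.Run7.h754

variable {n : ℕ}

/-- The standard basis vectors. -/
def ee (j : Fin n) : Fin n → ℝ := Pi.single j 1

@[simp] theorem ee_same (j : Fin n) : ee j j = 1 := Pi.single_eq_same j 1

@[simp] theorem ee_ne {i j : Fin n} (h : i ≠ j) : ee j i = 0 := Pi.single_eq_of_ne h 1

@[simp] theorem norm_ee (j : Fin n) : ‖ee j‖ = 1 := by
  rw [ee, Pi.norm_single, norm_one]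

/-- The projection killing the coordinate `i0`. -/
def Pr (i0 : Fin n) : (Fin n → ℝ) →L[ℝ] (Fin n → ℝ) :=
  ContinuousLinearMap.id ℝ _ -
    (ContinuousLinearMap.proj i0 : (Fin n → ℝ) →L[ℝ] ℝ).smulRight (ee i0)

theorem Pr_def (i0 : Fin n) (z : Fin n → ℝ) : Pr i0 z = z - z i0 • ee i0 := rfl

theorem Pr_same (i0 : Fin n) (z : Fin n → ℝ) : Pr i0 z i0 = 0 := by
  rw [Pr_def, Pi.sub_apply, Pi.smul_apply, ee_same, smul_eq_mul, mul_one, sub_self]

theorem Pr_ne {i0 : Fin n} (z : Fin n → ℝ) {j : Fin n} (hj : j ≠ i0) : Pr i0 z j = z j := by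
  rw [Pr_def, Pi.sub_apply, Pi.smul_apply, ee_ne hj, smul_zero, sub_zero]

theorem norm_Pr_le {i0 : Fin n} {z : Fin n → ℝ} {r : ℝ} (hr : 0 ≤ r) :
    ‖Pr i0 z‖ ≤ r ↔ ∀ j, j ≠ i0 → |z j| ≤ r := by
  rw [pi_norm_le_iff_of_nonneg hr]
  constructor
  · intro h j hj
    have := h j
    rwa [Pr_ne z hj] at this
  · intro h j
    by_cases hj : j = i0
    · rw [hj, Pr_same, norm_zero]
      exact hr
    · rw [Pr_ne z hj]
      exact h j hj

theorem abs_le_norm_Pr {i0 : Fin n} (z : Fin n → ℝ) {j : Fin n} (hj : j ≠ i0) :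
    |z j| ≤ ‖Pr i0 z‖ := (norm_Pr_le (norm_nonneg _)).1 le_rfl j hj

theorem norm_le_Pr (i0 : Fin n) (z : Fin n → ℝ) : ‖z‖ ≤ |z i0| + ‖Pr i0 z‖ := by
  have h1 : z = z i0 • ee i0 + Pr i0 z := by
    rw [Pr_def]
    abel
  calc ‖z‖ = ‖z i0 • ee i0 + Pr i0 z‖ := by rw [← h1]
    _ ≤ ‖z i0 • ee i0‖ + ‖Pr i0 z‖ := norm_add_le _ _
    _ = |z i0| + ‖Pr i0 z‖ := by
      rw [norm_smul, norm_ee, mul_one, Real.norm_eq_abs]

theorem Pr_single {i0 : Fin n} (t : ℝ) : Pr i0 (t • ee i0) = 0 := by
  rw [Pr_def, Pi.smul_apply, ee_same, smul_eq_mul, mul_one, sub_self]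

theorem isCompact_col (i0 : Fin n) (c : Fin n → ℝ) (r α β : ℝ) :
    IsCompact {z : Fin n → ℝ | ‖Pr i0 (z - c)‖ ≤ r ∧ α ≤ z i0 ∧ z i0 ≤ β} := by
  apply Metric.isCompact_of_isClosed_isBounded
  · apply IsClosed.inter
    · exact isClosed_le ((Pr i0).continuous.comp (continuous_id.sub continuous_const)).norm
        continuous_const
    · exact (isClosed_le continuous_const (continuous_apply i0)).inter
        (isClosed_le (continuous_apply i0) continuous_const)
  · rw [isBounded_iff_forall_norm_le]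
    refine ⟨|α| + |β| + |c i0| + r + ‖c‖, fun z hz => ?_⟩
    obtain ⟨h1, h2, h3⟩ := hz
    have h4 := norm_le_Pr i0 (z - c)
    have h5 : ‖z‖ ≤ ‖z - c‖ + ‖c‖ := by
      have := norm_add_le (z - c) c
      rwa [sub_add_cancel] at this
    have h6 : |(z - c) i0| ≤ |z i0| + |c i0| := by
      rw [Pi.sub_apply]
      exact abs_sub _ _
    have h7 : |z i0| ≤ |α| + |β| := by
      rw [abs_le]
      constructor
      · linarith [neg_abs_le α, abs_nonneg β]
      · linarith [le_abs_self β, abs_nonneg α]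
    linarith

/-- The contraction of one coordinate in a column. -/
theorem contract_one (i0 : Fin n) {c : Fin n → ℝ} {δ l : ℝ} (hδ : 0 < δ) (hδ1 : δ ≤ 1)
    (hl0 : 0 < l) (hl1 : l ≤ 1) (j : Fin n) (hj : j ≠ i0) :
    ∃ F : (Fin n → ℝ) ≃ₜ (Fin n → ℝ),
      PLs F {z | ‖Pr i0 (z - c)‖ < δ ∧ -2 < z i0 ∧ z i0 < 5} ∧ (∀ z, F z i0 = z i0) ∧
      ∀ z, ‖Pr i0 (z - c)‖ ≤ 9 / 10 * δ → 0 ≤ z i0 → z i0 ≤ 3 →
        (∀ i, i ≠ j → F z i = z i) ∧ F z j - c j = l * (z j - c j) := by
  let M : (Fin n → ℝ) → ℝ := fun z =>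
    20 * max 0 (min (19 / 20 * δ - ‖Pr i0 (z - c)‖) (min (z i0 + 1) (4 - z i0)))
  have hM0 : ∀ z, 0 ≤ M z := fun z => mul_nonneg (by norm_num) (le_max_left _ _)
  let ψ : (Fin n → ℝ) → ℝ := fun z =>
    min ((1 - l) * max 0 (-(z j - c j))) (M z) - min ((1 - l) * max 0 (z j - c j)) (M z)
  have hl1' : 0 ≤ 1 - l := by linarith
  have hψpl : PLf ψ := by
    have h0 : PLf (fun z : Fin n → ℝ => z - c) := PLf.id.sub (PLf.const c)
    have h1 : PLf (fun z : Fin n → ℝ => ‖Pr i0 (z - c)‖) := (h0.clm (Pr i0)).norm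
    have h2 : PLf (fun z : Fin n → ℝ => z i0) := PLf.id.coord i0
    have hM : PLf M := ((PLf.const 0).max (((PLf.const _).sub h1).min
      ((h2.add (PLf.const 1)).min ((PLf.const 4).sub h2)))).const_mul 20
    have h3 : PLf (fun z : Fin n → ℝ => z j - c j) := (PLf.id.coord j).sub (PLf.const _)
    exact ((((PLf.const 0).max h3.neg).const_mul _).min hM).sub
      ((((PLf.const 0).max h3).const_mul _).min hM)
  have hMmono : ∀ z, ∀ t : ℝ, |z j - c j| ≤ |z j + t - c j| →
      M (z + t • ee j) ≤ M z := by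
    intro z t h
    have h1 : ‖Pr i0 (z - c)‖ ≤ ‖Pr i0 (z + t • ee j - c)‖ := by
      rw [norm_Pr_le (norm_nonneg _)]
      intro i hi
      refine le_trans ?_ (abs_le_norm_Pr _ hi)
      by_cases hij : i = j
      · subst hij
        simpa using h
      · simp [hij]
    have h2 : (z + t • ee j) i0 = z i0 := by simp [hj.symm]
    change 20 * max 0 (min _ (min ((z + t • ee j) i0 + 1)
      (4 - (z + t • ee j) i0))) ≤ 20 * max 0 (min _ _)
    rw [h2]
    have h3 : min (19 / 20 * δ - ‖Pr i0 (z + t • ee j - c)‖)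
        (min (z i0 + 1) (4 - z i0)) ≤
        min (19 / 20 * δ - ‖Pr i0 (z - c)‖) (min (z i0 + 1) (4 - z i0)) :=
      min_le_min_right _ (by linarith)
    have h4 := max_le_max_left (0 : ℝ) h3
    linarith
  have hMmono' : ∀ z, ∀ t : ℝ, |z j + t - c j| ≤ |z j - c j| →
      M z ≤ M (z + t • ee j) := by
    intro z t h
    have h1 := hMmono (z + t • ee j) (-t) (by
      have h2 : (z + t • ee j) j = z j + t := by simp
      rw [h2]
      have h3 : z j + t + -t - c j = z j - c j := by ring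
      rw [h3]
      exact h)
    have h2 : z + t • ee j + (-t) • ee j = z := by module
    rwa [h2] at h1
  have hsl : ∀ z, ∀ t ≥ 0, ψ z - (1 - l) * t ≤ ψ (z + t • ee j) := by
    intro z t ht
    have hzj : (z + t • ee j) j = z j + t := by simp
    change ψ z - (1 - l) * t ≤
      min ((1 - l) * max 0 (-((z + t • ee j) j - c j)))
        (M (z + t • ee j)) -
      min ((1 - l) * max 0 ((z + t • ee j) j - c j))
        (M (z + t • ee j))
    rw [hzj]
    change min ((1 - l) * max 0 (-(z j - c j))) (M z) - min ((1 - l) * max 0 (z j - c j)) (M z) -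
      (1 - l) * t ≤ _
    have hMz := hM0 z
    have hMz' := hM0 (z + t • ee j)
    have hlt : 0 ≤ (1 - l) * t := mul_nonneg hl1' ht
    rcases le_total 0 (z j - c j) with h | h
    · -- both nonnegative
      have h1 : 0 ≤ z j + t - c j := by linarith
      rw [max_eq_left (by linarith : -(z j - c j) ≤ 0), max_eq_right h,
        max_eq_left (by linarith : -(z j + t - c j) ≤ 0), max_eq_right h1, mul_zero,
        min_eq_left hMz, min_eq_left hMz']
      have h2 := hMmono z t (by rw [abs_of_nonneg h, abs_of_nonneg h1]; linarith)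
      have h3 : min ((1 - l) * (z j + t - c j)) (M (z + t • ee j)) ≤
          min ((1 - l) * (z j - c j)) (M z) + (1 - l) * t := by
        rw [← min_add_add_right]
        apply le_min
        · refine (min_le_left _ _).trans ?_
          linarith
        · refine (min_le_right _ _).trans ?_
          linarith
      linarith
    · rcases le_total 0 (z j + t - c j) with h' | h'
      · -- crossing
        rw [max_eq_left h, max_eq_right (by linarith : (0 : ℝ) ≤ -(z j - c j)),
          max_eq_left (by linarith : -(z j + t - c j) ≤ 0), max_eq_right h', mul_zero,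
          min_eq_left hMz, min_eq_left hMz']
        have h2 := min_le_left ((1 - l) * -(z j - c j)) (M z)
        have h3 := min_le_left ((1 - l) * (z j + t - c j)) (M (z + t • ee j))
        linarith
      · -- both nonpositive
        rw [max_eq_left h, max_eq_right (by linarith : (0 : ℝ) ≤ -(z j - c j)),
          max_eq_right (by linarith : (0 : ℝ) ≤ -(z j + t - c j)), max_eq_left h', mul_zero,
          min_eq_left hMz, min_eq_left hMz']
        have h2 := hMmono' z t (by rw [abs_of_nonpos h, abs_of_nonpos h']; linarith)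
        have h3 : min ((1 - l) * -(z j - c j)) (M z) ≤
            min ((1 - l) * -(z j + t - c j)) (M (z + t • ee j)) + (1 - l) * t := by
          rw [← min_add_add_right]
          apply le_min
          · refine (min_le_left _ _).trans ?_
            linarith
          · refine (min_le_right _ _).trans ?_
            linarith
        linarith
  have hsupp : ∀ z, z ∉ {z : Fin n → ℝ | ‖Pr i0 (z - c)‖ ≤ 19 / 20 * δ ∧ -1 ≤ z i0 ∧ z i0 ≤ 4} →
      ψ z = 0 := by
    intro z hz
    have h1 : M z = 0 := by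
      change 20 * max 0 _ = 0
      rw [max_eq_left, mul_zero]
      by_contra hc
      push Not at hc
      apply hz
      have h2 := lt_min_iff.1 hc
      have h3 := lt_min_iff.1 h2.2
      exact ⟨by linarith [h2.1], by linarith [h3.1], by linarith [h3.2]⟩
    change min _ (M z) - min _ (M z) = 0
    rw [h1, min_eq_right (mul_nonneg hl1' (le_max_left _ _)),
      min_eq_right (mul_nonneg hl1' (le_max_left _ _)), sub_self]
  obtain ⟨F, hFpl, hF⟩ := shear_pl hψpl (ee j) (κ := 1 - l) (by linarith) hsl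
    (isCompact_col i0 c _ _ _) hsupp
  refine ⟨F, ⟨hFpl, _, ?_, isCompact_col i0 c (19 / 20 * δ) (-1) 4, fun z hz => ?_⟩, ?_, ?_⟩
  · rintro z ⟨h1, h2, h3⟩
    exact ⟨by linarith, by linarith, by linarith⟩
  · rw [hF, hsupp z hz, zero_smul, add_zero]
  · intro z
    rw [hF]
    simp [hj.symm]
  · intro z h1 h2 h3
    have hMz : 9 / 10 * δ ≤ M z := by
      change _ ≤ 20 * max 0 _
      have h4 : 1 / 20 * δ ≤ min (19 / 20 * δ - ‖Pr i0 (z - c)‖) (min (z i0 + 1) (4 - z i0)) := by
        apply le_min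
        · linarith
        · apply le_min <;> linarith
      have h5 := h4.trans (le_max_right 0 _)
      linarith
    have hr : |z j - c j| ≤ 9 / 10 * δ := by
      have := abs_le_norm_Pr (i0 := i0) (z - c) hj
      rw [Pi.sub_apply] at this
      linarith
    have hψz : ψ z = -((1 - l) * (z j - c j)) := by
      change min ((1 - l) * max 0 (-(z j - c j))) (M z) - min ((1 - l) * max 0 (z j - c j)) (M z) =
        _
      rcases le_total 0 (z j - c j) with h | h
      · rw [abs_of_nonneg h] at hr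
        rw [max_eq_left (by linarith : -(z j - c j) ≤ 0), max_eq_right h, mul_zero,
          min_eq_left (hM0 z), min_eq_left, zero_sub]
        nlinarith
      · rw [abs_of_nonpos h] at hr
        rw [max_eq_left h, max_eq_right (by linarith : (0 : ℝ) ≤ -(z j - c j)), mul_zero,
          min_eq_left (hM0 z), min_eq_left, sub_zero]
        · ring
        · nlinarith
    constructor
    · intro i hi
      rw [hF]
      simp [hi]
    · rw [hF, hψz]
      simp
      ring

/-- The contraction of a column. -/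
theorem contract (i0 : Fin n) {c : Fin n → ℝ} {δ l : ℝ} (hδ : 0 < δ) (hδ1 : δ ≤ 1)
    (hl0 : 0 < l) (hl1 : l ≤ 1) :
    ∃ F : (Fin n → ℝ) ≃ₜ (Fin n → ℝ),
      PLs F {z | ‖Pr i0 (z - c)‖ < δ ∧ -2 < z i0 ∧ z i0 < 5} ∧ (∀ z, F z i0 = z i0) ∧
      ∀ z, ‖Pr i0 (z - c)‖ ≤ 9 / 10 * δ → 0 ≤ z i0 → z i0 ≤ 3 →
        ‖Pr i0 (F z - c)‖ ≤ l * δ := by
  classical
  have key : ∀ J : Finset (Fin n), i0 ∉ J → ∃ F : (Fin n → ℝ) ≃ₜ (Fin n → ℝ),
      PLs F {z | ‖Pr i0 (z - c)‖ < δ ∧ -2 < z i0 ∧ z i0 < 5} ∧ (∀ z, F z i0 = z i0) ∧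
      ∀ z, ‖Pr i0 (z - c)‖ ≤ 9 / 10 * δ → 0 ≤ z i0 → z i0 ≤ 3 →
        ‖Pr i0 (F z - c)‖ ≤ 9 / 10 * δ ∧ ∀ j ∈ J, |F z j - c j| ≤ l * δ := by
    intro J
    induction J using Finset.induction_on with
    | empty =>
      intro _
      exact ⟨1, PLs.one _, fun z => rfl, fun z h1 h2 h3 => ⟨h1, by simp⟩⟩
    | insert j J hjJ ih =>
      intro hi0
      rw [Finset.mem_insert, not_or] at hi0
      obtain ⟨F, hF, hFi0, hFK⟩ := ih hi0.2
      obtain ⟨F', hF', hF'i0, hF'K⟩ := contract_one i0 (c := c) hδ hδ1 hl0 hl1 j (Ne.symm hi0.1)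
      refine ⟨F' * F, hF'.mul hF, ?_, ?_⟩
      · intro z
        change F' (F z) i0 = z i0
        rw [hF'i0, hFi0]
      · intro z h1 h2 h3
        change ‖Pr i0 (F' (F z) - c)‖ ≤ 9 / 10 * δ ∧ ∀ j' ∈ _, |F' (F z) j' - c j'| ≤ l * δ
        obtain ⟨h4, h5⟩ := hFK z h1 h2 h3
        obtain ⟨h6, h7⟩ := hF'K (F z) h4 (by rw [hFi0]; exact h2) (by rw [hFi0]; exact h3)
        have hFj : |F z j - c j| ≤ 9 / 10 * δ := by
          have := abs_le_norm_Pr (i0 := i0) (F z - c) (Ne.symm hi0.1)
          rw [Pi.sub_apply] at this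
          linarith
        have h8 : |F' (F z) j - c j| ≤ l * (9 / 10 * δ) := by
          rw [h7, abs_mul, abs_of_pos hl0]
          exact mul_le_mul_of_nonneg_left hFj hl0.le
        constructor
        · rw [norm_Pr_le (by positivity)]
          intro i hi
          rw [Pi.sub_apply]
          by_cases hij : i = j
          · rw [hij]
            refine h8.trans ?_
            nlinarith
          · rw [h6 i hij]
            have := abs_le_norm_Pr (i0 := i0) (F z - c) hi
            rw [Pi.sub_apply] at this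
            linarith
        · intro i hi
          by_cases hij : i = j
          · rw [hij]
            refine h8.trans ?_
            nlinarith
          · rw [h6 i hij]
            exact h5 i ((Finset.mem_insert.1 hi).resolve_left hij)
  obtain ⟨F, hF, hFi0, hFK⟩ := key (Finset.univ.erase i0) (Finset.notMem_erase _ _)
  refine ⟨F, hF, hFi0, fun z h1 h2 h3 => ?_⟩
  rw [norm_Pr_le (by positivity)]
  intro i hi
  rw [Pi.sub_apply]
  exact (hFK z h1 h2 h3).2 i (Finset.mem_erase.2 ⟨hi, Finset.mem_univ i⟩)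

end Pool.Agent.Run7.h754
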