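import Mathlib
import Pool.Agent.Run7.h754.Col

/-!
# If straight segments are small then everything is small
-/

open Set Filter Topology
open scoped Pointwise

namespace Pool.Agent.Run7.h754

variable {n : ℕ}

/-- The bump in the direction of the columns. -/
noncomputable def bb (t : ℝ) : ℝ := max 0 (min t (3 - t) / 2)

theorem bb_nonneg (t : ℝ) : 0 ≤ bb t := le_max_left _ _

theorem bb_slope {t s : ℝ} (hs : 0 ≤ s) : bb t - 1 / 2 * s ≤ bb (t + s) := by
  have h1 : min t (3 - t) - s ≤ min (t + s) (3 - (t + s)) := by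
    apply le_min
    · linarith [min_le_left t (3 - t)]
    · linarith [min_le_right t (3 - t)]
  rcases le_total 0 (min t (3 - t) / 2) with h | h
  · rw [bb, max_eq_right h]
    refine le_trans ?_ (le_max_right _ _)
    linarith
  · rw [bb, max_eq_left h]
    refine le_trans ?_ (le_max_left _ _)
    linarith

theorem bb_zero {t : ℝ} (h : ¬ (0 ≤ t ∧ t ≤ 3)) : bb t = 0 := by
  apply max_eq_left
  by_contra hc
  push Not at hc
  apply h
  have h1 : 0 < min t (3 - t) := by linarith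
  obtain ⟨h2, h3⟩ := lt_min_iff.1 h1
  exact ⟨h2.le, by linarith⟩

theorem bb_le {t : ℝ} (h : t ≤ 3) : bb t ≤ (3 - t) / 2 := by
  apply max_le
  · linarith
  · linarith [min_le_right t (3 - t)]

/-- The tent over a column. -/
noncomputable def tent (i0 : Fin n) (δ : ℝ) (c z : Fin n → ℝ) : ℝ :=
  3 * max 0 (1 - ‖Pr i0 (z - c)‖ / (9 / 10 * δ))

/-- The centre of the column of an integer vector. -/
noncomputable def ctr (δ : ℝ) (v : Fin n → ℤ) : Fin n → ℝ := fun j => δ * v j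

/-- The maximum of the tents over a finite set of columns. -/
noncomputable def roof (i0 : Fin n) (δ : ℝ) (A : Finset (Fin n → ℤ)) (z : Fin n → ℝ) : ℝ :=
  A.fold max 0 (fun v => tent i0 δ (ctr δ v) z)

noncomputable def mu (i0 : Fin n) (δ : ℝ) (A : Finset (Fin n → ℤ)) (z : Fin n → ℝ) : ℝ :=
  min (roof i0 δ A z) (bb (z i0))

theorem tent_pl (i0 : Fin n) (δ : ℝ) (c : Fin n → ℝ) : PLf (tent i0 δ c) := by
  have h0 : PLf (fun z : Fin n → ℝ => z - c) := PLf.id.sub (PLf.const c)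
  have h1 : PLf (fun z : Fin n → ℝ => ‖Pr i0 (z - c)‖) := (h0.clm (Pr i0)).norm
  have h2 : PLf (fun z : Fin n → ℝ => 1 - ‖Pr i0 (z - c)‖ / (9 / 10 * δ)) := by
    have := (PLf.const (1 : ℝ) : PLf (fun _ : Fin n → ℝ => (1 : ℝ))).sub
      (h1.const_mul (9 / 10 * δ)⁻¹)
    refine (funext (fun z => ?_) : (fun z : Fin n → ℝ =>
      1 - ‖Pr i0 (z - c)‖ / (9 / 10 * δ)) = fun z => 1 - (9 / 10 * δ)⁻¹ * ‖Pr i0 (z - c)‖) ▸ this
    rw [div_eq_inv_mul]
  exact ((PLf.const 0).max h2).const_mul 3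

theorem roof_pl (i0 : Fin n) (δ : ℝ) (A : Finset (Fin n → ℤ)) : PLf (roof i0 δ A) := by
  classical
  induction A using Finset.induction_on with
  | empty => exact PLf.const 0
  | insert v A hv ih =>
    have : roof i0 δ (insert v A) = fun z => max (tent i0 δ (ctr δ v) z) (roof i0 δ A z) := by
      ext z
      exact Finset.fold_insert hv
    rw [this]
    exact (tent_pl i0 δ _).max ih

theorem mu_pl (i0 : Fin n) (δ : ℝ) (A : Finset (Fin n → ℤ)) : PLf (mu i0 δ A) := by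
  have h2 : PLf (fun z : Fin n → ℝ => z i0) := PLf.id.coord i0
  have h3 : PLf (fun z : Fin n → ℝ => bb (z i0)) := by
    have h4 : PLf (fun z : Fin n → ℝ => min (z i0) (3 - z i0) / 2) := by
      have := (h2.min ((PLf.const 3).sub h2)).const_mul (1 / 2)
      refine (funext (fun z => ?_) : (fun z : Fin n → ℝ => min (z i0) (3 - z i0) / 2) =
        fun z => 1 / 2 * min (z i0) (3 - z i0)) ▸ this
      ring
    exact (PLf.const 0).max h4
  exact (roof_pl i0 δ A).min h3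

theorem roof_nonneg (i0 : Fin n) (δ : ℝ) (A : Finset (Fin n → ℤ)) (z : Fin n → ℝ) :
    0 ≤ roof i0 δ A z := (Finset.le_fold_max _).2 (Or.inl le_rfl)

theorem mu_nonneg (i0 : Fin n) (δ : ℝ) (A : Finset (Fin n → ℤ)) (z : Fin n → ℝ) :
    0 ≤ mu i0 δ A z := le_min (roof_nonneg _ _ _ _) (bb_nonneg _)

theorem Pr_add_e (i0 : Fin n) (z c : Fin n → ℝ) (t : ℝ) :
    Pr i0 (z + t • ee i0 - c) = Pr i0 (z - c) := by
  have : z + t • ee i0 - c = (z - c) + t • ee i0 := by abel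
  rw [this, map_add, Pr_single, add_zero]

theorem roof_add (i0 : Fin n) (δ : ℝ) (A : Finset (Fin n → ℤ)) (z : Fin n → ℝ) (t : ℝ) :
    roof i0 δ A (z + t • ee i0) = roof i0 δ A z := by
  unfold roof
  congr 1
  ext v
  unfold tent
  rw [Pr_add_e]

theorem tent_zero (i0 : Fin n) {δ : ℝ} (hδ : 0 < δ) {c z : Fin n → ℝ}
    (h : 9 / 10 * δ ≤ ‖Pr i0 (z - c)‖) : tent i0 δ c z = 0 := by
  unfold tent
  rw [max_eq_left, mul_zero]
  rw [sub_nonpos, le_div_iff₀ (by positivity), one_mul]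
  exact h

/-- The product of the pushes along the columns of `A`. -/
theorem exists_R (i0 : Fin n) {δ : ℝ} (hδ : 0 < δ) (A : Finset (Fin n → ℤ)) :
    ∃ R : (Fin n → ℝ) ≃ₜ (Fin n → ℝ), PLf (R : (Fin n → ℝ) → (Fin n → ℝ)) ∧
      (∀ z, R z = z + mu i0 δ A z • ee i0) ∧
      ∀ z, (∀ v ∈ A, ¬ (‖Pr i0 (z - ctr δ v)‖ ≤ 9 / 10 * δ ∧ 0 ≤ z i0 ∧ z i0 ≤ 3)) →
        R z = z := by
  have hsl : ∀ z, ∀ t ≥ 0, mu i0 δ A z - 1 / 2 * t ≤ mu i0 δ A (z + t • ee i0) := by
    intro z t ht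
    unfold mu
    rw [roof_add]
    have h1 : (z + t • ee i0) i0 = z i0 + t := by
      rw [Pi.add_apply, Pi.smul_apply, ee_same, smul_eq_mul, mul_one]
    rw [h1]
    have h2 := bb_slope (t := z i0) ht
    apply le_min
    · linarith [min_le_left (roof i0 δ A z) (bb (z i0))]
    · linarith [min_le_right (roof i0 δ A z) (bb (z i0))]
  have hzero : ∀ z, (∀ v ∈ A, ¬ (‖Pr i0 (z - ctr δ v)‖ ≤ 9 / 10 * δ ∧ 0 ≤ z i0 ∧ z i0 ≤ 3)) →
      mu i0 δ A z = 0 := by
    intro z hz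
    by_cases h : 0 ≤ z i0 ∧ z i0 ≤ 3
    · have h1 : roof i0 δ A z ≤ 0 := by
        unfold roof
        rw [Finset.fold_max_le]
        refine ⟨le_rfl, fun v hv => ?_⟩
        have h2 : 9 / 10 * δ ≤ ‖Pr i0 (z - ctr δ v)‖ := by
          by_contra hc
          push Not at hc
          exact hz v hv ⟨hc.le, h⟩
        rw [tent_zero i0 hδ h2]
      exact le_antisymm ((min_le_left _ _).trans h1) (mu_nonneg _ _ _ _)
    · unfold mu
      rw [bb_zero h]
      exact min_eq_right (roof_nonneg _ _ _ _)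
  let C : Set (Fin n → ℝ) := ⋃ v ∈ A, {z : Fin n → ℝ | ‖Pr i0 (z - ctr δ v)‖ ≤ 9 / 10 * δ ∧
    0 ≤ z i0 ∧ z i0 ≤ 3}
  have hC : IsCompact C := A.isCompact_biUnion (fun v _ => isCompact_col i0 _ _ _ _)
  obtain ⟨R, hR, hRz⟩ := shear_pl (mu_pl i0 δ A) (ee i0) (κ := 1 / 2) (by norm_num) hsl hC (by
    intro z hz
    apply hzero
    intro v hv h
    apply hz
    simp only [C, mem_iUnion]
    exact ⟨v, hv, h⟩)
  refine ⟨R, hR, hRz, fun z hz => ?_⟩
  rw [hRz, hzero z hz, zero_smul, add_zero]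

theorem R_step (i0 : Fin n) {δ : ℝ} (hδ : 0 < δ) {A : Finset (Fin n → ℤ)}
    {v : Fin n → ℤ} [DecidableEq (Fin n → ℤ)] (hv : v ∉ A)
    {R R' : (Fin n → ℝ) ≃ₜ (Fin n → ℝ)} (hR : ∀ z, R z = z + mu i0 δ A z • ee i0)
    (hR' : ∀ z, R' z = z + mu i0 δ (insert v A) z • ee i0) {w : Fin n → ℝ}
    (hw : ¬ (‖Pr i0 (w - ctr δ v)‖ ≤ 9 / 10 * δ ∧ 0 ≤ w i0 ∧ w i0 ≤ 3)) : R' (R.symm w) = w := by
  set z := R.symm w with hz
  have hzw : R z = w := R.apply_symm_apply w
  have hzw' := hzw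
  rw [hR] at hzw'
  by_cases h1 : ‖Pr i0 (w - ctr δ v)‖ ≤ 9 / 10 * δ
  · have hwi : w i0 = z i0 + mu i0 δ A z := by
      rw [← hzw', Pi.add_apply, Pi.smul_apply, ee_same, smul_eq_mul, mul_one]
    have h2 : ¬ (0 ≤ z i0 ∧ z i0 ≤ 3) := by
      rintro ⟨h3, h4⟩
      apply hw
      have h5 := mu_nonneg i0 δ A z
      have h6 : mu i0 δ A z ≤ (3 - z i0) / 2 := (min_le_right _ _).trans (bb_le h4)
      exact ⟨h1, by linarith, by linarith⟩
    have h3 : ∀ B : Finset (Fin n → ℤ), mu i0 δ B z = 0 := by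
      intro B
      unfold mu
      rw [bb_zero h2]
      exact min_eq_right (roof_nonneg _ _ _ _)
    rw [h3, zero_smul, add_zero] at hzw'
    rw [hR', h3, zero_smul, add_zero]
    exact hzw'
  · have h2 : Pr i0 (z - ctr δ v) = Pr i0 (w - ctr δ v) := by
      rw [← hzw', Pr_add_e]
    have h3 : mu i0 δ (insert v A) z = mu i0 δ A z := by
      unfold mu
      congr 1
      have h4 : roof i0 δ (insert v A) z = max (tent i0 δ (ctr δ v) z) (roof i0 δ A z) :=
        Finset.fold_insert hv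
      rw [h4, tent_zero i0 hδ (by rw [h2]; linarith), max_eq_right (roof_nonneg _ _ _ _)]
    rw [hR', h3]
    exact hzw'

end Pool.Agent.Run7.h754
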