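import Mathlib
import Pool.Agent.Run7.h754.Arc

/-!
# The arc theorem
-/

open Set Filter Topology
open scoped Pointwise

namespace Pool.Agent.Run7.h754

variable {n : ℕ} {H : Subgroup ((Fin n → ℝ) ≃ₜ (Fin n → ℝ))} [τ : TopologicalSpace H]

/-- Straight segments of length three in the direction `i0` have arbitrarily small
neighbourhoods. -/
def SegSmall (H : Subgroup ((Fin n → ℝ) ≃ₜ (Fin n → ℝ))) [TopologicalSpace H] (i0 : Fin n) :
    Prop :=
  ∀ W ∈ 𝓝 (1 : H), ∀ c : Fin n → ℝ, c i0 = 0 → ‖c‖ ≤ 10 →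
    ∃ Q : Set (Fin n → ℝ), IsOpen Q ∧ segment ℝ c (c + (3 : ℝ) • ee i0) ⊆ Q ∧ Sm H W Q

/-- The parity class of an integer vector. -/
def par (v : Fin n → ℤ) : Fin n → ZMod 2 := fun j => (v j : ZMod 2)

theorem par_gap {v v' : Fin n → ℤ} (h : par v = par v') {j : Fin n} (hj : v j ≠ v' j) :
    (2 : ℝ) ≤ |(v j : ℝ) - v' j| := by
  have h1 : ((v j : ℤ) : ZMod 2) = ((v' j : ℤ) : ZMod 2) := congrFun h j
  rw [ZMod.intCast_eq_intCast_iff_dvd_sub] at h1
  obtain ⟨k, hk⟩ := h1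
  push_cast at hk
  have hk0 : k ≠ 0 := by
    rintro rfl
    apply hj
    omega
  have h2 : (2 : ℤ) ≤ |v j - v' j| := by
    have : |v j - v' j| = 2 * |k| := by
      rw [abs_sub_comm, hk, abs_mul]
      rfl
    rw [this]
    have := Int.one_le_abs hk0
    omega
  exact_mod_cast h2

/-- The open column. -/
def colU (i0 : Fin n) (δ : ℝ) (v : Fin n → ℤ) : Set (Fin n → ℝ) :=
  {z | ‖Pr i0 (z - ctr δ v)‖ < δ ∧ -2 < z i0 ∧ z i0 < 5}

theorem colU_disj (i0 : Fin n) {δ : ℝ} (hδ : 0 < δ) {v v' : Fin n → ℤ} (hv : v i0 = 0)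
    (hv' : v' i0 = 0) (h : par v = par v') (hne : v ≠ v') :
    Disjoint (colU i0 δ v) (colU i0 δ v') := by
  obtain ⟨j, hj⟩ : ∃ j, v j ≠ v' j := by
    by_contra hc
    push Not at hc
    exact hne (funext hc)
  have hj0 : j ≠ i0 := by
    rintro rfl
    exact hj (hv.trans hv'.symm)
  rw [Set.disjoint_left]
  rintro z ⟨h1, -⟩ ⟨h2, -⟩
  have h3 := (abs_le_norm_Pr (i0 := i0) (z - ctr δ v) hj0).trans_lt h1
  have h4 := (abs_le_norm_Pr (i0 := i0) (z - ctr δ v') hj0).trans_lt h2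
  rw [Pi.sub_apply] at h3 h4
  have h5 := par_gap h hj
  have h6 : δ * |(v j : ℝ) - v' j| < 2 * δ := by
    have h7 : δ * ((v j : ℝ) - v' j) = (z j - ctr δ v' j) - (z j - ctr δ v j) := by
      unfold ctr
      ring
    have h8 : δ * |(v j : ℝ) - v' j| = |δ * ((v j : ℝ) - v' j)| := by
      rw [abs_mul, abs_of_pos hδ]
    rw [h8, h7]
    have h9 := abs_sub (z j - ctr δ v' j) (z j - ctr δ v j)
    linarith
  nlinarith

theorem ctr_i0 {i0 : Fin n} {δ : ℝ} {v : Fin n → ℤ} (hv : v i0 = 0) : ctr δ v i0 = 0 := by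
  unfold ctr
  rw [hv, Int.cast_zero, mul_zero]

variable [IsTopologicalGroup H]

theorem arc_thm (hH : Ctx H) (i0 : Fin n) (hS : SegSmall H i0) {W : Set H}
    (hW : W ∈ 𝓝 (1 : H)) :
    ∃ F ∈ W, ∀ z : Fin n → ℝ, 9 / 10 < z i0 → z i0 < 11 / 10 → ‖Pr i0 z‖ < 1 →
      11 / 10 < (F : (Fin n → ℝ) ≃ₜ (Fin n → ℝ)) z i0 := by
  classical
  obtain ⟨V1, hV1, hV1W⟩ := pow_nhds (Fintype.card (Fin n → ZMod 2)) hW
  obtain ⟨V, hV, hVV1⟩ := exists_split3 hV1
  obtain ⟨ε, hε, hεV⟩ := hH.small V hV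
  let δ : ℝ := min 1 (ε / 2)
  have hδ : 0 < δ := lt_min one_pos (by positivity)
  have hδ1 : δ ≤ 1 := min_le_left _ _
  have hδε : 2 * δ ≤ ε := by
    have : δ ≤ ε / 2 := min_le_right _ _
    linarith
  -- the finite set of columns
  let M : ℤ := ⌈1 / δ⌉ + 1
  have hM1 : 1 / δ + 1 ≤ (M : ℝ) := by
    change 1 / δ + 1 ≤ ((⌈1 / δ⌉ + 1 : ℤ) : ℝ)
    push_cast
    linarith [Int.le_ceil (1 / δ)]
  have hM2 : (M : ℝ) ≤ 1 / δ + 2 := by
    change ((⌈1 / δ⌉ + 1 : ℤ) : ℝ) ≤ 1 / δ + 2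
    push_cast
    linarith [Int.ceil_lt_add_one (1 / δ)]
  have hMδ : δ * M ≤ 3 := by
    have h1 : δ * M ≤ δ * (1 / δ + 2) := by gcongr
    have h2 : δ * (1 / δ + 2) = 1 + 2 * δ := by
      field_simp
    linarith
  have hM0 : (0 : ℝ) ≤ M := by
    have : 0 ≤ 1 / δ := by positivity
    linarith
  let S : Finset (Fin n → ℤ) :=
    Fintype.piFinset (fun j => if j = i0 then {0} else Finset.Icc (-M) M)
  have hSi0 : ∀ v ∈ S, v i0 = 0 := by
    intro v hv
    have := Fintype.mem_piFinset.1 hv i0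
    rw [if_pos rfl, Finset.mem_singleton] at this
    exact this
  have hSctr : ∀ v ∈ S, ‖ctr δ v‖ ≤ 3 := by
    intro v hv
    rw [pi_norm_le_iff_of_nonneg (by norm_num)]
    intro j
    rw [Real.norm_eq_abs]
    unfold ctr
    rw [abs_mul, abs_of_pos hδ]
    have h1 := Fintype.mem_piFinset.1 hv j
    by_cases hj : j = i0
    · rw [hj, hSi0 v hv, Int.cast_zero, abs_zero, mul_zero]
      norm_num
    · rw [if_neg hj, Finset.mem_Icc] at h1
      have h2 : |(v j : ℝ)| ≤ M := by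
        rw [abs_le]
        constructor
        · exact_mod_cast h1.1
        · exact_mod_cast h1.2
      calc δ * |(v j : ℝ)| ≤ δ * M := by gcongr
        _ ≤ 3 := hMδ
  have hcolT : ∀ v ∈ S, colU i0 δ v ⊆ Metric.ball 0 100 := by
    intro v hv z hz
    rw [mem_ball_zero_iff]
    have h1 := norm_le_Pr i0 (z - ctr δ v)
    have h2 : ‖z‖ ≤ ‖z - ctr δ v‖ + ‖ctr δ v‖ := by
      have := norm_add_le (z - ctr δ v) (ctr δ v)
      rwa [sub_add_cancel] at this
    have h3 : |(z - ctr δ v) i0| ≤ 5 := by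
      rw [Pi.sub_apply, ctr_i0 (hSi0 v hv), sub_zero, abs_le]
      exact ⟨by linarith [hz.2.1], hz.2.2.le⟩
    have h4 := hSctr v hv
    have h5 := hz.1
    linarith
  obtain ⟨V', hV', hV'V⟩ := pow_nhds S.card hV
  -- small neighbourhoods of the axes of the columns
  have hQ : ∀ v, ∃ Q : Set (Fin n → ℝ), v ∈ S → IsOpen Q ∧
      segment ℝ (ctr δ v) (ctr δ v + (3 : ℝ) • ee i0) ⊆ Q ∧ Sm H V' Q := by
    intro v
    by_cases hv : v ∈ S
    · obtain ⟨Q, hQ⟩ := hS V' hV' (ctr δ v) (ctr_i0 (hSi0 v hv)) ((hSctr v hv).trans (by norm_num))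
      exact ⟨Q, fun _ => hQ⟩
    · exact ⟨∅, fun h => absurd h hv⟩
  choose Q hQ using hQ
  -- contractions of the columns
  have hF : ∀ v, ∃ F : (Fin n → ℝ) ≃ₜ (Fin n → ℝ), v ∈ S → PLs F (colU i0 δ v) ∧
      (∀ z, F z i0 = z i0) ∧
      ∀ z, ‖Pr i0 (z - ctr δ v)‖ ≤ 9 / 10 * δ → 0 ≤ z i0 → z i0 ≤ 3 → F z ∈ Q v := by
    intro v
    by_cases hv : v ∈ S
    · obtain ⟨hQo, hQs, -⟩ := hQ v hv
      have hsegc : IsCompact (segment ℝ (ctr δ v) (ctr δ v + (3 : ℝ) • ee i0)) := by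
        rw [← convexHull_pair]
        exact (toFinite _).isCompact_convexHull ℝ
      obtain ⟨η, hη, hηQ⟩ := hsegc.exists_cthickening_subset_open hQo hQs
      obtain ⟨F, hF1, hF2, hF3⟩ := contract i0 (c := ctr δ v) hδ hδ1 (l := min 1 (η / δ))
        (lt_min one_pos (by positivity)) (min_le_left _ _)
      refine ⟨F, fun _ => ⟨hF1, hF2, fun z h1 h2 h3 => hηQ ?_⟩⟩
      refine Metric.mem_cthickening_of_dist_le _ (ctr δ v + (z i0) • ee i0) _ _ ?_ ?_
      · rw [segment_eq_image']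
        refine ⟨z i0 / 3, ⟨by positivity, by linarith⟩, ?_⟩
        change ctr δ v + (z i0 / 3) • (ctr δ v + (3 : ℝ) • ee i0 - ctr δ v) = _
        rw [add_sub_cancel_left, smul_smul]
        congr 2
        ring
      · rw [dist_eq_norm]
        have h4 : F z - (ctr δ v + z i0 • ee i0) = Pr i0 (F z - ctr δ v) := by
          rw [Pr_def, Pi.sub_apply, ctr_i0 (hSi0 v hv), sub_zero, hF2]
          abel
        rw [h4]
        refine (hF3 z h1 h2 h3).trans ?_
        calc min 1 (η / δ) * δ ≤ η / δ * δ := by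
              gcongr
              exact min_le_right _ _
          _ = η := div_mul_cancel₀ _ hδ.ne'
    · exact ⟨1, fun h => absurd h hv⟩
  choose F hF using hF
  -- the pushes
  have hR : ∀ A : Finset (Fin n → ℤ), ∃ R : (Fin n → ℝ) ≃ₜ (Fin n → ℝ),
      PLf (R : (Fin n → ℝ) → (Fin n → ℝ)) ∧ (∀ z, R z = z + mu i0 δ A z • ee i0) ∧
      ∀ z, (∀ v ∈ A, ¬ (‖Pr i0 (z - ctr δ v)‖ ≤ 9 / 10 * δ ∧ 0 ≤ z i0 ∧ z i0 ≤ 3)) →
        R z = z := fun A => exists_R i0 hδ A
  choose R hRpl hRz hRfix using hR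
  have hKcol : ∀ v, {z : Fin n → ℝ | ‖Pr i0 (z - ctr δ v)‖ ≤ 9 / 10 * δ ∧ 0 ≤ z i0 ∧ z i0 ≤ 3} ⊆
      colU i0 δ v := by
    rintro v z ⟨h1, h2, h3⟩
    exact ⟨by linarith, by linarith, by linarith⟩
  have hRH : ∀ A ⊆ S, R A ∈ H := by
    intro A hA
    refine hH.pl _ ⟨hRpl A, ⋃ v ∈ A, {z : Fin n → ℝ | ‖Pr i0 (z - ctr δ v)‖ ≤ 9 / 10 * δ ∧
      0 ≤ z i0 ∧ z i0 ≤ 3}, ?_, A.isCompact_biUnion (fun v _ => isCompact_col i0 _ _ _ _), ?_⟩
    · intro z hz
      simp only [mem_iUnion] at hz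
      obtain ⟨v, hv, hz⟩ := hz
      exact hcolT v (hA hv) (hKcol v hz)
    · intro z hz
      apply hRfix
      intro v hv h
      apply hz
      simp only [mem_iUnion]
      exact ⟨v, hv, h⟩
  let rH : Finset (Fin n → ℤ) → H := fun A => if h : R A ∈ H then ⟨R A, h⟩ else 1
  have hrH : ∀ A ⊆ S, ((rH A : H) : (Fin n → ℝ) ≃ₜ (Fin n → ℝ)) = R A := by
    intro A hA
    change (((if h : R A ∈ H then ⟨R A, h⟩ else 1 : H)) : (Fin n → ℝ) ≃ₜ (Fin n → ℝ)) = R A
    rw [dif_pos (hRH A hA)]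
  -- one colour
  have hcolour : ∀ κ : Fin n → ZMod 2, ∀ A ⊆ S, (∀ v ∈ A, par v ≠ κ) →
      rH (A ∪ S.filter (fun v => par v = κ)) * (rH A)⁻¹ ∈ V1 := by
    intro κ A hA hAκ
    let Sκ := S.filter (fun v => par v = κ)
    have hSκ : ∀ v, v ∈ Sκ ↔ v ∈ S ∧ par v = κ := fun v => by simp [Sκ]
    obtain ⟨s, hs1, hs2, hs3⟩ := disj_prod Sκ (colU i0 δ) F (by
      intro v hv v' hv' hne
      obtain ⟨h1, h2⟩ := (hSκ v).1 hv
      obtain ⟨h1', h2'⟩ := (hSκ v').1 hv'
      exact colU_disj i0 hδ (hSi0 v h1) (hSi0 v' h1') (h2.trans h2'.symm) hne)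
      (fun v hv => (hF v ((hSκ v).1 hv).1).1)
    have hsH : s ∈ H := hH.pl s (hs1.mono (by
      intro z hz
      simp only [mem_iUnion] at hz
      obtain ⟨v, hv, hz⟩ := hz
      exact hcolT v ((hSκ v).1 hv).1 hz))
    let s' : H := ⟨s, hsH⟩
    have hsV : s' ∈ V := by
      apply hεV
      intro z
      change ‖s z - z‖ ≤ ε
      by_cases hz : z ∈ ⋃ v ∈ Sκ, colU i0 δ v
      · simp only [mem_iUnion] at hz
        obtain ⟨v, hv, hz⟩ := hz
        obtain ⟨hF1, hF2, -⟩ := hF v ((hSκ v).1 hv).1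
        rw [hs2 v hv z hz]
        have h1 := hF1.2.mem hz
        have h2 := norm_le_Pr i0 (F v z - z)
        rw [Pi.sub_apply, hF2, sub_self, abs_zero, zero_add] at h2
        have h3 : Pr i0 (F v z - z) = Pr i0 (F v z - ctr δ v) - Pr i0 (z - ctr δ v) := by
          rw [← map_sub]
          congr 1
          abel
        have h4 := norm_sub_le (Pr i0 (F v z - ctr δ v)) (Pr i0 (z - ctr δ v))
        rw [← h3] at h4
        have h5 := h1.1
        have h6 := hz.1
        linarith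
      · rw [hs3 z hz, sub_self, norm_zero]
        exact hε.le
    -- induction over the columns of this colour
    have hind : ∀ C ⊆ Sκ, s' * (rH (A ∪ C) * (rH A)⁻¹) * s'⁻¹ ∈ V' ^ C.card := by
      intro C
      induction C using Finset.induction_on with
      | empty =>
        intro _
        rw [Finset.union_empty, mul_inv_cancel, mul_one, mul_inv_cancel, Finset.card_empty,
          pow_zero]
        exact Set.mem_one.2 rfl
      | insert v C hv ih =>
        intro hC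
        have hvκ := hC (Finset.mem_insert_self v C)
        have hvS := ((hSκ v).1 hvκ).1
        have hC' : C ⊆ Sκ := fun w hw => hC (Finset.mem_insert_of_mem hw)
        have ih' := ih hC'
        have hvA : v ∉ A ∪ C := by
          rw [Finset.mem_union, not_or]
          exact ⟨fun h => hAκ v h ((hSκ v).1 hvκ).2, hv⟩
        have hAC : A ∪ C ⊆ S := Finset.union_subset hA
          (fun w hw => ((hSκ w).1 (hC' hw)).1)
        have hACv : insert v (A ∪ C) ⊆ S := Finset.insert_subset hvS hAC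
        have hunion : A ∪ insert v C = insert v (A ∪ C) := Finset.union_insert v A C
        rw [hunion, Finset.card_insert_of_notMem hv, pow_succ']
        have h1 : s' * (rH (insert v (A ∪ C)) * (rH A)⁻¹) * s'⁻¹ =
            (s' * (rH (insert v (A ∪ C)) * (rH (A ∪ C))⁻¹) * s'⁻¹) *
            (s' * (rH (A ∪ C) * (rH A)⁻¹) * s'⁻¹) := by group
        rw [h1]
        refine Set.mul_mem_mul ?_ ih'
        apply (hQ v hvS).2.2
        let K : Set (Fin n → ℝ) :=
          {z : Fin n → ℝ | ‖Pr i0 (z - ctr δ v)‖ ≤ 9 / 10 * δ ∧ 0 ≤ z i0 ∧ z i0 ≤ 3}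
        refine ⟨s '' K, ?_, (isCompact_col i0 _ _ _ _).image s.continuous, fun z hz => ?_⟩
        · rintro _ ⟨z, hz, rfl⟩
          rw [hs2 v hvκ z (hKcol v hz)]
          exact (hF v hvS).2.2 z hz.1 hz.2.1 hz.2.2
        · have h2 : s.symm z ∉ K := by
            intro hc
            exact hz ⟨_, hc, s.apply_symm_apply z⟩
          have h3 : R (insert v (A ∪ C)) ((R (A ∪ C)).symm (s.symm z)) = s.symm z :=
            R_step i0 hδ hvA (hRz _) (hRz _) h2
          change s (((rH (insert v (A ∪ C)) : H) : (Fin n → ℝ) ≃ₜ (Fin n → ℝ))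
            (((rH (A ∪ C) : H) : (Fin n → ℝ) ≃ₜ (Fin n → ℝ)).symm (s.symm z))) = z
          rw [hrH _ hACv, hrH _ hAC, h3, s.apply_symm_apply]
    have h1 := hV'V Sκ.card (Finset.card_filter_le _ _) (hind Sκ (Finset.Subset.refl _))
    have h2 := (hVV1 s' hsV _ h1 s' hsV).1
    have h3 : s'⁻¹ * (s' * (rH (A ∪ Sκ) * (rH A)⁻¹) * s'⁻¹) * s' = rH (A ∪ Sκ) * (rH A)⁻¹ := by
      group
    rwa [h3] at h2
  -- all colours
  have hall : ∀ T : Finset (Fin n → ZMod 2), rH (S.filter (fun v => par v ∈ T)) ∈ V1 ^ T.card := by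
    intro T
    induction T using Finset.induction_on with
    | empty =>
      have h1 : S.filter (fun v => par v ∈ (∅ : Finset (Fin n → ZMod 2))) = ∅ := by simp
      rw [h1, Finset.card_empty, pow_zero]
      apply Set.mem_one.2
      apply Subtype.ext
      rw [hrH _ (Finset.empty_subset _)]
      ext1 z
      exact hRfix ∅ z (by simp)
    | insert κ T hκ ih =>
      have h1 : S.filter (fun v => par v ∈ insert κ T) =
          S.filter (fun v => par v ∈ T) ∪ S.filter (fun v => par v = κ) := by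
        ext v
        simp only [Finset.mem_filter, Finset.mem_insert, Finset.mem_union]
        tauto
      rw [Finset.card_insert_of_notMem hκ, pow_succ', h1]
      have h2 := hcolour κ (S.filter (fun v => par v ∈ T)) (Finset.filter_subset _ _) (by
        intro v hv h
        exact hκ (h ▸ (Finset.mem_filter.1 hv).2))
      have h3 := Set.mul_mem_mul h2 ih
      rwa [inv_mul_cancel_right] at h3
  have hfinal : rH S ∈ W := by
    have h1 := hall Finset.univ
    have h2 : S.filter (fun v => par v ∈ (Finset.univ : Finset (Fin n → ZMod 2))) = S := by simp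
    rw [h2] at h1
    exact hV1W _ (by rw [Finset.card_univ]) h1
  refine ⟨rH S, hfinal, fun z h1 h2 h3 => ?_⟩
  rw [hrH S (Finset.Subset.refl _), hRz]
  -- the nearest centre
  let v : Fin n → ℤ := fun j => if j = i0 then 0 else round (z j / δ)
  have hvj : ∀ j, j ≠ i0 → |z j - δ * v j| ≤ δ / 2 := by
    intro j hj
    have h4 : v j = round (z j / δ) := if_neg hj
    have h5 := abs_sub_round (z j / δ)
    rw [h4]
    have h6 : z j - δ * (round (z j / δ) : ℝ) = δ * (z j / δ - round (z j / δ)) := by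
      field_simp
    rw [h6, abs_mul, abs_of_pos hδ]
    nlinarith
  have hvS : v ∈ S := by
    rw [Fintype.mem_piFinset]
    intro j
    by_cases hj : j = i0
    · rw [if_pos hj, Finset.mem_singleton]
      exact if_pos hj
    · rw [if_neg hj, Finset.mem_Icc]
      have h4 := hvj j hj
      have h5 : |z j| < 1 := (abs_le_norm_Pr z hj).trans_lt h3
      have h6 : |δ * (v j : ℝ)| ≤ 1 + δ / 2 := by
        have h7 : δ * (v j : ℝ) = z j - (z j - δ * v j) := by ring
        rw [h7]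
        have h8 := abs_sub (z j) (z j - δ * v j)
        linarith
      have h7 : |(v j : ℝ)| ≤ M := by
        rw [abs_mul, abs_of_pos hδ] at h6
        have h8 : |(v j : ℝ)| ≤ (1 + δ / 2) / δ := by
          rw [le_div_iff₀ hδ, mul_comm]
          exact h6
        have h9 : (1 + δ / 2) / δ = 1 / δ + 1 / 2 := by
          field_simp
        linarith
      rw [abs_le] at h7
      constructor
      · exact_mod_cast h7.1
      · exact_mod_cast h7.2
  have hPr : ‖Pr i0 (z - ctr δ v)‖ ≤ δ / 2 := by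
    rw [norm_Pr_le (by positivity)]
    intro j hj
    rw [Pi.sub_apply]
    exact hvj j hj
  have hroof : 1 ≤ roof i0 δ S z := by
    unfold roof
    rw [Finset.le_fold_max]
    right
    refine ⟨v, hvS, ?_⟩
    unfold tent
    have h4 : ‖Pr i0 (z - ctr δ v)‖ / (9 / 10 * δ) ≤ 5 / 9 := by
      rw [div_le_iff₀ (by positivity)]
      linarith
    have h5 := le_max_right 0 (1 - ‖Pr i0 (z - ctr δ v)‖ / (9 / 10 * δ))
    linarith
  have hbb : 9 / 20 < bb (z i0) ∧ bb (z i0) ≤ 1 := by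
    unfold bb
    rw [min_eq_left (by linarith : z i0 ≤ 3 - z i0), max_eq_right (by linarith)]
    constructor <;> linarith
  have hmu : 9 / 20 < mu i0 δ S z := by
    unfold mu
    rw [min_eq_right (by linarith)]
    exact hbb.1
  rw [Pi.add_apply, Pi.smul_apply, ee_same, smul_eq_mul, mul_one]
  linarith

end Pool.Agent.Run7.h754
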