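import Mathlib
import Pool.Agent.Run7.h754.Defs

/-!
# Piecewise linear manifolds and their groups of piecewise linear homeomorphisms: definitions
-/

open Set Filter Topology

namespace Pool.Agent.Run7.h754

variable {E F G : Type*} [NormedAddCommGroup E] [NormedSpace ℝ E] [NormedAddCommGroup F]
  [NormedSpace ℝ F] [NormedAddCommGroup G] [NormedSpace ℝ G]

/-- Near `x`, the map `f` agrees at each point with one of finitely many affine maps. -/
def PLAt (f : E → F) (x : E) : Prop :=
  ∃ S : Set (E →ᵃ[ℝ] F), S.Finite ∧ ∀ᶠ y in 𝓝 x, ∃ A ∈ S, f y = A y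

/-- The map `f` is piecewise linear on the (open) set `s`: it is continuous on `s`, and near each
point of `s` it agrees at each point with one of finitely many affine maps. -/
def PLOn (f : E → F) (s : Set E) : Prop :=
  ContinuousOn f s ∧ ∀ x ∈ s, PLAt f x

theorem PLAt.comp {g : F → G} {f : E → F} {x : E} (hg : PLAt g (f x)) (hf : PLAt f x)
    (hfc : ContinuousAt f x) : PLAt (fun y => g (f y)) x := by
  obtain ⟨S, hS, hgS⟩ := hg
  obtain ⟨T, hT, hfT⟩ := hf
  refine ⟨image2 (fun A B => AffineMap.comp A B) S T, hS.image2 _ hT, ?_⟩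
  filter_upwards [hfT, hfc.eventually hgS] with y ⟨B, hB, hfB⟩ ⟨A, hA, hgA⟩
  exact ⟨A.comp B, ⟨A, hA, B, hB, rfl⟩, by change g (f y) = A (B y); rw [hgA, hfB]⟩

theorem PLAt.congr {f g : E → F} {x : E} (hf : PLAt f x) (h : g =ᶠ[𝓝 x] f) : PLAt g x := by
  obtain ⟨S, hS, hfS⟩ := hf
  refine ⟨S, hS, ?_⟩
  filter_upwards [hfS, h] with y ⟨A, hA, hfA⟩ hy
  exact ⟨A, hA, hy.trans hfA⟩

theorem PLAt.id (x : E) : PLAt (fun y : E => y) x :=
  ⟨{AffineMap.id ℝ E}, finite_singleton _, Eventually.of_forall fun _ => ⟨_, rfl, rfl⟩⟩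

/-- The pregroupoid of piecewise linear maps between open subsets of `E`. -/
def plPregroupoid (E : Type*) [NormedAddCommGroup E] [NormedSpace ℝ E] : Pregroupoid E where
  property f s := PLOn f s
  comp {f g u v} hf hg hu _ _ := by
    refine ⟨hg.1.comp (hf.1.mono inter_subset_left) (fun x hx => hx.2), fun x hx => ?_⟩
    exact PLAt.comp (g := g) (f := f) (hg.2 _ hx.2) (hf.2 _ hx.1)
      (hf.1.continuousAt (hu.mem_nhds hx.1))
  id_mem := ⟨continuousOn_id, fun x _ => PLAt.id x⟩
  locality {f u} hu h := by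
    constructor
    · intro x hx
      obtain ⟨v, hv, hxv, hf⟩ := h x hx
      exact (hf.1.continuousAt ((hu.inter hv).mem_nhds ⟨hx, hxv⟩)).continuousWithinAt
    · intro x hx
      obtain ⟨v, hv, hxv, hf⟩ := h x hx
      exact hf.2 x ⟨hx, hxv⟩
  congr {f g u} hu h hf := by
    refine ⟨hf.1.congr h, fun x hx => (hf.2 x hx).congr ?_⟩
    filter_upwards [hu.mem_nhds hx] with y hy
    exact h y hy

/-- The groupoid of piecewise linear homeomorphisms between open subsets of `E`. A manifold whose
charts have their transition maps in this groupoid is a piecewise linear manifold. -/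
def plGroupoid (E : Type*) [NormedAddCommGroup E] [NormedSpace ℝ E] : StructureGroupoid E :=
  (plPregroupoid E).groupoid

/-- The group `PL(M)` of piecewise linear homeomorphisms of the piecewise linear manifold `M`
onto itself: those homeomorphisms which are piecewise linear in all charts of the atlas. -/
def PLHomeo (E : Type*) [NormedAddCommGroup E] [NormedSpace ℝ E] (M : Type*) [TopologicalSpace M]
    [ChartedSpace E M] [HasGroupoid M (plGroupoid E)] : Subgroup (M ≃ₜ M) where
  carrier := {f | ∃ e : Structomorph (plGroupoid E) M M, e.toHomeomorph = f}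
  one_mem' := ⟨Structomorph.refl M, rfl⟩
  mul_mem' := by
    rintro _ _ ⟨e, rfl⟩ ⟨e', rfl⟩
    exact ⟨e'.trans e, rfl⟩
  inv_mem' := by
    rintro _ ⟨e, rfl⟩
    exact ⟨e.symm, rfl⟩

/-- The group `G` of homeomorphisms of the piecewise linear manifold `M` contains all piecewise
linear homeomorphisms of `M` which are the identity outside a compact subset of the domain of a
chart of the atlas. -/
def ContainsPL (E : Type*) [NormedAddCommGroup E] [NormedSpace ℝ E] {M : Type*}
    [TopologicalSpace M] [ChartedSpace E M] [HasGroupoid M (plGroupoid E)]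
    (G : Subgroup (M ≃ₜ M)) : Prop :=
  ∀ f ∈ PLHomeo E M, ∀ φ ∈ atlas E M, SuppIn f φ.source → f ∈ G

end Pool.Agent.Run7.h754
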