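import Mathlib
import Pool.Agent.Run7.h754.PLDefs
import Pool.Agent.Run7.h754.PLf
import Pool.Agent.Run7.h754.Man

/-!
# Extensions by the identity of piecewise linear homeomorphisms supported in a chart
-/

open Set Filter Topology
open scoped Manifold

namespace Pool.Agent.Run7.h754

section
variable {E F : Type*} [NormedAddCommGroup E] [NormedSpace ℝ E] [NormedAddCommGroup F]
  [NormedSpace ℝ F]

theorem PLf.plAt {f : E → F} (hf : PLf f) (x : E) : PLAt f x := by
  obtain ⟨_, S, hS, h⟩ := hf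
  exact ⟨S, hS, Eventually.of_forall h⟩
end

variable {E : Type*} [NormedAddCommGroup E] [NormedSpace ℝ E]
  {M : Type*} [TopologicalSpace M] [ChartedSpace E M] [HasGroupoid M (plGroupoid E)]

theorem plAt_transition {φ c : OpenPartialHomeomorph M E} (hφ : φ ∈ atlas E M) (hc : c ∈ atlas E M)
    {y : E} (hy : y ∈ φ.target) (hy' : φ.symm y ∈ c.source) :
    PLAt (fun z => c (φ.symm z)) y := by
  have h1 : φ.symm ≫ₕ c ∈ plGroupoid E := (plGroupoid E).compatible hφ hc
  have h2 := (mem_groupoid_of_pregroupoid.1 h1).1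
  exact h2.2 y (by
    rw [OpenPartialHomeomorph.trans_source]
    exact ⟨hy, hy'⟩)

theorem plOn_ext [T2Space M] {φ : OpenPartialHomeomorph M E} (hφ : φ ∈ atlas E M) {F : E ≃ₜ E}
    {B : Set E} (hB : IsCompact B) (hBt : B ⊆ φ.target) (hF : ∀ z, z ∉ B → F z = z)
    (hFp : PLf (F : E → E)) {f : M ≃ₜ M} (hf : ∀ m, f m = ext φ F m)
    {c c' : OpenPartialHomeomorph M E} (hc : c ∈ atlas E M) (hc' : c' ∈ atlas E M) :
    PLOn (fun y => c' (f (c.symm y))) {y | y ∈ c.target ∧ f (c.symm y) ∈ c'.source} := by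
  have hcont : ∀ y, y ∈ c.target → f (c.symm y) ∈ c'.source →
      ContinuousAt (fun y => c' (f (c.symm y))) y := fun y hy hy' =>
    ContinuousAt.comp (f := fun y => f (c.symm y)) (c'.continuousAt hy')
      (ContinuousAt.comp (f := fun y => c.symm y) f.continuous.continuousAt
        (c.symm.continuousAt hy))
  refine ⟨fun y hy => (hcont y hy.1 hy.2).continuousWithinAt, fun y hy => ?_⟩
  obtain ⟨hy, hy'⟩ := hy
  have hFt := (maps_of_fix hBt hF).1
  by_cases h : c.symm y ∈ φ.source
  · have h1 : PLAt (fun z => φ (c.symm z)) y := plAt_transition hc hφ hy h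
    have h1c : ContinuousAt (fun z => φ (c.symm z)) y :=
      ContinuousAt.comp (f := fun y => c.symm y) (φ.continuousAt h) (c.symm.continuousAt hy)
    have h2 : PLAt (fun z => F (φ (c.symm z))) y :=
      PLAt.comp (g := F) (f := fun z => φ (c.symm z)) (hFp.plAt _) h1 h1c
    have h2c : ContinuousAt (fun z => F (φ (c.symm z))) y :=
      ContinuousAt.comp (f := fun z => φ (c.symm z)) F.continuous.continuousAt h1c
    have h3 : φ.symm (F (φ (c.symm y))) ∈ c'.source := by
      rw [← ext_of_mem h, ← hf]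
      exact hy'
    have h4 : PLAt (fun z => c' (φ.symm z)) (F (φ (c.symm y))) :=
      plAt_transition hφ hc' (hFt _ (φ.map_source h)) h3
    have h5 : PLAt (fun z => c' (φ.symm (F (φ (c.symm z))))) y :=
      PLAt.comp (g := fun z => c' (φ.symm z)) (f := fun z => F (φ (c.symm z))) h4 h2 h2c
    refine h5.congr ?_
    have h6 : ∀ᶠ z in 𝓝 y, c.symm z ∈ φ.source :=
      (c.symm.continuousAt hy).eventually (φ.open_source.mem_nhds h)
    filter_upwards [h6] with z hz
    rw [hf, ext_of_mem hz]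
  · have hK : IsCompact (φ.symm '' B) := hB.image_of_continuousOn
      (φ.symm.continuousOn.mono hBt)
    have h1 : c.symm y ∉ φ.symm '' B := by
      rintro ⟨z, hz, hz'⟩
      rw [← hz'] at h
      exact h (φ.map_target (hBt hz))
    have h2 : f (c.symm y) = c.symm y := by
      rw [hf]
      exact ext_fix hF h1
    rw [h2] at hy'
    have h3 : PLAt (fun z => c' (c.symm z)) y := plAt_transition hc hc' hy hy'
    refine h3.congr ?_
    have h4 : ∀ᶠ z in 𝓝 y, c.symm z ∈ (φ.symm '' B)ᶜ :=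
      (c.symm.continuousAt hy).eventually (hK.isClosed.isOpen_compl.mem_nhds h1)
    filter_upwards [h4] with z hz
    rw [hf, ext_fix hF hz]

omit [NormedSpace ℝ E] [ChartedSpace E M] [HasGroupoid M (plGroupoid E)] in
theorem exists_extHomeo [NormedSpace ℝ E] [T2Space M] {φ : OpenPartialHomeomorph M E} (F : E ≃ₜ E)
    {B : Set E} (hB : IsCompact B) (hBt : B ⊆ φ.target) (hF : ∀ z, z ∉ B → F z = z) :
    ∃ f : M ≃ₜ M, (∀ m, f m = ext φ F m) ∧ (∀ m, f.symm m = ext φ F.symm m) := by
  obtain ⟨h1, h2, h3⟩ := maps_of_fix hBt hF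
  have key : ∀ (F : E ≃ₜ E), (∀ z, z ∉ B → F z = z) → (∀ z ∈ φ.target, F z ∈ φ.target) →
      Continuous (ext φ F) := by
    intro F hF hFt
    have h4 := ext_joint (Λ := Unit) (φ := φ) (F := fun _ => F)
      (F.continuous.comp continuous_snd) hB hBt (fun _ => hF) (fun _ => hFt)
    exact h4.comp (Continuous.prodMk_right ())
  refine ⟨⟨⟨ext φ F, ext φ F.symm, fun m => ?_, fun m => ?_⟩, key F hF h1, key F.symm h2 h3⟩,
    fun m => rfl, fun m => rfl⟩
  · rw [ext_comp h1]
    exact ext_id (fun z => F.symm_apply_apply z) m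
  · rw [ext_comp h3]
    exact ext_id (fun z => F.apply_symm_apply z) m

/-- The extension of a piecewise linear homeomorphism supported in a chart is in `PL(M)`. -/
theorem ext_mem_PLHomeo [FiniteDimensional ℝ E] [T2Space M] {φ : OpenPartialHomeomorph M E}
    (hφ : φ ∈ atlas E M) {F : E ≃ₜ E}
    {B : Set E} (hB : IsCompact B) (hBt : B ⊆ φ.target) (hF : ∀ z, z ∉ B → F z = z)
    (hFp : PLf (F : E → E)) {f : M ≃ₜ M} (hf : ∀ m, f m = ext φ F m)
    (hf' : ∀ m, f.symm m = ext φ F.symm m) : f ∈ PLHomeo E M := by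
  obtain ⟨h1, h2, h3⟩ := maps_of_fix hBt hF
  refine ⟨⟨f, fun c c' hc hc' => ?_⟩, rfl⟩
  refine mem_groupoid_of_pregroupoid.2 ⟨?_, ?_⟩
  · have h4 := plOn_ext hφ hB hBt hF hFp hf hc hc'
    have h5 : (c.symm ≫ₕ f.toOpenPartialHomeomorph ≫ₕ c').source =
        {y | y ∈ c.target ∧ f (c.symm y) ∈ c'.source} := by
      ext y
      simp [OpenPartialHomeomorph.trans_source]
    rw [h5]
    exact h4
  · have h4 := plOn_ext (f := f.symm) hφ hB hBt h2 (PLf.symm F hFp) hf' hc' hc
    have h5 : (c.symm ≫ₕ f.toOpenPartialHomeomorph ≫ₕ c').target =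
        {y | y ∈ c'.target ∧ f.symm (c'.symm y) ∈ c.source} := by
      ext y
      simp [OpenPartialHomeomorph.trans_target]
    rw [h5]
    exact h4

end Pool.Agent.Run7.h754
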