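import Mathlib
import Pool.Agent.Run7.h754.Arc2
import Pool.Agent.Run7.h754.PLMan

/-!
# Reduction of the manifold case to the Euclidean context
-/

open Set Filter Topology
open scoped Pointwise

namespace Pool.Agent.Run7.h754

variable {n : ℕ} {M : Type*} [TopologicalSpace M]

open Classical in
/-- Transport of a homeomorphism of `M` supported in a chart to the model space. -/
theorem exists_transport [T2Space M] {ψ : OpenPartialHomeomorph M (Fin n → ℝ)} (g : M ≃ₜ M)
    {O : Set (Fin n → ℝ)} (hO : O ⊆ ψ.target) (hg : SuppIn g (ψ.symm '' O)) :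
    ∃ F : (Fin n → ℝ) ≃ₜ (Fin n → ℝ), SuppIn F O ∧ (∀ m, g m = ext ψ F m) := by
  obtain ⟨K, hK, hKc, hgK⟩ := hg
  have hKs : K ⊆ ψ.source := by
    intro m hm
    obtain ⟨z, hz, rfl⟩ := hK hm
    exact ψ.map_target (hO hz)
  let B : Set (Fin n → ℝ) := ψ '' K
  have hBc : IsCompact B := hKc.image_of_continuousOn (ψ.continuousOn.mono hKs)
  have hBO : B ⊆ O := by
    rintro _ ⟨m, hm, rfl⟩
    obtain ⟨z, hz, rfl⟩ := hK hm
    rw [ψ.right_inv (hO hz)]
    exact hz
  have key : ∀ g : M ≃ₜ M, (∀ m, m ∉ K → g m = m) →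
      (∀ m ∈ ψ.source, g m ∈ ψ.source) ∧
      Continuous (fun z => if z ∈ ψ.target then ψ (g (ψ.symm z)) else z) := by
    intro g hgK
    have hs : ∀ m ∈ ψ.source, g m ∈ ψ.source := by
      intro m hm
      by_contra hc
      have h1 : g m ∉ K := fun h => hc (hKs h)
      have h2 := g.injective (hgK _ h1)
      rw [h2] at hc
      exact hc hm
    refine ⟨hs, ?_⟩
    rw [continuous_iff_continuousAt]
    intro z
    by_cases hz : z ∈ ψ.target
    · have h1 : ContinuousAt (fun z => ψ (g (ψ.symm z))) z :=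
        ContinuousAt.comp (f := fun z => g (ψ.symm z))
          (ψ.continuousAt (hs _ (ψ.map_target hz)))
          (ContinuousAt.comp (f := fun z => ψ.symm z) g.continuous.continuousAt
            (ψ.symm.continuousAt hz))
      refine h1.congr_of_eventuallyEq ?_
      filter_upwards [ψ.open_target.mem_nhds hz] with w hw
      exact if_pos hw
    · have h1 : z ∉ B := fun h => hz (hO (hBO h))
      refine continuousAt_id.congr_of_eventuallyEq ?_
      filter_upwards [hBc.isClosed.isOpen_compl.mem_nhds h1] with w hw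
      by_cases hwt : w ∈ ψ.target
      · rw [if_pos hwt, hgK, ψ.right_inv hwt]
        · rfl
        · intro hc
          exact hw ⟨_, hc, ψ.right_inv hwt⟩
      · rw [if_neg hwt]
        rfl
  have hgK' : ∀ m, m ∉ K → g.symm m = m := by
    intro m hm
    rw [Homeomorph.symm_apply_eq]
    exact (hgK m hm).symm
  obtain ⟨h1, h2⟩ := key g hgK
  obtain ⟨h3, h4⟩ := key g.symm hgK'
  let F : (Fin n → ℝ) ≃ₜ (Fin n → ℝ) :=
    { toFun := fun z => if z ∈ ψ.target then ψ (g (ψ.symm z)) else z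
      invFun := fun z => if z ∈ ψ.target then ψ (g.symm (ψ.symm z)) else z
      left_inv := by
        intro z
        by_cases hz : z ∈ ψ.target
        · have h5 : ψ (g (ψ.symm z)) ∈ ψ.target := ψ.map_source (h1 _ (ψ.map_target hz))
          simp only [if_pos hz, if_pos h5]
          rw [ψ.left_inv (h1 _ (ψ.map_target hz)), g.symm_apply_apply, ψ.right_inv hz]
        · simp only [if_neg hz]
      right_inv := by
        intro z
        by_cases hz : z ∈ ψ.target
        · have h5 : ψ (g.symm (ψ.symm z)) ∈ ψ.target := ψ.map_source (h3 _ (ψ.map_target hz))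
          simp only [if_pos hz, if_pos h5]
          rw [ψ.left_inv (h3 _ (ψ.map_target hz)), g.apply_symm_apply, ψ.right_inv hz]
        · simp only [if_neg hz]
      continuous_toFun := h2
      continuous_invFun := h4 }
  have hFz : ∀ z, F z = if z ∈ ψ.target then ψ (g (ψ.symm z)) else z := fun z => rfl
  refine ⟨F, ⟨B, hBO, hBc, fun z hz => ?_⟩, fun m => ?_⟩
  · rw [hFz]
    by_cases hzt : z ∈ ψ.target
    · rw [if_pos hzt, hgK, ψ.right_inv hzt]
      intro hc
      exact hz ⟨_, hc, ψ.right_inv hzt⟩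
    · rw [if_neg hzt]
  · by_cases hm : m ∈ ψ.source
    · rw [ext_of_mem hm, hFz, if_pos (ψ.map_source hm), ψ.left_inv hm, ψ.left_inv (h1 m hm)]
    · rw [ext_of_notMem hm]
      exact hgK m (fun h => hm (hKs h))

/-- The homeomorphisms of the model space supported in the ball of radius `100` whose extension
belongs to `G`. -/
def HG (ψ : OpenPartialHomeomorph M (Fin n → ℝ)) (hψ : Metric.closedBall 0 100 ⊆ ψ.target)
    (G : Subgroup (M ≃ₜ M)) : Subgroup ((Fin n → ℝ) ≃ₜ (Fin n → ℝ)) where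
  carrier := {F | SuppIn F (Metric.ball 0 100) ∧ ∃ g ∈ G, ∀ m, g m = ext ψ F m}
  one_mem' := ⟨SuppIn.one _, 1, G.one_mem, fun m => (ext_id (fun z => rfl) m).symm⟩
  mul_mem' := by
    rintro F F' ⟨h1, g, hg, hgF⟩ ⟨h1', g', hg', hgF'⟩
    refine ⟨h1.mul h1', g * g', G.mul_mem hg hg', fun m => ?_⟩
    change g (g' m) = ext ψ (F * F' : (Fin n → ℝ) ≃ₜ (Fin n → ℝ)) m
    rw [hgF, hgF', ext_comp]
    · rfl
    · intro z hz
      by_cases h : z ∈ Metric.ball (0 : Fin n → ℝ) 100
      · exact hψ (Metric.ball_subset_closedBall (h1'.mem h))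
      · rw [h1'.fix h]
        exact hz
  inv_mem' := by
    rintro F ⟨h1, g, hg, hgF⟩
    refine ⟨h1.inv, g⁻¹, G.inv_mem hg, fun m => ?_⟩
    change g.symm m = ext ψ F.symm m
    rw [Homeomorph.symm_apply_eq, hgF, ext_comp]
    · exact (ext_id (fun z => F.apply_symm_apply z) m).symm
    · intro z hz
      by_cases h : z ∈ Metric.ball (0 : Fin n → ℝ) 100
      · exact hψ (Metric.ball_subset_closedBall (h1.inv.mem h))
      · have := h1.inv.fix h
        change F.symm z = z at this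
        rw [this]
        exact hz

/-- The extension homomorphism. -/
noncomputable def iota (ψ : OpenPartialHomeomorph M (Fin n → ℝ))
    (hψ : Metric.closedBall 0 100 ⊆ ψ.target) (G : Subgroup (M ≃ₜ M)) : HG ψ hψ G →* G where
  toFun F := ⟨Classical.choose F.2.2, (Classical.choose_spec F.2.2).1⟩
  map_one' := by
    apply Subtype.ext
    ext m
    change (Classical.choose ((1 : HG ψ hψ G)).2.2 : M ≃ₜ M) m = m
    rw [(Classical.choose_spec ((1 : HG ψ hψ G)).2.2).2]
    exact ext_id (fun z => rfl) m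
  map_mul' := by
    intro F F'
    apply Subtype.ext
    ext m
    change (Classical.choose (F * F').2.2 : M ≃ₜ M) m =
      (Classical.choose F.2.2 : M ≃ₜ M) ((Classical.choose F'.2.2 : M ≃ₜ M) m)
    rw [(Classical.choose_spec (F * F').2.2).2, (Classical.choose_spec F.2.2).2,
      (Classical.choose_spec F'.2.2).2, ext_comp]
    · rfl
    · intro z hz
      by_cases h : z ∈ Metric.ball (0 : Fin n → ℝ) 100
      · exact hψ (Metric.ball_subset_closedBall (F'.2.1.mem h))
      · rw [F'.2.1.fix h]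
        exact hz

theorem iota_apply (ψ : OpenPartialHomeomorph M (Fin n → ℝ))
    (hψ : Metric.closedBall 0 100 ⊆ ψ.target) (G : Subgroup (M ≃ₜ M)) (F : HG ψ hψ G) (m : M) :
    ((iota ψ hψ G F : G) : M ≃ₜ M) m = ext ψ (F : (Fin n → ℝ) ≃ₜ (Fin n → ℝ)) m :=
  (Classical.choose_spec F.2.2).2 m

theorem co_small {H : Subgroup ((Fin n → ℝ) ≃ₜ (Fin n → ℝ))} {W : Set H}
    (hW : W ∈ @nhds H (coTop H) 1) : ∃ ε > 0, ∀ F : H,
      (∀ z, ‖(F : (Fin n → ℝ) ≃ₜ (Fin n → ℝ)) z - z‖ ≤ ε) → F ∈ W := by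
  rw [coTop, nhds_induced] at hW
  obtain ⟨V, hV, hVW⟩ := hW
  rw [UniformSpace.mem_nhds_iff] at hV
  obtain ⟨N, hN, hNV⟩ := hV
  rw [ContinuousMap.mem_compactConvergence_entourage_iff] at hN
  obtain ⟨K, U, -, hU, hKU⟩ := hN
  obtain ⟨ε, hε, hεU⟩ := Metric.mem_uniformity_dist.1 hU
  refine ⟨ε / 2, by positivity, fun F hF => hVW (hNV (hKU ?_))⟩
  intro z _
  apply hεU
  change dist z ((F : (Fin n → ℝ) ≃ₜ (Fin n → ℝ)) z) < ε
  rw [dist_comm, dist_eq_norm]
  have := hF z
  linarith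

theorem red_ctx [T2Space M] (ψ : OpenPartialHomeomorph M (Fin n → ℝ))
    (hψ : Metric.closedBall 0 100 ⊆ ψ.target) (G : Subgroup (M ≃ₜ M))
    (hPL : ∀ F : (Fin n → ℝ) ≃ₜ (Fin n → ℝ), PLs F (Metric.ball 0 100) →
      ∀ g : M ≃ₜ M, (∀ m, g m = ext ψ F m) → g ∈ G)
    [τ : TopologicalSpace G] [IsTopologicalGroup G] (hle : coTop G ≤ τ) (hT : LocT G) :
    @Ctx n (HG ψ hψ G) (TopologicalSpace.induced (iota ψ hψ G) τ) := by
  let _ : TopologicalSpace (HG ψ hψ G) := TopologicalSpace.induced (iota ψ hψ G) τ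
  have hBT : Metric.ball (0 : Fin n → ℝ) 100 ⊆ ψ.target :=
    Metric.ball_subset_closedBall.trans hψ
  refine ⟨?_, fun F hF => hF.1, ?_, ?_⟩
  · intro F hF
    obtain ⟨K, hK, hKc, hFK⟩ := hF.2
    obtain ⟨g, hg, -⟩ := exists_extHomeo (φ := ψ) F hKc (hK.trans hBT) hFK
    exact ⟨hF.2, g, hPL F hF g hg, hg⟩
  · -- small homeomorphisms are small
    intro W hW
    apply co_small
    have hmono : coTop (HG ψ hψ G) ≤ TopologicalSpace.induced (iota ψ hψ G) τ := by
      refine le_trans ?_ (induced_mono hle)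
      rw [← continuous_iff_le_induced]
      let _ : TopologicalSpace (HG ψ hψ G) := coTop (HG ψ hψ G)
      let _ : TopologicalSpace G := coTop G
      rw [continuous_induced_rng]
      -- joint continuity
      have h1 : Continuous (fun p : HG ψ hψ G × (Fin n → ℝ) =>
          (p.1 : (Fin n → ℝ) ≃ₜ (Fin n → ℝ)) p.2) := by
        have h2 : Continuous (fun g : HG ψ hψ G =>
            (⟨(g : (Fin n → ℝ) ≃ₜ (Fin n → ℝ)), (g : (Fin n → ℝ) ≃ₜ (Fin n → ℝ)).continuous⟩ :
              C(Fin n → ℝ, Fin n → ℝ))) := continuous_induced_dom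
        exact continuous_eval.comp (h2.prodMap continuous_id)
      have h3 := ext_joint (Λ := HG ψ hψ G) (φ := ψ)
        (F := fun F => ((F : (Fin n → ℝ) ≃ₜ (Fin n → ℝ)) : (Fin n → ℝ) → (Fin n → ℝ)))
        h1 (isCompact_closedBall 0 100) hψ (by
          intro F z hz
          exact F.2.1.fix (fun h => hz (Metric.ball_subset_closedBall h))) (by
          intro F z hz
          by_cases h : z ∈ Metric.ball (0 : Fin n → ℝ) 100
          · exact hBT (F.2.1.mem h)
          · rw [F.2.1.fix h]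
            exact hz)
      let Φ : C(HG ψ hψ G, C(M, M)) := ContinuousMap.curry ⟨_, h3⟩
      have h4 : ((fun g : G => (⟨(g : M ≃ₜ M), (g : M ≃ₜ M).continuous⟩ : C(M, M))) ∘
          (iota ψ hψ G)) = Φ := by
        ext F m
        exact iota_apply ψ hψ G F m
      rw [h4]
      exact Φ.continuous
    exact nhds_mono hmono hW
  · -- local transitivity
    intro W hW O hOT hO hOc x hx y hy
    rw [nhds_induced, map_one] at hW
    obtain ⟨V, hV, hVW⟩ := hW
    have hOt : O ⊆ ψ.target := hOT.trans hBT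
    have hO' : IsOpen (ψ.symm '' O) := ψ.symm.isOpen_image_of_subset_source hO hOt
    have hOc' : IsPreconnected (ψ.symm '' O) :=
      hOc.image _ (ψ.symm.continuousOn.mono hOt)
    obtain ⟨g, hgV, hg, hgx⟩ := hT V hV (ψ.symm '' O) hO' hOc' (ψ.symm x) ⟨x, hx, rfl⟩
      (ψ.symm y) ⟨y, hy, rfl⟩
    obtain ⟨F, hF, hFg⟩ := exists_transport (g : M ≃ₜ M) hOt hg
    have hFH : F ∈ HG ψ hψ G := ⟨hF.mono hOT, g, g.2, hFg⟩
    have hi : iota ψ hψ G ⟨F, hFH⟩ = g := by
      apply Subtype.ext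
      ext m
      rw [iota_apply, hFg]
    refine ⟨⟨F, hFH⟩, hVW ?_, hF, ?_⟩
    · change iota ψ hψ G ⟨F, hFH⟩ ∈ V
      rw [hi]
      exact hgV
    · change F x = y
      have h1 := hFg (ψ.symm x)
      rw [hgx, ext_of_mem (ψ.map_target (hOt hx)), ψ.right_inv (hOt hx)] at h1
      have h2 : F x ∈ O := hF.mem hx
      have h3 := congrArg ψ h1
      rw [ψ.right_inv (hOt hy), ψ.right_inv (hOt h2)] at h3
      exact h3.symm

/-- If segments are small in the Euclidean context, the topology is not strictly coarser. -/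
theorem contra_of_seg [T2Space M] (ψ : OpenPartialHomeomorph M (Fin n → ℝ))
    (hψ : Metric.closedBall 0 100 ⊆ ψ.target) (G : Subgroup (M ≃ₜ M))
    (hPL : ∀ F : (Fin n → ℝ) ≃ₜ (Fin n → ℝ), PLs F (Metric.ball 0 100) →
      ∀ g : M ≃ₜ M, (∀ m, g m = ext ψ F m) → g ∈ G)
    [τ : TopologicalSpace G] [IsTopologicalGroup G] [T2Space G] (hle : coTop G ≤ τ)
    (hG : LocTrans G) (hperf : ∀ x : M, (𝓝[≠] x).NeBot) (hT : LocT G) (i0 : Fin n)
    (hseg : ∀ (H : Subgroup ((Fin n → ℝ) ≃ₜ (Fin n → ℝ))) [TopologicalSpace H]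
      [IsTopologicalGroup H], Ctx H → SegSmall H i0) : False := by
  let _ : TopologicalSpace (HG ψ hψ G) := TopologicalSpace.induced (iota ψ hψ G) τ
  have htg : IsTopologicalGroup (HG ψ hψ G) := topologicalGroup_induced (iota ψ hψ G)
  have hctx : Ctx (HG ψ hψ G) := red_ctx ψ hψ G hPL hle hT
  let B : Set (Fin n → ℝ) := {z | 9 / 10 < z i0 ∧ z i0 < 11 / 10 ∧ ‖Pr i0 z‖ < 1}
  have hBo : IsOpen B := (isOpen_lt continuous_const (continuous_apply i0)).inter
    ((isOpen_lt (continuous_apply i0) continuous_const).inter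
      (isOpen_lt (Pr i0).continuous.norm continuous_const))
  have hBT : B ⊆ Metric.closedBall 0 100 := by
    rintro z ⟨h1, h2, h3⟩
    rw [mem_closedBall_zero_iff]
    have h4 := norm_le_Pr i0 z
    rw [abs_of_pos (by linarith)] at h4
    linarith
  have hBt := hBT.trans hψ
  have hBne : ee i0 ∈ B := by
    refine ⟨?_, ?_, ?_⟩
    · rw [ee_same]; norm_num
    · rw [ee_same]; norm_num
    · have h1 := Pr_single (i0 := i0) 1
      rw [one_smul] at h1
      rw [h1, norm_zero]
      exact one_pos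
  obtain ⟨W, hW, hWz⟩ := zariski hG hperf (ψ.symm.isOpen_image_of_subset_source hBo hBt)
    ⟨_, _, hBne, rfl⟩
  have hW' : iota ψ hψ G ⁻¹' W ∈ 𝓝 (1 : HG ψ hψ G) := by
    rw [nhds_induced, map_one]
    exact preimage_mem_comap hW
  obtain ⟨F, hFW, hF⟩ := arc_thm hctx i0 (hseg _ hctx) hW'
  obtain ⟨p, ⟨_, ⟨z, hz, rfl⟩, hp1⟩, ⟨w, hw, hp2⟩⟩ := hWz _ hFW
  rw [iota_apply, ext_of_mem (ψ.map_target (hBt hz)), ψ.right_inv (hBt hz), ← hp2] at hp1
  have hFt : (F : (Fin n → ℝ) ≃ₜ (Fin n → ℝ)) z ∈ ψ.target := by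
    by_cases h : z ∈ Metric.ball (0 : Fin n → ℝ) 100
    · exact hψ (Metric.ball_subset_closedBall (F.2.1.mem h))
    · rw [F.2.1.fix h]
      exact hBt hz
  have h1 := congrArg ψ hp1
  rw [ψ.right_inv hFt, ψ.right_inv (hBt hw)] at h1
  have h2 := hF z hz.1 hz.2.1 hz.2.2
  rw [h1] at h2
  exact absurd hw.2.1 (by linarith)

end Pool.Agent.Run7.h754
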