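import Mathlib
import Pool.Agent.Run7.h754.Red

/-!
# Local transitivity of groups containing the piecewise linear homeomorphisms supported in charts,
and the final assembly
-/

open Set Filter Topology
open scoped Pointwise

namespace Pool.Agent.Run7.h754

variable {n : ℕ} {M : Type*} [TopologicalSpace M] [ChartedSpace (Fin n → ℝ) M]

/-- The group `G` contains the extensions by the identity of all piecewise linear homeomorphisms
supported in the target of a chart. -/
def LocPL (G : Subgroup (M ≃ₜ M)) : Prop :=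
  ∀ φ ∈ atlas (Fin n → ℝ) M, ∀ F : (Fin n → ℝ) ≃ₜ (Fin n → ℝ), PLs F φ.target →
    ∀ g : M ≃ₜ M, (∀ m, g m = ext φ F m) → g ∈ G

theorem locTransPL [T2Space M] {G : Subgroup (M ≃ₜ M)} (hG : LocPL (n := n) G) : LocTrans G := by
  intro x U hU V hV
  let φ : OpenPartialHomeomorph M (Fin n → ℝ) := chartAt (Fin n → ℝ) x
  have hφ : φ ∈ atlas (Fin n → ℝ) M := chart_mem_atlas (Fin n → ℝ) x
  have hx : x ∈ φ.source := mem_chart_source (Fin n → ℝ) x
  let S : Set (Fin n → ℝ) := φ.target ∩ φ.symm ⁻¹' (interior U)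
  have hS : IsOpen S := φ.isOpen_inter_preimage_symm isOpen_interior
  have hcS : φ x ∈ S := ⟨φ.map_source hx, by
    change φ.symm (φ x) ∈ interior U
    rw [φ.left_inv hx]
    exact mem_interior_iff_mem_nhds.2 hU⟩
  obtain ⟨R, hR, hRS⟩ := Metric.nhds_basis_closedBall.mem_iff.1 (hS.mem_nhds hcS)
  let B : Set (Fin n → ℝ) := Metric.closedBall (φ x) R
  have hB : IsCompact B := isCompact_closedBall _ _
  have hBt : B ⊆ φ.target := fun z hz => (hRS hz).1
  let ψ : (Fin n → ℝ) → ℝ := fun z => max 0 (1 - R⁻¹ * ‖z - φ x‖)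
  have hψ : PLf ψ := (PLf.const 0).max ((PLf.const 1).sub
    (((PLf.id.sub (PLf.const (φ x))).norm).const_mul R⁻¹))
  have hψ1 : ψ (φ x) = 1 := by
    change max 0 (1 - R⁻¹ * ‖φ x - φ x‖) = 1
    rw [sub_self, norm_zero, mul_zero, sub_zero]
    exact max_eq_right zero_le_one
  have hψ0 : ∀ z, z ∉ B → ψ z = 0 := by
    intro z hz
    apply max_eq_left
    rw [Metric.mem_closedBall, not_le, dist_eq_norm] at hz
    rw [sub_nonpos, inv_mul_eq_div, le_div_iff₀ hR, one_mul]
    exact hz.le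
  have hψF : ∀ v : Fin n → ℝ, ‖v‖ < R → ∃ F : (Fin n → ℝ) ≃ₜ (Fin n → ℝ),
      PLf (F : (Fin n → ℝ) → (Fin n → ℝ)) ∧ ∀ z, F z = z + ψ z • v := by
    intro v hv
    refine shear_pl hψ v (κ := ‖v‖ / R) (by rwa [div_lt_one hR]) ?_ hB hψ0
    intro z t ht
    have h1 : ‖z + t • v - φ x‖ ≤ ‖z - φ x‖ + t * ‖v‖ := by
      have h2 : z + t • v - φ x = (z - φ x) + t • v := by abel
      rw [h2]
      refine (norm_add_le _ _).trans ?_
      rw [norm_smul, Real.norm_eq_abs, abs_of_nonneg ht]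
    have h2 : R⁻¹ * ‖z + t • v - φ x‖ ≤ R⁻¹ * ‖z - φ x‖ + ‖v‖ / R * t := by
      calc R⁻¹ * ‖z + t • v - φ x‖ ≤ R⁻¹ * (‖z - φ x‖ + t * ‖v‖) := by gcongr
        _ = _ := by ring
    have h3 : 0 ≤ ‖v‖ / R * t := by positivity
    change max 0 (1 - R⁻¹ * ‖z - φ x‖) - ‖v‖ / R * t ≤ max 0 (1 - R⁻¹ * ‖z + t • v - φ x‖)
    rcases le_total 0 (1 - R⁻¹ * ‖z - φ x‖) with h | h
    · rw [max_eq_right h]
      refine le_trans ?_ (le_max_right _ _)
      linarith
    · rw [max_eq_left h]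
      refine le_trans ?_ (le_max_left _ _)
      linarith
  have hfix : ∀ v : Fin n → ℝ, ∀ z, z ∉ B → z + ψ z • v = z := fun v z hz => by
    rw [hψ0 z hz, zero_smul, add_zero]
  -- the family
  have hmaps : ∀ v : Metric.ball (0 : Fin n → ℝ) R, ∀ z ∈ φ.target,
      z + ψ z • (v : Fin n → ℝ) ∈ φ.target := by
    intro v z hz
    obtain ⟨F, -, hF⟩ := hψF v (mem_ball_zero_iff.1 v.2)
    rw [← hF]
    exact (maps_of_fix hBt (fun z hz => by rw [hF, hfix _ z hz])).1 z hz
  have hcont : Continuous (fun p : Metric.ball (0 : Fin n → ℝ) R × M =>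
      ext φ (fun z => z + ψ z • (p.1 : Fin n → ℝ)) p.2) := by
    refine ext_joint (F := fun (l : Metric.ball (0 : Fin n → ℝ) R) z =>
      z + ψ z • (l : Fin n → ℝ)) ?_ hB hBt (fun l z hz => hfix _ z hz) hmaps
    have := hψ.1
    fun_prop
  let Φ : C(Metric.ball (0 : Fin n → ℝ) R, C(M, M)) := ContinuousMap.curry ⟨_, hcont⟩
  rw [coTop, nhds_induced] at hV
  obtain ⟨V', hV', hVV'⟩ := hV
  have hz0 : (0 : Fin n → ℝ) ∈ Metric.ball (0 : Fin n → ℝ) R := Metric.mem_ball_self hR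
  have hΦ0 : Φ ⟨0, hz0⟩ = (⟨((1 : G) : M ≃ₜ M), ((1 : G) : M ≃ₜ M).continuous⟩ :
      C(M, M)) := by
    ext m
    exact ext_id (φ := φ) (F := fun z => z + ψ z • (0 : Fin n → ℝ)) (fun z => by simp) m
  have hΦV : Φ ⁻¹' V' ∈ 𝓝 (⟨0, hz0⟩ : Metric.ball (0 : Fin n → ℝ) R) := by
    apply Φ.continuous.continuousAt.preimage_mem_nhds
    rw [hΦ0]
    exact hV'
  have hnear : ∀ᶠ v in 𝓝 (0 : Fin n → ℝ), ∃ hv : v ∈ Metric.ball (0 : Fin n → ℝ) R,
      Φ ⟨v, hv⟩ ∈ V' := by
    rw [mem_nhds_subtype_iff_nhdsWithin] at hΦV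
    have h1 := mem_nhdsWithin_iff_exists_mem_nhds_inter.1 hΦV
    obtain ⟨u, hu, hu'⟩ := h1
    filter_upwards [hu, Metric.ball_mem_nhds (0 : Fin n → ℝ) hR] with v hv hv'
    obtain ⟨w, hw, hwv⟩ := hu' ⟨hv, hv'⟩
    subst hwv
    exact ⟨hv', hw⟩
  have htend : Tendsto (fun m => φ m - φ x) (𝓝 x) (𝓝 0) := by
    have h1 : ContinuousAt (fun m => φ m - φ x) x := (φ.continuousAt hx).sub continuousAt_const
    have h2 : φ x - φ x = 0 := sub_self _
    rw [← h2]
    exact h1
  filter_upwards [htend.eventually hnear, φ.open_source.mem_nhds hx] with m hm hms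
  obtain ⟨hv, hvV⟩ := hm
  obtain ⟨F, hFpl, hF⟩ := hψF (φ m - φ x) (mem_ball_zero_iff.1 hv)
  have hFfix : ∀ z, z ∉ B → F z = z := fun z hz => by rw [hF, hfix _ z hz]
  obtain ⟨f, hf, -⟩ := exists_extHomeo (φ := φ) F hB hBt hFfix
  have hFeq : (F : (Fin n → ℝ) → (Fin n → ℝ)) = fun z => z + ψ z • (φ m - φ x) := funext hF
  have hsupp : SuppIn f (U ∩ φ.source) := by
    refine ⟨φ.symm '' B, ?_, hB.image_of_continuousOn (φ.symm.continuousOn.mono hBt), ?_⟩
    · rintro _ ⟨z, hz, rfl⟩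
      exact ⟨interior_subset (hRS hz).2, φ.map_target (hBt hz)⟩
    · intro z hz
      rw [hf]
      exact ext_fix hFfix hz
  refine ⟨⟨f, hG φ hφ F ⟨hFpl, B, hBt, hB, hFfix⟩ f hf⟩, hVV' ?_,
    hsupp.mono inter_subset_left, ?_⟩
  · change (⟨f, f.continuous⟩ : C(M, M)) ∈ V'
    have : (⟨f, f.continuous⟩ : C(M, M)) = Φ ⟨φ m - φ x, hv⟩ := by
      ext p
      change f p = ext φ (fun z => z + ψ z • (φ m - φ x)) p
      rw [hf, hFeq]
    rw [this]
    exact hvV
  · change f x = m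
    rw [hf, ext_of_mem hx, hF, hψ1, one_smul, add_sub_cancel, φ.left_inv hms]

/-- The final assembly in dimension at least two. -/
theorem minimal_of_seg [T2Space M] [PreconnectedSpace M] (hn : 2 ≤ n) {G : Subgroup (M ≃ₜ M)}
    (hG : LocPL (n := n) G) [τ : TopologicalSpace G] [IsTopologicalGroup G] [T2Space G]
    (hle : coTop G ≤ τ) (i0 : Fin n)
    (hseg : ∀ (H : Subgroup ((Fin n → ℝ) ≃ₜ (Fin n → ℝ))) [TopologicalSpace H]
      [IsTopologicalGroup H], Ctx H → SegSmall H i0) : τ = coTop G := by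
  rcases isEmpty_or_nonempty M with hM | ⟨⟨x0⟩⟩
  · have : Subsingleton G := ⟨fun a b => Subtype.ext (by
      ext m
      exact hM.elim m)⟩
    exact Subsingleton.elim _ _
  have : Nonempty (Fin n) := ⟨i0⟩
  have hperf : ∀ x : M, (𝓝[≠] x).NeBot := fun x =>
    perfect_of_nontrivial (E := Fin n → ℝ) x
  have := ChartedSpace.locallyCompactSpace (Fin n → ℝ) M
  have := ChartedSpace.locallyConnectedSpace (Fin n → ℝ) M
  have hLT := locTransPL hG
  rcases dichotomy hLT hperf hle with h | h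
  · exact h
  exfalso
  -- a chart containing the ball of radius 100
  let φ : OpenPartialHomeomorph M (Fin n → ℝ) := chartAt (Fin n → ℝ) x0
  have hφ : φ ∈ atlas (Fin n → ℝ) M := chart_mem_atlas (Fin n → ℝ) x0
  have hx0 : x0 ∈ φ.source := mem_chart_source (Fin n → ℝ) x0
  obtain ⟨R, hR, hRS⟩ := Metric.nhds_basis_closedBall.mem_iff.1
    (φ.open_target.mem_nhds (φ.map_source hx0))
  let A : (Fin n → ℝ) ≃ₜ (Fin n → ℝ) :=
    { toFun := fun z => (100 / R) • (z - φ x0)
      invFun := fun z => φ x0 + (R / 100) • z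
      left_inv := by
        intro z
        change φ x0 + (R / 100) • ((100 / R) • (z - φ x0)) = z
        rw [smul_smul]
        have : R / 100 * (100 / R) = 1 := by field_simp
        rw [this, one_smul, add_sub_cancel]
      right_inv := by
        intro z
        change (100 / R) • (φ x0 + (R / 100) • z - φ x0) = z
        rw [add_sub_cancel_left, smul_smul]
        have : 100 / R * (R / 100) = 1 := by field_simp
        rw [this, one_smul]
      continuous_toFun := by fun_prop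
      continuous_invFun := by fun_prop }
  have hA : ∀ z, A z = (100 / R) • (z - φ x0) := fun z => rfl
  have hA' : ∀ z, A.symm z = φ x0 + (R / 100) • z := fun z => rfl
  have hApl : PLf (A : (Fin n → ℝ) → (Fin n → ℝ)) :=
    (PLf.id.sub (PLf.const (φ x0))).const_smul (100 / R)
  have hApl' : PLf (A.symm : (Fin n → ℝ) → (Fin n → ℝ)) :=
    (PLf.const (φ x0)).add (PLf.id.const_smul (R / 100))
  let ψ : OpenPartialHomeomorph M (Fin n → ℝ) := φ.transHomeomorph A
  have hψs : ψ.source = φ.source := rfl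
  have hψ : Metric.closedBall 0 100 ⊆ ψ.target := by
    intro z hz
    change A.symm z ∈ φ.target
    apply hRS
    rw [mem_closedBall_iff_norm, hA', add_sub_cancel_left, norm_smul, Real.norm_eq_abs,
      abs_of_pos (by positivity)]
    rw [mem_closedBall_zero_iff] at hz
    calc R / 100 * ‖z‖ ≤ R / 100 * 100 := by gcongr
      _ = R := by ring
  refine contra_of_seg ψ hψ G ?_ hle hLT hperf h i0 hseg
  intro F hF g hg
  obtain ⟨K, hK, hKc, hFK⟩ := hF.2
  have hKt : A.symm '' K ⊆ φ.target := by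
    rintro _ ⟨z, hz, rfl⟩
    exact hψ (Metric.ball_subset_closedBall (hK hz))
  apply hG φ hφ (A.trans (F.trans A.symm))
  · refine ⟨hApl'.comp (hF.1.comp hApl), A.symm '' K, hKt, hKc.image A.symm.continuous,
      fun z hz => ?_⟩
    change A.symm (F (A z)) = z
    have h1 : A z ∉ K := fun hc => hz ⟨A z, hc, A.symm_apply_apply z⟩
    rw [hFK _ h1, A.symm_apply_apply]
  · intro m
    rw [hg]
    by_cases hm : m ∈ φ.source
    · have hmψ : m ∈ ψ.source := hm
      rw [ext_of_mem (φ := φ) hm, ext_of_mem (φ := ψ) hmψ]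
      rfl
    · have hmψ : m ∉ ψ.source := hm
      rw [ext_of_notMem (φ := φ) hm, ext_of_notMem (φ := ψ) hmψ]

/-- The groups containing all piecewise linear homeomorphisms supported in charts. -/
theorem ContainsPL.locPL [T2Space M] [HasGroupoid M (plGroupoid (Fin n → ℝ))]
    {G : Subgroup (M ≃ₜ M)} (hG : ContainsPL (Fin n → ℝ) G) : LocPL (n := n) G := by
  intro φ hφ F hF g hg
  obtain ⟨K, hK, hKc, hFK⟩ := hF.2
  obtain ⟨f, hf, hf'⟩ := exists_extHomeo (φ := φ) F hKc hK hFK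
  have hfg : f = g := by
    ext m
    rw [hf, hg]
  subst hfg
  refine hG f (ext_mem_PLHomeo hφ hKc hK hFK hF.1 hf hf') φ hφ
    ⟨φ.symm '' K, ?_, hKc.image_of_continuousOn (φ.symm.continuousOn.mono hK), fun z hz => ?_⟩
  · rintro _ ⟨z, hz, rfl⟩
    exact φ.map_target (hK hz)
  · rw [hf]
    exact ext_fix hFK hz

theorem segSmall_big (hn : 4 ≤ n) (i0 : Fin n) (H : Subgroup ((Fin n → ℝ) ≃ₜ (Fin n → ℝ)))
    [TopologicalSpace H] [IsTopologicalGroup H] (hH : Ctx H) (hX : NoCut (Fin n → ℝ))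
    (hchain : ∀ a b : Fin n → ℝ, a ≠ b → a ∈ Metric.ball (0 : Fin n → ℝ) 50 →
      b ∈ Metric.ball (0 : Fin n → ℝ) 50 → HasChain H a b) : SegSmall H i0 := by
  intro W hW c hc0 hc
  have h3 : ‖(3 : ℝ) • ee i0‖ = 3 := by
    rw [norm_smul, norm_ee]
    norm_num
  refine small_of_chain hH ?_ (hchain c (c + (3 : ℝ) • ee i0) ?_ ?_ ?_) hW
  · intro h
    rw [left_eq_add] at h
    rw [h, norm_zero] at h3
    norm_num at h3
  · intro h
    rw [left_eq_add] at h
    rw [h, norm_zero] at h3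
    norm_num at h3
  · rw [mem_ball_zero_iff]
    linarith
  · rw [mem_ball_zero_iff]
    have := norm_add_le c ((3 : ℝ) • ee i0)
    linarith

end Pool.Agent.Run7.h754
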