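import Mathlib
import Pool.Agent.Run7.h754.Cross2
import Pool.Agent.Run7.h754.PLTrans

/-!
# Chains of small sets in dimension two
-/

open Set Filter Topology
open scoped Pointwise

namespace Pool.Agent.Run7.h754

variable {H : Subgroup ((Fin 2 → ℝ) ≃ₜ (Fin 2 → ℝ))} [τ : TopologicalSpace H]

theorem norm_le2 {z : Fin 2 → ℝ} {r : ℝ} (hr : 0 ≤ r) (h0 : |z 0| ≤ r) (h1 : |z 1| ≤ r) :
    ‖z‖ ≤ r := by
  rw [pi_norm_le_iff_of_nonneg hr]
  intro i
  fin_cases i
  · exact h0
  · exact h1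

/-- A box in the plane. -/
def Bx (a b c d : ℝ) : Set (Fin 2 → ℝ) := {z | a < z 0 ∧ z 0 < b ∧ c < z 1 ∧ z 1 < d}

theorem isOpen_bx (a b c d : ℝ) : IsOpen (Bx a b c d) :=
  (isOpen_lt continuous_const (continuous_apply 0)).inter
    ((isOpen_lt (continuous_apply 0) continuous_const).inter
      ((isOpen_lt continuous_const (continuous_apply 1)).inter
        (isOpen_lt (continuous_apply 1) continuous_const)))

theorem convex_bx (a b c d : ℝ) : Convex ℝ (Bx a b c d) := by
  intro x hx y hy s t hs ht hst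
  obtain ⟨x1, x2, x3, x4⟩ := hx
  obtain ⟨y1, y2, y3, y4⟩ := hy
  have key : ∀ p q r : ℝ, p < q → p < r → p < s * q + t * r := by
    intro p q r h1 h2
    have h3 : p = s * p + t * p := by rw [← add_mul, hst, one_mul]
    rcases eq_or_lt_of_le hs with h4 | h4
    · rw [← h4] at hst ⊢
      have h5 : t = 1 := by linarith
      rw [h5]
      linarith
    · have h5 := mul_lt_mul_of_pos_left h1 h4
      have h6 := mul_le_mul_of_nonneg_left h2.le ht
      linarith
  have key2 : ∀ p q r : ℝ, q < p → r < p → s * q + t * r < p := by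
    intro p q r h1 h2
    have := key (-p) (-q) (-r) (by linarith) (by linarith)
    linarith
  refine ⟨?_, ?_, ?_, ?_⟩
  · simp only [Pi.add_apply, Pi.smul_apply, smul_eq_mul]
    exact key _ _ _ x1 y1
  · simp only [Pi.add_apply, Pi.smul_apply, smul_eq_mul]
    exact key2 _ _ _ x2 y2
  · simp only [Pi.add_apply, Pi.smul_apply, smul_eq_mul]
    exact key _ _ _ x3 y3
  · simp only [Pi.add_apply, Pi.smul_apply, smul_eq_mul]
    exact key2 _ _ _ x4 y4

/-- One step of the chain. -/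
theorem gate [IsTopologicalGroup H] (hH : Ctx H) (hX : NoCut (Fin 2 → ℝ)) {V : Set H}
    (hV : V ∈ 𝓝 (1 : H)) {P l r y : ℝ} (hr : 0 < r) (hrl : r ≤ l / 4) (hl : l ≤ 1)
    (hP : |P| ≤ 20) (hy : |y| ≤ 10) :
    ∃ (E : Set (Fin 2 → ℝ)) (k : (Fin 2 → ℝ) ≃ₜ (Fin 2 → ℝ)) (s1 s2 : ℝ), IsOpen E ∧
      E ⊆ Metric.ball 0 100 ∧ Sm H V E ∧
      PLs k (Bx (P + r / 8) (P + l - r / 8) (y - r / 4) (y + r / 2)) ∧ P ≤ s1 ∧ s1 ≤ s2 ∧
      s2 ≤ P + l ∧ (∀ X, P ≤ X → X ≤ s1 → k ![X, y] ∈ Metric.ball ![P, y] r) ∧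
      (∀ X, s1 ≤ X → X ≤ s2 → k ![X, y] ∈ E) ∧
      (∀ X, s2 ≤ X → X ≤ P + l → k ![X, y] ∈ Metric.ball ![P + l, y] r) := by
  have hP' := abs_le.1 hP
  have hy' := abs_le.1 hy
  have hw : 0 < l - r / 2 := by linarith
  obtain ⟨N0, hN0⟩ := exists_nat_gt ((l - r / 2) / (r / 4))
  have hN0' : (0 : ℝ) < N0 := lt_of_le_of_lt (by positivity) hN0
  have hN0p : 0 < N0 := by exact_mod_cast hN0'
  have hη : (l - r / 2) / N0 < r / 4 := by
    rw [div_lt_iff₀ hN0']
    rw [div_lt_iff₀ (by positivity)] at hN0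
    linarith
  have hη0 : 0 < (l - r / 2) / N0 := by positivity
  set η := (l - r / 2) / N0 with hηdef
  obtain ⟨E, hE, hEc, hEO, hx, hy0, hEV⟩ := exists_smallset hH hX hV
    (isOpen_bx (P + r / 8) (P + l - r / 8) y (y + η))
    (convex_bx (P + r / 8) (P + l - r / 8) y (y + η)).isPreconnected (by
      rintro z ⟨h1, h2, h3, h4⟩
      rw [mem_ball_zero_iff]
      refine lt_of_le_of_lt (norm_le2 (r := 50) (by norm_num) ?_ ?_) (by norm_num)
      · rw [abs_le]
        constructor <;> linarith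
      · rw [abs_le]
        constructor <;> linarith)
    (x := ![P + 3 * r / 16, y + η / 2]) (y := ![P + l - 3 * r / 16, y + η / 2])
    ⟨by simp only [Matrix.cons_val_zero]; linarith, by simp only [Matrix.cons_val_zero]; linarith,
      by change y < y + η / 2; linarith, by change y + η / 2 < y + η; linarith⟩
    ⟨by simp only [Matrix.cons_val_zero]; linarith, by simp only [Matrix.cons_val_zero]; linarith,
      by change y < y + η / 2; linarith, by change y + η / 2 < y + η; linarith⟩ (by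
      intro h
      have h1 := congrFun h 0
      simp only [Matrix.cons_val_zero] at h1
      linarith)
  have ho0 : (![P + r / 4, y] : Fin 2 → ℝ) 0 = P + r / 4 := rfl
  have ho1 : (![P + r / 4, y] : Fin 2 → ℝ) 1 = y := rfl
  obtain ⟨k, hk, hk1, hk2, s1, s2, hs1, hs12, hs2, hA, hB, hC⟩ := cross2
    (o := ![P + r / 4, y]) hw hN0p hE hEc (by
      intro z hz
      have h1 := hEO hz
      rw [ho1]
      exact ⟨h1.2.2.1, h1.2.2.2⟩) hx hy0 (by
      rw [ho0]
      simp only [Matrix.cons_val_zero]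
      linarith) (by
      rw [ho0]
      simp only [Matrix.cons_val_zero]
      linarith)
    (isOpen_bx (P + r / 8) (P + l - r / 8) (y - r / 4) (y + r / 2)) (by
      intro z h1 h2 h3 h4
      rw [ho0] at h1 h2
      rw [ho1] at h3 h4
      exact ⟨by linarith, by linarith, by linarith, by linarith⟩)
    (X1 := P) (X2 := P + l) (by rw [ho0]; linarith) (by rw [ho0]; linarith)
  rw [ho0, ho1] at *
  refine ⟨E, k, s1, s2, hE, ?_, hEV, hk, by linarith, hs12, by linarith, ?_, hB, ?_⟩
  · intro z hz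
    obtain ⟨h1, h2, h3, h4⟩ := hEO hz
    rw [mem_ball_zero_iff]
    refine lt_of_le_of_lt (norm_le2 (r := 50) (by norm_num) ?_ ?_) (by norm_num)
    · rw [abs_le]
      constructor <;> linarith
    · rw [abs_le]
      constructor <;> linarith
  · intro X h1 h2
    rw [mem_ball_iff_norm]
    refine lt_of_le_of_lt (norm_le2 (r := r / 4) (by positivity) ?_ ?_) (by linarith)
    · rw [Pi.sub_apply]
      simp only [Matrix.cons_val_zero]
      rcases le_total X (P + r / 4) with h3 | h3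
      · rw [hk1 X h1 h3]
        simp only [Matrix.cons_val_zero]
        rw [abs_le]
        constructor <;> linarith
      · obtain ⟨h4, h5, h6⟩ := hA X h3 h2
        rw [h4, abs_le]
        constructor <;> linarith
    · rw [Pi.sub_apply]
      change |(k ![X, y]) 1 - y| ≤ r / 4
      rcases le_total X (P + r / 4) with h3 | h3
      · rw [hk1 X h1 h3]
        change |y - y| ≤ r / 4
        rw [sub_self, abs_zero]
        positivity
      · obtain ⟨h4, h5, h6⟩ := hA X h3 h2
        rw [abs_le]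
        constructor <;> linarith
  · intro X h1 h2
    rw [mem_ball_iff_norm]
    refine lt_of_le_of_lt (norm_le2 (r := r / 4) (by positivity) ?_ ?_) (by linarith)
    · rw [Pi.sub_apply]
      simp only [Matrix.cons_val_zero]
      rcases le_total (P + r / 4 + (l - r / 2)) X with h3 | h3
      · rw [hk2 X h3 h2]
        simp only [Matrix.cons_val_zero]
        rw [abs_le]
        constructor <;> linarith
      · obtain ⟨h4, h5, h6⟩ := hC X h1 h3
        rw [h4, abs_le]
        constructor <;> linarith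
    · rw [Pi.sub_apply]
      change |(k ![X, y]) 1 - y| ≤ r / 4
      rcases le_total (P + r / 4 + (l - r / 2)) X with h3 | h3
      · rw [hk2 X h3 h2]
        change |y - y| ≤ r / 4
        rw [sub_self, abs_zero]
        positivity
      · obtain ⟨h4, h5, h6⟩ := hC X h1 h3
        rw [abs_le]
        constructor <;> linarith

theorem hasChain2 [IsTopologicalGroup H] (hH : Ctx H) (hX : NoCut (Fin 2 → ℝ))
    {c : Fin 2 → ℝ} (hc0 : c 0 = 0) (hc : ‖c‖ ≤ 10) :
    HasChain H c (c + (3 : ℝ) • ee 0) := by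
  intro W hW
  obtain ⟨ε, hε, hεW⟩ := hH.small W hW
  obtain ⟨m, hm⟩ := exists_nat_gt (max (3 / ε) 3)
  have hm1 : 3 / ε < m := lt_of_le_of_lt (le_max_left _ _) hm
  have hm2 : (3 : ℝ) < m := lt_of_le_of_lt (le_max_right _ _) hm
  have hm0 : (0 : ℝ) < m := by linarith
  obtain ⟨V, hV, hVW⟩ := pow_nhds (3 * m) hW
  obtain ⟨r', hr', hrV⟩ := small_ball hH hV
  set l : ℝ := 3 / m with hl
  have hl0 : 0 < l := by positivity
  have hl1 : l ≤ 1 := by
    rw [hl, div_le_one hm0]
    exact hm2.le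
  have hlε : l ≤ ε := by
    rw [hl, div_le_iff₀ hm0]
    rw [div_lt_iff₀ hε] at hm1
    linarith
  have hlm : (m : ℝ) * l = 3 := by
    rw [hl]
    field_simp
  set r : ℝ := min r' (l / 4) with hr
  have hr0 : 0 < r := lt_min hr' (by positivity)
  have hrl : r ≤ l / 4 := min_le_right _ _
  set y : ℝ := c 1 with hy
  have hyb : |y| ≤ 10 := (norm_le_pi_norm c 1).trans hc
  have hPb : ∀ i : ℕ, i ≤ m → 0 ≤ (i : ℝ) * l ∧ (i : ℝ) * l ≤ 3 := by
    intro i hi
    have hi' : (i : ℝ) ≤ m := by exact_mod_cast hi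
    refine ⟨by positivity, ?_⟩
    rw [← hlm]
    exact mul_le_mul_of_nonneg_right hi' hl0.le
  have hG : ∀ i : ℕ, ∃ (E : Set (Fin 2 → ℝ)) (k : (Fin 2 → ℝ) ≃ₜ (Fin 2 → ℝ)) (s1 s2 : ℝ),
      i < m → IsOpen E ∧
      E ⊆ Metric.ball 0 100 ∧ Sm H V E ∧
      PLs k (Bx (i * l + r / 8) (i * l + l - r / 8) (y - r / 4) (y + r / 2)) ∧ i * l ≤ s1 ∧
      s1 ≤ s2 ∧ s2 ≤ i * l + l ∧
      (∀ X, i * l ≤ X → X ≤ s1 → k ![X, y] ∈ Metric.ball ![i * l, y] r) ∧
      (∀ X, s1 ≤ X → X ≤ s2 → k ![X, y] ∈ E) ∧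
      (∀ X, s2 ≤ X → X ≤ i * l + l → k ![X, y] ∈ Metric.ball ![i * l + l, y] r) := by
    intro i
    by_cases hi : i < m
    · obtain ⟨E, k, s1, s2, h⟩ := gate hH hX hV (P := i * l) hr0 hrl hl1 (by
        have := hPb i hi.le
        rw [abs_le]
        constructor <;> linarith) hyb
      exact ⟨E, k, s1, s2, fun _ => h⟩
    · exact ⟨∅, 1, 0, 0, fun h => absurd h hi⟩
  choose E k s1 s2 hg using hG
  let O : ℕ → Set (Fin 2 → ℝ) := fun i =>
    Bx (i * l + r / 8) (i * l + l - r / 8) (y - r / 4) (y + r / 2)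
  have hgap : ∀ i j : ℕ, i < j → (i : ℝ) * l + l ≤ j * l := by
    intro i j hij
    have h1 : (i : ℝ) + 1 ≤ j := by exact_mod_cast hij
    have h2 := mul_le_mul_of_nonneg_right h1 hl0.le
    linarith
  have hOb : ∀ i < m, O i ⊆ Metric.ball 0 100 := by
    rintro i hi z ⟨h1, h2, h3, h4⟩
    have h5 := hPb i hi.le
    have h6 := abs_le.1 hyb
    rw [mem_ball_zero_iff]
    refine lt_of_le_of_lt (norm_le2 (r := 50) (by norm_num) ?_ ?_) (by norm_num)
    · rw [abs_le]
      constructor <;> linarith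
    · rw [abs_le]
      constructor <;> linarith
  obtain ⟨K, hK, hKO, hKn⟩ := disj_prod (Finset.range m) O k (by
    have key : ∀ i j : ℕ, i < j → Disjoint (O i) (O j) := by
      intro i j hij
      rw [Set.disjoint_left]
      rintro z ⟨-, h1, -⟩ ⟨h2, -⟩
      have := hgap i j hij
      linarith
    intro i _ j _ hij
    rcases lt_or_gt_of_ne hij with h | h
    · exact key i j h
    · exact (key j i h).symm) (fun i hi => (hg i (Finset.mem_range.1 hi)).2.2.2.1)
  have hKb : PLs K (Metric.ball 0 100) := by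
    refine hK.mono ?_
    intro z hz
    obtain ⟨i, hi, hzi⟩ := mem_iUnion₂.1 hz
    exact hOb i (Finset.mem_range.1 hi) hzi
  have hKseg : ∀ i < m, ∀ X : ℝ, i * l ≤ X → X ≤ i * l + l → K ![X, y] = k i ![X, y] := by
    intro i hi X h1 h2
    by_cases hz : (![X, y] : Fin 2 → ℝ) ∈ O i
    · exact hKO i (Finset.mem_range.2 hi) _ hz
    · rw [hKn, (hg i hi).2.2.2.1.2.fix hz]
      intro hc
      obtain ⟨j, hj, hzj⟩ := mem_iUnion₂.1 hc
      rcases lt_trichotomy i j with h | h | h
      · have h3 := hgap i j h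
        have h4 := hzj.1
        simp only [Matrix.cons_val_zero] at h4
        linarith
      · rw [← h] at hzj
        exact hz hzj
      · have h3 := hgap j i h
        have h4 := hzj.2.1
        simp only [Matrix.cons_val_zero] at h4
        linarith
  let D : ℕ → Set (Fin 2 → ℝ) := fun j =>
    if j % 3 = 0 then Metric.ball ![((j / 3 : ℕ) : ℝ) * l, y] r else
      if j % 3 = 1 then E (j / 3) else Metric.ball ![((j / 3 : ℕ) : ℝ) * l + l, y] r
  let t : ℕ → ℝ := fun j =>
    if j % 3 = 0 then ((j / 3 : ℕ) : ℝ) * l / 3 else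
      if j % 3 = 1 then s1 (j / 3) / 3 else s2 (j / 3) / 3
  have hD0 : ∀ i, D (3 * i) = Metric.ball ![(i : ℝ) * l, y] r := by
    intro i
    change (if 3 * i % 3 = 0 then _ else _) = _
    have e1 : 3 * i % 3 = 0 := by omega
    have e2 : 3 * i / 3 = i := by omega
    rw [if_pos e1, e2]
  have hD1 : ∀ i, D (3 * i + 1) = E i := by
    intro i
    change (if (3 * i + 1) % 3 = 0 then _ else if (3 * i + 1) % 3 = 1 then _ else _) = _
    have e1 : ¬ (3 * i + 1) % 3 = 0 := by omega
    have e3 : (3 * i + 1) % 3 = 1 := by omega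
    have e2 : (3 * i + 1) / 3 = i := by omega
    rw [if_neg e1, if_pos e3, e2]
  have hD2 : ∀ i, D (3 * i + 2) = Metric.ball ![(i : ℝ) * l + l, y] r := by
    intro i
    change (if (3 * i + 2) % 3 = 0 then _ else if (3 * i + 2) % 3 = 1 then _ else _) = _
    have e1 : ¬ (3 * i + 2) % 3 = 0 := by omega
    have e3 : ¬ (3 * i + 2) % 3 = 1 := by omega
    have e2 : (3 * i + 2) / 3 = i := by omega
    rw [if_neg e1, if_neg e3, e2]
  have ht0 : ∀ i, t (3 * i) = (i : ℝ) * l / 3 := by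
    intro i
    change (if 3 * i % 3 = 0 then _ else _) = _
    have e1 : 3 * i % 3 = 0 := by omega
    have e2 : 3 * i / 3 = i := by omega
    rw [if_pos e1, e2]
  have ht1 : ∀ i, t (3 * i + 1) = s1 i / 3 := by
    intro i
    change (if (3 * i + 1) % 3 = 0 then _ else if (3 * i + 1) % 3 = 1 then _ else _) = _
    have e1 : ¬ (3 * i + 1) % 3 = 0 := by omega
    have e3 : (3 * i + 1) % 3 = 1 := by omega
    have e2 : (3 * i + 1) / 3 = i := by omega
    rw [if_neg e1, if_pos e3, e2]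
  have ht2 : ∀ i, t (3 * i + 2) = s2 i / 3 := by
    intro i
    change (if (3 * i + 2) % 3 = 0 then _ else if (3 * i + 2) % 3 = 1 then _ else _) = _
    have e1 : ¬ (3 * i + 2) % 3 = 0 := by omega
    have e3 : ¬ (3 * i + 2) % 3 = 1 := by omega
    have e2 : (3 * i + 2) / 3 = i := by omega
    rw [if_neg e1, if_neg e3, e2]
  have ht3 : ∀ i, t (3 * i + 2 + 1) = ((i : ℝ) * l + l) / 3 := by
    intro i
    have e : 3 * i + 2 + 1 = 3 * (i + 1) := by ring
    rw [e, ht0]
    push_cast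
    ring
  have hcase : ∀ j, j < 3 * m → ∃ i < m, j = 3 * i ∨ j = 3 * i + 1 ∨ j = 3 * i + 2 := by
    intro j hj
    exact ⟨j / 3, by omega, by omega⟩
  have hpt : ∀ x : ℝ, c + x • (c + (3 : ℝ) • ee 0 - c) = ![3 * x, y] := by
    intro x
    apply ext2
    · rw [add_sub_cancel_left, Pi.add_apply, Pi.smul_apply, Pi.smul_apply, ee_same, hc0]
      simp only [smul_eq_mul, mul_one, zero_add, Matrix.cons_val_zero]
      ring
    · rw [add_sub_cancel_left, Pi.add_apply, Pi.smul_apply, Pi.smul_apply, ee_ne (by decide)]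
      change c 1 + x • ((3 : ℝ) • (0 : ℝ)) = c 1
      simp
  have hballb : ∀ P : ℝ, |P| ≤ 20 → Metric.ball (![P, y] : Fin 2 → ℝ) r ⊆ Metric.ball 0 100 := by
    intro P hP z hz
    rw [mem_ball_iff_norm] at hz
    rw [mem_ball_zero_iff]
    have h1 : ‖(![P, y] : Fin 2 → ℝ)‖ ≤ 20 := by
      refine norm_le2 (by norm_num) hP ?_
      change |y| ≤ 20
      linarith
    have h2 : z = (z - ![P, y]) + ![P, y] := by abel
    rw [h2]
    have h3 := norm_add_le (z - ![P, y]) (![P, y] : Fin 2 → ℝ)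
    linarith
  refine ⟨3 * m, t, D, V, ⟨K, hH.pl K hKb⟩, ?_, hVW _ le_rfl, ?_, ?_, ?_, ?_, ?_, ?_, ?_⟩
  · apply hεW
    intro z
    change ‖K z - z‖ ≤ ε
    by_cases hz : z ∈ ⋃ i ∈ Finset.range m, O i
    · obtain ⟨i, hi, hzi⟩ := mem_iUnion₂.1 hz
      rw [hKO i hi z hzi]
      have h1 := (hg i (Finset.mem_range.1 hi)).2.2.2.1.2.mem hzi
      obtain ⟨a1, a2, a3, a4⟩ := hzi
      obtain ⟨b1, b2, b3, b4⟩ := h1
      refine norm_le2 hε.le ?_ ?_
      · rw [Pi.sub_apply, abs_le]
        constructor <;> linarith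
      · rw [Pi.sub_apply, abs_le]
        constructor <;> linarith
    · rw [hKn z hz, sub_self, norm_zero]
      exact hε.le
  · have := ht0 0
    simpa using this
  · rw [ht0, hlm]
    norm_num
  · intro j hj
    obtain ⟨i, hi, rfl | rfl | rfl⟩ := hcase j hj
    · rw [ht0, ht1]
      have := (hg i hi).2.2.2.2.1
      linarith
    · rw [ht1]
      change s1 i / 3 ≤ t (3 * i + 2)
      rw [ht2]
      have := (hg i hi).2.2.2.2.2.1
      linarith
    · rw [ht2, ht3]
      have := (hg i hi).2.2.2.2.2.2.1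
      linarith
  · intro j hj
    obtain ⟨i, hi, rfl | rfl | rfl⟩ := hcase j hj
    · rw [hD0]
      exact Metric.isOpen_ball
    · rw [hD1]
      exact (hg i hi).1
    · rw [hD2]
      exact Metric.isOpen_ball
  · intro j hj
    obtain ⟨i, hi, rfl | rfl | rfl⟩ := hcase j hj
    · rw [hD0]
      have := hPb i hi.le
      exact hballb _ (abs_le.2 ⟨by linarith, by linarith⟩)
    · rw [hD1]
      exact (hg i hi).2.1
    · rw [hD2]
      have := hPb i hi.le
      exact hballb _ (abs_le.2 ⟨by linarith, by linarith⟩)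
  · intro j hj
    have hb : ∀ q, Sm H V (Metric.ball q r) := fun q F hF =>
      hrV q F (hF.mono (Metric.ball_subset_ball (min_le_left _ _)))
    obtain ⟨i, hi, rfl | rfl | rfl⟩ := hcase j hj
    · rw [hD0]
      exact hb _
    · rw [hD1]
      exact (hg i hi).2.2.1
    · rw [hD2]
      exact hb _
  · intro j hj x hx
    change K (c + x • (c + (3 : ℝ) • ee 0 - c)) ∈ D j
    rw [hpt]
    obtain ⟨i, hi, h⟩ := hcase j hj
    obtain ⟨-, -, -, -, g1, g2, g3, g4, g5, g6⟩ := hg i hi
    rcases h with rfl | rfl | rfl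
    · rw [ht0, ht1] at hx
      obtain ⟨hx1, hx2⟩ := hx
      rw [hD0, hKseg i hi _ (by linarith) (by linarith)]
      exact g4 _ (by linarith) (by linarith)
    · rw [ht1] at hx
      change x ∈ Icc (s1 i / 3) (t (3 * i + 2)) at hx
      rw [ht2] at hx
      obtain ⟨hx1, hx2⟩ := hx
      rw [hD1, hKseg i hi _ (by linarith) (by linarith)]
      exact g5 _ (by linarith) (by linarith)
    · rw [ht2, ht3] at hx
      obtain ⟨hx1, hx2⟩ := hx
      rw [hD2, hKseg i hi _ (by linarith) (by linarith)]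
      exact g6 _ (by linarith) (by linarith)

theorem segSmall2 [IsTopologicalGroup H] (hH : Ctx H) (hX : NoCut (Fin 2 → ℝ)) :
    SegSmall H (0 : Fin 2) := by
  intro W hW c hc0 hc
  refine small_of_chain hH ?_ (hasChain2 hH hX hc0 hc) hW
  intro h
  have h1 := congrFun h 0
  rw [Pi.add_apply, Pi.smul_apply, ee_same] at h1
  simp at h1

end Pool.Agent.Run7.h754
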