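import Mathlib
import Pool.Agent.Run7.h754.PLTrans

/-!
# Dimensions zero and one
-/

open Set Filter Topology
open scoped Pointwise

namespace Pool.Agent.Run7.h754

variable {M : Type*} [TopologicalSpace M]

theorem eq_of_subsingleton [Subsingleton M] {G : Subgroup (M ≃ₜ M)} (τ : TopologicalSpace G) :
    τ = coTop G := by
  have : Subsingleton G := ⟨fun a b => Subtype.ext (by
    ext m
    exact Subsingleton.elim _ _)⟩
  exact Subsingleton.elim _ _

theorem subsingleton_of_dim_zero [ChartedSpace (Fin 0 → ℝ) M] [PreconnectedSpace M] :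
    Subsingleton M := by
  have hd : DiscreteTopology M := by
    rw [discreteTopology_iff_isOpen_singleton]
    intro x
    let φ := chartAt (Fin 0 → ℝ) x
    have h1 : ({x} : Set M) = φ.source := by
      ext y
      constructor
      · rintro rfl
        exact mem_chart_source (Fin 0 → ℝ) _
      · intro hy
        exact φ.injOn hy (mem_chart_source (Fin 0 → ℝ) x) (Subsingleton.elim _ _)
    rw [h1]
    exact φ.open_source
  exact PreconnectedSpace.trivial_of_discrete

theorem minimal_one [ChartedSpace (Fin 1 → ℝ) M] [T2Space M] [PreconnectedSpace M]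
    {G : Subgroup (M ≃ₜ M)}
    (hG : LocPL (n := 1) G) [τ : TopologicalSpace G] [IsTopologicalGroup G] [T2Space G]
    (hle : coTop G ≤ τ) : τ = coTop G := by
  rcases isEmpty_or_nonempty M with hM | ⟨⟨x0⟩⟩
  · exact eq_of_subsingleton τ
  have hperf : ∀ x : M, (𝓝[≠] x).NeBot := fun x =>
    perfect_of_nontrivial (E := Fin 1 → ℝ) x
  have := ChartedSpace.locallyCompactSpace (Fin 1 → ℝ) M
  have := ChartedSpace.locallyConnectedSpace (Fin 1 → ℝ) M
  have hLT := locTransPL hG
  rcases dichotomy hLT hperf hle with h | h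
  · exact h
  exfalso
  let φ : OpenPartialHomeomorph M (Fin 1 → ℝ) := chartAt (Fin 1 → ℝ) x0
  have hx0 : x0 ∈ φ.source := mem_chart_source (Fin 1 → ℝ) x0
  obtain ⟨R, hR, hRS⟩ := Metric.nhds_basis_closedBall.mem_iff.1
    (φ.open_target.mem_nhds (φ.map_source hx0))
  set c := φ x0 with hc
  have hsub1 : Metric.ball c R ⊆ φ.target := Metric.ball_subset_closedBall.trans hRS
  have hsub2 : Metric.ball c (R / 2) ⊆ φ.target :=
    (Metric.ball_subset_ball (by linarith)).trans hsub1
  obtain ⟨W, hW, hWz⟩ := zariski hLT hperf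
    (φ.symm.isOpen_image_of_subset_source Metric.isOpen_ball hsub2)
    ⟨_, _, Metric.mem_ball_self (by positivity : 0 < R / 2), rfl⟩
  let xE : Fin 1 → ℝ := fun _ => c 0 - R / 2
  let yE : Fin 1 → ℝ := fun _ => c 0 + R / 2
  have hball : ∀ (z : Fin 1 → ℝ) (r : ℝ), 0 < r → (z ∈ Metric.ball c r ↔ |z 0 - c 0| < r) := by
    intro z r hr
    rw [mem_ball_iff_norm, pi_norm_lt_iff hr]
    constructor
    · intro h1
      have := h1 0
      rwa [Pi.sub_apply, Real.norm_eq_abs] at this
    · intro h1 i
      obtain rfl : i = 0 := Subsingleton.elim _ _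
      rw [Pi.sub_apply, Real.norm_eq_abs]
      exact h1
  have hxE : xE ∈ Metric.ball c R := by
    rw [hball _ _ hR]
    change |c 0 - R / 2 - c 0| < R
    rw [abs_lt]
    constructor <;> linarith
  have hyE : yE ∈ Metric.ball c R := by
    rw [hball _ _ hR]
    change |c 0 + R / 2 - c 0| < R
    rw [abs_lt]
    constructor <;> linarith
  obtain ⟨g, hgW, hg, hgx⟩ := h W hW (φ.symm '' Metric.ball c R)
    (φ.symm.isOpen_image_of_subset_source Metric.isOpen_ball hsub1)
    ((convex_ball c R).isPreconnected.image _ (φ.symm.continuousOn.mono hsub1))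
    (φ.symm xE) ⟨xE, hxE, rfl⟩ (φ.symm yE) ⟨yE, hyE, rfl⟩
  obtain ⟨F, hF, hFg⟩ := exists_transport (g : M ≃ₜ M) hsub1 hg
  have hFt : ∀ z ∈ Metric.ball c R, F z ∈ φ.target := fun z hz => hsub1 (hF.mem hz)
  have hFx : F xE = yE := by
    have h1 := hFg (φ.symm xE)
    rw [hgx, ext_of_mem (φ.map_target (hsub1 hxE)), φ.right_inv (hsub1 hxE)] at h1
    have h3 := congrArg φ h1
    rw [φ.right_inv (hsub1 hyE), φ.right_inv (hFt _ hxE)] at h3
    exact h3.symm
  -- monotonicity
  let f : ℝ → ℝ := fun t => F (fun _ => t) 0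
  have hfc : Continuous f := (continuous_apply 0).comp (F.continuous.comp (by fun_prop))
  have hfi : Function.Injective f := by
    intro s t hst
    have h1 : F (fun _ => s) = F (fun _ => t) := by
      ext i
      obtain rfl : i = 0 := Subsingleton.elim _ _
      exact hst
    exact congrFun (F.injective h1) 0
  have hfout : ∀ t, c 0 + R ≤ t → f t = t := by
    intro t ht
    have h1 : (fun _ : Fin 1 => t) ∉ Metric.ball c R := by
      rw [hball _ _ hR]
      change ¬ |t - c 0| < R
      rw [not_lt]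
      exact le_trans (by linarith) (le_abs_self _)
    change F (fun _ => t) 0 = t
    rw [hF.fix h1]
  have hfm : StrictMono f := by
    rcases hfc.strictMono_of_inj hfi with h1 | h1
    · exact h1
    · exfalso
      have h2 := h1 (show c 0 + R < c 0 + R + 1 by linarith)
      rw [hfout _ le_rfl, hfout _ (by linarith)] at h2
      linarith
  obtain ⟨p, ⟨_, ⟨z, hz, rfl⟩, hp1⟩, ⟨w, hw, hp2⟩⟩ := hWz g hgW
  have hzR : z ∈ Metric.ball c R := Metric.ball_subset_ball (by linarith) hz
  rw [hFg, ext_of_mem (φ.map_target (hsub1 hzR)), φ.right_inv (hsub1 hzR), ← hp2] at hp1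
  have h1 := congrArg φ hp1
  rw [φ.right_inv (hFt _ hzR), φ.right_inv (hsub2 hw)] at h1
  have hz' := (hball z (R / 2) (by positivity)).1 hz
  have hw' := (hball w (R / 2) (by positivity)).1 hw
  rw [abs_lt] at hz' hw'
  have h2 : f (c 0 - R / 2) < f (z 0) := hfm (by linarith)
  have h3 : f (c 0 - R / 2) = c 0 + R / 2 := by
    change F xE 0 = c 0 + R / 2
    rw [hFx]
  have h4 : f (z 0) = w 0 := by
    have h5 : (fun _ : Fin 1 => z 0) = z := by
      ext i
      obtain rfl : i = 0 := Subsingleton.elim _ _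
      rfl
    change F (fun _ => z 0) 0 = w 0
    rw [h5, h1]
  rw [h3, h4] at h2
  linarith

end Pool.Agent.Run7.h754
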